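import Pool.Agent.H635R2.Statement
import Pool.Agent.H310R3.TopDefs

/-!
# Topological spaces in a model of set theory: definitions

In a structure `M` for the language of set theory, `Mem z a` says that `z` is an element of `a` in
the sense of `M`, and `El a` is the type of the elements of `a`. A topological space in `M` is
given by two elements of `M`: the set `x` of the points and the set `t` of the open sets
(`IsTopology t x`). The field of the real numbers of `M` is given by an element `r` of `M` with
`IsReals r`, and the set of the natural numbers by an element `w` with `IsOmega w`. All functions,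
sequences and families below are required to be elements of the model.

`Mem`, `El` and `IsOrdPair` are from `Pool.Agent.Helper672.SIK.Plain`, `ZF` and `IsReals` from
`Pool.Agent.H635R2.Statement`, `IsOmega`, `IsFinite` and `IsInj` from `Pool.Agent.H310R3.Cards`,
`IsTopology` and `IsClosed` from `Pool.Agent.H310R3.TopDefs`.
-/

namespace Pool.Agent.Q301.TM

open FirstOrder FirstOrder.Language
open Pool.Agent.Helper672.Plain (LSet Mem IsPair IsOrdPair El)
open Pool.Agent.H310Cards (IsOmega IsFinite IsFun App IsInj)
open Pool.Agent.H310Top (IsTopology IsClosed)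

universe u

variable {M : Type u} [LSet.Structure M]

/-- The function `f` from `a` to `b` is in the model: its graph is an element of the model. -/
def IsMap {a b : M} (f : El a → El b) : Prop :=
  ∃ g, ∀ (x : El a) (y : El b), f x = y ↔ ∃ p, IsOrdPair p x.1 y.1 ∧ Mem p g

/-- The function `e` from `a × j` to `b` is in the model. -/
def IsMap₂ {a j b : M} (e : El a → El j → El b) : Prop :=
  ∃ g, ∀ (x : El a) (i : El j) (y : El b),
    e x i = y ↔ ∃ p q, IsOrdPair p x.1 i.1 ∧ IsOrdPair q p y.1 ∧ Mem q g

/-- `a` is countable: in the model there is an injection of `a` into the set of the natural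
numbers. -/
def IsCountable (a : M) : Prop := ∃ w f, IsOmega w ∧ IsInj f a w

/-- `c` is a clopen subset of the space. -/
def IsClopen (t x c : M) : Prop := Mem c t ∧ IsClosed t x c

/-- The space is a `T₁` space: singletons are closed. -/
def IsT1 (t x : M) : Prop := ∀ p : El x, ∃ c, IsClosed t x c ∧ ∀ z, Mem z c ↔ z = p.1

/-- The space is zero-dimensional: the clopen sets are a base. -/
def IsZeroDim (t x : M) : Prop :=
  ∀ u, Mem u t → ∀ p, Mem p u → ∃ v, IsClopen t x v ∧ Mem p v ∧ ∀ z, Mem z v → Mem z u

/-- `s` is the subspace topology on the subset `y` of a space with the topology `t`: the open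
sets of `y` are the sets `v ∩ y` with `v` in `t`. -/
def IsSubspace (s y t : M) : Prop :=
  ∀ u, Mem u s ↔ ∃ v, Mem v t ∧ ∀ z, Mem z u ↔ Mem z v ∧ Mem z y

/-- `c` is a `cδ`-set: the intersection of a sequence of clopen sets. -/
def IsCdelta (t x c : M) : Prop :=
  ∃ (w : M) (C : El w → El t), IsOmega w ∧ IsMap C ∧ (∀ n, IsClopen t x (C n).1) ∧
    ∀ z, Mem z c ↔ Mem z x ∧ ∀ n, Mem z (C n).1

section reals

variable (t x r : M) [Field (El r)] [LinearOrder (El r)]

variable {x r} in
/-- The function `f` from the space `x` to the real numbers `r` is in the model and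
continuous. -/
def IsCont (f : El x → El r) : Prop :=
  IsMap f ∧ ∀ (p : El x) (ε : El r), 0 < ε →
    ∃ u, Mem u t ∧ Mem p.1 u ∧ ∀ q : El x, Mem q.1 u → |f q - f p| < ε

/-- Closed sets and points are separated by continuous functions to `[0, 1]`. -/
def IsCompletelyRegular : Prop :=
  ∀ c, IsClosed t x c → ∀ p : El x, ¬ Mem p.1 c → ∃ f : El x → El r, IsCont t f ∧
    (∀ q, 0 ≤ f q ∧ f q ≤ 1) ∧ f p = 0 ∧ ∀ q, Mem q.1 c → f q = 1

/-- The space is a Tychonoff space: a completely regular `T₁` space. -/
def IsTychonoff : Prop := IsTopology t x ∧ IsT1 t x ∧ IsCompletelyRegular t x r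

/-- `c` is a zero-set. -/
def IsZeroSet (c : M) : Prop :=
  (∀ z, Mem z c → Mem z x) ∧ ∃ f : El x → El r, IsCont t f ∧ ∀ p : El x, Mem p.1 c ↔ f p = 0

/-- The space is realcompact: there are a set `j` and a homeomorphism `e` of the space onto a
closed subspace of the product `r ^ j`. Here `e p` is the point `(e p i)` of the product,
`IsMap₂ e` says that `e` is in the model, the next clause that `e` is injective, the third that
the topology `t` is the one induced by the product topology (a subset `u` is open iff every `p`
in `u` has a basic neighbourhood, given by a finite set `F` of indices and an `ε`, that is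
contained in `u`), and the last that the range of `e` is closed: every point `y` of the product
(that is in the model) in the closure of the range is in the range. -/
def IsRealcompact : Prop :=
  ∃ (j : M) (e : El x → El j → El r), IsMap₂ e ∧ (∀ p q, (∀ i, e p i = e q i) → p = q) ∧
    (∀ u, (∀ z, Mem z u → Mem z x) → (Mem u t ↔ ∀ p : El x, Mem p.1 u →
      ∃ (F : M) (ε : El r), IsFinite F ∧ 0 < ε ∧
        ∀ q : El x, (∀ i : El j, Mem i.1 F → |e q i - e p i| < ε) → Mem q.1 u)) ∧
    ∀ y : El j → El r, IsMap y →
      (∀ (F : M) (ε : El r), IsFinite F → 0 < ε →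
        ∃ p : El x, ∀ i : El j, Mem i.1 F → |e p i - y i| < ε) →
      ∃ p, ∀ i, e p i = y i

end reals

/-- The space is `ℕ`-compact: there are a nonempty set `j` and a homeomorphism `e` of the space
onto a closed subspace of the product `w ^ j`, where `w` is the discrete space of the natural
numbers. The clauses are as in `IsRealcompact`. -/
def IsNCompact (t x : M) : Prop :=
  ∃ (w j : M) (e : El x → El j → El w), IsOmega w ∧ (∃ i, Mem i j) ∧ IsMap₂ e ∧
    (∀ p q, (∀ i, e p i = e q i) → p = q) ∧
    (∀ u, (∀ z, Mem z u → Mem z x) → (Mem u t ↔ ∀ p : El x, Mem p.1 u →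
      ∃ F : M, IsFinite F ∧
        ∀ q : El x, (∀ i : El j, Mem i.1 F → e q i = e p i) → Mem q.1 u)) ∧
    ∀ y : El j → El w, IsMap y →
      (∀ F : M, IsFinite F → ∃ p : El x, ∀ i : El j, Mem i.1 F → e p i = y i) →
      ∃ p, ∀ i, e p i = y i

/-- `c` is the intersection of a nonempty countable set of clopen sets. -/
def IsCdeltaC (t x c : M) : Prop :=
  ∃ b, IsCountable b ∧ (∃ v, Mem v b) ∧ (∀ v, Mem v b → IsClopen t x v) ∧
    ∀ z, Mem z c ↔ ∀ v, Mem v b → Mem z v

/-- The subspace `y` of the space `x` is `z`-embedded: its zero-sets are the traces of the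
zero-sets of `x`. Here `s` is the topology of `y` and `t` the topology of `x`. -/
def IsZEmbedded (s y t x r : M) [Field (El r)] [LinearOrder (El r)] : Prop :=
  ∀ c, IsZeroSet s y r c → ∃ d, IsZeroSet t x r d ∧ ∀ z, Mem z c ↔ Mem z d ∧ Mem z y

/-- The subspace `y` of the space `x` is `2`-embedded: every clopen subset of `y` (that is, every
continuous map from `y` to the discrete space `{0, 1}`) is the trace of a clopen subset of
`x` (that is, extends to a continuous map from `x` to `{0, 1}`). -/
def IsTwoEmbedded (s y t x : M) : Prop :=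
  ∀ c, IsClopen s y c → ∃ d, IsClopen t x d ∧ ∀ z, Mem z c ↔ Mem z d ∧ Mem z y

/-- The subspace `y` of the space `x` is `cδ`-embedded: every `cδ`-set of `y` is the trace of a
`cδ`-set of `x`. -/
def IsCdEmbedded (s y t x : M) : Prop :=
  ∀ c, IsCdelta s y c → ∃ d, IsCdelta t x d ∧ ∀ z, Mem z c ↔ Mem z d ∧ Mem z y

/-- `A` is a sequence (in the model) of sets, and the union of the sets `A n` is `x`. -/
def IsUnionOf {w b : M} (A : El w → El b) (x : M) : Prop :=
  IsOmega w ∧ IsMap A ∧ ∀ z, Mem z x ↔ ∃ n, Mem z (A n).1

/-- The space has countable pseudocharacter: every singleton is the intersection of a countable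
set `b` of open sets. -/
def IsCountablePseudocharacter (t x : M) : Prop :=
  ∀ p : El x, ∃ b, IsCountable b ∧ (∀ v, Mem v b → Mem v t) ∧
    ∀ z, (Mem z x ∧ ∀ v, Mem v b → Mem z v) ↔ z = p.1

/-- `u` is open in the topology with the zero-sets as a base: every point of `u` is in a zero-set
contained in `u`. -/
def IsZOpen (t x r : M) [Field (El r)] [LinearOrder (El r)] (u : M) : Prop :=
  (∀ z, Mem z u → Mem z x) ∧
    ∀ p : El x, Mem p.1 u → ∃ c, IsZeroSet t x r c ∧ Mem p.1 c ∧ ∀ z, Mem z c → Mem z u

/-- `F` is a filter in the family of the sets with `P`: a nonempty set of nonempty sets with `P`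
that is closed under binary intersections and under supersets with `P`. -/
structure IsFilterIn (P : M → Prop) (F : M) : Prop where
  sub : ∀ v, Mem v F → P v
  nonempty : ∃ v, Mem v F
  proper : ∀ v, Mem v F → ∃ z, Mem z v
  inter : ∀ u v c, Mem u F → Mem v F → (∀ z, Mem z c ↔ Mem z u ∧ Mem z v) → Mem c F
  super : ∀ u v, Mem u F → P v → (∀ z, Mem z u → Mem z v) → Mem v F

/-- `F` is a maximal filter in the family of the sets with `P`. -/
def IsUltraIn (P : M → Prop) (F : M) : Prop :=
  IsFilterIn P F ∧
    ∀ G, IsFilterIn P G → (∀ v, Mem v F → Mem v G) → ∀ v, Mem v G → Mem v F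

/-- The countable intersection property: every nonempty countable subset of `F` has a nonempty
intersection. -/
def IsCIP (F : M) : Prop :=
  ∀ b, IsCountable b → (∃ v, Mem v b) → (∀ v, Mem v b → Mem v F) →
    ∃ z, ∀ v, Mem v b → Mem z v

/-- `F` is fixed: there is a point in all its members. -/
def IsFixed (x F : M) : Prop := ∃ p : El x, ∀ v, Mem v F → Mem p.1 v

/-- `S` is a `σ`-algebra of subsets of `x`. -/
structure IsSigmaAlgebra (S x : M) : Prop where
  sub : ∀ c, Mem c S → ∀ z, Mem z c → Mem z x
  univ : Mem x S
  compl : ∀ c d, Mem c S → (∀ z, Mem z d ↔ Mem z x ∧ ¬ Mem z c) → Mem d S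
  union : ∀ (w : M) (C : El w → El S), IsOmega w → IsMap C →
    ∀ c, (∀ z, Mem z c ↔ ∃ n, Mem z (C n).1) → Mem c S

/-- `b` is a Baire set: it is in every `σ`-algebra of subsets of `x` that contains all
zero-sets. -/
def IsBaire (t x r : M) [Field (El r)] [LinearOrder (El r)] (b : M) : Prop :=
  ∀ S, IsSigmaAlgebra S x → (∀ c, IsZeroSet t x r c → Mem c S) → Mem b S

variable (M) in
/-- The axiom of countable multiple choice: for every sequence `A` of nonempty sets there is a
sequence `F` such that `F n` is a nonempty finite subset of `A n` for all `n`. -/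
def CMC : Prop :=
  ∀ (w a : M) (A : El w → El a), IsOmega w → IsMap A → (∀ n, ∃ z, Mem z (A n).1) →
    ∃ (b : M) (F : El w → El b), IsMap F ∧
      ∀ n, IsFinite (F n).1 ∧ (∃ z, Mem z (F n).1) ∧ ∀ z, Mem z (F n).1 → Mem z (A n).1

end Pool.Agent.Q301.TM
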