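import Pool.Agent.H310R3.Met
import Pool.Agent.Q301.TM.Defs

/-!
# Sets, functions, sequences and finite sets of a model as internal objects
-/

set_option maxHeartbeats 1000000
set_option linter.all false
set_option synthInstance.maxSize 2000

namespace Pool.Agent.Q301.TM

open FirstOrder FirstOrder.Language
open Pool.Agent.Helper672.ZFA
open Pool.Agent.Helper672.Plain (LSet)
open Pool.Agent.Helper672.ZFA.H635 (toL plainN_ordPair plainN_graph plainN_opGraph)
open Pool.Agent.H635Amen (IsReals)
open Pool.Agent.H310Cards (IsOmega IsFinite IsFun App IsInj IsNat)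
open Pool.Agent.H310 (FinP finP_iff finP_le finP_lt exists_BN mem_nat nat_iff appN finite_of_finP
  mem_cp extN exists_code instPEl)

universe u u₁

attribute [local instance] toL instPEl

/-- The element of the type. -/
def mkE {N : Type u} [LSet.Structure N] {x : N} (z : N) (h : Helper672.Plain.Mem z x) : Helper672.Plain.El x := ⟨z, h⟩

section

variable {N : Type u} [LSet.Structure N] [hM : IsModel N] {a b c x t j : N}

omit hM in
@[simp] theorem mkE_val {z : N} (h : Helper672.Plain.Mem z x) : (mkE z h).1 = z := rfl

omit hM in
@[simp] theorem mkE_eta (z : Helper672.Plain.El x) : mkE z.1 z.2 = z := rfl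

theorem code_PE (z : Helper672.Plain.El a) : code (M := N) z = z.1 := rfl

theorem isMap_iff {f : Helper672.Plain.El a → Helper672.Plain.El b} : IsMap f ↔ IntF N f := by
  constructor
  · rintro ⟨g, hg⟩
    exact ⟨g, fun q => (((hg q.1 q.2).trans plainN_graph).symm : _)⟩
  · rintro ⟨g, hg⟩
    exact ⟨g, fun p q => ((hg (p, q)).symm.trans plainN_graph.symm : _)⟩

theorem isMap₂_iff {e : Helper672.Plain.El a → Helper672.Plain.El j → Helper672.Plain.El b} :
    IsMap₂ e ↔ IntF N (fun q : Helper672.Plain.El a × Helper672.Plain.El j => e q.1 q.2) := by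
  constructor
  · rintro ⟨g, hg⟩
    exact ⟨g, fun q => (((hg q.1.1 q.1.2 q.2).trans plainN_opGraph).symm : _)⟩
  · rintro ⟨g, hg⟩
    exact ⟨g, fun p i q => ((hg ((p, i), q)).symm.trans plainN_opGraph.symm : _)⟩

theorem memI (a b : N) : Int N (fun q : Helper672.Plain.El a × Helper672.Plain.El b => Helper672.Plain.Mem q.1.1 q.2.1) :=
  Int.of_D₂ (S := fun v => Mem (v 0) (v 1)) (D.memf (DF.var _) (DF.var _)) fun _ _ => Iff.rfl

theorem memI' (a b : N) : Int N (fun q : Helper672.Plain.El a => Helper672.Plain.Mem q.1 b) :=
  Int.of_D (S := fun v => Mem (v 0) b) (D.memf (DF.var _) (DF.const _)) fun _ => Iff.rfl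

theorem memI'' (a b : N) : Int N (fun q : Helper672.Plain.El a => Helper672.Plain.Mem b q.1) :=
  Int.of_D (S := fun v => Mem b (v 0)) (D.memf (DF.const _) (DF.var _)) fun _ => Iff.rfl

theorem eqI (a b : N) : Int N (fun q : Helper672.Plain.El a × Helper672.Plain.El b => q.1.1 = q.2.1) :=
  Int.of_D₂ (S := fun v => v 0 = v 1) (D.eqf (DF.var _) (DF.var _)) fun _ _ => Iff.rfl

theorem eqI' (a : N) (b : N) : Int N (fun q : Helper672.Plain.El a => q.1 = b) :=
  Int.of_D (S := fun v => v 0 = b) (D.eqf (DF.var _) (DF.const _)) fun _ => Iff.rfl

section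

variable {γ : Type u₁} {α : Type u} [ITy N γ] [ITy N α]

theorem memPE {f : γ → Helper672.Plain.El a} {g : γ → Helper672.Plain.El b} (hf : IntF N f) (hg : IntF N g) :
    Int N (fun c => Helper672.Plain.Mem (f c).1 (g c).1) :=
  Int.comp₂ (p := fun (p : Helper672.Plain.El a) (q : Helper672.Plain.El b) => Helper672.Plain.Mem p.1 q.1) (memI a b) hf hg

theorem memPE' {f : γ → Helper672.Plain.El a} (hf : IntF N f) : Int N (fun c => Helper672.Plain.Mem (f c).1 b) :=
  Int.comp (p := fun p : Helper672.Plain.El a => Helper672.Plain.Mem p.1 b) (memI' a b) hf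

theorem memPE'' {f : γ → Helper672.Plain.El a} (hf : IntF N f) : Int N (fun c => Helper672.Plain.Mem b (f c).1) :=
  Int.comp (p := fun p : Helper672.Plain.El a => Helper672.Plain.Mem b p.1) (memI'' a b) hf

theorem memCode {f : γ → α} (hf : IntF N f) : Int N (fun c => Mem (code (f c)) b) :=
  Int.comp (p := fun p : α => Mem (code p) b) ⟨b, fun _ => Iff.rfl⟩ hf

theorem memCodeP {f : γ → α} (hf : IntF N f) : Int N (fun c => Helper672.Plain.Mem (code (f c)) b) :=
  Int.comp (p := fun p : α => Mem (code p) b) ⟨b, fun _ => Iff.rfl⟩ hf

theorem memCode₂ {f : γ → α} {g : γ → Helper672.Plain.El b} (hf : IntF N f) (hg : IntF N g) :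
    Int N (fun c => Helper672.Plain.Mem (code (f c)) (g c).1) :=
  Int.comp₂ (p := fun (p : α) (q : Helper672.Plain.El b) => Helper672.Plain.Mem (code p) q.1)
    (Int.of_D₂ (S := fun v => Mem (v 0) (v 1)) (D.memf (DF.var _) (DF.var _)) fun _ _ => Iff.rfl)
    hf hg

theorem eqPE {f : γ → Helper672.Plain.El a} {g : γ → Helper672.Plain.El b} (hf : IntF N f) (hg : IntF N g) :
    Int N (fun c => (f c).1 = (g c).1) :=
  Int.comp₂ (p := fun (p : Helper672.Plain.El a) (q : Helper672.Plain.El b) => p.1 = q.1) (eqI a b) hf hg

theorem eqPE' {f : γ → Helper672.Plain.El a} (hf : IntF N f) : Int N (fun c => (f c).1 = b) :=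
  Int.comp (p := fun p : Helper672.Plain.El a => p.1 = b) (eqI' a b) hf

end

/-- Sets of elements. -/
theorem exists_set {p : Helper672.Plain.El a → Prop} (hp : Int N p) :
    ∃ s, ∀ z, Helper672.Plain.Mem z s ↔ ∃ h : Helper672.Plain.Mem z a, p (mkE z h) := by
  refine ⟨hp.small.elt, fun z => (show Mem z hp.small.elt ↔ _ from hp.small.mem).trans ⟨?_, ?_⟩⟩
  · rintro ⟨y, hy, rfl⟩
    exact ⟨y.2, hy⟩
  · rintro ⟨h, h1⟩
    exact ⟨⟨z, h⟩, h1, rfl⟩

theorem mem_cpE {S : IPow N (Helper672.Plain.El a)} {z : N} : Helper672.Plain.Mem z (code S) ↔ ∃ h : Helper672.Plain.Mem z a, mkE z h ∈ S := by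
  refine mem_cp.trans ⟨?_, ?_⟩
  · rintro ⟨y, hy, rfl⟩
    exact ⟨y.2, hy⟩
  · rintro ⟨h, h1⟩
    exact ⟨⟨z, h⟩, h1, rfl⟩

theorem mem_cpE' {S : IPow N (Helper672.Plain.El a)} {z : Helper672.Plain.El a} : Helper672.Plain.Mem z.1 (code S) ↔ z ∈ S :=
  mem_cpE.trans ⟨fun ⟨_, h⟩ => h, fun h => ⟨z.2, h⟩⟩

theorem code_inj {S T : IPow N (Helper672.Plain.El a)} : code (M := N) S = code (M := N) T ↔ S = T :=
  ⟨fun h => ITy.inj (M := N) h, fun h => h ▸ rfl⟩

/-- Finite sets. -/
theorem finite_code {S : IPow N (Helper672.Plain.El a)} (hS : IFin S) : IsFinite (code (M := N) S) :=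
  finite_of_finP (p := fun x => x ∈ S) (by (repeat' (first | with_reducible exact IntF.id | with_reducible exact IntF.fst' | with_reducible exact IntF.snd' | with_reducible exact IntF.const _ | with_reducible exact Int.const _ | assumption | with_reducible apply Int.and | with_reducible apply Int.or | with_reducible apply Int.not | with_reducible apply Int.imp | with_reducible apply Int.iff | with_reducible apply Int.ne | with_reducible apply Int.eq | with_reducible apply Int.mem | with_reducible apply Int.subset | with_reducible apply Int.ltN | with_reducible apply Int.leN | with_reducible_and_instances apply Int.le | with_reducible_and_instances apply Int.lt | with_reducible apply Int.all | with_reducible apply Int.ex | with_reducible apply IntF.fst | with_reducible apply IntF.snd | with_reducible apply IntF.app | with_reducible apply IntF.inl | with_reducible apply IntF.inr | with_reducible_and_instances apply IntF.mul | with_reducible_and_instances apply IntF.inv | with_reducible_and_instances apply IntF.add | with_reducible_and_instances apply IntF.sub | with_reducible_and_instances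 apply IntF.neg | with_reducible_and_instances apply IntF.smul | with_reducible apply Int.fin | with_reducible apply IntF.sep | with_reducible apply IntF.lam | with_reducible apply IntF.insert | with_reducible apply IntF.singleton | with_reducible apply IntF.union | with_reducible apply IntF.iimage | with_reducible apply IntF.ite | with_reducible apply IntF.the | with_reducible apply IntF.irec | with_reducible apply IntF.succ | with_reducible apply IntF.val | with_reducible apply IntF.mk | (with_reducible refine Int.comp ?_ ?_; assumption) | (with_reducible refine Int.comp₂ ?_ ?_ ?_; assumption) | (with_reducible refine Int.comp₃ ?_ ?_ ?_ ?_; assumption) | (with_reducible refine Int.comp₄ ?_ ?_ ?_ ?_ ?_; assumption) | (with_reducible refine IntF.comp ?_ ?_; assumption) | (with_reducible refine IntF.comp₂ ?_ ?_ ?_; assumption) | (with_reducible refine IntF.comp₃ ?_ ?_ ?_ ?_; assumption) | with_reducible apply IntF.pair))) (fun z => mem_cp)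
    ((finP_iff (by (repeat' (first | with_reducible exact IntF.id | with_reducible exact IntF.fst' | with_reducible exact IntF.snd' | with_reducible exact IntF.const _ | with_reducible exact Int.const _ | assumption | with_reducible apply Int.and | with_reducible apply Int.or | with_reducible apply Int.not | with_reducible apply Int.imp | with_reducible apply Int.iff | with_reducible apply Int.ne | with_reducible apply Int.eq | with_reducible apply Int.mem | with_reducible apply Int.subset | with_reducible apply Int.ltN | with_reducible apply Int.leN | with_reducible_and_instances apply Int.le | with_reducible_and_instances apply Int.lt | with_reducible apply Int.all | with_reducible apply Int.ex | with_reducible apply IntF.fst | with_reducible apply IntF.snd | with_reducible apply IntF.app | with_reducible apply IntF.inl | with_reducible apply IntF.inr | with_reducible_and_instances apply IntF.mul | with_reducible_and_instances apply IntF.inv | with_reducible_and_instances apply IntF.add | with_reducible_and_instances apply IntF.sub | with_reducible_and_instances apply IntF.neg | with_reducible_and_instances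 apply IntF.smul | with_reducible apply Int.fin | with_reducible apply IntF.sep | with_reducible apply IntF.lam | with_reducible apply IntF.insert | with_reducible apply IntF.singleton | with_reducible apply IntF.union | with_reducible apply IntF.iimage | with_reducible apply IntF.ite | with_reducible apply IntF.the | with_reducible apply IntF.irec | with_reducible apply IntF.succ | with_reducible apply IntF.val | with_reducible apply IntF.mk | (with_reducible refine Int.comp ?_ ?_; assumption) | (with_reducible refine Int.comp₂ ?_ ?_ ?_; assumption) | (with_reducible refine Int.comp₃ ?_ ?_ ?_ ?_; assumption) | (with_reducible refine Int.comp₄ ?_ ?_ ?_ ?_ ?_; assumption) | (with_reducible refine IntF.comp ?_ ?_; assumption) | (with_reducible refine IntF.comp₂ ?_ ?_ ?_; assumption) | (with_reducible refine IntF.comp₃ ?_ ?_ ?_ ?_; assumption) | with_reducible apply IntF.pair)))).2 (hS.subset fun U hU => (mem_sep (by (repeat' (first | with_reducible exact IntF.id | with_reducible exact IntF.fst' | with_reducible exact IntF.snd' | with_reducible exact IntF.const _ | with_reducible exact Int.const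 _ | assumption | with_reducible apply Int.and | with_reducible apply Int.or | with_reducible apply Int.not | with_reducible apply Int.imp | with_reducible apply Int.iff | with_reducible apply Int.ne | with_reducible apply Int.eq | with_reducible apply Int.mem | with_reducible apply Int.subset | with_reducible apply Int.ltN | with_reducible apply Int.leN | with_reducible_and_instances apply Int.le | with_reducible_and_instances apply Int.lt | with_reducible apply Int.all | with_reducible apply Int.ex | with_reducible apply IntF.fst | with_reducible apply IntF.snd | with_reducible apply IntF.app | with_reducible apply IntF.inl | with_reducible apply IntF.inr | with_reducible_and_instances apply IntF.mul | with_reducible_and_instances apply IntF.inv | with_reducible_and_instances apply IntF.add | with_reducible_and_instances apply IntF.sub | with_reducible_and_instances apply IntF.neg | with_reducible_and_instances apply IntF.smul | with_reducible apply Int.fin | with_reducible apply IntF.sep | with_reducible apply IntF.lam | with_reducible apply IntF.insert | with_reducible apply IntF.singleton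 | with_reducible apply IntF.union | with_reducible apply IntF.iimage | with_reducible apply IntF.ite | with_reducible apply IntF.the | with_reducible apply IntF.irec | with_reducible apply IntF.succ | with_reducible apply IntF.val | with_reducible apply IntF.mk | (with_reducible refine Int.comp ?_ ?_; assumption) | (with_reducible refine Int.comp₂ ?_ ?_ ?_; assumption) | (with_reducible refine Int.comp₃ ?_ ?_ ?_ ?_; assumption) | (with_reducible refine Int.comp₄ ?_ ?_ ?_ ?_ ?_; assumption) | (with_reducible refine IntF.comp ?_ ?_; assumption) | (with_reducible refine IntF.comp₂ ?_ ?_ ?_; assumption) | (with_reducible refine IntF.comp₃ ?_ ?_ ?_ ?_; assumption) | with_reducible apply IntF.pair)))).1 hU))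

theorem ind_iffN {i : N} : Ind i ↔ H310Cards.IsInductive i := by
  unfold Ind H310Cards.IsInductive
  constructor
  · rintro ⟨⟨e, h1, h2, h3⟩, h4⟩
    refine ⟨⟨e, h1, h3⟩, fun n hn => ?_⟩
    obtain ⟨s, h5, h6, h7⟩ := h4 n hn
    exact ⟨s, h5, h7⟩
  · rintro ⟨⟨e, h1, h3⟩, h4⟩
    refine ⟨⟨e, h1, trivial, h3⟩, fun n hn => ?_⟩
    obtain ⟨s, h5, h7⟩ := h4 n hn
    exact ⟨s, h5, trivial, h7⟩

theorem ifin_of_finite {F : N} (h : IsFinite F) (j : N) :
    IFin (sep N fun i : Helper672.Plain.El j => Helper672.Plain.Mem i.1 F) := by
  obtain ⟨n, f, hn, ⟨h1, h2⟩, -⟩ := h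
  let n' : INat N := ⟨n, fun i hi => hn i (ind_iffN.1 hi)⟩
  have hp : Int N (fun i : Helper672.Plain.El j => Helper672.Plain.Mem i.1 F) := memI' _ _
  have hr : Int N (fun q : Helper672.Plain.El j × INat N => Mem (op (code q.1) (code q.2)) f) :=
    ⟨f, fun q => Iff.rfl⟩
  have hf : IntF N (fun x : Helper672.Plain.El j => the (fun k : INat N => Mem (op (code x) (code k)) f) 0) :=
    IntF.the hr (IntF.const _)
  have h3 : ∀ x : Helper672.Plain.El j, Helper672.Plain.Mem x.1 F → ∃ k : INat N, k < n' ∧ App f x.1 (code k) ∧
      the (fun k : INat N => Mem (op (code x) (code k)) f) 0 = k := by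
    intro x hx
    obtain ⟨y, hy, hu⟩ := h1.2 x.1 hx
    obtain ⟨q, h4, h5⟩ := hy
    obtain ⟨x', y', h8, h9, h10⟩ := h1.1 q h5
    obtain ⟨-, rfl⟩ := op_inj ((plainN_ordPair.1 h4).symm.trans (plainN_ordPair.1 h10))
    obtain ⟨k, h11, rfl⟩ := mem_nat (n := n') h9
    have h12 : App f x.1 (code k) := ⟨q, h4, h5⟩
    refine ⟨k, h11, h12, the_eq ⟨k, appN.1 h12, fun k' hk' => ?_⟩ (appN.1 h12)⟩
    exact ITy.inj (hu _ (appN.2 hk'))
  refine (finP_iff hp).1 (FinP.of_inj hp hf (fun x y hx hy hxy => ?_) (finP_lt n') fun x hx => ?_)
  · obtain ⟨k, -, h4, h5⟩ := h3 x hx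
    obtain ⟨k', -, h4', h5'⟩ := h3 y hy
    rw [h5, h5'] at hxy
    rw [← hxy] at h4'
    exact Subtype.ext (h2 _ _ _ h4 h4')
  · obtain ⟨k, h4, -, h5⟩ := h3 x hx
    rw [h5]
    exact h4

/-- The set of the natural numbers. -/
theorem exists_omega : ∃ w : N, IsOmega w := by
  refine ⟨dom N (INat N), fun n => ?_⟩
  refine (mem_dom (M := N) (α := INat N) (z := n)).trans ?_
  rw [nat_iff]
  exact Iff.rfl

theorem omega_equiv {w : N} (hw : IsOmega w) : ∃ ν : Helper672.Plain.El w ≃ INat N,
    IntF N (fun n => ν n) ∧ IntF N (fun n => ν.symm n) ∧ ∀ n, (ν n).val = n.1 := by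
  have h1 : ∀ n : Helper672.Plain.El w, ∃ m : INat N, m.val = n.1 := fun n => nat_iff.1 ((hw n.1).1 n.2)
  choose f hf using h1
  have h2 : ∀ m : INat N, Helper672.Plain.Mem m.val w := fun m => (hw m.val).2 (nat_iff.2 ⟨m, rfl⟩)
  have hI : IntF N f := by
    refine IntF.of_D (S := fun v => v 0 = v 1) (D.eqf (DF.var _) (DF.var _)) fun a b => ?_
    change a.1 = b.val ↔ f a = b
    rw [← hf a]
    exact ⟨fun h => INat.ext h, fun h => h ▸ rfl⟩
  let g : INat N → Helper672.Plain.El w := fun m => ⟨m.val, h2 m⟩
  have hI' : IntF N g := by
    refine IntF.of_D (S := fun v => v 0 = v 1) (D.eqf (DF.var _) (DF.var _)) fun a b => ?_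
    change a.val = b.1 ↔ g a = b
    exact ⟨fun h => Subtype.ext h, fun h => h ▸ rfl⟩
  exact ⟨⟨f, g, fun n => Subtype.ext (hf n), fun m => INat.ext (hf _)⟩, hI, hI', hf⟩

/-- Ranges of sequences are countable. -/
theorem countable_range {C : INat N → IPow N (Helper672.Plain.El a)} (hC : IntF N C) {b : N}
    (hb : ∀ z, Helper672.Plain.Mem z b ↔ ∃ n, code (C n) = z) : IsCountable b := by
  obtain ⟨w, hw⟩ := exists_omega (N := N)
  have hI : Int N (fun q : IPow N (Helper672.Plain.El a) × INat N => C q.2 = q.1 ∧ ∀ m, C m = q.1 → q.2 ≤ m) := by
    (repeat' (first | with_reducible exact IntF.id | with_reducible exact IntF.fst' | with_reducible exact IntF.snd' | with_reducible exact IntF.const _ | with_reducible exact Int.const _ | assumption | with_reducible apply Int.and | with_reducible apply Int.or | with_reducible apply Int.not | with_reducible apply Int.imp | with_reducible apply Int.iff | with_reducible apply Int.ne | with_reducible apply Int.eq | with_reducible apply Int.mem | with_reducible apply Int.subset | with_reducible apply Int.ltN | with_reducible apply Int.leN | with_reducible_and_instances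 apply Int.le | with_reducible_and_instances apply Int.lt | with_reducible apply Int.all | with_reducible apply Int.ex | with_reducible apply IntF.fst | with_reducible apply IntF.snd | with_reducible apply IntF.app | with_reducible apply IntF.inl | with_reducible apply IntF.inr | with_reducible_and_instances apply IntF.mul | with_reducible_and_instances apply IntF.inv | with_reducible_and_instances apply IntF.add | with_reducible_and_instances apply IntF.sub | with_reducible_and_instances apply IntF.neg | with_reducible_and_instances apply IntF.smul | with_reducible apply Int.fin | with_reducible apply IntF.sep | with_reducible apply IntF.lam | with_reducible apply IntF.insert | with_reducible apply IntF.singleton | with_reducible apply IntF.union | with_reducible apply IntF.iimage | with_reducible apply IntF.ite | with_reducible apply IntF.the | with_reducible apply IntF.irec | with_reducible apply IntF.succ | with_reducible apply IntF.val | with_reducible apply IntF.mk | (with_reducible refine Int.comp ?_ ?_; assumption) | (with_reducible refine Int.comp₂ ?_ ?_ ?_; assumption) | (with_reducible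 refine Int.comp₃ ?_ ?_ ?_ ?_; assumption) | (with_reducible refine Int.comp₄ ?_ ?_ ?_ ?_ ?_; assumption) | (with_reducible refine IntF.comp ?_ ?_; assumption) | (with_reducible refine IntF.comp₂ ?_ ?_ ?_; assumption) | (with_reducible refine IntF.comp₃ ?_ ?_ ?_ ?_; assumption) | with_reducible apply IntF.pair))
  have hf : ∀ z y, App hI.small.elt z y ↔ ∃ (S : IPow N (Helper672.Plain.El a)) (n : INat N), (C n = S ∧
      ∀ m, C m = S → n ≤ m) ∧ code S = z ∧ code n = y := by
    intro z y
    rw [appN, hI.small.mem]
    constructor
    · rintro ⟨⟨S, n⟩, h5, h7⟩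
      obtain ⟨h8, h9⟩ := op_inj h7
      exact ⟨S, n, h5, h8, h9⟩
    · rintro ⟨S, n, h5, rfl, rfl⟩
      exact ⟨(S, n), h5, rfl⟩
  refine ⟨w, hI.small.elt, hw, ⟨fun q hq => ?_, fun z hz => ?_⟩, fun z z' y h5 h6 => ?_⟩
  · obtain ⟨⟨S, n⟩, ⟨h5, h6⟩, rfl⟩ := hI.small.mem.1 hq
    exact ⟨code S, code n, (hb _).2 ⟨n, by rw [h5]⟩, (hw _).2 (nat_iff.2 ⟨n, rfl⟩),
      plainN_ordPair.2 rfl⟩
  · obtain ⟨n, rfl⟩ := (hb z).1 hz
    obtain ⟨m, hm, hmin⟩ := INat.exists_least (p := fun m => C m = C n) (by (repeat' (first | with_reducible exact IntF.id | with_reducible exact IntF.fst' | with_reducible exact IntF.snd' | with_reducible exact IntF.const _ | with_reducible exact Int.const _ | assumption | with_reducible apply Int.and | with_reducible apply Int.or | with_reducible apply Int.not | with_reducible apply Int.imp | with_reducible apply Int.iff | with_reducible apply Int.ne | with_reducible apply Int.eq | with_reducible apply Int.mem | with_reducible apply Int.subset | with_reducible apply Int.ltN | with_reducible apply Int.leN | with_reducible_and_instances apply Int.le | with_reducible_and_instances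 apply Int.lt | with_reducible apply Int.all | with_reducible apply Int.ex | with_reducible apply IntF.fst | with_reducible apply IntF.snd | with_reducible apply IntF.app | with_reducible apply IntF.inl | with_reducible apply IntF.inr | with_reducible_and_instances apply IntF.mul | with_reducible_and_instances apply IntF.inv | with_reducible_and_instances apply IntF.add | with_reducible_and_instances apply IntF.sub | with_reducible_and_instances apply IntF.neg | with_reducible_and_instances apply IntF.smul | with_reducible apply Int.fin | with_reducible apply IntF.sep | with_reducible apply IntF.lam | with_reducible apply IntF.insert | with_reducible apply IntF.singleton | with_reducible apply IntF.union | with_reducible apply IntF.iimage | with_reducible apply IntF.ite | with_reducible apply IntF.the | with_reducible apply IntF.irec | with_reducible apply IntF.succ | with_reducible apply IntF.val | with_reducible apply IntF.mk | (with_reducible refine Int.comp ?_ ?_; assumption) | (with_reducible refine Int.comp₂ ?_ ?_ ?_; assumption) | (with_reducible refine Int.comp₃ ?_ ?_ ?_ ?_; assumption)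 | (with_reducible refine Int.comp₄ ?_ ?_ ?_ ?_ ?_; assumption) | (with_reducible refine IntF.comp ?_ ?_; assumption) | (with_reducible refine IntF.comp₂ ?_ ?_ ?_; assumption) | (with_reducible refine IntF.comp₃ ?_ ?_ ?_ ?_; assumption) | with_reducible apply IntF.pair))) ⟨n, rfl⟩
    refine ⟨code m, (hf _ _).2 ⟨C n, m, ⟨hm, hmin⟩, rfl, rfl⟩, fun y hy => ?_⟩
    obtain ⟨S, k, ⟨h7, h8⟩, h9, rfl⟩ := (hf _ _).1 hy
    obtain rfl : S = C n := ITy.inj h9
    rw [le_antisymm (hmin k h7) (h8 m hm)]
  · obtain ⟨S, n, ⟨h7, h8⟩, rfl, rfl⟩ := (hf _ _).1 h5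
    obtain ⟨S', n', ⟨h7', h8'⟩, rfl, h9⟩ := (hf _ _).1 h6
    obtain rfl : n' = n := ITy.inj h9
    rw [← h7, ← h7']

end

end Pool.Agent.Q301.TM
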