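import Pool.Agent.Q301.TM.Base

/-!
# General facts on topological spaces in a model
-/

set_option maxHeartbeats 1000000
set_option linter.all false
set_option synthInstance.maxSize 2000

namespace Pool.Agent.Q301.TM

open FirstOrder FirstOrder.Language
open Pool.Agent.Helper672.ZFA
open Pool.Agent.Helper672.Plain (LSet)
open Pool.Agent.Helper672.ZFA.H635 (toL plainN_ordPair plainN_graph plainN_opGraph)
open Pool.Agent.H635Amen (IsReals)
open Pool.Agent.H310Cards (IsOmega IsFinite IsFun App IsInj IsNat)
open Pool.Agent.H310Top (IsTopology IsClosed IsCompact)
open Pool.Agent.H310 (FinP finP_iff finP_le finP_lt exists_BN mem_nat nat_iff appN finite_of_finP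
  mem_cp extN exists_code instPEl)

universe u u₁

attribute [local instance] toL instPEl

section

variable {N : Type u} [LSet.Structure N] [hM : IsModel N] {x t y s : N}

omit hM in
theorem fin_choice [IsModel N] {α β : Type u₁} [ITy N α] [ITy N β] {R : α → β → Prop}
    (hR : Int N (fun q : α × β => R q.1 q.2)) {A : IPow N α} (hA : IFin A)
    (h : ∀ a, a ∈ A → ∃ b, R a b) : ∃ S : IPow N β, IFin S ∧ ∀ a, a ∈ A → ∃ b, b ∈ S ∧ R a b := by
  revert h
  refine IFin.ind (p := fun A => (∀ a, a ∈ A → ∃ b, R a b) →
    ∃ S : IPow N β, IFin S ∧ ∀ a, a ∈ A → ∃ b, b ∈ S ∧ R a b) (by (repeat' (first | with_reducible apply memPE | with_reducible apply memPE' | with_reducible apply memPE'' | with_reducible apply memCode | with_reducible apply memCodeP | with_reducible apply memCode₂ | with_reducible apply eqPE | with_reducible apply eqPE' | with_reducible exact IntF.id | with_reducible exact IntF.fst' | with_reducible exact IntF.snd' | with_reducible exact IntF.const _ | with_reducible exact Int.const _ | assumption | with_reducible apply Int.and | with_reducible apply Int.or | with_reducible apply Int.not | with_reducible apply Int.imp | with_reducible apply Int.iff | with_reducible apply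 Int.ne | with_reducible apply Int.eq | with_reducible apply Int.mem | with_reducible apply Int.subset | with_reducible apply Int.ltN | with_reducible apply Int.leN | with_reducible_and_instances apply Int.le | with_reducible_and_instances apply Int.lt | with_reducible apply Int.all | with_reducible apply Int.ex | with_reducible apply IntF.fst | with_reducible apply IntF.snd | with_reducible apply IntF.app | with_reducible apply IntF.inl | with_reducible apply IntF.inr | with_reducible_and_instances apply IntF.mul | with_reducible_and_instances apply IntF.inv | with_reducible_and_instances apply IntF.add | with_reducible_and_instances apply IntF.sub | with_reducible_and_instances apply IntF.neg | with_reducible_and_instances apply IntF.smul | with_reducible apply Int.fin | with_reducible apply IntF.sep | with_reducible apply IntF.lam | with_reducible apply IntF.insert | with_reducible apply IntF.singleton | with_reducible apply IntF.union | with_reducible apply IntF.iimage | with_reducible apply IntF.ite | with_reducible apply IntF.the | with_reducible apply IntF.irec | with_reducible apply IntF.succ | with_reducible apply IntF.val | with_reducible apply IntF.mk | (with_reducible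 refine Int.comp ?_ ?_; assumption) | (with_reducible refine Int.comp₂ ?_ ?_ ?_; assumption) | (with_reducible refine Int.comp₃ ?_ ?_ ?_ ?_; assumption) | (with_reducible refine Int.comp₄ ?_ ?_ ?_ ?_ ?_; assumption) | (with_reducible refine IntF.comp ?_ ?_; assumption) | (with_reducible refine IntF.comp₂ ?_ ?_ ?_; assumption) | (with_reducible refine IntF.comp₃ ?_ ?_ ?_ ?_; assumption) | with_reducible apply IntF.pair))) ?_ ?_ A hA
  · intro _
    exact ⟨∅, IFin.empty, fun a ha => absurd ha (by simp)⟩
  · intro A a _ _ ih h
    obtain ⟨S, hS, h1⟩ := ih fun b hb => h b (mem_insert.2 (Or.inr hb))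
    obtain ⟨b, hb⟩ := h a (mem_insert.2 (Or.inl rfl))
    refine ⟨insert b S, hS.insert b, fun c hc => ?_⟩
    rcases mem_insert.1 hc with rfl | hc
    · exact ⟨b, mem_insert.2 (Or.inl rfl), hb⟩
    · obtain ⟨d, h2, h3⟩ := h1 c hc
      exact ⟨d, mem_insert.2 (Or.inr h2), h3⟩

theorem open_of_local (ht : IsTopology t x) {u : N} (h : ∀ z, Helper672.Plain.Mem z u →
    ∃ v, Helper672.Plain.Mem v t ∧ Helper672.Plain.Mem z v ∧ ∀ z', Helper672.Plain.Mem z' v → Helper672.Plain.Mem z' u) : Helper672.Plain.Mem u t := by
  have hI : Int N (fun v : Helper672.Plain.El t => ∀ z : Helper672.Plain.El x, Helper672.Plain.Mem z.1 v.1 → Helper672.Plain.Mem z.1 u) := by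
    have h1 := memI x t
    have h2 := memI' x u
    (repeat' (first | with_reducible apply memPE | with_reducible apply memPE' | with_reducible apply memPE'' | with_reducible apply memCode | with_reducible apply memCodeP | with_reducible apply memCode₂ | with_reducible apply eqPE | with_reducible apply eqPE' | with_reducible exact IntF.id | with_reducible exact IntF.fst' | with_reducible exact IntF.snd' | with_reducible exact IntF.const _ | with_reducible exact Int.const _ | assumption | with_reducible apply Int.and | with_reducible apply Int.or | with_reducible apply Int.not | with_reducible apply Int.imp | with_reducible apply Int.iff | with_reducible apply Int.ne | with_reducible apply Int.eq | with_reducible apply Int.mem | with_reducible apply Int.subset | with_reducible apply Int.ltN | with_reducible apply Int.leN | with_reducible_and_instances apply Int.le | with_reducible_and_instances apply Int.lt | with_reducible apply Int.all | with_reducible apply Int.ex | with_reducible apply IntF.fst | with_reducible apply IntF.snd | with_reducible apply IntF.app | with_reducible apply IntF.inl | with_reducible apply IntF.inr | with_reducible_and_instances apply IntF.mul | with_reducible_and_instances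 apply IntF.inv | with_reducible_and_instances apply IntF.add | with_reducible_and_instances apply IntF.sub | with_reducible_and_instances apply IntF.neg | with_reducible_and_instances apply IntF.smul | with_reducible apply Int.fin | with_reducible apply IntF.sep | with_reducible apply IntF.lam | with_reducible apply IntF.insert | with_reducible apply IntF.singleton | with_reducible apply IntF.union | with_reducible apply IntF.iimage | with_reducible apply IntF.ite | with_reducible apply IntF.the | with_reducible apply IntF.irec | with_reducible apply IntF.succ | with_reducible apply IntF.val | with_reducible apply IntF.mk | (with_reducible refine Int.comp ?_ ?_; assumption) | (with_reducible refine Int.comp₂ ?_ ?_ ?_; assumption) | (with_reducible refine Int.comp₃ ?_ ?_ ?_ ?_; assumption) | (with_reducible refine Int.comp₄ ?_ ?_ ?_ ?_ ?_; assumption) | (with_reducible refine IntF.comp ?_ ?_; assumption) | (with_reducible refine IntF.comp₂ ?_ ?_ ?_; assumption) | (with_reducible refine IntF.comp₃ ?_ ?_ ?_ ?_; assumption) | with_reducible apply IntF.pair))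
  obtain ⟨c, hc⟩ := exists_set hI
  refine ht.union c u (fun v hv => ((hc v).1 hv).1) fun z => ⟨fun hz => ?_, ?_⟩
  · obtain ⟨v, h1, h2, h3⟩ := h z hz
    exact ⟨v, (hc v).2 ⟨h1, fun z' hz' => h3 _ hz'⟩, h2⟩
  · rintro ⟨v, hv, hz⟩
    obtain ⟨h1, h2⟩ := (hc v).1 hv
    exact h2 (mkE z (ht.sub v h1 z hz)) hz

theorem IsSubspace.sub (h : IsSubspace s y t) {u z : N} (hu : Helper672.Plain.Mem u s) (hz : Helper672.Plain.Mem z u) : Helper672.Plain.Mem z y := by
  obtain ⟨v, -, h1⟩ := (h u).1 hu
  exact ((h1 z).1 hz).2

/-- The trace of a set. -/
theorem exists_trace (v y : N) : ∃ u, ∀ z, Helper672.Plain.Mem z u ↔ Helper672.Plain.Mem z v ∧ Helper672.Plain.Mem z y := by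
  obtain ⟨u, hu⟩ := exists_set (a := v) (p := fun z => Helper672.Plain.Mem z.1 y) (memI' _ _)
  exact ⟨u, fun z => (hu z).trans ⟨fun ⟨h1, h2⟩ => ⟨h1, h2⟩, fun ⟨h1, h2⟩ => ⟨h1, h2⟩⟩⟩

/-- The difference of sets. -/
theorem exists_diff (v y : N) : ∃ u, ∀ z, Helper672.Plain.Mem z u ↔ Helper672.Plain.Mem z v ∧ ¬ Helper672.Plain.Mem z y := by
  obtain ⟨u, hu⟩ := exists_set (a := v) (p := fun z => ¬ Helper672.Plain.Mem z.1 y) (Helper672.ZFA.Int.not (memI' _ _))
  exact ⟨u, fun z => (hu z).trans ⟨fun ⟨h1, h2⟩ => ⟨h1, h2⟩, fun ⟨h1, h2⟩ => ⟨h1, h2⟩⟩⟩

theorem IsSubspace.trace (h : IsSubspace s y t) {u v : N} (hv : Helper672.Plain.Mem v t)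
    (hu : ∀ z, Helper672.Plain.Mem z u ↔ Helper672.Plain.Mem z v ∧ Helper672.Plain.Mem z y) : Helper672.Plain.Mem u s := (h u).2 ⟨v, hv, hu⟩

theorem exists_subspace (y t : N) : ∃ s, IsSubspace s y t := by
  have hI : Int N (fun U : IPow N (Helper672.Plain.El y) => ∃ v : Helper672.Plain.El t, ∀ z : Helper672.Plain.El y, (z ∈ U ↔ Helper672.Plain.Mem z.1 v.1)) := by
    have h1 := memI y t
    (repeat' (first | with_reducible apply memPE | with_reducible apply memPE' | with_reducible apply memPE'' | with_reducible apply memCode | with_reducible apply memCodeP | with_reducible apply memCode₂ | with_reducible apply eqPE | with_reducible apply eqPE' | with_reducible exact IntF.id | with_reducible exact IntF.fst' | with_reducible exact IntF.snd' | with_reducible exact IntF.const _ | with_reducible exact Int.const _ | assumption | with_reducible apply Int.and | with_reducible apply Int.or | with_reducible apply Int.not | with_reducible apply Int.imp | with_reducible apply Int.iff | with_reducible apply Int.ne | with_reducible apply Int.eq | with_reducible apply Int.mem | with_reducible apply Int.subset | with_reducible apply Int.ltN | with_reducible apply Int.leN | with_reducible_and_instances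 apply Int.le | with_reducible_and_instances apply Int.lt | with_reducible apply Int.all | with_reducible apply Int.ex | with_reducible apply IntF.fst | with_reducible apply IntF.snd | with_reducible apply IntF.app | with_reducible apply IntF.inl | with_reducible apply IntF.inr | with_reducible_and_instances apply IntF.mul | with_reducible_and_instances apply IntF.inv | with_reducible_and_instances apply IntF.add | with_reducible_and_instances apply IntF.sub | with_reducible_and_instances apply IntF.neg | with_reducible_and_instances apply IntF.smul | with_reducible apply Int.fin | with_reducible apply IntF.sep | with_reducible apply IntF.lam | with_reducible apply IntF.insert | with_reducible apply IntF.singleton | with_reducible apply IntF.union | with_reducible apply IntF.iimage | with_reducible apply IntF.ite | with_reducible apply IntF.the | with_reducible apply IntF.irec | with_reducible apply IntF.succ | with_reducible apply IntF.val | with_reducible apply IntF.mk | (with_reducible refine Int.comp ?_ ?_; assumption) | (with_reducible refine Int.comp₂ ?_ ?_ ?_; assumption) | (with_reducible refine Int.comp₃ ?_ ?_ ?_ ?_; assumption) | (with_reducible refine Int.comp₄ ?_ ?_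 ?_ ?_ ?_; assumption) | (with_reducible refine IntF.comp ?_ ?_; assumption) | (with_reducible refine IntF.comp₂ ?_ ?_ ?_; assumption) | (with_reducible refine IntF.comp₃ ?_ ?_ ?_ ?_; assumption) | with_reducible apply IntF.pair))
  refine ⟨code (sep N fun U : IPow N (Helper672.Plain.El y) => ∃ v : Helper672.Plain.El t, ∀ z : Helper672.Plain.El y, (z ∈ U ↔ Helper672.Plain.Mem z.1 v.1)),
    fun u => ?_⟩
  rw [show Helper672.Plain.Mem u (code (sep N fun U : IPow N (Helper672.Plain.El y) =>
    ∃ v : Helper672.Plain.El t, ∀ z : Helper672.Plain.El y, (z ∈ U ↔ Helper672.Plain.Mem z.1 v.1))) ↔ _ from mem_cp]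
  constructor
  · rintro ⟨U, hU, rfl⟩
    obtain ⟨v, hv⟩ := (mem_sep hI).1 hU
    refine ⟨v.1, v.2, fun z => mem_cpE.trans ⟨?_, ?_⟩⟩
    · rintro ⟨h1, h2⟩
      exact ⟨(hv _).1 h2, h1⟩
    · rintro ⟨h1, h2⟩
      exact ⟨h2, (hv (mkE z h2)).2 h1⟩
  · rintro ⟨v, hv, h1⟩
    obtain ⟨U, rfl, hU⟩ := exists_code (a := y) (u := u) fun z hz => ((h1 z).1 hz).2
    exact ⟨U, (mem_sep hI).2 ⟨⟨v, hv⟩, fun z => (hU z).trans ((h1 z.1).trans
      ⟨fun h => h.1, fun h => ⟨h, z.2⟩⟩)⟩, rfl⟩

theorem isTopology_sub (ht : IsTopology t x) (hy : ∀ z, Helper672.Plain.Mem z y → Helper672.Plain.Mem z x) (h : IsSubspace s y t) :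
    IsTopology s y := by
  refine ⟨fun u hu z hz => h.sub hu hz, (h y).2 ⟨x, ht.univ, fun z => ⟨fun hz => ⟨hy z hz, hz⟩,
    fun hz => hz.2⟩⟩, fun u v w hu hv hw => ?_, fun c w hc hw => ?_⟩
  · obtain ⟨u', hu', h1⟩ := (h u).1 hu
    obtain ⟨v', hv', h2⟩ := (h v).1 hv
    obtain ⟨w', hw'⟩ := exists_trace u' v'
    refine (h w).2 ⟨w', ht.inter u' v' w' hu' hv' hw', fun z => ?_⟩
    rw [hw z, h1 z, h2 z]
    exact ⟨fun h => ⟨(hw' z).2 ⟨h.1.1, h.2.1⟩, h.1.2⟩, fun h =>
      ⟨⟨((hw' z).1 h.1).1, h.2⟩, ((hw' z).1 h.1).2, h.2⟩⟩
  · have hI : Int N (fun v : Helper672.Plain.El t => ∀ z : Helper672.Plain.El y, Helper672.Plain.Mem z.1 v.1 → Helper672.Plain.Mem z.1 w) := by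
      have h1 := memI y t
      have h2 := memI' y w
      (repeat' (first | with_reducible apply memPE | with_reducible apply memPE' | with_reducible apply memPE'' | with_reducible apply memCode | with_reducible apply memCodeP | with_reducible apply memCode₂ | with_reducible apply eqPE | with_reducible apply eqPE' | with_reducible exact IntF.id | with_reducible exact IntF.fst' | with_reducible exact IntF.snd' | with_reducible exact IntF.const _ | with_reducible exact Int.const _ | assumption | with_reducible apply Int.and | with_reducible apply Int.or | with_reducible apply Int.not | with_reducible apply Int.imp | with_reducible apply Int.iff | with_reducible apply Int.ne | with_reducible apply Int.eq | with_reducible apply Int.mem | with_reducible apply Int.subset | with_reducible apply Int.ltN | with_reducible apply Int.leN | with_reducible_and_instances apply Int.le | with_reducible_and_instances apply Int.lt | with_reducible apply Int.all | with_reducible apply Int.ex | with_reducible apply IntF.fst | with_reducible apply IntF.snd | with_reducible apply IntF.app | with_reducible apply IntF.inl | with_reducible apply IntF.inr | with_reducible_and_instances apply IntF.mul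 | with_reducible_and_instances apply IntF.inv | with_reducible_and_instances apply IntF.add | with_reducible_and_instances apply IntF.sub | with_reducible_and_instances apply IntF.neg | with_reducible_and_instances apply IntF.smul | with_reducible apply Int.fin | with_reducible apply IntF.sep | with_reducible apply IntF.lam | with_reducible apply IntF.insert | with_reducible apply IntF.singleton | with_reducible apply IntF.union | with_reducible apply IntF.iimage | with_reducible apply IntF.ite | with_reducible apply IntF.the | with_reducible apply IntF.irec | with_reducible apply IntF.succ | with_reducible apply IntF.val | with_reducible apply IntF.mk | (with_reducible refine Int.comp ?_ ?_; assumption) | (with_reducible refine Int.comp₂ ?_ ?_ ?_; assumption) | (with_reducible refine Int.comp₃ ?_ ?_ ?_ ?_; assumption) | (with_reducible refine Int.comp₄ ?_ ?_ ?_ ?_ ?_; assumption) | (with_reducible refine IntF.comp ?_ ?_; assumption) | (with_reducible refine IntF.comp₂ ?_ ?_ ?_; assumption) | (with_reducible refine IntF.comp₃ ?_ ?_ ?_ ?_; assumption) | with_reducible apply IntF.pair))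
    obtain ⟨c', hc'⟩ := exists_set hI
    have hI' : Int N (fun z : Helper672.Plain.El x => ∃ v : Helper672.Plain.El c', Helper672.Plain.Mem z.1 v.1) := by
      have h1 := memI x c'
      (repeat' (first | with_reducible apply memPE | with_reducible apply memPE' | with_reducible apply memPE'' | with_reducible apply memCode | with_reducible apply memCodeP | with_reducible apply memCode₂ | with_reducible apply eqPE | with_reducible apply eqPE' | with_reducible exact IntF.id | with_reducible exact IntF.fst' | with_reducible exact IntF.snd' | with_reducible exact IntF.const _ | with_reducible exact Int.const _ | assumption | with_reducible apply Int.and | with_reducible apply Int.or | with_reducible apply Int.not | with_reducible apply Int.imp | with_reducible apply Int.iff | with_reducible apply Int.ne | with_reducible apply Int.eq | with_reducible apply Int.mem | with_reducible apply Int.subset | with_reducible apply Int.ltN | with_reducible apply Int.leN | with_reducible_and_instances apply Int.le | with_reducible_and_instances apply Int.lt | with_reducible apply Int.all | with_reducible apply Int.ex | with_reducible apply IntF.fst | with_reducible apply IntF.snd | with_reducible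 apply IntF.app | with_reducible apply IntF.inl | with_reducible apply IntF.inr | with_reducible_and_instances apply IntF.mul | with_reducible_and_instances apply IntF.inv | with_reducible_and_instances apply IntF.add | with_reducible_and_instances apply IntF.sub | with_reducible_and_instances apply IntF.neg | with_reducible_and_instances apply IntF.smul | with_reducible apply Int.fin | with_reducible apply IntF.sep | with_reducible apply IntF.lam | with_reducible apply IntF.insert | with_reducible apply IntF.singleton | with_reducible apply IntF.union | with_reducible apply IntF.iimage | with_reducible apply IntF.ite | with_reducible apply IntF.the | with_reducible apply IntF.irec | with_reducible apply IntF.succ | with_reducible apply IntF.val | with_reducible apply IntF.mk | (with_reducible refine Int.comp ?_ ?_; assumption) | (with_reducible refine Int.comp₂ ?_ ?_ ?_; assumption) | (with_reducible refine Int.comp₃ ?_ ?_ ?_ ?_; assumption) | (with_reducible refine Int.comp₄ ?_ ?_ ?_ ?_ ?_; assumption) | (with_reducible refine IntF.comp ?_ ?_; assumption) | (with_reducible refine IntF.comp₂ ?_ ?_ ?_; assumption) | (with_reducible refine IntF.comp₃ ?_ ?_ ?_ ?_; assumption) |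 with_reducible apply IntF.pair))
    obtain ⟨v, hv⟩ := exists_set hI'
    refine (h w).2 ⟨v, ht.union c' v (fun u hu => ((hc' u).1 hu).1) fun z => ?_, fun z => ?_⟩
    · rw [hv z]
      constructor
      · rintro ⟨_, u, hu⟩
        exact ⟨u.1, u.2, hu⟩
      · rintro ⟨u, hu, hz⟩
        exact ⟨ht.sub u ((hc' u).1 hu).1 z hz, ⟨u, hu⟩, hz⟩
    · constructor
      · intro hz
        obtain ⟨u, hu, hzu⟩ := (hw z).1 hz
        obtain ⟨v', hv', h1⟩ := (h u).1 (hc u hu)
        have hzy := (h1 z).1 hzu
        refine ⟨(hv z).2 ⟨hy z hzy.2, ⟨v', (hc' v').2 ⟨hv', fun z' hz' => ?_⟩⟩, hzy.1⟩, hzy.2⟩
        exact (hw z'.1).2 ⟨u, hu, (h1 z'.1).2 ⟨hz', z'.2⟩⟩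
      · rintro ⟨hz, hzy⟩
        obtain ⟨_, u, hu⟩ := (hv z).1 hz
        exact ((hc' u.1).1 u.2).2 (mkE z hzy) hu

theorem isSubspace_sub {s' y' : N} (h : IsSubspace s y t) (h' : IsSubspace s' y' t)
    (hy : ∀ z, Helper672.Plain.Mem z y' → Helper672.Plain.Mem z y) : IsSubspace s' y' s := by
  intro u
  rw [h' u]
  constructor
  · rintro ⟨v, hv, h1⟩
    obtain ⟨v', hv'⟩ := exists_trace v y
    exact ⟨v', h.trace hv hv', fun z => (h1 z).trans ⟨fun h2 => ⟨(hv' z).2 ⟨h2.1, hy z h2.2⟩, h2.2⟩,
      fun h2 => ⟨((hv' z).1 h2.1).1, h2.2⟩⟩⟩
  · rintro ⟨v, hv, h1⟩
    obtain ⟨v', hv', h2⟩ := (h v).1 hv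
    exact ⟨v', hv', fun z => (h1 z).trans ⟨fun h3 => ⟨((h2 z).1 h3.1).1, h3.2⟩,
      fun h3 => ⟨(h2 z).2 ⟨h3.1, hy z h3.2⟩, h3.2⟩⟩⟩

theorem isClosed_trace (h : IsSubspace s y t) (hy : ∀ z, Helper672.Plain.Mem z y → Helper672.Plain.Mem z x) {c c' : N}
    (hc : IsClosed t x c) (hc' : ∀ z, Helper672.Plain.Mem z c' ↔ Helper672.Plain.Mem z c ∧ Helper672.Plain.Mem z y) : IsClosed s y c' := by
  obtain ⟨-, v, hv, h1⟩ := hc
  obtain ⟨u, hu⟩ := exists_trace v y
  refine ⟨fun z hz => ((hc' z).1 hz).2, u, h.trace hv hu, fun z => ?_⟩
  constructor
  · intro hz
    have h2 := (hu z).1 hz
    have h3 := (h1 z).1 h2.1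
    exact ⟨h2.2, fun h4 => h3.2 ((hc' z).1 h4).1⟩
  · rintro ⟨h2, h3⟩
    exact (hu z).2 ⟨(h1 z).2 ⟨hy z h2, fun h4 => h3 ((hc' z).2 ⟨h4, h2⟩)⟩, h2⟩

theorem isClopen_trace (h : IsSubspace s y t) (hy : ∀ z, Helper672.Plain.Mem z y → Helper672.Plain.Mem z x) {c c' : N}
    (hc : IsClopen t x c) (hc' : ∀ z, Helper672.Plain.Mem z c' ↔ Helper672.Plain.Mem z c ∧ Helper672.Plain.Mem z y) : IsClopen s y c' :=
  ⟨h.trace hc.1 hc', isClosed_trace h hy hc.2 hc'⟩

theorem isT1_sub (h : IsSubspace s y t) (hy : ∀ z, Helper672.Plain.Mem z y → Helper672.Plain.Mem z x) (h1 : IsT1 t x) :
    IsT1 s y := by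
  intro p
  obtain ⟨c, hc, hc'⟩ := h1 (mkE p.1 (hy _ p.2))
  refine ⟨c, isClosed_trace h hy hc fun z => ⟨fun hz => ⟨hz, ?_⟩, fun hz => hz.1⟩, hc'⟩
  have h2 : z = p.1 := (hc' z).1 hz
  rw [h2]
  exact p.2

theorem isZeroDim_sub (h : IsSubspace s y t) (hy : ∀ z, Helper672.Plain.Mem z y → Helper672.Plain.Mem z x) (h1 : IsZeroDim t x) :
    IsZeroDim s y := by
  intro u hu p hp
  obtain ⟨v, hv, h2⟩ := (h u).1 hu
  have h3 := (h2 p).1 hp
  obtain ⟨c, hc, h4, h5⟩ := h1 v hv p h3.1
  obtain ⟨c', hc'⟩ := exists_trace c y
  exact ⟨c', isClopen_trace h hy hc hc', (hc' p).2 ⟨h4, h3.2⟩, fun z hz =>
    (h2 z).2 ⟨h5 z ((hc' z).1 hz).1, ((hc' z).1 hz).2⟩⟩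

theorem isCompact_sub {y' : N} (h : IsSubspace s y t) (hy : ∀ z, Helper672.Plain.Mem z y' → Helper672.Plain.Mem z y)
    (hc : IsCompact t y') : IsCompact s y' := by
  intro c hcs hcov
  have hI : Int N (fun v : Helper672.Plain.El t => ∃ u : Helper672.Plain.El c, ∀ z : Helper672.Plain.El y, (Helper672.Plain.Mem z.1 u.1 ↔ Helper672.Plain.Mem z.1 v.1)) := by
    have h1 := memI y t
    have h2 := memI y c
    (repeat' (first | with_reducible apply memPE | with_reducible apply memPE' | with_reducible apply memPE'' | with_reducible apply memCode | with_reducible apply memCodeP | with_reducible apply memCode₂ | with_reducible apply eqPE | with_reducible apply eqPE' | with_reducible exact IntF.id | with_reducible exact IntF.fst' | with_reducible exact IntF.snd' | with_reducible exact IntF.const _ | with_reducible exact Int.const _ | assumption | with_reducible apply Int.and | with_reducible apply Int.or | with_reducible apply Int.not | with_reducible apply Int.imp | with_reducible apply Int.iff | with_reducible apply Int.ne | with_reducible apply Int.eq | with_reducible apply Int.mem | with_reducible apply Int.subset | with_reducible apply Int.ltN | with_reducible apply Int.leN |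 with_reducible_and_instances apply Int.le | with_reducible_and_instances apply Int.lt | with_reducible apply Int.all | with_reducible apply Int.ex | with_reducible apply IntF.fst | with_reducible apply IntF.snd | with_reducible apply IntF.app | with_reducible apply IntF.inl | with_reducible apply IntF.inr | with_reducible_and_instances apply IntF.mul | with_reducible_and_instances apply IntF.inv | with_reducible_and_instances apply IntF.add | with_reducible_and_instances apply IntF.sub | with_reducible_and_instances apply IntF.neg | with_reducible_and_instances apply IntF.smul | with_reducible apply Int.fin | with_reducible apply IntF.sep | with_reducible apply IntF.lam | with_reducible apply IntF.insert | with_reducible apply IntF.singleton | with_reducible apply IntF.union | with_reducible apply IntF.iimage | with_reducible apply IntF.ite | with_reducible apply IntF.the | with_reducible apply IntF.irec | with_reducible apply IntF.succ | with_reducible apply IntF.val | with_reducible apply IntF.mk | (with_reducible refine Int.comp ?_ ?_; assumption) | (with_reducible refine Int.comp₂ ?_ ?_ ?_; assumption) | (with_reducible refine Int.comp₃ ?_ ?_ ?_ ?_; assumption) | (with_reducible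 refine Int.comp₄ ?_ ?_ ?_ ?_ ?_; assumption) | (with_reducible refine IntF.comp ?_ ?_; assumption) | (with_reducible refine IntF.comp₂ ?_ ?_ ?_; assumption) | (with_reducible refine IntF.comp₃ ?_ ?_ ?_ ?_; assumption) | with_reducible apply IntF.pair))
  obtain ⟨C, hC⟩ := exists_set hI
  obtain ⟨C', hfin, hC', hcov'⟩ := hc C (fun u hu => ((hC u).1 hu).1) (by
    intro z hz
    obtain ⟨u, hu, hzu⟩ := hcov z hz
    obtain ⟨v, hv, h1⟩ := (h u).1 (hcs u hu)
    exact ⟨v, (hC v).2 ⟨hv, ⟨u, hu⟩, fun z => (h1 z.1).trans ⟨fun h => h.1, fun h => ⟨h, z.2⟩⟩⟩,
      ((h1 z).1 hzu).1⟩)
  have hR : Int N (fun q : Helper672.Plain.El C' × Helper672.Plain.El c => ∀ z : Helper672.Plain.El y, (Helper672.Plain.Mem z.1 q.2.1 ↔ Helper672.Plain.Mem z.1 q.1.1)) := by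
    have h1 := memI y C'
    have h2 := memI y c
    (repeat' (first | with_reducible apply memPE | with_reducible apply memPE' | with_reducible apply memPE'' | with_reducible apply memCode | with_reducible apply memCodeP | with_reducible apply memCode₂ | with_reducible apply eqPE | with_reducible apply eqPE' | with_reducible exact IntF.id | with_reducible exact IntF.fst' | with_reducible exact IntF.snd' | with_reducible exact IntF.const _ | with_reducible exact Int.const _ | assumption | with_reducible apply Int.and | with_reducible apply Int.or | with_reducible apply Int.not | with_reducible apply Int.imp | with_reducible apply Int.iff | with_reducible apply Int.ne | with_reducible apply Int.eq | with_reducible apply Int.mem | with_reducible apply Int.subset | with_reducible apply Int.ltN | with_reducible apply Int.leN | with_reducible_and_instances apply Int.le | with_reducible_and_instances apply Int.lt | with_reducible apply Int.all | with_reducible apply Int.ex | with_reducible apply IntF.fst | with_reducible apply IntF.snd | with_reducible apply IntF.app | with_reducible apply IntF.inl | with_reducible apply IntF.inr | with_reducible_and_instances apply IntF.mul | with_reducible_and_instances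 apply IntF.inv | with_reducible_and_instances apply IntF.add | with_reducible_and_instances apply IntF.sub | with_reducible_and_instances apply IntF.neg | with_reducible_and_instances apply IntF.smul | with_reducible apply Int.fin | with_reducible apply IntF.sep | with_reducible apply IntF.lam | with_reducible apply IntF.insert | with_reducible apply IntF.singleton | with_reducible apply IntF.union | with_reducible apply IntF.iimage | with_reducible apply IntF.ite | with_reducible apply IntF.the | with_reducible apply IntF.irec | with_reducible apply IntF.succ | with_reducible apply IntF.val | with_reducible apply IntF.mk | (with_reducible refine Int.comp ?_ ?_; assumption) | (with_reducible refine Int.comp₂ ?_ ?_ ?_; assumption) | (with_reducible refine Int.comp₃ ?_ ?_ ?_ ?_; assumption) | (with_reducible refine Int.comp₄ ?_ ?_ ?_ ?_ ?_; assumption) | (with_reducible refine IntF.comp ?_ ?_; assumption) | (with_reducible refine IntF.comp₂ ?_ ?_ ?_; assumption) | (with_reducible refine IntF.comp₃ ?_ ?_ ?_ ?_; assumption) | with_reducible apply IntF.pair))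
  obtain ⟨S, hS, hS'⟩ := fin_choice (R := fun (v : Helper672.Plain.El C') (u : Helper672.Plain.El c) =>
    ∀ z : Helper672.Plain.El y, (Helper672.Plain.Mem z.1 u.1 ↔ Helper672.Plain.Mem z.1 v.1)) hR (ifin_of_finite hfin C') fun v _ => by
      obtain ⟨h1, u, hu⟩ := (hC v.1).1 (hC' v.1 v.2)
      exact ⟨u, hu⟩
  refine ⟨code S, finite_code hS, fun u hu => (mem_cpE.1 hu).1, fun z hz => ?_⟩
  obtain ⟨v, hv, hzv⟩ := hcov' z hz
  obtain ⟨u, hu, h1⟩ := hS' ⟨v, hv⟩ ((mem_sep (memI' _ _)).2 hv)
  exact ⟨u.1, mem_cpE'.2 hu, (h1 (mkE z (hy z hz))).2 hzv⟩

section cr

variable {r : N} [Field (Helper672.Plain.El r)] [LinearOrder (Helper672.Plain.El r)] [IsStrictOrderedRing (Helper672.Plain.El r)]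

open Classical in
theorem isCR (ht : IsTopology t x) (hz : IsZeroDim t x) : IsCompletelyRegular t x r := by
  rintro c ⟨-, u, hu, h1⟩ p hp
  obtain ⟨v, ⟨hv, -, v', hv', h2⟩, hpv, h3⟩ := hz u hu p.1 ((h1 _).2 ⟨p.2, hp⟩)
  have hI : Int N (fun q : Helper672.Plain.El x => Helper672.Plain.Mem q.1 v) := memI' _ _
  refine ⟨fun q => if Helper672.Plain.Mem q.1 v then 0 else 1, ⟨isMap_iff.2 (by (repeat' (first | with_reducible apply memPE | with_reducible apply memPE' | with_reducible apply memPE'' | with_reducible apply memCode | with_reducible apply memCodeP | with_reducible apply memCode₂ | with_reducible apply eqPE | with_reducible apply eqPE' | with_reducible exact IntF.id | with_reducible exact IntF.fst' | with_reducible exact IntF.snd' | with_reducible exact IntF.const _ | with_reducible exact Int.const _ | assumption | with_reducible apply Int.and | with_reducible apply Int.or | with_reducible apply Int.not | with_reducible apply Int.imp | with_reducible apply Int.iff | with_reducible apply Int.ne | with_reducible apply Int.eq | with_reducible apply Int.mem | with_reducible apply Int.subset | with_reducible apply Int.ltN | with_reducible apply Int.leN | with_reducible_and_instances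 apply Int.le | with_reducible_and_instances apply Int.lt | with_reducible apply Int.all | with_reducible apply Int.ex | with_reducible apply IntF.fst | with_reducible apply IntF.snd | with_reducible apply IntF.app | with_reducible apply IntF.inl | with_reducible apply IntF.inr | with_reducible_and_instances apply IntF.mul | with_reducible_and_instances apply IntF.inv | with_reducible_and_instances apply IntF.add | with_reducible_and_instances apply IntF.sub | with_reducible_and_instances apply IntF.neg | with_reducible_and_instances apply IntF.smul | with_reducible apply Int.fin | with_reducible apply IntF.sep | with_reducible apply IntF.lam | with_reducible apply IntF.insert | with_reducible apply IntF.singleton | with_reducible apply IntF.union | with_reducible apply IntF.iimage | with_reducible apply IntF.ite | with_reducible apply IntF.the | with_reducible apply IntF.irec | with_reducible apply IntF.succ | with_reducible apply IntF.val | with_reducible apply IntF.mk | (with_reducible refine Int.comp ?_ ?_; assumption) | (with_reducible refine Int.comp₂ ?_ ?_ ?_; assumption) | (with_reducible refine Int.comp₃ ?_ ?_ ?_ ?_; assumption) | (with_reducible refine Int.comp₄ ?_ ?_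 ?_ ?_ ?_; assumption) | (with_reducible refine IntF.comp ?_ ?_; assumption) | (with_reducible refine IntF.comp₂ ?_ ?_ ?_; assumption) | (with_reducible refine IntF.comp₃ ?_ ?_ ?_ ?_; assumption) | with_reducible apply IntF.pair))), fun q ε hε => ?_⟩,
    fun q => ?_, if_pos hpv, fun q hq => if_neg fun h => ((h1 _).1 (h3 _ h)).2 hq⟩
  · by_cases hq : Helper672.Plain.Mem q.1 v
    · refine ⟨v, hv, hq, fun q' hq' => ?_⟩
      simp only [if_pos hq, if_pos (show Helper672.Plain.Mem q'.1 v from hq'), sub_self, abs_zero]
      exact hε
    · refine ⟨v', hv', (h2 _).2 ⟨q.2, hq⟩, fun q' hq' => ?_⟩
      simp only [if_neg hq, if_neg (show ¬ Helper672.Plain.Mem q'.1 v from ((h2 _).1 hq').2), sub_self, abs_zero]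
      exact hε
  · by_cases hq : Helper672.Plain.Mem q.1 v
    · simp only [if_pos hq]
      exact ⟨le_rfl, zero_le_one⟩
    · simp only [if_neg hq]
      exact ⟨zero_le_one, le_rfl⟩

theorem isTychonoff (ht : IsTopology t x) (h1 : IsT1 t x) (hz : IsZeroDim t x) :
    IsTychonoff t x r := ⟨ht, h1, isCR ht hz⟩

end cr

theorem isClopen_iff (ht : IsTopology t x) (v : Helper672.Plain.El t) : IsClopen t x v.1 ↔
    ∃ u : Helper672.Plain.El t, ∀ z : Helper672.Plain.El x, (Helper672.Plain.Mem z.1 u.1 ↔ ¬ Helper672.Plain.Mem z.1 v.1) := by
  constructor
  · rintro ⟨h1, h2, u, hu, h3⟩
    exact ⟨⟨u, hu⟩, fun z => (h3 z.1).trans ⟨fun h => h.2, fun h => ⟨z.2, h⟩⟩⟩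
  · rintro ⟨u, hu⟩
    refine ⟨v.2, ht.sub _ v.2, u.1, u.2, fun z => ⟨fun hz => ?_, fun hz => (hu (mkE z hz.1)).2 hz.2⟩⟩
    have hzx := ht.sub _ u.2 z hz
    exact ⟨hzx, (hu (mkE z hzx)).1 hz⟩

theorem int_clopen (ht : IsTopology t x) : Int N (fun v : Helper672.Plain.El t => IsClopen t x v.1) := by
  have h1 := memI x t
  refine Int.congr (p := fun v : Helper672.Plain.El t => ∃ u : Helper672.Plain.El t, ∀ z : Helper672.Plain.El x, (Helper672.Plain.Mem z.1 u.1 ↔ ¬ Helper672.Plain.Mem z.1 v.1))
    (by (repeat' (first | with_reducible apply memPE | with_reducible apply memPE' | with_reducible apply memPE'' | with_reducible apply memCode | with_reducible apply memCodeP | with_reducible apply memCode₂ | with_reducible apply eqPE | with_reducible apply eqPE' | with_reducible exact IntF.id | with_reducible exact IntF.fst' | with_reducible exact IntF.snd' | with_reducible exact IntF.const _ | with_reducible exact Int.const _ | assumption | with_reducible apply Int.and | with_reducible apply Int.or | with_reducible apply Int.not | with_reducible apply Int.imp | with_reducible apply Int.iff | with_reducible apply Int.ne | with_reducible apply Int.eq | with_reducible apply Int.mem | with_reducible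 apply Int.subset | with_reducible apply Int.ltN | with_reducible apply Int.leN | with_reducible_and_instances apply Int.le | with_reducible_and_instances apply Int.lt | with_reducible apply Int.all | with_reducible apply Int.ex | with_reducible apply IntF.fst | with_reducible apply IntF.snd | with_reducible apply IntF.app | with_reducible apply IntF.inl | with_reducible apply IntF.inr | with_reducible_and_instances apply IntF.mul | with_reducible_and_instances apply IntF.inv | with_reducible_and_instances apply IntF.add | with_reducible_and_instances apply IntF.sub | with_reducible_and_instances apply IntF.neg | with_reducible_and_instances apply IntF.smul | with_reducible apply Int.fin | with_reducible apply IntF.sep | with_reducible apply IntF.lam | with_reducible apply IntF.insert | with_reducible apply IntF.singleton | with_reducible apply IntF.union | with_reducible apply IntF.iimage | with_reducible apply IntF.ite | with_reducible apply IntF.the | with_reducible apply IntF.irec | with_reducible apply IntF.succ | with_reducible apply IntF.val | with_reducible apply IntF.mk | (with_reducible refine Int.comp ?_ ?_; assumption) | (with_reducible refine Int.comp₂ ?_ ?_ ?_; assumption)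 | (with_reducible refine Int.comp₃ ?_ ?_ ?_ ?_; assumption) | (with_reducible refine Int.comp₄ ?_ ?_ ?_ ?_ ?_; assumption) | (with_reducible refine IntF.comp ?_ ?_; assumption) | (with_reducible refine IntF.comp₂ ?_ ?_ ?_; assumption) | (with_reducible refine IntF.comp₃ ?_ ?_ ?_ ?_; assumption) | with_reducible apply IntF.pair))) fun v => (isClopen_iff ht v).symm

theorem isClopen_compl (ht : IsTopology t x) {v v' : N} (h : IsClopen t x v)
    (h' : ∀ z, Helper672.Plain.Mem z v' ↔ Helper672.Plain.Mem z x ∧ ¬ Helper672.Plain.Mem z v) : IsClopen t x v' := by
  obtain ⟨h1, h2, u, hu, h3⟩ := h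
  obtain rfl : v' = u := extN fun z => (h' z).trans (h3 z).symm
  refine ⟨hu, fun z hz => ((h' z).1 hz).1, v, h1, fun z => ⟨fun hz => ⟨h2 z hz, fun hz' =>
    ((h' z).1 hz').2 hz⟩, fun hz => ?_⟩⟩
  by_contra hc
  exact hz.2 ((h' z).2 ⟨hz.1, hc⟩)

open Classical in
/-- Compact zero-dimensional spaces are `ℕ`-compact. -/
theorem isNCompact (ht : IsTopology t x) (hT : IsT1 t x) (hz : IsZeroDim t x)
    (hc : IsCompact t x) : IsNCompact t x := by
  obtain ⟨w, hw⟩ := exists_omega (N := N)
  obtain ⟨ν, hν, hν', -⟩ := omega_equiv hw
  obtain ⟨j, hj⟩ := exists_set (int_clopen ht)
  have hj' : ∀ u, IsClopen t x u → Helper672.Plain.Mem u j := fun u hu => (hj u).2 ⟨hu.1, hu⟩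
  have hj'' : ∀ i : Helper672.Plain.El j, IsClopen t x i.1 := fun i => ((hj i.1).1 i.2).2
  let n0 : Helper672.Plain.El w := ν.symm 0
  let n1 : Helper672.Plain.El w := ν.symm (INat.succ 0)
  have hne : n1 ≠ n0 := fun h => INat.succ_ne_zero (0 : INat N) (ν.symm.injective h)
  let e : Helper672.Plain.El x → Helper672.Plain.El j → Helper672.Plain.El w := fun p i => if Helper672.Plain.Mem p.1 i.1 then n1 else n0
  have he : IntF N (fun q : Helper672.Plain.El x × Helper672.Plain.El j => e q.1 q.2) := by
    have h1 := memI x j
    change IntF N (fun q : Helper672.Plain.El x × Helper672.Plain.El j => if Helper672.Plain.Mem q.1.1 q.2.1 then n1 else n0)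
    (repeat' (first | with_reducible apply memPE | with_reducible apply memPE' | with_reducible apply memPE'' | with_reducible apply memCode | with_reducible apply memCodeP | with_reducible apply memCode₂ | with_reducible apply eqPE | with_reducible apply eqPE' | with_reducible exact IntF.id | with_reducible exact IntF.fst' | with_reducible exact IntF.snd' | with_reducible exact IntF.const _ | with_reducible exact Int.const _ | assumption | with_reducible apply Int.and | with_reducible apply Int.or | with_reducible apply Int.not | with_reducible apply Int.imp | with_reducible apply Int.iff | with_reducible apply Int.ne | with_reducible apply Int.eq | with_reducible apply Int.mem | with_reducible apply Int.subset | with_reducible apply Int.ltN | with_reducible apply Int.leN | with_reducible_and_instances apply Int.le | with_reducible_and_instances apply Int.lt | with_reducible apply Int.all | with_reducible apply Int.ex | with_reducible apply IntF.fst | with_reducible apply IntF.snd | with_reducible apply IntF.app | with_reducible apply IntF.inl | with_reducible apply IntF.inr | with_reducible_and_instances apply IntF.mul | with_reducible_and_instances apply IntF.inv | with_reducible_and_instances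 apply IntF.add | with_reducible_and_instances apply IntF.sub | with_reducible_and_instances apply IntF.neg | with_reducible_and_instances apply IntF.smul | with_reducible apply Int.fin | with_reducible apply IntF.sep | with_reducible apply IntF.lam | with_reducible apply IntF.insert | with_reducible apply IntF.singleton | with_reducible apply IntF.union | with_reducible apply IntF.iimage | with_reducible apply IntF.ite | with_reducible apply IntF.the | with_reducible apply IntF.irec | with_reducible apply IntF.succ | with_reducible apply IntF.val | with_reducible apply IntF.mk | (with_reducible refine Int.comp ?_ ?_; assumption) | (with_reducible refine Int.comp₂ ?_ ?_ ?_; assumption) | (with_reducible refine Int.comp₃ ?_ ?_ ?_ ?_; assumption) | (with_reducible refine Int.comp₄ ?_ ?_ ?_ ?_ ?_; assumption) | (with_reducible refine IntF.comp ?_ ?_; assumption) | (with_reducible refine IntF.comp₂ ?_ ?_ ?_; assumption) | (with_reducible refine IntF.comp₃ ?_ ?_ ?_ ?_; assumption) | with_reducible apply IntF.pair))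
  have he1 : ∀ p i, Helper672.Plain.Mem p.1 i.1 → e p i = n1 := fun p i h => if_pos h
  have he0 : ∀ p i, ¬ Helper672.Plain.Mem p.1 i.1 → e p i = n0 := fun p i h => if_neg h
  have he1' : ∀ (p : Helper672.Plain.El x) (i : Helper672.Plain.El j), e p i = n1 → Helper672.Plain.Mem p.1 i.1 := fun p i h => by
    by_contra hc
    rw [he0 p i hc] at h
    exact hne h.symm
  have hI : Int N (fun U : IPow N (Helper672.Plain.El x) => Mem (code U) t) := ⟨t, fun U => Iff.rfl⟩
  have hxne : ∀ u, IsClopen t x u → ∃ u', IsClopen t x u' ∧ ∀ z, Helper672.Plain.Mem z u' ↔ Helper672.Plain.Mem z x ∧ ¬ Helper672.Plain.Mem z u := by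
    intro u hu
    obtain ⟨u', hu'⟩ := exists_diff x u
    exact ⟨u', isClopen_compl ht hu hu', hu'⟩
  -- the basic open sets
  have hlev : ∀ (i : Helper672.Plain.El j) (k : Helper672.Plain.El w), Helper672.Plain.Mem (code (sep N fun q : Helper672.Plain.El x => e q i = k)) t := by
    intro i k
    have hIk : Int N (fun q : Helper672.Plain.El x => e q i = k) := by (repeat' (first | with_reducible apply memPE | with_reducible apply memPE' | with_reducible apply memPE'' | with_reducible apply memCode | with_reducible apply memCodeP | with_reducible apply memCode₂ | with_reducible apply eqPE | with_reducible apply eqPE' | with_reducible exact IntF.id | with_reducible exact IntF.fst' | with_reducible exact IntF.snd' | with_reducible exact IntF.const _ | with_reducible exact Int.const _ | assumption | with_reducible apply Int.and | with_reducible apply Int.or | with_reducible apply Int.not | with_reducible apply Int.imp | with_reducible apply Int.iff | with_reducible apply Int.ne | with_reducible apply Int.eq | with_reducible apply Int.mem | with_reducible apply Int.subset | with_reducible apply Int.ltN | with_reducible apply Int.leN | with_reducible_and_instances apply Int.le | with_reducible_and_instances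 apply Int.lt | with_reducible apply Int.all | with_reducible apply Int.ex | with_reducible apply IntF.fst | with_reducible apply IntF.snd | with_reducible apply IntF.app | with_reducible apply IntF.inl | with_reducible apply IntF.inr | with_reducible_and_instances apply IntF.mul | with_reducible_and_instances apply IntF.inv | with_reducible_and_instances apply IntF.add | with_reducible_and_instances apply IntF.sub | with_reducible_and_instances apply IntF.neg | with_reducible_and_instances apply IntF.smul | with_reducible apply Int.fin | with_reducible apply IntF.sep | with_reducible apply IntF.lam | with_reducible apply IntF.insert | with_reducible apply IntF.singleton | with_reducible apply IntF.union | with_reducible apply IntF.iimage | with_reducible apply IntF.ite | with_reducible apply IntF.the | with_reducible apply IntF.irec | with_reducible apply IntF.succ | with_reducible apply IntF.val | with_reducible apply IntF.mk | (with_reducible refine Int.comp ?_ ?_; assumption) | (with_reducible refine Int.comp₂ ?_ ?_ ?_; assumption) | (with_reducible refine Int.comp₃ ?_ ?_ ?_ ?_; assumption) | (with_reducible refine Int.comp₄ ?_ ?_ ?_ ?_ ?_; assumption) | (with_reducible refine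 IntF.comp ?_ ?_; assumption) | (with_reducible refine IntF.comp₂ ?_ ?_ ?_; assumption) | (with_reducible refine IntF.comp₃ ?_ ?_ ?_ ?_; assumption) | with_reducible apply IntF.pair))
    refine open_of_local ht fun z hz => ?_
    obtain ⟨hzx, h1⟩ := mem_cpE.1 hz
    rw [mem_sep hIk] at h1
    by_cases h2 : Helper672.Plain.Mem z i.1
    · refine ⟨i.1, (hj'' i).1, h2, fun z' hz' => mem_cpE.2 ⟨ht.sub _ (hj'' i).1 _ hz', ?_⟩⟩
      rw [mem_sep hIk, he1 _ _ hz', ← h1, he1 _ _ h2]
    · obtain ⟨u', hu', h3⟩ := hxne _ (hj'' i)
      refine ⟨u', hu'.1, (h3 z).2 ⟨hzx, h2⟩, fun z' hz' => mem_cpE.2 ⟨((h3 z').1 hz').1, ?_⟩⟩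
      rw [mem_sep hIk, he0 _ _ ((h3 z').1 hz').2, ← h1, he0 _ _ h2]
  have hbas : ∀ S : IPow N (Helper672.Plain.El j), IFin S → ∀ p : Helper672.Plain.El x,
      Mem (code (sep N fun q : Helper672.Plain.El x => ∀ i, i ∈ S → e q i = e p i)) t := by
    refine IFin.ind (by (repeat' (first | with_reducible apply memPE | with_reducible apply memPE' | with_reducible apply memPE'' | with_reducible apply memCode | with_reducible apply memCodeP | with_reducible apply memCode₂ | with_reducible apply eqPE | with_reducible apply eqPE' | with_reducible exact IntF.id | with_reducible exact IntF.fst' | with_reducible exact IntF.snd' | with_reducible exact IntF.const _ | with_reducible exact Int.const _ | assumption | with_reducible apply Int.and | with_reducible apply Int.or | with_reducible apply Int.not | with_reducible apply Int.imp | with_reducible apply Int.iff | with_reducible apply Int.ne | with_reducible apply Int.eq | with_reducible apply Int.mem | with_reducible apply Int.subset | with_reducible apply Int.ltN | with_reducible apply Int.leN | with_reducible_and_instances apply Int.le | with_reducible_and_instances apply Int.lt | with_reducible apply Int.all | with_reducible apply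 Int.ex | with_reducible apply IntF.fst | with_reducible apply IntF.snd | with_reducible apply IntF.app | with_reducible apply IntF.inl | with_reducible apply IntF.inr | with_reducible_and_instances apply IntF.mul | with_reducible_and_instances apply IntF.inv | with_reducible_and_instances apply IntF.add | with_reducible_and_instances apply IntF.sub | with_reducible_and_instances apply IntF.neg | with_reducible_and_instances apply IntF.smul | with_reducible apply Int.fin | with_reducible apply IntF.sep | with_reducible apply IntF.lam | with_reducible apply IntF.insert | with_reducible apply IntF.singleton | with_reducible apply IntF.union | with_reducible apply IntF.iimage | with_reducible apply IntF.ite | with_reducible apply IntF.the | with_reducible apply IntF.irec | with_reducible apply IntF.succ | with_reducible apply IntF.val | with_reducible apply IntF.mk | (with_reducible refine Int.comp ?_ ?_; assumption) | (with_reducible refine Int.comp₂ ?_ ?_ ?_; assumption) | (with_reducible refine Int.comp₃ ?_ ?_ ?_ ?_; assumption) | (with_reducible refine Int.comp₄ ?_ ?_ ?_ ?_ ?_; assumption) | (with_reducible refine IntF.comp ?_ ?_; assumption) | (with_reducible refine IntF.comp₂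 ?_ ?_ ?_; assumption) | (with_reducible refine IntF.comp₃ ?_ ?_ ?_ ?_; assumption) | with_reducible apply IntF.pair))) ?_ ?_
    · intro p
      refine open_of_local ht fun z hz => ?_
      obtain ⟨hzx, -⟩ := mem_cpE.1 hz
      refine ⟨x, ht.univ, hzx, fun z' hz' => mem_cpE.2 ⟨hz', (mem_sep (by (repeat' (first | with_reducible apply memPE | with_reducible apply memPE' | with_reducible apply memPE'' | with_reducible apply memCode | with_reducible apply memCodeP | with_reducible apply memCode₂ | with_reducible apply eqPE | with_reducible apply eqPE' | with_reducible exact IntF.id | with_reducible exact IntF.fst' | with_reducible exact IntF.snd' | with_reducible exact IntF.const _ | with_reducible exact Int.const _ | assumption | with_reducible apply Int.and | with_reducible apply Int.or | with_reducible apply Int.not | with_reducible apply Int.imp | with_reducible apply Int.iff | with_reducible apply Int.ne | with_reducible apply Int.eq | with_reducible apply Int.mem | with_reducible apply Int.subset | with_reducible apply Int.ltN | with_reducible apply Int.leN | with_reducible_and_instances apply Int.le | with_reducible_and_instances apply Int.lt | with_reducible apply Int.all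 | with_reducible apply Int.ex | with_reducible apply IntF.fst | with_reducible apply IntF.snd | with_reducible apply IntF.app | with_reducible apply IntF.inl | with_reducible apply IntF.inr | with_reducible_and_instances apply IntF.mul | with_reducible_and_instances apply IntF.inv | with_reducible_and_instances apply IntF.add | with_reducible_and_instances apply IntF.sub | with_reducible_and_instances apply IntF.neg | with_reducible_and_instances apply IntF.smul | with_reducible apply Int.fin | with_reducible apply IntF.sep | with_reducible apply IntF.lam | with_reducible apply IntF.insert | with_reducible apply IntF.singleton | with_reducible apply IntF.union | with_reducible apply IntF.iimage | with_reducible apply IntF.ite | with_reducible apply IntF.the | with_reducible apply IntF.irec | with_reducible apply IntF.succ | with_reducible apply IntF.val | with_reducible apply IntF.mk | (with_reducible refine Int.comp ?_ ?_; assumption) | (with_reducible refine Int.comp₂ ?_ ?_ ?_; assumption) | (with_reducible refine Int.comp₃ ?_ ?_ ?_ ?_; assumption) | (with_reducible refine Int.comp₄ ?_ ?_ ?_ ?_ ?_; assumption) | (with_reducible refine IntF.comp ?_ ?_; assumption) | (with_reducible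 refine IntF.comp₂ ?_ ?_ ?_; assumption) | (with_reducible refine IntF.comp₃ ?_ ?_ ?_ ?_; assumption) | with_reducible apply IntF.pair)))).2 ?_⟩⟩
      intro i hi
      exact absurd hi (by simp)
    · intro S i _ _ ih p
      refine ht.inter _ _ _ (ih p) (hlev i (e p i)) fun z => ?_
      rw [show Helper672.Plain.Mem z (code (sep N fun q : Helper672.Plain.El x =>
          ∀ i_1, i_1 ∈ insert i S → e q i_1 = e p i_1)) ↔ _ from mem_cpE,
        show Helper672.Plain.Mem z (code (sep N fun q : Helper672.Plain.El x => ∀ i, i ∈ S → e q i = e p i)) ↔ _
          from mem_cpE,
        show Helper672.Plain.Mem z (code (sep N fun q : Helper672.Plain.El x => e q i = e p i)) ↔ _ from mem_cpE]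
      constructor
      · rintro ⟨h1, h2⟩
        rw [mem_sep (by (repeat' (first | with_reducible apply memPE | with_reducible apply memPE' | with_reducible apply memPE'' | with_reducible apply memCode | with_reducible apply memCodeP | with_reducible apply memCode₂ | with_reducible apply eqPE | with_reducible apply eqPE' | with_reducible exact IntF.id | with_reducible exact IntF.fst' | with_reducible exact IntF.snd' | with_reducible exact IntF.const _ | with_reducible exact Int.const _ | assumption | with_reducible apply Int.and | with_reducible apply Int.or | with_reducible apply Int.not | with_reducible apply Int.imp | with_reducible apply Int.iff | with_reducible apply Int.ne | with_reducible apply Int.eq | with_reducible apply Int.mem | with_reducible apply Int.subset | with_reducible apply Int.ltN | with_reducible apply Int.leN | with_reducible_and_instances apply Int.le | with_reducible_and_instances apply Int.lt | with_reducible apply Int.all | with_reducible apply Int.ex | with_reducible apply IntF.fst | with_reducible apply IntF.snd | with_reducible apply IntF.app | with_reducible apply IntF.inl | with_reducible apply IntF.inr | with_reducible_and_instances apply IntF.mul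 | with_reducible_and_instances apply IntF.inv | with_reducible_and_instances apply IntF.add | with_reducible_and_instances apply IntF.sub | with_reducible_and_instances apply IntF.neg | with_reducible_and_instances apply IntF.smul | with_reducible apply Int.fin | with_reducible apply IntF.sep | with_reducible apply IntF.lam | with_reducible apply IntF.insert | with_reducible apply IntF.singleton | with_reducible apply IntF.union | with_reducible apply IntF.iimage | with_reducible apply IntF.ite | with_reducible apply IntF.the | with_reducible apply IntF.irec | with_reducible apply IntF.succ | with_reducible apply IntF.val | with_reducible apply IntF.mk | (with_reducible refine Int.comp ?_ ?_; assumption) | (with_reducible refine Int.comp₂ ?_ ?_ ?_; assumption) | (with_reducible refine Int.comp₃ ?_ ?_ ?_ ?_; assumption) | (with_reducible refine Int.comp₄ ?_ ?_ ?_ ?_ ?_; assumption) | (with_reducible refine IntF.comp ?_ ?_; assumption) | (with_reducible refine IntF.comp₂ ?_ ?_ ?_; assumption) | (with_reducible refine IntF.comp₃ ?_ ?_ ?_ ?_; assumption) | with_reducible apply IntF.pair)))] at h2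
        refine ⟨⟨h1, (mem_sep (by (repeat' (first | with_reducible apply memPE | with_reducible apply memPE' | with_reducible apply memPE'' | with_reducible apply memCode | with_reducible apply memCodeP | with_reducible apply memCode₂ | with_reducible apply eqPE | with_reducible apply eqPE' | with_reducible exact IntF.id | with_reducible exact IntF.fst' | with_reducible exact IntF.snd' | with_reducible exact IntF.const _ | with_reducible exact Int.const _ | assumption | with_reducible apply Int.and | with_reducible apply Int.or | with_reducible apply Int.not | with_reducible apply Int.imp | with_reducible apply Int.iff | with_reducible apply Int.ne | with_reducible apply Int.eq | with_reducible apply Int.mem | with_reducible apply Int.subset | with_reducible apply Int.ltN | with_reducible apply Int.leN | with_reducible_and_instances apply Int.le | with_reducible_and_instances apply Int.lt | with_reducible apply Int.all | with_reducible apply Int.ex | with_reducible apply IntF.fst | with_reducible apply IntF.snd | with_reducible apply IntF.app | with_reducible apply IntF.inl | with_reducible apply IntF.inr | with_reducible_and_instances apply IntF.mul | with_reducible_and_instances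 apply IntF.inv | with_reducible_and_instances apply IntF.add | with_reducible_and_instances apply IntF.sub | with_reducible_and_instances apply IntF.neg | with_reducible_and_instances apply IntF.smul | with_reducible apply Int.fin | with_reducible apply IntF.sep | with_reducible apply IntF.lam | with_reducible apply IntF.insert | with_reducible apply IntF.singleton | with_reducible apply IntF.union | with_reducible apply IntF.iimage | with_reducible apply IntF.ite | with_reducible apply IntF.the | with_reducible apply IntF.irec | with_reducible apply IntF.succ | with_reducible apply IntF.val | with_reducible apply IntF.mk | (with_reducible refine Int.comp ?_ ?_; assumption) | (with_reducible refine Int.comp₂ ?_ ?_ ?_; assumption) | (with_reducible refine Int.comp₃ ?_ ?_ ?_ ?_; assumption) | (with_reducible refine Int.comp₄ ?_ ?_ ?_ ?_ ?_; assumption) | (with_reducible refine IntF.comp ?_ ?_; assumption) | (with_reducible refine IntF.comp₂ ?_ ?_ ?_; assumption) | (with_reducible refine IntF.comp₃ ?_ ?_ ?_ ?_; assumption) | with_reducible apply IntF.pair)))).2 fun k hk => h2 k (mem_insert.2 (Or.inr hk))⟩, h1,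
          (mem_sep (by (repeat' (first | with_reducible apply memPE | with_reducible apply memPE' | with_reducible apply memPE'' | with_reducible apply memCode | with_reducible apply memCodeP | with_reducible apply memCode₂ | with_reducible apply eqPE | with_reducible apply eqPE' | with_reducible exact IntF.id | with_reducible exact IntF.fst' | with_reducible exact IntF.snd' | with_reducible exact IntF.const _ | with_reducible exact Int.const _ | assumption | with_reducible apply Int.and | with_reducible apply Int.or | with_reducible apply Int.not | with_reducible apply Int.imp | with_reducible apply Int.iff | with_reducible apply Int.ne | with_reducible apply Int.eq | with_reducible apply Int.mem | with_reducible apply Int.subset | with_reducible apply Int.ltN | with_reducible apply Int.leN | with_reducible_and_instances apply Int.le | with_reducible_and_instances apply Int.lt | with_reducible apply Int.all | with_reducible apply Int.ex | with_reducible apply IntF.fst | with_reducible apply IntF.snd | with_reducible apply IntF.app | with_reducible apply IntF.inl | with_reducible apply IntF.inr | with_reducible_and_instances apply IntF.mul | with_reducible_and_instances apply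 IntF.inv | with_reducible_and_instances apply IntF.add | with_reducible_and_instances apply IntF.sub | with_reducible_and_instances apply IntF.neg | with_reducible_and_instances apply IntF.smul | with_reducible apply Int.fin | with_reducible apply IntF.sep | with_reducible apply IntF.lam | with_reducible apply IntF.insert | with_reducible apply IntF.singleton | with_reducible apply IntF.union | with_reducible apply IntF.iimage | with_reducible apply IntF.ite | with_reducible apply IntF.the | with_reducible apply IntF.irec | with_reducible apply IntF.succ | with_reducible apply IntF.val | with_reducible apply IntF.mk | (with_reducible refine Int.comp ?_ ?_; assumption) | (with_reducible refine Int.comp₂ ?_ ?_ ?_; assumption) | (with_reducible refine Int.comp₃ ?_ ?_ ?_ ?_; assumption) | (with_reducible refine Int.comp₄ ?_ ?_ ?_ ?_ ?_; assumption) | (with_reducible refine IntF.comp ?_ ?_; assumption) | (with_reducible refine IntF.comp₂ ?_ ?_ ?_; assumption) | (with_reducible refine IntF.comp₃ ?_ ?_ ?_ ?_; assumption) | with_reducible apply IntF.pair)))).2 (h2 i (mem_insert.2 (Or.inl rfl)))⟩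
      · rintro ⟨⟨h1, h2⟩, h3, h4⟩
        rw [mem_sep (by (repeat' (first | with_reducible apply memPE | with_reducible apply memPE' | with_reducible apply memPE'' | with_reducible apply memCode | with_reducible apply memCodeP | with_reducible apply memCode₂ | with_reducible apply eqPE | with_reducible apply eqPE' | with_reducible exact IntF.id | with_reducible exact IntF.fst' | with_reducible exact IntF.snd' | with_reducible exact IntF.const _ | with_reducible exact Int.const _ | assumption | with_reducible apply Int.and | with_reducible apply Int.or | with_reducible apply Int.not | with_reducible apply Int.imp | with_reducible apply Int.iff | with_reducible apply Int.ne | with_reducible apply Int.eq | with_reducible apply Int.mem | with_reducible apply Int.subset | with_reducible apply Int.ltN | with_reducible apply Int.leN | with_reducible_and_instances apply Int.le | with_reducible_and_instances apply Int.lt | with_reducible apply Int.all | with_reducible apply Int.ex | with_reducible apply IntF.fst | with_reducible apply IntF.snd | with_reducible apply IntF.app | with_reducible apply IntF.inl | with_reducible apply IntF.inr | with_reducible_and_instances apply IntF.mul |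 with_reducible_and_instances apply IntF.inv | with_reducible_and_instances apply IntF.add | with_reducible_and_instances apply IntF.sub | with_reducible_and_instances apply IntF.neg | with_reducible_and_instances apply IntF.smul | with_reducible apply Int.fin | with_reducible apply IntF.sep | with_reducible apply IntF.lam | with_reducible apply IntF.insert | with_reducible apply IntF.singleton | with_reducible apply IntF.union | with_reducible apply IntF.iimage | with_reducible apply IntF.ite | with_reducible apply IntF.the | with_reducible apply IntF.irec | with_reducible apply IntF.succ | with_reducible apply IntF.val | with_reducible apply IntF.mk | (with_reducible refine Int.comp ?_ ?_; assumption) | (with_reducible refine Int.comp₂ ?_ ?_ ?_; assumption) | (with_reducible refine Int.comp₃ ?_ ?_ ?_ ?_; assumption) | (with_reducible refine Int.comp₄ ?_ ?_ ?_ ?_ ?_; assumption) | (with_reducible refine IntF.comp ?_ ?_; assumption) | (with_reducible refine IntF.comp₂ ?_ ?_ ?_; assumption) | (with_reducible refine IntF.comp₃ ?_ ?_ ?_ ?_; assumption) | with_reducible apply IntF.pair)))] at h2 h4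
        refine ⟨h1, (mem_sep (by (repeat' (first | with_reducible apply memPE | with_reducible apply memPE' | with_reducible apply memPE'' | with_reducible apply memCode | with_reducible apply memCodeP | with_reducible apply memCode₂ | with_reducible apply eqPE | with_reducible apply eqPE' | with_reducible exact IntF.id | with_reducible exact IntF.fst' | with_reducible exact IntF.snd' | with_reducible exact IntF.const _ | with_reducible exact Int.const _ | assumption | with_reducible apply Int.and | with_reducible apply Int.or | with_reducible apply Int.not | with_reducible apply Int.imp | with_reducible apply Int.iff | with_reducible apply Int.ne | with_reducible apply Int.eq | with_reducible apply Int.mem | with_reducible apply Int.subset | with_reducible apply Int.ltN | with_reducible apply Int.leN | with_reducible_and_instances apply Int.le | with_reducible_and_instances apply Int.lt | with_reducible apply Int.all | with_reducible apply Int.ex | with_reducible apply IntF.fst | with_reducible apply IntF.snd | with_reducible apply IntF.app | with_reducible apply IntF.inl | with_reducible apply IntF.inr | with_reducible_and_instances apply IntF.mul | with_reducible_and_instances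 apply IntF.inv | with_reducible_and_instances apply IntF.add | with_reducible_and_instances apply IntF.sub | with_reducible_and_instances apply IntF.neg | with_reducible_and_instances apply IntF.smul | with_reducible apply Int.fin | with_reducible apply IntF.sep | with_reducible apply IntF.lam | with_reducible apply IntF.insert | with_reducible apply IntF.singleton | with_reducible apply IntF.union | with_reducible apply IntF.iimage | with_reducible apply IntF.ite | with_reducible apply IntF.the | with_reducible apply IntF.irec | with_reducible apply IntF.succ | with_reducible apply IntF.val | with_reducible apply IntF.mk | (with_reducible refine Int.comp ?_ ?_; assumption) | (with_reducible refine Int.comp₂ ?_ ?_ ?_; assumption) | (with_reducible refine Int.comp₃ ?_ ?_ ?_ ?_; assumption) | (with_reducible refine Int.comp₄ ?_ ?_ ?_ ?_ ?_; assumption) | (with_reducible refine IntF.comp ?_ ?_; assumption) | (with_reducible refine IntF.comp₂ ?_ ?_ ?_; assumption) | (with_reducible refine IntF.comp₃ ?_ ?_ ?_ ?_; assumption) | with_reducible apply IntF.pair)))).2 fun k hk => ?_⟩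
        rcases mem_insert.1 hk with rfl | hk
        · exact h4
        · exact h2 k hk
  refine ⟨w, j, e, hw, ⟨x, hj' x ⟨ht.univ, fun z hz => hz, ?_⟩⟩, isMap₂_iff.2 he, fun p q hpq => ?_,
    fun u hu => ⟨fun hut p hp => ?_, fun h => ?_⟩, fun y hy hcl => ?_⟩
  · obtain ⟨v, hv⟩ := exists_diff x x
    exact ⟨v, open_of_local ht fun z hz => absurd ((hv z).1 hz).1 ((hv z).1 hz).2, hv⟩
  · by_contra hne'
    obtain ⟨c, ⟨-, v, hv, h1⟩, h2⟩ := hT q
    obtain ⟨u, hu, h3, h4⟩ := hz v hv p.1 ((h1 _).2 ⟨p.2, fun h => hne' (Subtype.ext ((h2 _).1 h))⟩)
    have h5 := hpq ⟨u, hj' u hu⟩
    rw [he1 p ⟨u, hj' u hu⟩ h3] at h5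
    exact ((h1 _).1 (h4 _ (he1' _ _ h5.symm))).2 ((h2 _).2 rfl)
  · obtain ⟨c, hc1, h2, h3⟩ := hz u hut p.1 hp
    refine ⟨code ({mkE c (hj' c hc1)} : IPow N (Helper672.Plain.El j)), finite_code (IFin.singleton _),
      fun q hq => h3 _ ?_⟩
    have h4 := hq (mkE c (hj' c hc1)) (mem_cpE'.2 (mem_singleton.2 rfl))
    rw [he1 p (mkE c (hj' c hc1)) h2] at h4
    exact he1' _ _ h4
  · refine open_of_local ht fun z hz => ?_
    obtain ⟨F, hF, h1⟩ := h (mkE z (hu z hz)) hz
    have h2 := hbas _ (ifin_of_finite hF j) (mkE z (hu z hz))
    refine ⟨_, h2, mem_cpE.2 ⟨hu z hz, (mem_sep (by (repeat' (first | with_reducible apply memPE | with_reducible apply memPE' | with_reducible apply memPE'' | with_reducible apply memCode | with_reducible apply memCodeP | with_reducible apply memCode₂ | with_reducible apply eqPE | with_reducible apply eqPE' | with_reducible exact IntF.id | with_reducible exact IntF.fst' | with_reducible exact IntF.snd' | with_reducible exact IntF.const _ | with_reducible exact Int.const _ | assumption | with_reducible apply Int.and | with_reducible apply Int.or | with_reducible apply Int.not | with_reducible apply Int.imp | with_reducible apply Int.iff | with_reducible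 apply Int.ne | with_reducible apply Int.eq | with_reducible apply Int.mem | with_reducible apply Int.subset | with_reducible apply Int.ltN | with_reducible apply Int.leN | with_reducible_and_instances apply Int.le | with_reducible_and_instances apply Int.lt | with_reducible apply Int.all | with_reducible apply Int.ex | with_reducible apply IntF.fst | with_reducible apply IntF.snd | with_reducible apply IntF.app | with_reducible apply IntF.inl | with_reducible apply IntF.inr | with_reducible_and_instances apply IntF.mul | with_reducible_and_instances apply IntF.inv | with_reducible_and_instances apply IntF.add | with_reducible_and_instances apply IntF.sub | with_reducible_and_instances apply IntF.neg | with_reducible_and_instances apply IntF.smul | with_reducible apply Int.fin | with_reducible apply IntF.sep | with_reducible apply IntF.lam | with_reducible apply IntF.insert | with_reducible apply IntF.singleton | with_reducible apply IntF.union | with_reducible apply IntF.iimage | with_reducible apply IntF.ite | with_reducible apply IntF.the | with_reducible apply IntF.irec | with_reducible apply IntF.succ | with_reducible apply IntF.val | with_reducible apply IntF.mk | (with_reducible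 refine Int.comp ?_ ?_; assumption) | (with_reducible refine Int.comp₂ ?_ ?_ ?_; assumption) | (with_reducible refine Int.comp₃ ?_ ?_ ?_ ?_; assumption) | (with_reducible refine Int.comp₄ ?_ ?_ ?_ ?_ ?_; assumption) | (with_reducible refine IntF.comp ?_ ?_; assumption) | (with_reducible refine IntF.comp₂ ?_ ?_ ?_; assumption) | (with_reducible refine IntF.comp₃ ?_ ?_ ?_ ?_; assumption) | with_reducible apply IntF.pair)))).2 fun i _ => rfl⟩, fun z' hz' => ?_⟩
    obtain ⟨h3, h4⟩ := mem_cpE.1 hz'
    rw [mem_sep (by (repeat' (first | with_reducible apply memPE | with_reducible apply memPE' | with_reducible apply memPE'' | with_reducible apply memCode | with_reducible apply memCodeP | with_reducible apply memCode₂ | with_reducible apply eqPE | with_reducible apply eqPE' | with_reducible exact IntF.id | with_reducible exact IntF.fst' | with_reducible exact IntF.snd' | with_reducible exact IntF.const _ | with_reducible exact Int.const _ | assumption | with_reducible apply Int.and | with_reducible apply Int.or | with_reducible apply Int.not | with_reducible apply Int.imp | with_reducible apply Int.iff | with_reducible apply Int.ne | with_reducible apply Int.eq | with_reducible apply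 Int.mem | with_reducible apply Int.subset | with_reducible apply Int.ltN | with_reducible apply Int.leN | with_reducible_and_instances apply Int.le | with_reducible_and_instances apply Int.lt | with_reducible apply Int.all | with_reducible apply Int.ex | with_reducible apply IntF.fst | with_reducible apply IntF.snd | with_reducible apply IntF.app | with_reducible apply IntF.inl | with_reducible apply IntF.inr | with_reducible_and_instances apply IntF.mul | with_reducible_and_instances apply IntF.inv | with_reducible_and_instances apply IntF.add | with_reducible_and_instances apply IntF.sub | with_reducible_and_instances apply IntF.neg | with_reducible_and_instances apply IntF.smul | with_reducible apply Int.fin | with_reducible apply IntF.sep | with_reducible apply IntF.lam | with_reducible apply IntF.insert | with_reducible apply IntF.singleton | with_reducible apply IntF.union | with_reducible apply IntF.iimage | with_reducible apply IntF.ite | with_reducible apply IntF.the | with_reducible apply IntF.irec | with_reducible apply IntF.succ | with_reducible apply IntF.val | with_reducible apply IntF.mk | (with_reducible refine Int.comp ?_ ?_; assumption) | (with_reducible refine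 Int.comp₂ ?_ ?_ ?_; assumption) | (with_reducible refine Int.comp₃ ?_ ?_ ?_ ?_; assumption) | (with_reducible refine Int.comp₄ ?_ ?_ ?_ ?_ ?_; assumption) | (with_reducible refine IntF.comp ?_ ?_; assumption) | (with_reducible refine IntF.comp₂ ?_ ?_ ?_; assumption) | (with_reducible refine IntF.comp₃ ?_ ?_ ?_ ?_; assumption) | with_reducible apply IntF.pair)))] at h4
    exact h1 (mkE z' h3) fun i hi => h4 i ((mem_sep (memI' _ _)).2 hi)
  · by_contra hcon
    have hcon' : ∀ p : Helper672.Plain.El x, ∃ i, e p i ≠ y i := by
      intro p
      by_contra hc'
      push Not at hc'
      exact hcon ⟨p, hc'⟩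
    have hyI := isMap_iff.1 hy
    have hIc : Int N (fun v : Helper672.Plain.El t => ∃ i : Helper672.Plain.El j, ∀ z : Helper672.Plain.El x, (Helper672.Plain.Mem z.1 v.1 ↔ ¬ e z i = y i)) := by
      have h1 := memI x t
      (repeat' (first | with_reducible apply memPE | with_reducible apply memPE' | with_reducible apply memPE'' | with_reducible apply memCode | with_reducible apply memCodeP | with_reducible apply memCode₂ | with_reducible apply eqPE | with_reducible apply eqPE' | with_reducible exact IntF.id | with_reducible exact IntF.fst' | with_reducible exact IntF.snd' | with_reducible exact IntF.const _ | with_reducible exact Int.const _ | assumption | with_reducible apply Int.and | with_reducible apply Int.or | with_reducible apply Int.not | with_reducible apply Int.imp | with_reducible apply Int.iff | with_reducible apply Int.ne | with_reducible apply Int.eq | with_reducible apply Int.mem | with_reducible apply Int.subset | with_reducible apply Int.ltN | with_reducible apply Int.leN | with_reducible_and_instances apply Int.le | with_reducible_and_instances apply Int.lt | with_reducible apply Int.all | with_reducible apply Int.ex | with_reducible apply IntF.fst | with_reducible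 apply IntF.snd | with_reducible apply IntF.app | with_reducible apply IntF.inl | with_reducible apply IntF.inr | with_reducible_and_instances apply IntF.mul | with_reducible_and_instances apply IntF.inv | with_reducible_and_instances apply IntF.add | with_reducible_and_instances apply IntF.sub | with_reducible_and_instances apply IntF.neg | with_reducible_and_instances apply IntF.smul | with_reducible apply Int.fin | with_reducible apply IntF.sep | with_reducible apply IntF.lam | with_reducible apply IntF.insert | with_reducible apply IntF.singleton | with_reducible apply IntF.union | with_reducible apply IntF.iimage | with_reducible apply IntF.ite | with_reducible apply IntF.the | with_reducible apply IntF.irec | with_reducible apply IntF.succ | with_reducible apply IntF.val | with_reducible apply IntF.mk | (with_reducible refine Int.comp ?_ ?_; assumption) | (with_reducible refine Int.comp₂ ?_ ?_ ?_; assumption) | (with_reducible refine Int.comp₃ ?_ ?_ ?_ ?_; assumption) | (with_reducible refine Int.comp₄ ?_ ?_ ?_ ?_ ?_; assumption) | (with_reducible refine IntF.comp ?_ ?_; assumption) | (with_reducible refine IntF.comp₂ ?_ ?_ ?_; assumption) | (with_reducible refine IntF.comp₃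 ?_ ?_ ?_ ?_; assumption) | with_reducible apply IntF.pair))
    obtain ⟨c, hc1⟩ := exists_set hIc
    have hVo : ∀ i : Helper672.Plain.El j, Helper672.Plain.Mem (code (sep N fun q : Helper672.Plain.El x => ¬ e q i = y i)) t := by
      intro i
      refine open_of_local ht fun z hz => ?_
      obtain ⟨hzx, h1⟩ := mem_cpE.1 hz
      rw [mem_sep (by (repeat' (first | with_reducible apply memPE | with_reducible apply memPE' | with_reducible apply memPE'' | with_reducible apply memCode | with_reducible apply memCodeP | with_reducible apply memCode₂ | with_reducible apply eqPE | with_reducible apply eqPE' | with_reducible exact IntF.id | with_reducible exact IntF.fst' | with_reducible exact IntF.snd' | with_reducible exact IntF.const _ | with_reducible exact Int.const _ | assumption | with_reducible apply Int.and | with_reducible apply Int.or | with_reducible apply Int.not | with_reducible apply Int.imp | with_reducible apply Int.iff | with_reducible apply Int.ne | with_reducible apply Int.eq | with_reducible apply Int.mem | with_reducible apply Int.subset | with_reducible apply Int.ltN | with_reducible apply Int.leN | with_reducible_and_instances apply Int.le | with_reducible_and_instances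 apply Int.lt | with_reducible apply Int.all | with_reducible apply Int.ex | with_reducible apply IntF.fst | with_reducible apply IntF.snd | with_reducible apply IntF.app | with_reducible apply IntF.inl | with_reducible apply IntF.inr | with_reducible_and_instances apply IntF.mul | with_reducible_and_instances apply IntF.inv | with_reducible_and_instances apply IntF.add | with_reducible_and_instances apply IntF.sub | with_reducible_and_instances apply IntF.neg | with_reducible_and_instances apply IntF.smul | with_reducible apply Int.fin | with_reducible apply IntF.sep | with_reducible apply IntF.lam | with_reducible apply IntF.insert | with_reducible apply IntF.singleton | with_reducible apply IntF.union | with_reducible apply IntF.iimage | with_reducible apply IntF.ite | with_reducible apply IntF.the | with_reducible apply IntF.irec | with_reducible apply IntF.succ | with_reducible apply IntF.val | with_reducible apply IntF.mk | (with_reducible refine Int.comp ?_ ?_; assumption) | (with_reducible refine Int.comp₂ ?_ ?_ ?_; assumption) | (with_reducible refine Int.comp₃ ?_ ?_ ?_ ?_; assumption) | (with_reducible refine Int.comp₄ ?_ ?_ ?_ ?_ ?_; assumption) | (with_reducible refine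 IntF.comp ?_ ?_; assumption) | (with_reducible refine IntF.comp₂ ?_ ?_ ?_; assumption) | (with_reducible refine IntF.comp₃ ?_ ?_ ?_ ?_; assumption) | with_reducible apply IntF.pair)))] at h1
      refine ⟨_, hlev i (e (mkE z hzx) i), mem_cpE.2 ⟨hzx, (mem_sep (by (repeat' (first | with_reducible apply memPE | with_reducible apply memPE' | with_reducible apply memPE'' | with_reducible apply memCode | with_reducible apply memCodeP | with_reducible apply memCode₂ | with_reducible apply eqPE | with_reducible apply eqPE' | with_reducible exact IntF.id | with_reducible exact IntF.fst' | with_reducible exact IntF.snd' | with_reducible exact IntF.const _ | with_reducible exact Int.const _ | assumption | with_reducible apply Int.and | with_reducible apply Int.or | with_reducible apply Int.not | with_reducible apply Int.imp | with_reducible apply Int.iff | with_reducible apply Int.ne | with_reducible apply Int.eq | with_reducible apply Int.mem | with_reducible apply Int.subset | with_reducible apply Int.ltN | with_reducible apply Int.leN | with_reducible_and_instances apply Int.le | with_reducible_and_instances apply Int.lt | with_reducible apply Int.all | with_reducible apply Int.ex |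 with_reducible apply IntF.fst | with_reducible apply IntF.snd | with_reducible apply IntF.app | with_reducible apply IntF.inl | with_reducible apply IntF.inr | with_reducible_and_instances apply IntF.mul | with_reducible_and_instances apply IntF.inv | with_reducible_and_instances apply IntF.add | with_reducible_and_instances apply IntF.sub | with_reducible_and_instances apply IntF.neg | with_reducible_and_instances apply IntF.smul | with_reducible apply Int.fin | with_reducible apply IntF.sep | with_reducible apply IntF.lam | with_reducible apply IntF.insert | with_reducible apply IntF.singleton | with_reducible apply IntF.union | with_reducible apply IntF.iimage | with_reducible apply IntF.ite | with_reducible apply IntF.the | with_reducible apply IntF.irec | with_reducible apply IntF.succ | with_reducible apply IntF.val | with_reducible apply IntF.mk | (with_reducible refine Int.comp ?_ ?_; assumption) | (with_reducible refine Int.comp₂ ?_ ?_ ?_; assumption) | (with_reducible refine Int.comp₃ ?_ ?_ ?_ ?_; assumption) | (with_reducible refine Int.comp₄ ?_ ?_ ?_ ?_ ?_; assumption) | (with_reducible refine IntF.comp ?_ ?_; assumption) | (with_reducible refine IntF.comp₂ ?_ ?_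 ?_; assumption) | (with_reducible refine IntF.comp₃ ?_ ?_ ?_ ?_; assumption) | with_reducible apply IntF.pair)))).2 rfl⟩,
        fun z' hz' => ?_⟩
      obtain ⟨h2, h3⟩ := mem_cpE.1 hz'
      rw [mem_sep (by (repeat' (first | with_reducible apply memPE | with_reducible apply memPE' | with_reducible apply memPE'' | with_reducible apply memCode | with_reducible apply memCodeP | with_reducible apply memCode₂ | with_reducible apply eqPE | with_reducible apply eqPE' | with_reducible exact IntF.id | with_reducible exact IntF.fst' | with_reducible exact IntF.snd' | with_reducible exact IntF.const _ | with_reducible exact Int.const _ | assumption | with_reducible apply Int.and | with_reducible apply Int.or | with_reducible apply Int.not | with_reducible apply Int.imp | with_reducible apply Int.iff | with_reducible apply Int.ne | with_reducible apply Int.eq | with_reducible apply Int.mem | with_reducible apply Int.subset | with_reducible apply Int.ltN | with_reducible apply Int.leN | with_reducible_and_instances apply Int.le | with_reducible_and_instances apply Int.lt | with_reducible apply Int.all | with_reducible apply Int.ex | with_reducible apply IntF.fst | with_reducible apply IntF.snd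 | with_reducible apply IntF.app | with_reducible apply IntF.inl | with_reducible apply IntF.inr | with_reducible_and_instances apply IntF.mul | with_reducible_and_instances apply IntF.inv | with_reducible_and_instances apply IntF.add | with_reducible_and_instances apply IntF.sub | with_reducible_and_instances apply IntF.neg | with_reducible_and_instances apply IntF.smul | with_reducible apply Int.fin | with_reducible apply IntF.sep | with_reducible apply IntF.lam | with_reducible apply IntF.insert | with_reducible apply IntF.singleton | with_reducible apply IntF.union | with_reducible apply IntF.iimage | with_reducible apply IntF.ite | with_reducible apply IntF.the | with_reducible apply IntF.irec | with_reducible apply IntF.succ | with_reducible apply IntF.val | with_reducible apply IntF.mk | (with_reducible refine Int.comp ?_ ?_; assumption) | (with_reducible refine Int.comp₂ ?_ ?_ ?_; assumption) | (with_reducible refine Int.comp₃ ?_ ?_ ?_ ?_; assumption) | (with_reducible refine Int.comp₄ ?_ ?_ ?_ ?_ ?_; assumption) | (with_reducible refine IntF.comp ?_ ?_; assumption) | (with_reducible refine IntF.comp₂ ?_ ?_ ?_; assumption) | (with_reducible refine IntF.comp₃ ?_ ?_ ?_ ?_;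 assumption) | with_reducible apply IntF.pair)))] at h3
      refine mem_cpE.2 ⟨h2, (mem_sep (by (repeat' (first | with_reducible apply memPE | with_reducible apply memPE' | with_reducible apply memPE'' | with_reducible apply memCode | with_reducible apply memCodeP | with_reducible apply memCode₂ | with_reducible apply eqPE | with_reducible apply eqPE' | with_reducible exact IntF.id | with_reducible exact IntF.fst' | with_reducible exact IntF.snd' | with_reducible exact IntF.const _ | with_reducible exact Int.const _ | assumption | with_reducible apply Int.and | with_reducible apply Int.or | with_reducible apply Int.not | with_reducible apply Int.imp | with_reducible apply Int.iff | with_reducible apply Int.ne | with_reducible apply Int.eq | with_reducible apply Int.mem | with_reducible apply Int.subset | with_reducible apply Int.ltN | with_reducible apply Int.leN | with_reducible_and_instances apply Int.le | with_reducible_and_instances apply Int.lt | with_reducible apply Int.all | with_reducible apply Int.ex | with_reducible apply IntF.fst | with_reducible apply IntF.snd | with_reducible apply IntF.app | with_reducible apply IntF.inl | with_reducible apply IntF.inr | with_reducible_and_instances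 apply IntF.mul | with_reducible_and_instances apply IntF.inv | with_reducible_and_instances apply IntF.add | with_reducible_and_instances apply IntF.sub | with_reducible_and_instances apply IntF.neg | with_reducible_and_instances apply IntF.smul | with_reducible apply Int.fin | with_reducible apply IntF.sep | with_reducible apply IntF.lam | with_reducible apply IntF.insert | with_reducible apply IntF.singleton | with_reducible apply IntF.union | with_reducible apply IntF.iimage | with_reducible apply IntF.ite | with_reducible apply IntF.the | with_reducible apply IntF.irec | with_reducible apply IntF.succ | with_reducible apply IntF.val | with_reducible apply IntF.mk | (with_reducible refine Int.comp ?_ ?_; assumption) | (with_reducible refine Int.comp₂ ?_ ?_ ?_; assumption) | (with_reducible refine Int.comp₃ ?_ ?_ ?_ ?_; assumption) | (with_reducible refine Int.comp₄ ?_ ?_ ?_ ?_ ?_; assumption) | (with_reducible refine IntF.comp ?_ ?_; assumption) | (with_reducible refine IntF.comp₂ ?_ ?_ ?_; assumption) | (with_reducible refine IntF.comp₃ ?_ ?_ ?_ ?_; assumption) | with_reducible apply IntF.pair)))).2 ?_⟩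
      rw [h3]
      exact h1
    obtain ⟨c', hfin, hsub, hcov⟩ := hc c (fun u hu => ((hc1 u).1 hu).1) (by
      intro z hzx
      obtain ⟨i, hi⟩ := hcon' (mkE z hzx)
      refine ⟨_, (hc1 _).2 ⟨hVo i, i, fun z => ?_⟩, mem_cpE.2 ⟨hzx, (mem_sep (by (repeat' (first | with_reducible apply memPE | with_reducible apply memPE' | with_reducible apply memPE'' | with_reducible apply memCode | with_reducible apply memCodeP | with_reducible apply memCode₂ | with_reducible apply eqPE | with_reducible apply eqPE' | with_reducible exact IntF.id | with_reducible exact IntF.fst' | with_reducible exact IntF.snd' | with_reducible exact IntF.const _ | with_reducible exact Int.const _ | assumption | with_reducible apply Int.and | with_reducible apply Int.or | with_reducible apply Int.not | with_reducible apply Int.imp | with_reducible apply Int.iff | with_reducible apply Int.ne | with_reducible apply Int.eq | with_reducible apply Int.mem | with_reducible apply Int.subset | with_reducible apply Int.ltN | with_reducible apply Int.leN | with_reducible_and_instances apply Int.le | with_reducible_and_instances apply Int.lt | with_reducible apply Int.all | with_reducible apply Int.ex | with_reducible apply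 IntF.fst | with_reducible apply IntF.snd | with_reducible apply IntF.app | with_reducible apply IntF.inl | with_reducible apply IntF.inr | with_reducible_and_instances apply IntF.mul | with_reducible_and_instances apply IntF.inv | with_reducible_and_instances apply IntF.add | with_reducible_and_instances apply IntF.sub | with_reducible_and_instances apply IntF.neg | with_reducible_and_instances apply IntF.smul | with_reducible apply Int.fin | with_reducible apply IntF.sep | with_reducible apply IntF.lam | with_reducible apply IntF.insert | with_reducible apply IntF.singleton | with_reducible apply IntF.union | with_reducible apply IntF.iimage | with_reducible apply IntF.ite | with_reducible apply IntF.the | with_reducible apply IntF.irec | with_reducible apply IntF.succ | with_reducible apply IntF.val | with_reducible apply IntF.mk | (with_reducible refine Int.comp ?_ ?_; assumption) | (with_reducible refine Int.comp₂ ?_ ?_ ?_; assumption) | (with_reducible refine Int.comp₃ ?_ ?_ ?_ ?_; assumption) | (with_reducible refine Int.comp₄ ?_ ?_ ?_ ?_ ?_; assumption) | (with_reducible refine IntF.comp ?_ ?_; assumption) | (with_reducible refine IntF.comp₂ ?_ ?_ ?_; assumption) | (with_reducible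 refine IntF.comp₃ ?_ ?_ ?_ ?_; assumption) | with_reducible apply IntF.pair)))).2 hi⟩⟩
      exact mem_cpE'.trans (mem_sep (by (repeat' (first | with_reducible apply memPE | with_reducible apply memPE' | with_reducible apply memPE'' | with_reducible apply memCode | with_reducible apply memCodeP | with_reducible apply memCode₂ | with_reducible apply eqPE | with_reducible apply eqPE' | with_reducible exact IntF.id | with_reducible exact IntF.fst' | with_reducible exact IntF.snd' | with_reducible exact IntF.const _ | with_reducible exact Int.const _ | assumption | with_reducible apply Int.and | with_reducible apply Int.or | with_reducible apply Int.not | with_reducible apply Int.imp | with_reducible apply Int.iff | with_reducible apply Int.ne | with_reducible apply Int.eq | with_reducible apply Int.mem | with_reducible apply Int.subset | with_reducible apply Int.ltN | with_reducible apply Int.leN | with_reducible_and_instances apply Int.le | with_reducible_and_instances apply Int.lt | with_reducible apply Int.all | with_reducible apply Int.ex | with_reducible apply IntF.fst | with_reducible apply IntF.snd | with_reducible apply IntF.app | with_reducible apply IntF.inl | with_reducible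 apply IntF.inr | with_reducible_and_instances apply IntF.mul | with_reducible_and_instances apply IntF.inv | with_reducible_and_instances apply IntF.add | with_reducible_and_instances apply IntF.sub | with_reducible_and_instances apply IntF.neg | with_reducible_and_instances apply IntF.smul | with_reducible apply Int.fin | with_reducible apply IntF.sep | with_reducible apply IntF.lam | with_reducible apply IntF.insert | with_reducible apply IntF.singleton | with_reducible apply IntF.union | with_reducible apply IntF.iimage | with_reducible apply IntF.ite | with_reducible apply IntF.the | with_reducible apply IntF.irec | with_reducible apply IntF.succ | with_reducible apply IntF.val | with_reducible apply IntF.mk | (with_reducible refine Int.comp ?_ ?_; assumption) | (with_reducible refine Int.comp₂ ?_ ?_ ?_; assumption) | (with_reducible refine Int.comp₃ ?_ ?_ ?_ ?_; assumption) | (with_reducible refine Int.comp₄ ?_ ?_ ?_ ?_ ?_; assumption) | (with_reducible refine IntF.comp ?_ ?_; assumption) | (with_reducible refine IntF.comp₂ ?_ ?_ ?_; assumption) | (with_reducible refine IntF.comp₃ ?_ ?_ ?_ ?_; assumption) | with_reducible apply IntF.pair)))))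
    have hR : Int N (fun q : Helper672.Plain.El c' × Helper672.Plain.El j => ∀ z : Helper672.Plain.El x, (Helper672.Plain.Mem z.1 q.1.1 ↔ ¬ e z q.2 = y q.2)) := by
      have h1 := memI x c'
      (repeat' (first | with_reducible apply memPE | with_reducible apply memPE' | with_reducible apply memPE'' | with_reducible apply memCode | with_reducible apply memCodeP | with_reducible apply memCode₂ | with_reducible apply eqPE | with_reducible apply eqPE' | with_reducible exact IntF.id | with_reducible exact IntF.fst' | with_reducible exact IntF.snd' | with_reducible exact IntF.const _ | with_reducible exact Int.const _ | assumption | with_reducible apply Int.and | with_reducible apply Int.or | with_reducible apply Int.not | with_reducible apply Int.imp | with_reducible apply Int.iff | with_reducible apply Int.ne | with_reducible apply Int.eq | with_reducible apply Int.mem | with_reducible apply Int.subset | with_reducible apply Int.ltN | with_reducible apply Int.leN | with_reducible_and_instances apply Int.le | with_reducible_and_instances apply Int.lt | with_reducible apply Int.all | with_reducible apply Int.ex | with_reducible apply IntF.fst | with_reducible apply IntF.snd | with_reducible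 apply IntF.app | with_reducible apply IntF.inl | with_reducible apply IntF.inr | with_reducible_and_instances apply IntF.mul | with_reducible_and_instances apply IntF.inv | with_reducible_and_instances apply IntF.add | with_reducible_and_instances apply IntF.sub | with_reducible_and_instances apply IntF.neg | with_reducible_and_instances apply IntF.smul | with_reducible apply Int.fin | with_reducible apply IntF.sep | with_reducible apply IntF.lam | with_reducible apply IntF.insert | with_reducible apply IntF.singleton | with_reducible apply IntF.union | with_reducible apply IntF.iimage | with_reducible apply IntF.ite | with_reducible apply IntF.the | with_reducible apply IntF.irec | with_reducible apply IntF.succ | with_reducible apply IntF.val | with_reducible apply IntF.mk | (with_reducible refine Int.comp ?_ ?_; assumption) | (with_reducible refine Int.comp₂ ?_ ?_ ?_; assumption) | (with_reducible refine Int.comp₃ ?_ ?_ ?_ ?_; assumption) | (with_reducible refine Int.comp₄ ?_ ?_ ?_ ?_ ?_; assumption) | (with_reducible refine IntF.comp ?_ ?_; assumption) | (with_reducible refine IntF.comp₂ ?_ ?_ ?_; assumption) | (with_reducible refine IntF.comp₃ ?_ ?_ ?_ ?_; assumption) |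 with_reducible apply IntF.pair))
    obtain ⟨S, hS, hS'⟩ := fin_choice (R := fun (v : Helper672.Plain.El c') (i : Helper672.Plain.El j) =>
      ∀ z : Helper672.Plain.El x, (Helper672.Plain.Mem z.1 v.1 ↔ ¬ e z i = y i)) hR (ifin_of_finite hfin c') fun v _ => by
        obtain ⟨h1, i, hi⟩ := (hc1 v.1).1 (hsub v.1 v.2)
        exact ⟨i, hi⟩
    obtain ⟨p, hp⟩ := hcl (code S) (finite_code hS)
    obtain ⟨v, hv, hpv⟩ := hcov p.1 p.2
    obtain ⟨i, hi, h1⟩ := hS' ⟨v, hv⟩ ((mem_sep (memI' _ _)).2 hv)
    exact (h1 p).1 hpv (hp i (mem_cpE'.2 hi))

/-- Members of a covering pair. -/
theorem ultra_or {P : N → Prop} (hPx : ∀ v, P v → ∀ z, Helper672.Plain.Mem z v → Helper672.Plain.Mem z x)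
    (hPI : Int N (fun V : IPow N (Helper672.Plain.El x) => P (code V)))
    (hPi : ∀ u v c, P u → P v → (∀ z, Helper672.Plain.Mem z c ↔ Helper672.Plain.Mem z u ∧ Helper672.Plain.Mem z v) → P c) {F : N}
    (hF : IsUltraIn P F) {A B : N} (hA : P A) (hB : P B)
    (hAB : ∀ z, Helper672.Plain.Mem z x → Helper672.Plain.Mem z A ∨ Helper672.Plain.Mem z B) : Helper672.Plain.Mem A F ∨ Helper672.Plain.Mem B F := by
  by_contra hcon
  push Not at hcon
  obtain ⟨hnA, hnB⟩ := hcon
  obtain ⟨P', hPI', hP'⟩ : ∃ P' : IPow N (Helper672.Plain.El x) → Prop, Int N P' ∧ ∀ V, P' V ↔ P (code V) :=
    ⟨_, hPI, fun _ => Iff.rfl⟩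
  have hI : Int N (fun V : IPow N (Helper672.Plain.El x) => P' V ∧ ∃ U : IPow N (Helper672.Plain.El x), Mem (code U) F ∧
      ∀ p, p ∈ U → Helper672.Plain.Mem p.1 A → p ∈ V) := by (repeat' (first | with_reducible apply memPE | with_reducible apply memPE' | with_reducible apply memPE'' | with_reducible apply memCode | with_reducible apply memCodeP | with_reducible apply memCode₂ | with_reducible apply eqPE | with_reducible apply eqPE' | with_reducible exact IntF.id | with_reducible exact IntF.fst' | with_reducible exact IntF.snd' | with_reducible exact IntF.const _ | with_reducible exact Int.const _ | assumption | with_reducible apply Int.and | with_reducible apply Int.or | with_reducible apply Int.not | with_reducible apply Int.imp | with_reducible apply Int.iff | with_reducible apply Int.ne | with_reducible apply Int.eq | with_reducible apply Int.mem | with_reducible apply Int.subset | with_reducible apply Int.ltN | with_reducible apply Int.leN | with_reducible_and_instances apply Int.le | with_reducible_and_instances apply Int.lt | with_reducible apply Int.all | with_reducible apply Int.ex | with_reducible apply IntF.fst | with_reducible apply IntF.snd | with_reducible apply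 IntF.app | with_reducible apply IntF.inl | with_reducible apply IntF.inr | with_reducible_and_instances apply IntF.mul | with_reducible_and_instances apply IntF.inv | with_reducible_and_instances apply IntF.add | with_reducible_and_instances apply IntF.sub | with_reducible_and_instances apply IntF.neg | with_reducible_and_instances apply IntF.smul | with_reducible apply Int.fin | with_reducible apply IntF.sep | with_reducible apply IntF.lam | with_reducible apply IntF.insert | with_reducible apply IntF.singleton | with_reducible apply IntF.union | with_reducible apply IntF.iimage | with_reducible apply IntF.ite | with_reducible apply IntF.the | with_reducible apply IntF.irec | with_reducible apply IntF.succ | with_reducible apply IntF.val | with_reducible apply IntF.mk | (with_reducible refine Int.comp ?_ ?_; assumption) | (with_reducible refine Int.comp₂ ?_ ?_ ?_; assumption) | (with_reducible refine Int.comp₃ ?_ ?_ ?_ ?_; assumption) | (with_reducible refine Int.comp₄ ?_ ?_ ?_ ?_ ?_; assumption) | (with_reducible refine IntF.comp ?_ ?_; assumption) | (with_reducible refine IntF.comp₂ ?_ ?_ ?_; assumption) | (with_reducible refine IntF.comp₃ ?_ ?_ ?_ ?_; assumption) | with_reducible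 apply IntF.pair))
  have hG : ∀ v, Helper672.Plain.Mem v (code (sep N fun V : IPow N (Helper672.Plain.El x) => P' V ∧
      ∃ U : IPow N (Helper672.Plain.El x), Mem (code U) F ∧ ∀ p, p ∈ U → Helper672.Plain.Mem p.1 A → p ∈ V)) ↔
      P v ∧ ∃ u, Helper672.Plain.Mem u F ∧ ∀ z, Helper672.Plain.Mem z u → Helper672.Plain.Mem z A → Helper672.Plain.Mem z v := by
    intro v
    refine mem_cp.trans ⟨?_, ?_⟩
    · rintro ⟨V, hV, rfl⟩
      obtain ⟨h1, U, h2, h3⟩ := (mem_sep hI).1 hV
      refine ⟨(hP' V).1 h1, code U, h2, fun z hz hzA => ?_⟩
      obtain ⟨h4, h5⟩ := mem_cpE.1 hz
      exact mem_cpE.2 ⟨h4, h3 _ h5 hzA⟩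
    · rintro ⟨h1, u, h2, h3⟩
      obtain ⟨V, rfl, hV⟩ := exists_code (a := x) (u := v) (hPx v h1)
      obtain ⟨U, rfl, hU⟩ := exists_code (a := x) (u := u) (hPx u (hF.1.sub u h2))
      exact ⟨V, (mem_sep hI).2 ⟨(hP' V).2 h1, U, h2, fun p hp hpA => (hV p).2 (h3 _ ((hU p).1 hp) hpA)⟩, rfl⟩
  obtain ⟨u₀, hu₀⟩ := hF.1.nonempty
  by_cases hne : ∀ u, Helper672.Plain.Mem u F → ∃ z, Helper672.Plain.Mem z u ∧ Helper672.Plain.Mem z A
  · refine hnA (hF.2 _ ⟨fun v hv => ((hG v).1 hv).1, ⟨A, (hG A).2 ⟨hA, u₀, hu₀, fun z _ h => h⟩⟩,
      fun v hv => ?_, fun u v c hu hv hc => ?_, fun u v hu hPv huv => ?_⟩ (fun v hv => ?_) A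
      ((hG A).2 ⟨hA, u₀, hu₀, fun z _ h => h⟩))
    · obtain ⟨-, u, hu, h1⟩ := (hG v).1 hv
      obtain ⟨z, h2, h3⟩ := hne u hu
      exact ⟨z, h1 z h2 h3⟩
    · obtain ⟨hPu, u', hu', h1⟩ := (hG u).1 hu
      obtain ⟨hPv, v', hv', h2⟩ := (hG v).1 hv
      obtain ⟨c', hc'⟩ := exists_trace u' v'
      refine (hG c).2 ⟨hPi u v c hPu hPv hc, c', hF.1.inter u' v' c' hu' hv' hc', fun z hz hzA => ?_⟩
      have h3 := (hc' z).1 hz
      exact (hc z).2 ⟨h1 z h3.1 hzA, h2 z h3.2 hzA⟩
    · obtain ⟨-, u', hu', h1⟩ := (hG u).1 hu
      exact (hG v).2 ⟨hPv, u', hu', fun z hz hzA => huv z (h1 z hz hzA)⟩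
    · exact (hG v).2 ⟨hF.1.sub v hv, v, hv, fun z hz _ => hz⟩
  · push Not at hne
    obtain ⟨u, hu, h1⟩ := hne
    refine hnB (hF.1.super u B hu hB fun z hz => ?_)
    rcases hAB z (hPx u (hF.1.sub u hu) z hz) with h2 | h2
    · exact absurd h2 (h1 z hz)
    · exact h2

/-- A filter of closed sets with a compact member is fixed. -/
theorem fixed_of_compact {P : N → Prop} (ht : IsTopology t x)
    (hP : ∀ v, P v → IsClosed t x v) {F : N} (hF : IsFilterIn P F)
    {A : N} (hA : Helper672.Plain.Mem A F) (hc : IsCompact t A) : IsFixed x F := by
  by_contra hcon
  have hcon' : ∀ p : Helper672.Plain.El x, ∃ v, Helper672.Plain.Mem v F ∧ ¬ Helper672.Plain.Mem p.1 v := by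
    intro p
    by_contra hc'
    push Not at hc'
    exact hcon ⟨p, hc'⟩
  have hI : Int N (fun u : Helper672.Plain.El t => ∃ v : Helper672.Plain.El F, ∀ z : Helper672.Plain.El x, (Helper672.Plain.Mem z.1 u.1 ↔ ¬ Helper672.Plain.Mem z.1 v.1)) := by
    have h1 := memI x t
    have h2 := memI x F
    (repeat' (first | with_reducible apply memPE | with_reducible apply memPE' | with_reducible apply memPE'' | with_reducible apply memCode | with_reducible apply memCodeP | with_reducible apply memCode₂ | with_reducible apply eqPE | with_reducible apply eqPE' | with_reducible exact IntF.id | with_reducible exact IntF.fst' | with_reducible exact IntF.snd' | with_reducible exact IntF.const _ | with_reducible exact Int.const _ | assumption | with_reducible apply Int.and | with_reducible apply Int.or | with_reducible apply Int.not | with_reducible apply Int.imp | with_reducible apply Int.iff | with_reducible apply Int.ne | with_reducible apply Int.eq | with_reducible apply Int.mem | with_reducible apply Int.subset | with_reducible apply Int.ltN | with_reducible apply Int.leN | with_reducible_and_instances apply Int.le | with_reducible_and_instances apply Int.lt | with_reducible apply Int.all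 | with_reducible apply Int.ex | with_reducible apply IntF.fst | with_reducible apply IntF.snd | with_reducible apply IntF.app | with_reducible apply IntF.inl | with_reducible apply IntF.inr | with_reducible_and_instances apply IntF.mul | with_reducible_and_instances apply IntF.inv | with_reducible_and_instances apply IntF.add | with_reducible_and_instances apply IntF.sub | with_reducible_and_instances apply IntF.neg | with_reducible_and_instances apply IntF.smul | with_reducible apply Int.fin | with_reducible apply IntF.sep | with_reducible apply IntF.lam | with_reducible apply IntF.insert | with_reducible apply IntF.singleton | with_reducible apply IntF.union | with_reducible apply IntF.iimage | with_reducible apply IntF.ite | with_reducible apply IntF.the | with_reducible apply IntF.irec | with_reducible apply IntF.succ | with_reducible apply IntF.val | with_reducible apply IntF.mk | (with_reducible refine Int.comp ?_ ?_; assumption) | (with_reducible refine Int.comp₂ ?_ ?_ ?_; assumption) | (with_reducible refine Int.comp₃ ?_ ?_ ?_ ?_; assumption) | (with_reducible refine Int.comp₄ ?_ ?_ ?_ ?_ ?_; assumption) | (with_reducible refine IntF.comp ?_ ?_; assumption) | (with_reducible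 refine IntF.comp₂ ?_ ?_ ?_; assumption) | (with_reducible refine IntF.comp₃ ?_ ?_ ?_ ?_; assumption) | with_reducible apply IntF.pair))
  obtain ⟨c, hc1⟩ := exists_set hI
  obtain ⟨c', hfin, hsub, hcov⟩ := hc c (fun u hu => ((hc1 u).1 hu).1) (by
    intro z hz
    have hzx : Helper672.Plain.Mem z x := (hP A (hF.sub A hA)).1 z hz
    obtain ⟨v, hv, h1⟩ := hcon' (mkE z hzx)
    obtain ⟨-, u, hu, h2⟩ := hP v (hF.sub v hv)
    exact ⟨u, (hc1 u).2 ⟨hu, ⟨v, hv⟩, fun z' => (h2 z'.1).trans ⟨fun h => h.2, fun h => ⟨z'.2, h⟩⟩⟩,
      (h2 z).2 ⟨hzx, h1⟩⟩)
  have hR : Int N (fun q : Helper672.Plain.El c' × Helper672.Plain.El F => ∀ z : Helper672.Plain.El x, (Helper672.Plain.Mem z.1 q.1.1 ↔ ¬ Helper672.Plain.Mem z.1 q.2.1)) := by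
    have h1 := memI x c'
    have h2 := memI x F
    (repeat' (first | with_reducible apply memPE | with_reducible apply memPE' | with_reducible apply memPE'' | with_reducible apply memCode | with_reducible apply memCodeP | with_reducible apply memCode₂ | with_reducible apply eqPE | with_reducible apply eqPE' | with_reducible exact IntF.id | with_reducible exact IntF.fst' | with_reducible exact IntF.snd' | with_reducible exact IntF.const _ | with_reducible exact Int.const _ | assumption | with_reducible apply Int.and | with_reducible apply Int.or | with_reducible apply Int.not | with_reducible apply Int.imp | with_reducible apply Int.iff | with_reducible apply Int.ne | with_reducible apply Int.eq | with_reducible apply Int.mem | with_reducible apply Int.subset | with_reducible apply Int.ltN | with_reducible apply Int.leN | with_reducible_and_instances apply Int.le | with_reducible_and_instances apply Int.lt | with_reducible apply Int.all | with_reducible apply Int.ex | with_reducible apply IntF.fst | with_reducible apply IntF.snd | with_reducible apply IntF.app | with_reducible apply IntF.inl | with_reducible apply IntF.inr | with_reducible_and_instances apply IntF.mul | with_reducible_and_instances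 apply IntF.inv | with_reducible_and_instances apply IntF.add | with_reducible_and_instances apply IntF.sub | with_reducible_and_instances apply IntF.neg | with_reducible_and_instances apply IntF.smul | with_reducible apply Int.fin | with_reducible apply IntF.sep | with_reducible apply IntF.lam | with_reducible apply IntF.insert | with_reducible apply IntF.singleton | with_reducible apply IntF.union | with_reducible apply IntF.iimage | with_reducible apply IntF.ite | with_reducible apply IntF.the | with_reducible apply IntF.irec | with_reducible apply IntF.succ | with_reducible apply IntF.val | with_reducible apply IntF.mk | (with_reducible refine Int.comp ?_ ?_; assumption) | (with_reducible refine Int.comp₂ ?_ ?_ ?_; assumption) | (with_reducible refine Int.comp₃ ?_ ?_ ?_ ?_; assumption) | (with_reducible refine Int.comp₄ ?_ ?_ ?_ ?_ ?_; assumption) | (with_reducible refine IntF.comp ?_ ?_; assumption) | (with_reducible refine IntF.comp₂ ?_ ?_ ?_; assumption) | (with_reducible refine IntF.comp₃ ?_ ?_ ?_ ?_; assumption) | with_reducible apply IntF.pair))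
  obtain ⟨S, hS, hS'⟩ := fin_choice (R := fun (u : Helper672.Plain.El c') (v : Helper672.Plain.El F) =>
    ∀ z : Helper672.Plain.El x, (Helper672.Plain.Mem z.1 u.1 ↔ ¬ Helper672.Plain.Mem z.1 v.1)) hR (ifin_of_finite hfin c') fun v _ => by
      obtain ⟨h1, i, hi⟩ := (hc1 v.1).1 (hsub v.1 v.2)
      exact ⟨i, hi⟩
  have hFF := memI x F
  have key : ∀ S : IPow N (Helper672.Plain.El F), IFin S → ∃ v : Helper672.Plain.El F, ∀ z : Helper672.Plain.El x, Helper672.Plain.Mem z.1 v.1 → Helper672.Plain.Mem z.1 A ∧
      ∀ i, i ∈ S → Helper672.Plain.Mem z.1 i.1 := by
    refine IFin.ind ?_ ?_ ?_
    · have h2 := memI' x A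
      (repeat' (first | with_reducible apply memPE | with_reducible apply memPE' | with_reducible apply memPE'' | with_reducible apply memCode | with_reducible apply memCodeP | with_reducible apply memCode₂ | with_reducible apply eqPE | with_reducible apply eqPE' | with_reducible exact IntF.id | with_reducible exact IntF.fst' | with_reducible exact IntF.snd' | with_reducible exact IntF.const _ | with_reducible exact Int.const _ | assumption | with_reducible apply Int.and | with_reducible apply Int.or | with_reducible apply Int.not | with_reducible apply Int.imp | with_reducible apply Int.iff | with_reducible apply Int.ne | with_reducible apply Int.eq | with_reducible apply Int.mem | with_reducible apply Int.subset | with_reducible apply Int.ltN | with_reducible apply Int.leN | with_reducible_and_instances apply Int.le | with_reducible_and_instances apply Int.lt | with_reducible apply Int.all | with_reducible apply Int.ex | with_reducible apply IntF.fst | with_reducible apply IntF.snd | with_reducible apply IntF.app | with_reducible apply IntF.inl | with_reducible apply IntF.inr | with_reducible_and_instances apply IntF.mul | with_reducible_and_instances apply IntF.inv | with_reducible_and_instances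 apply IntF.add | with_reducible_and_instances apply IntF.sub | with_reducible_and_instances apply IntF.neg | with_reducible_and_instances apply IntF.smul | with_reducible apply Int.fin | with_reducible apply IntF.sep | with_reducible apply IntF.lam | with_reducible apply IntF.insert | with_reducible apply IntF.singleton | with_reducible apply IntF.union | with_reducible apply IntF.iimage | with_reducible apply IntF.ite | with_reducible apply IntF.the | with_reducible apply IntF.irec | with_reducible apply IntF.succ | with_reducible apply IntF.val | with_reducible apply IntF.mk | (with_reducible refine Int.comp ?_ ?_; assumption) | (with_reducible refine Int.comp₂ ?_ ?_ ?_; assumption) | (with_reducible refine Int.comp₃ ?_ ?_ ?_ ?_; assumption) | (with_reducible refine Int.comp₄ ?_ ?_ ?_ ?_ ?_; assumption) | (with_reducible refine IntF.comp ?_ ?_; assumption) | (with_reducible refine IntF.comp₂ ?_ ?_ ?_; assumption) | (with_reducible refine IntF.comp₃ ?_ ?_ ?_ ?_; assumption) | with_reducible apply IntF.pair))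
    · exact ⟨⟨A, hA⟩, fun z hz => ⟨hz, fun i hi => absurd hi (by simp)⟩⟩
    · rintro S i _ _ ⟨v, hv⟩
      obtain ⟨c, hc⟩ := exists_trace v.1 i.1
      refine ⟨⟨c, hF.inter _ _ c v.2 i.2 hc⟩, fun z hz => ?_⟩
      have h1 := (hc z.1).1 hz
      refine ⟨(hv z h1.1).1, fun k hk => ?_⟩
      rcases mem_insert.1 hk with rfl | hk
      · exact h1.2
      · exact (hv z h1.1).2 k hk
  obtain ⟨v, hv⟩ := key S hS
  obtain ⟨z, hz⟩ := hF.proper v.1 v.2
  have hzx : Helper672.Plain.Mem z x := (hP v.1 (hF.sub _ v.2)).1 z hz
  obtain ⟨h1, h2⟩ := hv (mkE z hzx) hz
  obtain ⟨u, hu, hzu⟩ := hcov z h1
  obtain ⟨i, hi, h3⟩ := hS' ⟨u, hu⟩ ((mem_sep (memI' _ _)).2 hu)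
  exact (h3 (mkE z hzx)).1 hzu (h2 i hi)

end

end Pool.Agent.Q301.TM
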