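import Pool.Agent.Q301.TM.Chain

/-!
# The topology of the chain
-/

set_option maxHeartbeats 1000000
set_option linter.all false
set_option synthInstance.maxSize 2000

namespace Pool.Agent.Q301.TM

open FirstOrder FirstOrder.Language
open Pool.Agent.Helper672.ZFA
open Pool.Agent.H310 (FinP finP_iff icompl mem_icompl)

universe u u₁

variable {M : Type u} [L.Structure M] [hM : IsModel M] {P : Type u₁} [ITy M P]
variable {o : P} {τ : INat M → P} {R : INat M × (P × P) → Prop}

/-- The points up to `τ n`. -/
def Lo (τ : INat M → P) (R : INat M × (P × P) → Prop) (n : INat M) (p : P) : Prop :=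
  (∃ k, k ≤ n ∧ p = τ k) ∨ ∃ k, k < n ∧ R (k, (p, p))

/-- The points up to the point `y` of the `n`-th copy. -/
def Sg (τ : INat M → P) (R : INat M × (P × P) → Prop) (n : INat M) (y p : P) : Prop :=
  Lo τ R n p ∨ R (n, (p, y))

/-- The open sets. -/
def OpC (o : P) (τ : INat M → P) (R : INat M × (P × P) → Prop) (U : IPow M P) : Prop :=
  (∀ n, τ n ∈ U → ∃ y, R (n, (y, y)) ∧ ∀ z, R (n, (z, y)) → z ∈ U) ∧
  (∀ n, τ n.succ ∈ U → ∃ y, R (n, (y, y)) ∧ ∀ z, R (n, (y, z)) → z ∈ U) ∧
  (o ∈ U → ∃ n, ∀ p, ¬ Lo τ R n p → p ∈ U)

section

variable (h : Ch M o τ R)
include h

theorem int_Lo : Int M (fun q : INat M × P => Lo τ R q.1 q.2) := by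
  have h1 := h.int
  have h2 := h.intτ
  unfold Lo
  (repeat' (first | with_reducible exact IntF.id | with_reducible exact IntF.fst' | with_reducible exact IntF.snd' | with_reducible exact IntF.const _ | with_reducible exact Int.const _ | assumption | with_reducible apply Int.and | with_reducible apply Int.or | with_reducible apply Int.not | with_reducible apply Int.imp | with_reducible apply Int.iff | with_reducible apply Int.ne | with_reducible apply Int.eq | with_reducible apply Int.mem | with_reducible apply Int.subset | with_reducible apply Int.ltN | with_reducible apply Int.leN | with_reducible_and_instances apply Int.le | with_reducible_and_instances apply Int.lt | with_reducible apply Int.all | with_reducible apply Int.ex | with_reducible apply IntF.fst | with_reducible apply IntF.snd | with_reducible apply IntF.app | with_reducible apply IntF.inl | with_reducible apply IntF.inr | with_reducible_and_instances apply IntF.mul | with_reducible_and_instances apply IntF.inv | with_reducible_and_instances apply IntF.add | with_reducible_and_instances apply IntF.sub | with_reducible_and_instances apply IntF.neg | with_reducible_and_instances apply IntF.smul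 | with_reducible apply Int.fin | with_reducible apply IntF.sep | with_reducible apply IntF.lam | with_reducible apply IntF.insert | with_reducible apply IntF.singleton | with_reducible apply IntF.union | with_reducible apply IntF.iimage | with_reducible apply IntF.ite | with_reducible apply IntF.the | with_reducible apply IntF.irec | with_reducible apply IntF.succ | with_reducible apply IntF.val | with_reducible apply IntF.mk | (with_reducible refine Int.comp ?_ ?_; assumption) | (with_reducible refine Int.comp₂ ?_ ?_ ?_; assumption) | (with_reducible refine Int.comp₃ ?_ ?_ ?_ ?_; assumption) | (with_reducible refine Int.comp₄ ?_ ?_ ?_ ?_ ?_; assumption) | (with_reducible refine IntF.comp ?_ ?_; assumption) | (with_reducible refine IntF.comp₂ ?_ ?_ ?_; assumption) | (with_reducible refine IntF.comp₃ ?_ ?_ ?_ ?_; assumption) | with_reducible apply IntF.pair))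

theorem int_Sg : Int M (fun q : (INat M × P) × P => Sg τ R q.1.1 q.1.2 q.2) := by
  have h1 := h.int
  have h2 := int_Lo h
  unfold Sg
  (repeat' (first | with_reducible exact IntF.id | with_reducible exact IntF.fst' | with_reducible exact IntF.snd' | with_reducible exact IntF.const _ | with_reducible exact Int.const _ | assumption | with_reducible apply Int.and | with_reducible apply Int.or | with_reducible apply Int.not | with_reducible apply Int.imp | with_reducible apply Int.iff | with_reducible apply Int.ne | with_reducible apply Int.eq | with_reducible apply Int.mem | with_reducible apply Int.subset | with_reducible apply Int.ltN | with_reducible apply Int.leN | with_reducible_and_instances apply Int.le | with_reducible_and_instances apply Int.lt | with_reducible apply Int.all | with_reducible apply Int.ex | with_reducible apply IntF.fst | with_reducible apply IntF.snd | with_reducible apply IntF.app | with_reducible apply IntF.inl | with_reducible apply IntF.inr | with_reducible_and_instances apply IntF.mul | with_reducible_and_instances apply IntF.inv | with_reducible_and_instances apply IntF.add | with_reducible_and_instances apply IntF.sub |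 with_reducible_and_instances apply IntF.neg | with_reducible_and_instances apply IntF.smul | with_reducible apply Int.fin | with_reducible apply IntF.sep | with_reducible apply IntF.lam | with_reducible apply IntF.insert | with_reducible apply IntF.singleton | with_reducible apply IntF.union | with_reducible apply IntF.iimage | with_reducible apply IntF.ite | with_reducible apply IntF.the | with_reducible apply IntF.irec | with_reducible apply IntF.succ | with_reducible apply IntF.val | with_reducible apply IntF.mk | (with_reducible refine Int.comp ?_ ?_; assumption) | (with_reducible refine Int.comp₂ ?_ ?_ ?_; assumption) | (with_reducible refine Int.comp₃ ?_ ?_ ?_ ?_; assumption) | (with_reducible refine Int.comp₄ ?_ ?_ ?_ ?_ ?_; assumption) | (with_reducible refine IntF.comp ?_ ?_; assumption) | (with_reducible refine IntF.comp₂ ?_ ?_ ?_; assumption) | (with_reducible refine IntF.comp₃ ?_ ?_ ?_ ?_; assumption) | with_reducible apply IntF.pair))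

theorem int_OpC : Int M (fun U : IPow M P => OpC o τ R U) := by
  have h1 := h.int
  have h2 := int_Lo h
  have h3 := h.intτ
  unfold OpC
  (repeat' (first | with_reducible exact IntF.id | with_reducible exact IntF.fst' | with_reducible exact IntF.snd' | with_reducible exact IntF.const _ | with_reducible exact Int.const _ | assumption | with_reducible apply Int.and | with_reducible apply Int.or | with_reducible apply Int.not | with_reducible apply Int.imp | with_reducible apply Int.iff | with_reducible apply Int.ne | with_reducible apply Int.eq | with_reducible apply Int.mem | with_reducible apply Int.subset | with_reducible apply Int.ltN | with_reducible apply Int.leN | with_reducible_and_instances apply Int.le | with_reducible_and_instances apply Int.lt | with_reducible apply Int.all | with_reducible apply Int.ex | with_reducible apply IntF.fst | with_reducible apply IntF.snd | with_reducible apply IntF.app | with_reducible apply IntF.inl | with_reducible apply IntF.inr | with_reducible_and_instances apply IntF.mul | with_reducible_and_instances apply IntF.inv | with_reducible_and_instances apply IntF.add | with_reducible_and_instances apply IntF.sub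 | with_reducible_and_instances apply IntF.neg | with_reducible_and_instances apply IntF.smul | with_reducible apply Int.fin | with_reducible apply IntF.sep | with_reducible apply IntF.lam | with_reducible apply IntF.insert | with_reducible apply IntF.singleton | with_reducible apply IntF.union | with_reducible apply IntF.iimage | with_reducible apply IntF.ite | with_reducible apply IntF.the | with_reducible apply IntF.irec | with_reducible apply IntF.succ | with_reducible apply IntF.val | with_reducible apply IntF.mk | (with_reducible refine Int.comp ?_ ?_; assumption) | (with_reducible refine Int.comp₂ ?_ ?_ ?_; assumption) | (with_reducible refine Int.comp₃ ?_ ?_ ?_ ?_; assumption) | (with_reducible refine Int.comp₄ ?_ ?_ ?_ ?_ ?_; assumption) | (with_reducible refine IntF.comp ?_ ?_; assumption) | (with_reducible refine IntF.comp₂ ?_ ?_ ?_; assumption) | (with_reducible refine IntF.comp₃ ?_ ?_ ?_ ?_; assumption) | with_reducible apply IntF.pair))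

theorem lo_τ {n k : INat M} : Lo τ R n (τ k) ↔ k ≤ n := by
  constructor
  · rintro (⟨k', h1, h2⟩ | ⟨k', h1, h2⟩)
    · rw [h.ττ _ _ h2]
      exact h1
    · exact absurd h2 (h.τR _ _)
  · exact fun h1 => Or.inl ⟨k, h1, rfl⟩

theorem lo_R {n k : INat M} {p : P} (hp : R (k, (p, p))) : Lo τ R n p ↔ k < n := by
  constructor
  · rintro (⟨k', h1, rfl⟩ | ⟨k', h1, h2⟩)
    · exact absurd hp (h.τR _ _)
    · rw [h.uniq _ _ _ hp h2]
      exact h1
  · exact fun h1 => Or.inr ⟨k, h1, hp⟩

theorem lo_o {n : INat M} : ¬ Lo τ R n o := by
  rintro (⟨k', h1, h2⟩ | ⟨k', h1, h2⟩)
  · exact h.oτ _ h2.symm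
  · exact h.oR _ h2

omit h in
theorem lo_mono {m n : INat M} (hmn : m ≤ n) {p : P} (hp : Lo τ R m p) : Lo τ R n p := by
  rcases hp with ⟨k, h1, h2⟩ | ⟨k, h1, h2⟩
  · exact Or.inl ⟨k, h1.trans hmn, h2⟩
  · exact Or.inr ⟨k, h1.trans_le hmn, h2⟩

theorem lo_succ {n : INat M} {p : P} :
    Lo τ R n.succ p ↔ Lo τ R n p ∨ R (n, (p, p)) ∨ p = τ n.succ := by
  constructor
  · rintro (⟨k, h1, h2⟩ | ⟨k, h1, h2⟩)
    · rcases h1.lt_or_eq with h1 | rfl
      · exact Or.inl (Or.inl ⟨k, INat.lt_succ_iff.1 h1, h2⟩)
      · exact Or.inr (Or.inr h2)
    · rcases INat.lt_succ_iff'.1 h1 with h1 | rfl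
      · exact Or.inl (Or.inr ⟨k, h1, h2⟩)
      · exact Or.inr (Or.inl h2)
  · rintro (h1 | h1 | rfl)
    · exact lo_mono (INat.le_succ_self n) h1
    · exact Or.inr ⟨n, INat.lt_succ_self n, h1⟩
    · exact Or.inl ⟨_, le_rfl, rfl⟩

theorem lo_zero {p : P} : Lo τ R 0 p ↔ p = τ 0 := by
  constructor
  · rintro (⟨k, h1, h2⟩ | ⟨k, h1, h2⟩)
    · rw [h2, le_antisymm h1 (INat.zero_le k)]
    · exact absurd h1 INat.not_lt_zero
  · rintro rfl
    exact Or.inl ⟨0, le_rfl, rfl⟩

theorem exists_lo {p : P} (hp : p ≠ o) : ∃ n, Lo τ R n p := by
  rcases h.cov p with h1 | ⟨n, rfl⟩ | ⟨n, h1⟩
  · exact absurd h1 hp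
  · exact ⟨n, (lo_τ h).2 le_rfl⟩
  · exact ⟨n.succ, (lo_R h h1).2 (INat.lt_succ_self n)⟩

theorem sg_lo {n : INat M} {y p : P} (hp : Sg τ R n y p) : Lo τ R n.succ p := by
  rcases hp with h1 | h1
  · exact lo_mono (INat.le_succ_self n) h1
  · exact Or.inr ⟨n, INat.lt_succ_self n, h.left _ _ _ h1⟩

theorem sg_τ {n k : INat M} {y : P} : Sg τ R n y (τ k) ↔ k ≤ n :=
  ⟨fun h1 => h1.elim (lo_τ h).1 fun h2 => absurd (h.left _ _ _ h2) (h.τR _ _),
    fun h1 => Or.inl ((lo_τ h).2 h1)⟩

theorem sg_o {n : INat M} {y : P} : ¬ Sg τ R n y o := fun h1 =>
  h1.elim (lo_o h) fun h2 => h.oR _ (h.left _ _ _ h2)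

/-! ### Open sets -/

theorem opC_univ {W : IPow M P} (hW : ∀ p, p ∈ W) : OpC o τ R W := by
  refine ⟨fun n _ => ?_, fun n _ => ?_, fun _ => ⟨0, fun p _ => hW p⟩⟩ <;>
  · obtain ⟨y, hy⟩ := h.ne n
    exact ⟨y, hy, fun z _ => hW z⟩

theorem opC_inter {U V W : IPow M P} (hU : OpC o τ R U) (hV : OpC o τ R V)
    (hW : ∀ p, p ∈ W ↔ p ∈ U ∧ p ∈ V) : OpC o τ R W := by
  refine ⟨fun n hn => ?_, fun n hn => ?_, fun ho => ?_⟩
  · obtain ⟨h1, h2⟩ := (hW _).1 hn
    obtain ⟨y, hy, h3⟩ := hU.1 n h1
    obtain ⟨y', hy', h4⟩ := hV.1 n h2
    rcases h.total _ _ _ hy hy' with h5 | h5
    · exact ⟨y, hy, fun z hz => (hW z).2 ⟨h3 z hz, h4 z (h.trans _ _ _ _ hz h5)⟩⟩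
    · exact ⟨y', hy', fun z hz => (hW z).2 ⟨h3 z (h.trans _ _ _ _ hz h5), h4 z hz⟩⟩
  · obtain ⟨h1, h2⟩ := (hW _).1 hn
    obtain ⟨y, hy, h3⟩ := hU.2.1 n h1
    obtain ⟨y', hy', h4⟩ := hV.2.1 n h2
    rcases h.total _ _ _ hy hy' with h5 | h5
    · exact ⟨y', hy', fun z hz => (hW z).2 ⟨h3 z (h.trans _ _ _ _ h5 hz), h4 z hz⟩⟩
    · exact ⟨y, hy, fun z hz => (hW z).2 ⟨h3 z hz, h4 z (h.trans _ _ _ _ h5 hz)⟩⟩
  · obtain ⟨h1, h2⟩ := (hW _).1 ho
    obtain ⟨n, h3⟩ := hU.2.2 h1
    obtain ⟨n', h4⟩ := hV.2.2 h2
    exact ⟨max n n', fun p hp => (hW p).2 ⟨h3 p fun h5 => hp (lo_mono (le_max_left _ _) h5),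
      h4 p fun h5 => hp (lo_mono (le_max_right _ _) h5)⟩⟩

omit h in
theorem opC_union {C : IPow M (IPow M P)} {W : IPow M P} (hC : ∀ U, U ∈ C → OpC o τ R U)
    (hW : ∀ p, p ∈ W ↔ ∃ U, U ∈ C ∧ p ∈ U) : OpC o τ R W := by
  refine ⟨fun n hn => ?_, fun n hn => ?_, fun ho => ?_⟩
  · obtain ⟨U, hU, h1⟩ := (hW _).1 hn
    obtain ⟨y, hy, h2⟩ := (hC U hU).1 n h1
    exact ⟨y, hy, fun z hz => (hW z).2 ⟨U, hU, h2 z hz⟩⟩
  · obtain ⟨U, hU, h1⟩ := (hW _).1 hn
    obtain ⟨y, hy, h2⟩ := (hC U hU).2.1 n h1
    exact ⟨y, hy, fun z hz => (hW z).2 ⟨U, hU, h2 z hz⟩⟩
  · obtain ⟨U, hU, h1⟩ := (hW _).1 ho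
    obtain ⟨n, h2⟩ := (hC U hU).2.2 h1
    exact ⟨n, fun z hz => (hW z).2 ⟨U, hU, h2 z hz⟩⟩

/-- Complements of points are open. -/
theorem opC_ne (p : P) {W : IPow M P} (hW : ∀ q, q ∈ W ↔ q ≠ p) : OpC o τ R W := by
  refine ⟨fun n _ => ?_, fun n _ => ?_, fun ho => ?_⟩
  · by_cases hp : R (n, (p, p))
    · obtain ⟨b, h1, h2⟩ := h.bot n p hp
      refine ⟨b, h.left _ _ _ h1, fun z hz => (hW z).2 ?_⟩
      rintro rfl
      exact h2 (h.antisymm _ _ _ h1 hz)
    · obtain ⟨y, hy⟩ := h.ne n
      refine ⟨y, hy, fun z hz => (hW z).2 ?_⟩
      rintro rfl
      exact hp (h.left _ _ _ hz)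
  · by_cases hp : R (n, (p, p))
    · obtain ⟨b, h1, h2⟩ := h.top n p hp
      refine ⟨b, h.right _ _ _ h1, fun z hz => (hW z).2 ?_⟩
      rintro rfl
      exact h2 (h.antisymm _ _ _ hz h1)
    · obtain ⟨y, hy⟩ := h.ne n
      refine ⟨y, hy, fun z hz => (hW z).2 ?_⟩
      rintro rfl
      exact hp (h.right _ _ _ hz)
  · have hp : p ≠ o := fun h1 => (hW o).1 ho h1.symm
    obtain ⟨n, hn⟩ := exists_lo h hp
    refine ⟨n, fun q hq => (hW q).2 ?_⟩
    rintro rfl
    exact hq hn

/-- Points of the copies are isolated. -/
theorem opC_single {n : INat M} {p : P} (hp : R (n, (p, p))) {W : IPow M P}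
    (hW : ∀ q, q ∈ W ↔ q = p) : OpC o τ R W := by
  refine ⟨fun k hk => ?_, fun k hk => ?_, fun ho => ?_⟩
  · rw [← (hW _).1 hk] at hp
    exact absurd hp (h.τR _ _)
  · rw [← (hW _).1 hk] at hp
    exact absurd hp (h.τR _ _)
  · rw [← (hW _).1 ho] at hp
    exact absurd hp (h.oR _)

theorem opC_sg {n : INat M} {y : P} (hy : R (n, (y, y))) {W : IPow M P}
    (hW : ∀ q, q ∈ W ↔ Sg τ R n y q) : OpC o τ R W := by
  refine ⟨fun k hk => ?_, fun k hk => ?_, fun ho => absurd ((hW _).1 ho) (sg_o h)⟩
  · rcases ((sg_τ h).1 ((hW _).1 hk)).lt_or_eq with h1 | rfl
    · obtain ⟨z, hz⟩ := h.ne k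
      exact ⟨z, hz, fun z' hz' => (hW _).2 (Or.inl ((lo_R h (h.left _ _ _ hz')).2 h1))⟩
    · exact ⟨y, hy, fun z hz => (hW z).2 (Or.inr hz)⟩
  · have h1 : k < n := INat.succ_le_iff.1 ((sg_τ h).1 ((hW _).1 hk))
    obtain ⟨z, hz⟩ := h.ne k
    exact ⟨z, hz, fun z' hz' => (hW _).2 (Or.inl ((lo_R h (h.right _ _ _ hz')).2 h1))⟩

theorem opC_sg' {n : INat M} {y : P} (hy : R (n, (y, y))) {W : IPow M P}
    (hW : ∀ q, q ∈ W ↔ ¬ Sg τ R n y q) : OpC o τ R W := by
  have key : ∀ k, n < k → ∀ z, R (k, (z, z)) → z ∈ W := by
    intro k hk z hz
    rw [hW]
    rintro (h1 | h1)
    · exact absurd ((lo_R h hz).1 h1) (not_lt.2 hk.le)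
    · exact absurd (h.uniq _ _ _ (h.left _ _ _ h1) hz) hk.ne
  refine ⟨fun k hk => ?_, fun k hk => ?_, fun ho => ⟨n.succ, fun p hp => (hW p).2 fun h1 =>
    hp (sg_lo h h1)⟩⟩
  · have h1 : n < k := not_le.1 fun h1 => (hW _).1 hk ((sg_τ h).2 h1)
    obtain ⟨z, hz⟩ := h.ne k
    exact ⟨z, hz, fun z' hz' => key k h1 z' (h.left _ _ _ hz')⟩
  · have h1 : n < k.succ := not_le.1 fun h1 => (hW _).1 hk ((sg_τ h).2 h1)
    rcases INat.lt_succ_iff'.1 h1 with h1 | rfl
    · obtain ⟨z, hz⟩ := h.ne k
      exact ⟨z, hz, fun z' hz' => key k h1 z' (h.right _ _ _ hz')⟩
    · obtain ⟨b, h2, h3⟩ := h.top _ _ hy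
      refine ⟨b, h.right _ _ _ h2, fun z hz => (hW z).2 ?_⟩
      rintro (h4 | h4)
      · exact absurd ((lo_R h (h.right _ _ _ hz)).1 h4) (lt_irrefl _)
      · exact h3 (h.antisymm _ _ _ (h.trans _ _ _ _ hz h4) h2)

theorem opC_hi {n : INat M} {W : IPow M P} (hW : ∀ q, q ∈ W ↔ ¬ Lo τ R n q) : OpC o τ R W := by
  refine ⟨fun k hk => ?_, fun k hk => ?_, fun ho => ⟨n, fun p hp => (hW p).2 hp⟩⟩
  · have h1 : n < k := not_le.1 fun h1 => (hW _).1 hk ((lo_τ h).2 h1)
    obtain ⟨z, hz⟩ := h.ne k
    refine ⟨z, hz, fun z' hz' => (hW _).2 fun h2 => ?_⟩
    exact absurd ((lo_R h (h.left _ _ _ hz')).1 h2) (not_lt.2 h1.le)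
  · have h1 : n < k.succ := not_le.1 fun h1 => (hW _).1 hk ((lo_τ h).2 h1)
    obtain ⟨z, hz⟩ := h.ne k
    refine ⟨z, hz, fun z' hz' => (hW _).2 fun h2 => ?_⟩
    exact absurd ((lo_R h (h.right _ _ _ hz')).1 h2) (not_lt.2 (INat.lt_succ_iff.1 h1))

/-- A base of clopen sets. -/
theorem opC_zd {U : IPow M P} (hU : OpC o τ R U) {p : P} (hp : p ∈ U) :
    ∃ C C' : IPow M P, OpC o τ R C ∧ OpC o τ R C' ∧ (∀ q, q ∈ C' ↔ ¬ q ∈ C) ∧ p ∈ C ∧
      ∀ q, q ∈ C → q ∈ U := by
  have hS := int_Sg h
  have hL := int_Lo h
  rcases h.cov p with rfl | ⟨n, rfl⟩ | ⟨n, h1⟩
  · obtain ⟨n, hn⟩ := hU.2.2 hp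
    obtain ⟨y, hy⟩ := h.ne n
    have hI : Int M (fun q => ¬ Sg τ R n y q) := by (repeat' (first | with_reducible exact IntF.id | with_reducible exact IntF.fst' | with_reducible exact IntF.snd' | with_reducible exact IntF.const _ | with_reducible exact Int.const _ | assumption | with_reducible apply Int.and | with_reducible apply Int.or | with_reducible apply Int.not | with_reducible apply Int.imp | with_reducible apply Int.iff | with_reducible apply Int.ne | with_reducible apply Int.eq | with_reducible apply Int.mem | with_reducible apply Int.subset | with_reducible apply Int.ltN | with_reducible apply Int.leN | with_reducible_and_instances apply Int.le | with_reducible_and_instances apply Int.lt | with_reducible apply Int.all | with_reducible apply Int.ex | with_reducible apply IntF.fst | with_reducible apply IntF.snd | with_reducible apply IntF.app | with_reducible apply IntF.inl | with_reducible apply IntF.inr | with_reducible_and_instances apply IntF.mul | with_reducible_and_instances apply IntF.inv | with_reducible_and_instances apply IntF.add | with_reducible_and_instances apply IntF.sub | with_reducible_and_instances apply IntF.neg | with_reducible_and_instances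 apply IntF.smul | with_reducible apply Int.fin | with_reducible apply IntF.sep | with_reducible apply IntF.lam | with_reducible apply IntF.insert | with_reducible apply IntF.singleton | with_reducible apply IntF.union | with_reducible apply IntF.iimage | with_reducible apply IntF.ite | with_reducible apply IntF.the | with_reducible apply IntF.irec | with_reducible apply IntF.succ | with_reducible apply IntF.val | with_reducible apply IntF.mk | (with_reducible refine Int.comp ?_ ?_; assumption) | (with_reducible refine Int.comp₂ ?_ ?_ ?_; assumption) | (with_reducible refine Int.comp₃ ?_ ?_ ?_ ?_; assumption) | (with_reducible refine Int.comp₄ ?_ ?_ ?_ ?_ ?_; assumption) | (with_reducible refine IntF.comp ?_ ?_; assumption) | (with_reducible refine IntF.comp₂ ?_ ?_ ?_; assumption) | (with_reducible refine IntF.comp₃ ?_ ?_ ?_ ?_; assumption) | with_reducible apply IntF.pair))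
    have hI' : Int M (fun q => Sg τ R n y q) := by (repeat' (first | with_reducible exact IntF.id | with_reducible exact IntF.fst' | with_reducible exact IntF.snd' | with_reducible exact IntF.const _ | with_reducible exact Int.const _ | assumption | with_reducible apply Int.and | with_reducible apply Int.or | with_reducible apply Int.not | with_reducible apply Int.imp | with_reducible apply Int.iff | with_reducible apply Int.ne | with_reducible apply Int.eq | with_reducible apply Int.mem | with_reducible apply Int.subset | with_reducible apply Int.ltN | with_reducible apply Int.leN | with_reducible_and_instances apply Int.le | with_reducible_and_instances apply Int.lt | with_reducible apply Int.all | with_reducible apply Int.ex | with_reducible apply IntF.fst | with_reducible apply IntF.snd | with_reducible apply IntF.app | with_reducible apply IntF.inl | with_reducible apply IntF.inr | with_reducible_and_instances apply IntF.mul | with_reducible_and_instances apply IntF.inv | with_reducible_and_instances apply IntF.add | with_reducible_and_instances apply IntF.sub | with_reducible_and_instances apply IntF.neg | with_reducible_and_instances apply IntF.smul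 | with_reducible apply Int.fin | with_reducible apply IntF.sep | with_reducible apply IntF.lam | with_reducible apply IntF.insert | with_reducible apply IntF.singleton | with_reducible apply IntF.union | with_reducible apply IntF.iimage | with_reducible apply IntF.ite | with_reducible apply IntF.the | with_reducible apply IntF.irec | with_reducible apply IntF.succ | with_reducible apply IntF.val | with_reducible apply IntF.mk | (with_reducible refine Int.comp ?_ ?_; assumption) | (with_reducible refine Int.comp₂ ?_ ?_ ?_; assumption) | (with_reducible refine Int.comp₃ ?_ ?_ ?_ ?_; assumption) | (with_reducible refine Int.comp₄ ?_ ?_ ?_ ?_ ?_; assumption) | (with_reducible refine IntF.comp ?_ ?_; assumption) | (with_reducible refine IntF.comp₂ ?_ ?_ ?_; assumption) | (with_reducible refine IntF.comp₃ ?_ ?_ ?_ ?_; assumption) | with_reducible apply IntF.pair))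
    refine ⟨sep M fun q => ¬ Sg τ R n y q, sep M fun q => Sg τ R n y q, opC_sg' h hy fun q =>
      mem_sep hI, opC_sg h hy fun q => mem_sep hI', fun q => ?_, (mem_sep hI).2 (sg_o h),
      fun q hq => hn q fun h2 => (mem_sep hI).1 hq (Or.inl h2)⟩
    rw [mem_sep hI, mem_sep hI', not_not]
  · obtain ⟨y, hy, h1⟩ := hU.1 n hp
    rcases INat.eq_zero_or_succ n with rfl | ⟨k, rfl⟩
    · have hI : Int M (fun q => ¬ Sg τ R 0 y q) := by (repeat' (first | with_reducible exact IntF.id | with_reducible exact IntF.fst' | with_reducible exact IntF.snd' | with_reducible exact IntF.const _ | with_reducible exact Int.const _ | assumption | with_reducible apply Int.and | with_reducible apply Int.or | with_reducible apply Int.not | with_reducible apply Int.imp | with_reducible apply Int.iff | with_reducible apply Int.ne | with_reducible apply Int.eq | with_reducible apply Int.mem | with_reducible apply Int.subset | with_reducible apply Int.ltN | with_reducible apply Int.leN | with_reducible_and_instances apply Int.le | with_reducible_and_instances apply Int.lt | with_reducible apply Int.all | with_reducible apply Int.ex | with_reducible apply IntF.fst | with_reducible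 apply IntF.snd | with_reducible apply IntF.app | with_reducible apply IntF.inl | with_reducible apply IntF.inr | with_reducible_and_instances apply IntF.mul | with_reducible_and_instances apply IntF.inv | with_reducible_and_instances apply IntF.add | with_reducible_and_instances apply IntF.sub | with_reducible_and_instances apply IntF.neg | with_reducible_and_instances apply IntF.smul | with_reducible apply Int.fin | with_reducible apply IntF.sep | with_reducible apply IntF.lam | with_reducible apply IntF.insert | with_reducible apply IntF.singleton | with_reducible apply IntF.union | with_reducible apply IntF.iimage | with_reducible apply IntF.ite | with_reducible apply IntF.the | with_reducible apply IntF.irec | with_reducible apply IntF.succ | with_reducible apply IntF.val | with_reducible apply IntF.mk | (with_reducible refine Int.comp ?_ ?_; assumption) | (with_reducible refine Int.comp₂ ?_ ?_ ?_; assumption) | (with_reducible refine Int.comp₃ ?_ ?_ ?_ ?_; assumption) | (with_reducible refine Int.comp₄ ?_ ?_ ?_ ?_ ?_; assumption) | (with_reducible refine IntF.comp ?_ ?_; assumption) | (with_reducible refine IntF.comp₂ ?_ ?_ ?_; assumption) | (with_reducible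 refine IntF.comp₃ ?_ ?_ ?_ ?_; assumption) | with_reducible apply IntF.pair))
      have hI' : Int M (fun q => Sg τ R 0 y q) := by (repeat' (first | with_reducible exact IntF.id | with_reducible exact IntF.fst' | with_reducible exact IntF.snd' | with_reducible exact IntF.const _ | with_reducible exact Int.const _ | assumption | with_reducible apply Int.and | with_reducible apply Int.or | with_reducible apply Int.not | with_reducible apply Int.imp | with_reducible apply Int.iff | with_reducible apply Int.ne | with_reducible apply Int.eq | with_reducible apply Int.mem | with_reducible apply Int.subset | with_reducible apply Int.ltN | with_reducible apply Int.leN | with_reducible_and_instances apply Int.le | with_reducible_and_instances apply Int.lt | with_reducible apply Int.all | with_reducible apply Int.ex | with_reducible apply IntF.fst | with_reducible apply IntF.snd | with_reducible apply IntF.app | with_reducible apply IntF.inl | with_reducible apply IntF.inr | with_reducible_and_instances apply IntF.mul | with_reducible_and_instances apply IntF.inv | with_reducible_and_instances apply IntF.add | with_reducible_and_instances apply IntF.sub | with_reducible_and_instances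 apply IntF.neg | with_reducible_and_instances apply IntF.smul | with_reducible apply Int.fin | with_reducible apply IntF.sep | with_reducible apply IntF.lam | with_reducible apply IntF.insert | with_reducible apply IntF.singleton | with_reducible apply IntF.union | with_reducible apply IntF.iimage | with_reducible apply IntF.ite | with_reducible apply IntF.the | with_reducible apply IntF.irec | with_reducible apply IntF.succ | with_reducible apply IntF.val | with_reducible apply IntF.mk | (with_reducible refine Int.comp ?_ ?_; assumption) | (with_reducible refine Int.comp₂ ?_ ?_ ?_; assumption) | (with_reducible refine Int.comp₃ ?_ ?_ ?_ ?_; assumption) | (with_reducible refine Int.comp₄ ?_ ?_ ?_ ?_ ?_; assumption) | (with_reducible refine IntF.comp ?_ ?_; assumption) | (with_reducible refine IntF.comp₂ ?_ ?_ ?_; assumption) | (with_reducible refine IntF.comp₃ ?_ ?_ ?_ ?_; assumption) | with_reducible apply IntF.pair))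
      refine ⟨sep M fun q => Sg τ R 0 y q, sep M fun q => ¬ Sg τ R 0 y q, opC_sg h hy fun q =>
        mem_sep hI', opC_sg' h hy fun q => mem_sep hI, fun q => ?_,
        (mem_sep hI').2 ((sg_τ h).2 le_rfl), fun q hq => ?_⟩
      · rw [mem_sep hI, mem_sep hI']
      · rcases (mem_sep hI').1 hq with h2 | h2
        · rw [(lo_zero h).1 h2]
          exact hp
        · exact h1 q h2
    · obtain ⟨y', hy', h2⟩ := hU.2.1 k hp
      have hI : Int M (fun q => ¬ Sg τ R k y' q) := by (repeat' (first | with_reducible exact IntF.id | with_reducible exact IntF.fst' | with_reducible exact IntF.snd' | with_reducible exact IntF.const _ | with_reducible exact Int.const _ | assumption | with_reducible apply Int.and | with_reducible apply Int.or | with_reducible apply Int.not | with_reducible apply Int.imp | with_reducible apply Int.iff | with_reducible apply Int.ne | with_reducible apply Int.eq | with_reducible apply Int.mem | with_reducible apply Int.subset | with_reducible apply Int.ltN | with_reducible apply Int.leN | with_reducible_and_instances apply Int.le | with_reducible_and_instances apply Int.lt | with_reducible apply Int.all | with_reducible apply Int.ex | with_reducible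 apply IntF.fst | with_reducible apply IntF.snd | with_reducible apply IntF.app | with_reducible apply IntF.inl | with_reducible apply IntF.inr | with_reducible_and_instances apply IntF.mul | with_reducible_and_instances apply IntF.inv | with_reducible_and_instances apply IntF.add | with_reducible_and_instances apply IntF.sub | with_reducible_and_instances apply IntF.neg | with_reducible_and_instances apply IntF.smul | with_reducible apply Int.fin | with_reducible apply IntF.sep | with_reducible apply IntF.lam | with_reducible apply IntF.insert | with_reducible apply IntF.singleton | with_reducible apply IntF.union | with_reducible apply IntF.iimage | with_reducible apply IntF.ite | with_reducible apply IntF.the | with_reducible apply IntF.irec | with_reducible apply IntF.succ | with_reducible apply IntF.val | with_reducible apply IntF.mk | (with_reducible refine Int.comp ?_ ?_; assumption) | (with_reducible refine Int.comp₂ ?_ ?_ ?_; assumption) | (with_reducible refine Int.comp₃ ?_ ?_ ?_ ?_; assumption) | (with_reducible refine Int.comp₄ ?_ ?_ ?_ ?_ ?_; assumption) | (with_reducible refine IntF.comp ?_ ?_; assumption) | (with_reducible refine IntF.comp₂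 ?_ ?_ ?_; assumption) | (with_reducible refine IntF.comp₃ ?_ ?_ ?_ ?_; assumption) | with_reducible apply IntF.pair))
      have hI' : Int M (fun q => Sg τ R k.succ y q) := by (repeat' (first | with_reducible exact IntF.id | with_reducible exact IntF.fst' | with_reducible exact IntF.snd' | with_reducible exact IntF.const _ | with_reducible exact Int.const _ | assumption | with_reducible apply Int.and | with_reducible apply Int.or | with_reducible apply Int.not | with_reducible apply Int.imp | with_reducible apply Int.iff | with_reducible apply Int.ne | with_reducible apply Int.eq | with_reducible apply Int.mem | with_reducible apply Int.subset | with_reducible apply Int.ltN | with_reducible apply Int.leN | with_reducible_and_instances apply Int.le | with_reducible_and_instances apply Int.lt | with_reducible apply Int.all | with_reducible apply Int.ex | with_reducible apply IntF.fst | with_reducible apply IntF.snd | with_reducible apply IntF.app | with_reducible apply IntF.inl | with_reducible apply IntF.inr | with_reducible_and_instances apply IntF.mul | with_reducible_and_instances apply IntF.inv | with_reducible_and_instances apply IntF.add | with_reducible_and_instances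 apply IntF.sub | with_reducible_and_instances apply IntF.neg | with_reducible_and_instances apply IntF.smul | with_reducible apply Int.fin | with_reducible apply IntF.sep | with_reducible apply IntF.lam | with_reducible apply IntF.insert | with_reducible apply IntF.singleton | with_reducible apply IntF.union | with_reducible apply IntF.iimage | with_reducible apply IntF.ite | with_reducible apply IntF.the | with_reducible apply IntF.irec | with_reducible apply IntF.succ | with_reducible apply IntF.val | with_reducible apply IntF.mk | (with_reducible refine Int.comp ?_ ?_; assumption) | (with_reducible refine Int.comp₂ ?_ ?_ ?_; assumption) | (with_reducible refine Int.comp₃ ?_ ?_ ?_ ?_; assumption) | (with_reducible refine Int.comp₄ ?_ ?_ ?_ ?_ ?_; assumption) | (with_reducible refine IntF.comp ?_ ?_; assumption) | (with_reducible refine IntF.comp₂ ?_ ?_ ?_; assumption) | (with_reducible refine IntF.comp₃ ?_ ?_ ?_ ?_; assumption) | with_reducible apply IntF.pair))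
      have hJ : Int M (fun q => Sg τ R k y' q) := by (repeat' (first | with_reducible exact IntF.id | with_reducible exact IntF.fst' | with_reducible exact IntF.snd' | with_reducible exact IntF.const _ | with_reducible exact Int.const _ | assumption | with_reducible apply Int.and | with_reducible apply Int.or | with_reducible apply Int.not | with_reducible apply Int.imp | with_reducible apply Int.iff | with_reducible apply Int.ne | with_reducible apply Int.eq | with_reducible apply Int.mem | with_reducible apply Int.subset | with_reducible apply Int.ltN | with_reducible apply Int.leN | with_reducible_and_instances apply Int.le | with_reducible_and_instances apply Int.lt | with_reducible apply Int.all | with_reducible apply Int.ex | with_reducible apply IntF.fst | with_reducible apply IntF.snd | with_reducible apply IntF.app | with_reducible apply IntF.inl | with_reducible apply IntF.inr | with_reducible_and_instances apply IntF.mul | with_reducible_and_instances apply IntF.inv | with_reducible_and_instances apply IntF.add | with_reducible_and_instances apply IntF.sub | with_reducible_and_instances apply IntF.neg | with_reducible_and_instances apply IntF.smul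 | with_reducible apply Int.fin | with_reducible apply IntF.sep | with_reducible apply IntF.lam | with_reducible apply IntF.insert | with_reducible apply IntF.singleton | with_reducible apply IntF.union | with_reducible apply IntF.iimage | with_reducible apply IntF.ite | with_reducible apply IntF.the | with_reducible apply IntF.irec | with_reducible apply IntF.succ | with_reducible apply IntF.val | with_reducible apply IntF.mk | (with_reducible refine Int.comp ?_ ?_; assumption) | (with_reducible refine Int.comp₂ ?_ ?_ ?_; assumption) | (with_reducible refine Int.comp₃ ?_ ?_ ?_ ?_; assumption) | (with_reducible refine Int.comp₄ ?_ ?_ ?_ ?_ ?_; assumption) | (with_reducible refine IntF.comp ?_ ?_; assumption) | (with_reducible refine IntF.comp₂ ?_ ?_ ?_; assumption) | (with_reducible refine IntF.comp₃ ?_ ?_ ?_ ?_; assumption) | with_reducible apply IntF.pair))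
      have hJ' : Int M (fun q => ¬ Sg τ R k.succ y q) := by (repeat' (first | with_reducible exact IntF.id | with_reducible exact IntF.fst' | with_reducible exact IntF.snd' | with_reducible exact IntF.const _ | with_reducible exact Int.const _ | assumption | with_reducible apply Int.and | with_reducible apply Int.or | with_reducible apply Int.not | with_reducible apply Int.imp | with_reducible apply Int.iff | with_reducible apply Int.ne | with_reducible apply Int.eq | with_reducible apply Int.mem | with_reducible apply Int.subset | with_reducible apply Int.ltN | with_reducible apply Int.leN | with_reducible_and_instances apply Int.le | with_reducible_and_instances apply Int.lt | with_reducible apply Int.all | with_reducible apply Int.ex | with_reducible apply IntF.fst | with_reducible apply IntF.snd | with_reducible apply IntF.app | with_reducible apply IntF.inl | with_reducible apply IntF.inr | with_reducible_and_instances apply IntF.mul | with_reducible_and_instances apply IntF.inv | with_reducible_and_instances apply IntF.add | with_reducible_and_instances apply IntF.sub | with_reducible_and_instances apply IntF.neg | with_reducible_and_instances apply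 IntF.smul | with_reducible apply Int.fin | with_reducible apply IntF.sep | with_reducible apply IntF.lam | with_reducible apply IntF.insert | with_reducible apply IntF.singleton | with_reducible apply IntF.union | with_reducible apply IntF.iimage | with_reducible apply IntF.ite | with_reducible apply IntF.the | with_reducible apply IntF.irec | with_reducible apply IntF.succ | with_reducible apply IntF.val | with_reducible apply IntF.mk | (with_reducible refine Int.comp ?_ ?_; assumption) | (with_reducible refine Int.comp₂ ?_ ?_ ?_; assumption) | (with_reducible refine Int.comp₃ ?_ ?_ ?_ ?_; assumption) | (with_reducible refine Int.comp₄ ?_ ?_ ?_ ?_ ?_; assumption) | (with_reducible refine IntF.comp ?_ ?_; assumption) | (with_reducible refine IntF.comp₂ ?_ ?_ ?_; assumption) | (with_reducible refine IntF.comp₃ ?_ ?_ ?_ ?_; assumption) | with_reducible apply IntF.pair))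
      have hK : Int M (fun q => Sg τ R k.succ y q ∧ ¬ Sg τ R k y' q) := by (repeat' (first | with_reducible exact IntF.id | with_reducible exact IntF.fst' | with_reducible exact IntF.snd' | with_reducible exact IntF.const _ | with_reducible exact Int.const _ | assumption | with_reducible apply Int.and | with_reducible apply Int.or | with_reducible apply Int.not | with_reducible apply Int.imp | with_reducible apply Int.iff | with_reducible apply Int.ne | with_reducible apply Int.eq | with_reducible apply Int.mem | with_reducible apply Int.subset | with_reducible apply Int.ltN | with_reducible apply Int.leN | with_reducible_and_instances apply Int.le | with_reducible_and_instances apply Int.lt | with_reducible apply Int.all | with_reducible apply Int.ex | with_reducible apply IntF.fst | with_reducible apply IntF.snd | with_reducible apply IntF.app | with_reducible apply IntF.inl | with_reducible apply IntF.inr | with_reducible_and_instances apply IntF.mul | with_reducible_and_instances apply IntF.inv | with_reducible_and_instances apply IntF.add | with_reducible_and_instances apply IntF.sub | with_reducible_and_instances apply IntF.neg | with_reducible_and_instances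 apply IntF.smul | with_reducible apply Int.fin | with_reducible apply IntF.sep | with_reducible apply IntF.lam | with_reducible apply IntF.insert | with_reducible apply IntF.singleton | with_reducible apply IntF.union | with_reducible apply IntF.iimage | with_reducible apply IntF.ite | with_reducible apply IntF.the | with_reducible apply IntF.irec | with_reducible apply IntF.succ | with_reducible apply IntF.val | with_reducible apply IntF.mk | (with_reducible refine Int.comp ?_ ?_; assumption) | (with_reducible refine Int.comp₂ ?_ ?_ ?_; assumption) | (with_reducible refine Int.comp₃ ?_ ?_ ?_ ?_; assumption) | (with_reducible refine Int.comp₄ ?_ ?_ ?_ ?_ ?_; assumption) | (with_reducible refine IntF.comp ?_ ?_; assumption) | (with_reducible refine IntF.comp₂ ?_ ?_ ?_; assumption) | (with_reducible refine IntF.comp₃ ?_ ?_ ?_ ?_; assumption) | with_reducible apply IntF.pair))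
      have hK' : Int M (fun q => ¬ Sg τ R k.succ y q ∨ Sg τ R k y' q) := by (repeat' (first | with_reducible exact IntF.id | with_reducible exact IntF.fst' | with_reducible exact IntF.snd' | with_reducible exact IntF.const _ | with_reducible exact Int.const _ | assumption | with_reducible apply Int.and | with_reducible apply Int.or | with_reducible apply Int.not | with_reducible apply Int.imp | with_reducible apply Int.iff | with_reducible apply Int.ne | with_reducible apply Int.eq | with_reducible apply Int.mem | with_reducible apply Int.subset | with_reducible apply Int.ltN | with_reducible apply Int.leN | with_reducible_and_instances apply Int.le | with_reducible_and_instances apply Int.lt | with_reducible apply Int.all | with_reducible apply Int.ex | with_reducible apply IntF.fst | with_reducible apply IntF.snd | with_reducible apply IntF.app | with_reducible apply IntF.inl | with_reducible apply IntF.inr | with_reducible_and_instances apply IntF.mul | with_reducible_and_instances apply IntF.inv | with_reducible_and_instances apply IntF.add | with_reducible_and_instances apply IntF.sub | with_reducible_and_instances apply IntF.neg | with_reducible_and_instances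 apply IntF.smul | with_reducible apply Int.fin | with_reducible apply IntF.sep | with_reducible apply IntF.lam | with_reducible apply IntF.insert | with_reducible apply IntF.singleton | with_reducible apply IntF.union | with_reducible apply IntF.iimage | with_reducible apply IntF.ite | with_reducible apply IntF.the | with_reducible apply IntF.irec | with_reducible apply IntF.succ | with_reducible apply IntF.val | with_reducible apply IntF.mk | (with_reducible refine Int.comp ?_ ?_; assumption) | (with_reducible refine Int.comp₂ ?_ ?_ ?_; assumption) | (with_reducible refine Int.comp₃ ?_ ?_ ?_ ?_; assumption) | (with_reducible refine Int.comp₄ ?_ ?_ ?_ ?_ ?_; assumption) | (with_reducible refine IntF.comp ?_ ?_; assumption) | (with_reducible refine IntF.comp₂ ?_ ?_ ?_; assumption) | (with_reducible refine IntF.comp₃ ?_ ?_ ?_ ?_; assumption) | with_reducible apply IntF.pair))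
      refine ⟨sep M fun q => Sg τ R k.succ y q ∧ ¬ Sg τ R k y' q,
        sep M fun q => ¬ Sg τ R k.succ y q ∨ Sg τ R k y' q,
        opC_inter h (U := sep M fun q => Sg τ R k.succ y q) (V := sep M fun q => ¬ Sg τ R k y' q)
          (opC_sg h hy fun q => mem_sep hI') (opC_sg' h hy' fun q => mem_sep hI) fun q => ?_,
        opC_union (C := {sep M fun q => ¬ Sg τ R k.succ y q, sep M fun q => Sg τ R k y' q})
          (fun V hV => ?_) (fun q => ?_), fun q => ?_, ?_, fun q hq => ?_⟩
      · rw [mem_sep hK, mem_sep hI, mem_sep hI']
      · rcases mem_insert.1 hV with rfl | hV
        · exact opC_sg' h hy fun q => mem_sep hJ'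
        · rw [mem_singleton.1 hV]
          exact opC_sg h hy' fun q => mem_sep hJ
      · rw [mem_sep hK']
        constructor
        · rintro (h3 | h3)
          · exact ⟨_, mem_insert.2 (Or.inl rfl), (mem_sep hJ').2 h3⟩
          · exact ⟨_, mem_insert.2 (Or.inr (mem_singleton.2 rfl)), (mem_sep hJ).2 h3⟩
        · rintro ⟨V, hV, h3⟩
          rcases mem_insert.1 hV with rfl | hV
          · exact Or.inl ((mem_sep hJ').1 h3)
          · rw [mem_singleton.1 hV] at h3
            exact Or.inr ((mem_sep hJ).1 h3)
      · rw [mem_sep hK, mem_sep hK', not_and_or, not_not]
      · rw [mem_sep hK, sg_τ h, sg_τ h]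
        exact ⟨le_rfl, not_le.2 (INat.lt_succ_self k)⟩
      · obtain ⟨h3, h4⟩ := (mem_sep hK).1 hq
        rcases h3 with h3 | h3
        · rcases (lo_succ h).1 h3 with h5 | h5 | rfl
          · exact absurd (Or.inl h5) h4
          · rcases h.total _ _ _ h5 hy' with h6 | h6
            · exact absurd (Or.inr h6) h4
            · exact h2 q h6
          · exact hp
        · exact h1 q h3
  · have hI : Int M (fun q : P => q = p) := by (repeat' (first | with_reducible exact IntF.id | with_reducible exact IntF.fst' | with_reducible exact IntF.snd' | with_reducible exact IntF.const _ | with_reducible exact Int.const _ | assumption | with_reducible apply Int.and | with_reducible apply Int.or | with_reducible apply Int.not | with_reducible apply Int.imp | with_reducible apply Int.iff | with_reducible apply Int.ne | with_reducible apply Int.eq | with_reducible apply Int.mem | with_reducible apply Int.subset | with_reducible apply Int.ltN | with_reducible apply Int.leN | with_reducible_and_instances apply Int.le | with_reducible_and_instances apply Int.lt | with_reducible apply Int.all | with_reducible apply Int.ex | with_reducible apply IntF.fst | with_reducible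 apply IntF.snd | with_reducible apply IntF.app | with_reducible apply IntF.inl | with_reducible apply IntF.inr | with_reducible_and_instances apply IntF.mul | with_reducible_and_instances apply IntF.inv | with_reducible_and_instances apply IntF.add | with_reducible_and_instances apply IntF.sub | with_reducible_and_instances apply IntF.neg | with_reducible_and_instances apply IntF.smul | with_reducible apply Int.fin | with_reducible apply IntF.sep | with_reducible apply IntF.lam | with_reducible apply IntF.insert | with_reducible apply IntF.singleton | with_reducible apply IntF.union | with_reducible apply IntF.iimage | with_reducible apply IntF.ite | with_reducible apply IntF.the | with_reducible apply IntF.irec | with_reducible apply IntF.succ | with_reducible apply IntF.val | with_reducible apply IntF.mk | (with_reducible refine Int.comp ?_ ?_; assumption) | (with_reducible refine Int.comp₂ ?_ ?_ ?_; assumption) | (with_reducible refine Int.comp₃ ?_ ?_ ?_ ?_; assumption) | (with_reducible refine Int.comp₄ ?_ ?_ ?_ ?_ ?_; assumption) | (with_reducible refine IntF.comp ?_ ?_; assumption) | (with_reducible refine IntF.comp₂ ?_ ?_ ?_; assumption) | (with_reducible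 refine IntF.comp₃ ?_ ?_ ?_ ?_; assumption) | with_reducible apply IntF.pair))
    have hI' : Int M (fun q : P => q ≠ p) := by (repeat' (first | with_reducible exact IntF.id | with_reducible exact IntF.fst' | with_reducible exact IntF.snd' | with_reducible exact IntF.const _ | with_reducible exact Int.const _ | assumption | with_reducible apply Int.and | with_reducible apply Int.or | with_reducible apply Int.not | with_reducible apply Int.imp | with_reducible apply Int.iff | with_reducible apply Int.ne | with_reducible apply Int.eq | with_reducible apply Int.mem | with_reducible apply Int.subset | with_reducible apply Int.ltN | with_reducible apply Int.leN | with_reducible_and_instances apply Int.le | with_reducible_and_instances apply Int.lt | with_reducible apply Int.all | with_reducible apply Int.ex | with_reducible apply IntF.fst | with_reducible apply IntF.snd | with_reducible apply IntF.app | with_reducible apply IntF.inl | with_reducible apply IntF.inr | with_reducible_and_instances apply IntF.mul | with_reducible_and_instances apply IntF.inv | with_reducible_and_instances apply IntF.add | with_reducible_and_instances apply IntF.sub | with_reducible_and_instances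 apply IntF.neg | with_reducible_and_instances apply IntF.smul | with_reducible apply Int.fin | with_reducible apply IntF.sep | with_reducible apply IntF.lam | with_reducible apply IntF.insert | with_reducible apply IntF.singleton | with_reducible apply IntF.union | with_reducible apply IntF.iimage | with_reducible apply IntF.ite | with_reducible apply IntF.the | with_reducible apply IntF.irec | with_reducible apply IntF.succ | with_reducible apply IntF.val | with_reducible apply IntF.mk | (with_reducible refine Int.comp ?_ ?_; assumption) | (with_reducible refine Int.comp₂ ?_ ?_ ?_; assumption) | (with_reducible refine Int.comp₃ ?_ ?_ ?_ ?_; assumption) | (with_reducible refine Int.comp₄ ?_ ?_ ?_ ?_ ?_; assumption) | (with_reducible refine IntF.comp ?_ ?_; assumption) | (with_reducible refine IntF.comp₂ ?_ ?_ ?_; assumption) | (with_reducible refine IntF.comp₃ ?_ ?_ ?_ ?_; assumption) | with_reducible apply IntF.pair))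
    refine ⟨sep M fun q => q = p, sep M fun q => q ≠ p, opC_single h h1 fun q => mem_sep hI,
      opC_ne h p fun q => mem_sep hI', fun q => ?_, (mem_sep hI).2 rfl, fun q hq => ?_⟩
    · rw [mem_sep hI, mem_sep hI']
    · rw [(mem_sep hI).1 hq]
      exact hp

/-! ### Compactness -/

omit h in
theorem cover_fin {C : IPow M (IPow M P)} {p : P → Prop} (hp : FinP M p)
    (hC : ∀ q, p q → ∃ U, U ∈ C ∧ q ∈ U) : ∃ C' : IPow M (IPow M P), IFin C' ∧
      (∀ U, U ∈ C' → U ∈ C) ∧ ∀ q, p q → ∃ U, U ∈ C' ∧ q ∈ U := by
  obtain ⟨A, hA, h1⟩ := hp
  have key : ∀ A : IPow M P, IFin A → ∃ C' : IPow M (IPow M P), IFin C' ∧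
      (∀ U, U ∈ C' → U ∈ C) ∧ ∀ q, q ∈ A → (∃ U, U ∈ C ∧ q ∈ U) → ∃ U, U ∈ C' ∧ q ∈ U := by
    refine IFin.ind (by (repeat' (first | with_reducible exact IntF.id | with_reducible exact IntF.fst' | with_reducible exact IntF.snd' | with_reducible exact IntF.const _ | with_reducible exact Int.const _ | assumption | with_reducible apply Int.and | with_reducible apply Int.or | with_reducible apply Int.not | with_reducible apply Int.imp | with_reducible apply Int.iff | with_reducible apply Int.ne | with_reducible apply Int.eq | with_reducible apply Int.mem | with_reducible apply Int.subset | with_reducible apply Int.ltN | with_reducible apply Int.leN | with_reducible_and_instances apply Int.le | with_reducible_and_instances apply Int.lt | with_reducible apply Int.all | with_reducible apply Int.ex | with_reducible apply IntF.fst | with_reducible apply IntF.snd | with_reducible apply IntF.app | with_reducible apply IntF.inl | with_reducible apply IntF.inr | with_reducible_and_instances apply IntF.mul | with_reducible_and_instances apply IntF.inv | with_reducible_and_instances apply IntF.add | with_reducible_and_instances apply IntF.sub | with_reducible_and_instances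 apply IntF.neg | with_reducible_and_instances apply IntF.smul | with_reducible apply Int.fin | with_reducible apply IntF.sep | with_reducible apply IntF.lam | with_reducible apply IntF.insert | with_reducible apply IntF.singleton | with_reducible apply IntF.union | with_reducible apply IntF.iimage | with_reducible apply IntF.ite | with_reducible apply IntF.the | with_reducible apply IntF.irec | with_reducible apply IntF.succ | with_reducible apply IntF.val | with_reducible apply IntF.mk | (with_reducible refine Int.comp ?_ ?_; assumption) | (with_reducible refine Int.comp₂ ?_ ?_ ?_; assumption) | (with_reducible refine Int.comp₃ ?_ ?_ ?_ ?_; assumption) | (with_reducible refine Int.comp₄ ?_ ?_ ?_ ?_ ?_; assumption) | (with_reducible refine IntF.comp ?_ ?_; assumption) | (with_reducible refine IntF.comp₂ ?_ ?_ ?_; assumption) | (with_reducible refine IntF.comp₃ ?_ ?_ ?_ ?_; assumption) | with_reducible apply IntF.pair))) ?_ ?_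
    · exact ⟨∅, IFin.empty, fun U hU => absurd hU (by simp), fun q hq => absurd hq (by simp)⟩
    · rintro A a _ _ ⟨C', h2, h3, h4⟩
      by_cases h5 : ∃ U, U ∈ C ∧ a ∈ U
      · obtain ⟨U, hU, haU⟩ := h5
        refine ⟨insert U C', h2.insert U, fun V hV => ?_, fun q hq hq' => ?_⟩
        · rcases mem_insert.1 hV with rfl | hV
          · exact hU
          · exact h3 V hV
        · rcases mem_insert.1 hq with rfl | hq
          · exact ⟨U, mem_insert.2 (Or.inl rfl), haU⟩
          · obtain ⟨V, hV, hqV⟩ := h4 q hq hq'
            exact ⟨V, mem_insert.2 (Or.inr hV), hqV⟩
      · refine ⟨C', h2, h3, fun q hq hq' => ?_⟩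
        rcases mem_insert.1 hq with rfl | hq
        · exact absurd hq' h5
        · exact h4 q hq hq'
  obtain ⟨C', h2, h3, h4⟩ := key A hA
  exact ⟨C', h2, h3, fun q hq => h4 q (h1 q hq) (hC q hq)⟩

theorem compact_lo {C : IPow M (IPow M P)} (hC : ∀ U, U ∈ C → OpC o τ R U) (n : INat M)
    (hcov : ∀ q, Lo τ R n q → ∃ U, U ∈ C ∧ q ∈ U) : ∃ C' : IPow M (IPow M P), IFin C' ∧
      (∀ U, U ∈ C' → U ∈ C) ∧ ∀ q, Lo τ R n q → ∃ U, U ∈ C' ∧ q ∈ U := by
  have hL := int_Lo h
  revert hcov
  refine INat.ind (p := fun n => (∀ q, Lo τ R n q → ∃ U, U ∈ C ∧ q ∈ U) →
    ∃ C' : IPow M (IPow M P), IFin C' ∧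
      (∀ U, U ∈ C' → U ∈ C) ∧ ∀ q, Lo τ R n q → ∃ U, U ∈ C' ∧ q ∈ U) (by (repeat' (first | with_reducible exact IntF.id | with_reducible exact IntF.fst' | with_reducible exact IntF.snd' | with_reducible exact IntF.const _ | with_reducible exact Int.const _ | assumption | with_reducible apply Int.and | with_reducible apply Int.or | with_reducible apply Int.not | with_reducible apply Int.imp | with_reducible apply Int.iff | with_reducible apply Int.ne | with_reducible apply Int.eq | with_reducible apply Int.mem | with_reducible apply Int.subset | with_reducible apply Int.ltN | with_reducible apply Int.leN | with_reducible_and_instances apply Int.le | with_reducible_and_instances apply Int.lt | with_reducible apply Int.all | with_reducible apply Int.ex | with_reducible apply IntF.fst | with_reducible apply IntF.snd | with_reducible apply IntF.app | with_reducible apply IntF.inl | with_reducible apply IntF.inr | with_reducible_and_instances apply IntF.mul | with_reducible_and_instances apply IntF.inv | with_reducible_and_instances apply IntF.add | with_reducible_and_instances apply IntF.sub | with_reducible_and_instances apply IntF.neg | with_reducible_and_instances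 apply IntF.smul | with_reducible apply Int.fin | with_reducible apply IntF.sep | with_reducible apply IntF.lam | with_reducible apply IntF.insert | with_reducible apply IntF.singleton | with_reducible apply IntF.union | with_reducible apply IntF.iimage | with_reducible apply IntF.ite | with_reducible apply IntF.the | with_reducible apply IntF.irec | with_reducible apply IntF.succ | with_reducible apply IntF.val | with_reducible apply IntF.mk | (with_reducible refine Int.comp ?_ ?_; assumption) | (with_reducible refine Int.comp₂ ?_ ?_ ?_; assumption) | (with_reducible refine Int.comp₃ ?_ ?_ ?_ ?_; assumption) | (with_reducible refine Int.comp₄ ?_ ?_ ?_ ?_ ?_; assumption) | (with_reducible refine IntF.comp ?_ ?_; assumption) | (with_reducible refine IntF.comp₂ ?_ ?_ ?_; assumption) | (with_reducible refine IntF.comp₃ ?_ ?_ ?_ ?_; assumption) | with_reducible apply IntF.pair))) ?_ ?_ n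
  · intro hcov
    obtain ⟨U, hU, h1⟩ := hcov (τ 0) ((lo_zero h).2 rfl)
    refine ⟨{U}, IFin.singleton U, fun V hV => ?_, fun q hq => ⟨U, mem_singleton.2 rfl, ?_⟩⟩
    · rw [mem_singleton.1 hV]
      exact hU
    · rw [(lo_zero h).1 hq]
      exact h1
  · intro n ih hcov
    obtain ⟨C', h1, h2, h3⟩ := ih fun q hq => hcov q (lo_mono (INat.le_succ_self n) hq)
    obtain ⟨U1, hU1, h4⟩ := h3 (τ n) ((lo_τ h).2 le_rfl)
    obtain ⟨U2, hU2, h5⟩ := hcov (τ n.succ) ((lo_τ h).2 le_rfl)
    obtain ⟨y1, hy1, h6⟩ := (hC U1 (h2 _ hU1)).1 n h4
    obtain ⟨y2, hy2, h7⟩ := (hC U2 hU2).2.1 n h5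
    obtain ⟨C'', h8, h9, h10⟩ := cover_fin (C := C) (h.fin n y1 y2) fun q hq =>
      hcov q ((lo_R h (h.right _ _ _ hq.1)).2 (INat.lt_succ_self n))
    refine ⟨insert U2 (C' ∪ C''), (h1.union h8).insert U2, fun V hV => ?_, fun q hq => ?_⟩
    · rcases mem_insert.1 hV with rfl | hV
      · exact hU2
      · rcases mem_union.1 hV with hV | hV
        · exact h2 V hV
        · exact h9 V hV
    · rcases (lo_succ h).1 hq with h11 | h11 | rfl
      · obtain ⟨V, hV, hqV⟩ := h3 q h11
        exact ⟨V, mem_insert.2 (Or.inr (mem_union.2 (Or.inl hV))), hqV⟩
      · rcases h.total _ _ _ h11 hy1 with h12 | h12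
        · exact ⟨U1, mem_insert.2 (Or.inr (mem_union.2 (Or.inl hU1))), h6 q h12⟩
        · rcases h.total _ _ _ h11 hy2 with h13 | h13
          · obtain ⟨V, hV, hqV⟩ := h10 q ⟨h12, h13⟩
            exact ⟨V, mem_insert.2 (Or.inr (mem_union.2 (Or.inr hV))), hqV⟩
          · exact ⟨U2, mem_insert.2 (Or.inl rfl), h7 q h13⟩
      · exact ⟨U2, mem_insert.2 (Or.inl rfl), h5⟩

theorem compact_all {C : IPow M (IPow M P)} (hC : ∀ U, U ∈ C → OpC o τ R U)
    (hcov : ∀ q, ∃ U, U ∈ C ∧ q ∈ U) : ∃ C' : IPow M (IPow M P), IFin C' ∧
      (∀ U, U ∈ C' → U ∈ C) ∧ ∀ q, ∃ U, U ∈ C' ∧ q ∈ U := by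
  obtain ⟨U, hU, h1⟩ := hcov o
  obtain ⟨n, hn⟩ := (hC U hU).2.2 h1
  obtain ⟨C', h2, h3, h4⟩ := compact_lo h hC n fun q _ => hcov q
  refine ⟨insert U C', h2.insert U, fun V hV => ?_, fun q => ?_⟩
  · rcases mem_insert.1 hV with rfl | hV
    · exact hU
    · exact h3 V hV
  · by_cases hq : Lo τ R n q
    · obtain ⟨V, hV, hqV⟩ := h4 q hq
      exact ⟨V, mem_insert.2 (Or.inr hV), hqV⟩
    · exact ⟨U, mem_insert.2 (Or.inl rfl), hn q hq⟩

/-- The retraction to the points up to `τ n`. -/
theorem opC_retr {n : INat M} {V W : IPow M P} (hV : OpC o τ R V)
    (hW : ∀ p, p ∈ W ↔ (Lo τ R n p ∧ p ∈ V) ∨ (¬ Lo τ R n p ∧ τ n ∈ V)) : OpC o τ R W := by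
  refine ⟨fun k hk => ?_, fun k hk => ?_, fun ho => ?_⟩
  · rcases (hW _).1 hk with ⟨h1, h2⟩ | ⟨h1, h2⟩
    · rcases ((lo_τ h).1 h1).lt_or_eq with h3 | rfl
      · obtain ⟨y, hy, h4⟩ := hV.1 k h2
        exact ⟨y, hy, fun z hz => (hW z).2 (Or.inl ⟨(lo_R h (h.left _ _ _ hz)).2 h3, h4 z hz⟩)⟩
      · obtain ⟨y, hy⟩ := h.ne k
        exact ⟨y, hy, fun z hz => (hW z).2 (Or.inr ⟨fun h4 =>
          absurd ((lo_R h (h.left _ _ _ hz)).1 h4) (lt_irrefl _), h2⟩)⟩
    · have h3 : n < k := not_le.1 fun h3 => h1 ((lo_τ h).2 h3)
      obtain ⟨y, hy⟩ := h.ne k
      exact ⟨y, hy, fun z hz => (hW z).2 (Or.inr ⟨fun h4 =>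
        absurd ((lo_R h (h.left _ _ _ hz)).1 h4) (not_lt.2 h3.le), h2⟩)⟩
  · rcases (hW _).1 hk with ⟨h1, h2⟩ | ⟨h1, h2⟩
    · have h3 : k < n := INat.succ_le_iff.1 ((lo_τ h).1 h1)
      obtain ⟨y, hy, h4⟩ := hV.2.1 k h2
      exact ⟨y, hy, fun z hz => (hW z).2 (Or.inl ⟨(lo_R h (h.right _ _ _ hz)).2 h3, h4 z hz⟩)⟩
    · have h3 : n < k.succ := not_le.1 fun h3 => h1 ((lo_τ h).2 h3)
      obtain ⟨y, hy⟩ := h.ne k
      exact ⟨y, hy, fun z hz => (hW z).2 (Or.inr ⟨fun h4 =>
        absurd ((lo_R h (h.right _ _ _ hz)).1 h4) (not_lt.2 (INat.lt_succ_iff.1 h3)), h2⟩)⟩
  · rcases (hW _).1 ho with ⟨h1, h2⟩ | ⟨h1, h2⟩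
    · exact absurd h1 (lo_o h)
    · exact ⟨n, fun p hp => (hW p).2 (Or.inr ⟨hp, h2⟩)⟩

/-! ### Sequences -/

/-- The points up to `τ n` are the intersection of a sequence of clopen sets. -/
theorem seq_lo (n : INat M) : ∃ y : INat M → P, IntF M y ∧ (∀ m, R (n, (y m, y m))) ∧
    ∀ p, Lo τ R n p ↔ ∀ m, Sg τ R n (y m) p := by
  obtain ⟨y, hy, h1, h2⟩ := h.dn n
  refine ⟨y, hy, h1, fun p => ⟨fun h3 m => Or.inl h3, fun h3 => ?_⟩⟩
  by_contra hc
  have h4 : ∀ m, R (n, (p, y m)) := fun m => (h3 m).resolve_left hc
  obtain ⟨b, h5, h6⟩ := h.bot n p (h.left _ _ _ (h4 0))
  obtain ⟨m, h7⟩ := h2 b (h.left _ _ _ h5)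
  exact h6 (h.antisymm _ _ _ h5 (h.trans _ _ _ _ (h4 m) h7))

/-- The points from `τ (n + 1)` on are the intersection of a sequence of clopen sets. -/
theorem seq_hi (n : INat M) : ∃ y : INat M → P, IntF M y ∧ (∀ m, R (n, (y m, y m))) ∧
    ∀ p, (¬ Lo τ R n.succ p ∨ p = τ n.succ) ↔ ∀ m, ¬ Sg τ R n (y m) p := by
  obtain ⟨y, hy, h1, h2⟩ := h.up n
  refine ⟨y, hy, h1, fun p => ⟨?_, fun h3 => ?_⟩⟩
  · rintro (h3 | rfl) m h4
    · exact h3 (sg_lo h h4)
    · exact absurd (INat.succ_le_iff.1 ((sg_τ h).1 h4)) (lt_irrefl _)
  · by_contra hc
    push Not at hc
    rcases (lo_succ h).1 hc.1 with h4 | h4 | h4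
    · exact h3 0 (Or.inl h4)
    · obtain ⟨m, hm⟩ := h2 p h4
      exact h3 m (Or.inr hm)
    · exact hc.2 h4

/-- Countable pseudocharacter. -/
theorem seq_pt (p : P) : ∃ C : INat M → IPow M P, IntF M C ∧ (∀ m, OpC o τ R (C m)) ∧
    ∀ q, (∀ m, q ∈ C m) ↔ q = p := by
  have hS := int_Sg h
  have hL := int_Lo h
  rcases h.cov p with rfl | ⟨n, rfl⟩ | ⟨n, h1⟩
  · have hI : ∀ m, Int M (fun q => ¬ Lo τ R m q) := fun m => by (repeat' (first | with_reducible exact IntF.id | with_reducible exact IntF.fst' | with_reducible exact IntF.snd' | with_reducible exact IntF.const _ | with_reducible exact Int.const _ | assumption | with_reducible apply Int.and | with_reducible apply Int.or | with_reducible apply Int.not | with_reducible apply Int.imp | with_reducible apply Int.iff | with_reducible apply Int.ne | with_reducible apply Int.eq | with_reducible apply Int.mem | with_reducible apply Int.subset | with_reducible apply Int.ltN | with_reducible apply Int.leN | with_reducible_and_instances apply Int.le | with_reducible_and_instances apply Int.lt | with_reducible apply Int.all | with_reducible apply Int.ex | with_reducible apply IntF.fst | with_reducible apply IntF.snd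 | with_reducible apply IntF.app | with_reducible apply IntF.inl | with_reducible apply IntF.inr | with_reducible_and_instances apply IntF.mul | with_reducible_and_instances apply IntF.inv | with_reducible_and_instances apply IntF.add | with_reducible_and_instances apply IntF.sub | with_reducible_and_instances apply IntF.neg | with_reducible_and_instances apply IntF.smul | with_reducible apply Int.fin | with_reducible apply IntF.sep | with_reducible apply IntF.lam | with_reducible apply IntF.insert | with_reducible apply IntF.singleton | with_reducible apply IntF.union | with_reducible apply IntF.iimage | with_reducible apply IntF.ite | with_reducible apply IntF.the | with_reducible apply IntF.irec | with_reducible apply IntF.succ | with_reducible apply IntF.val | with_reducible apply IntF.mk | (with_reducible refine Int.comp ?_ ?_; assumption) | (with_reducible refine Int.comp₂ ?_ ?_ ?_; assumption) | (with_reducible refine Int.comp₃ ?_ ?_ ?_ ?_; assumption) | (with_reducible refine Int.comp₄ ?_ ?_ ?_ ?_ ?_; assumption) | (with_reducible refine IntF.comp ?_ ?_; assumption) | (with_reducible refine IntF.comp₂ ?_ ?_ ?_; assumption) | (with_reducible refine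 IntF.comp₃ ?_ ?_ ?_ ?_; assumption) | with_reducible apply IntF.pair))
    refine ⟨fun m => sep M fun q => ¬ Lo τ R m q, by (repeat' (first | with_reducible exact IntF.id | with_reducible exact IntF.fst' | with_reducible exact IntF.snd' | with_reducible exact IntF.const _ | with_reducible exact Int.const _ | assumption | with_reducible apply Int.and | with_reducible apply Int.or | with_reducible apply Int.not | with_reducible apply Int.imp | with_reducible apply Int.iff | with_reducible apply Int.ne | with_reducible apply Int.eq | with_reducible apply Int.mem | with_reducible apply Int.subset | with_reducible apply Int.ltN | with_reducible apply Int.leN | with_reducible_and_instances apply Int.le | with_reducible_and_instances apply Int.lt | with_reducible apply Int.all | with_reducible apply Int.ex | with_reducible apply IntF.fst | with_reducible apply IntF.snd | with_reducible apply IntF.app | with_reducible apply IntF.inl | with_reducible apply IntF.inr | with_reducible_and_instances apply IntF.mul | with_reducible_and_instances apply IntF.inv | with_reducible_and_instances apply IntF.add | with_reducible_and_instances apply IntF.sub | with_reducible_and_instances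 apply IntF.neg | with_reducible_and_instances apply IntF.smul | with_reducible apply Int.fin | with_reducible apply IntF.sep | with_reducible apply IntF.lam | with_reducible apply IntF.insert | with_reducible apply IntF.singleton | with_reducible apply IntF.union | with_reducible apply IntF.iimage | with_reducible apply IntF.ite | with_reducible apply IntF.the | with_reducible apply IntF.irec | with_reducible apply IntF.succ | with_reducible apply IntF.val | with_reducible apply IntF.mk | (with_reducible refine Int.comp ?_ ?_; assumption) | (with_reducible refine Int.comp₂ ?_ ?_ ?_; assumption) | (with_reducible refine Int.comp₃ ?_ ?_ ?_ ?_; assumption) | (with_reducible refine Int.comp₄ ?_ ?_ ?_ ?_ ?_; assumption) | (with_reducible refine IntF.comp ?_ ?_; assumption) | (with_reducible refine IntF.comp₂ ?_ ?_ ?_; assumption) | (with_reducible refine IntF.comp₃ ?_ ?_ ?_ ?_; assumption) | with_reducible apply IntF.pair)), fun m => opC_hi h fun q =>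
      mem_sep (hI m), fun q => ?_⟩
    simp only [mem_sep (hI _)]
    refine ⟨fun h1 => ?_, ?_⟩
    · by_contra hc
      obtain ⟨n, hn⟩ := exists_lo h hc
      exact h1 n hn
    · rintro rfl m
      exact lo_o h
  · obtain ⟨y, hy, h1, h2⟩ := seq_lo h n
    rcases INat.eq_zero_or_succ n with rfl | ⟨k, rfl⟩
    · have hI : ∀ m, Int M (fun q => Sg τ R 0 (y m) q) := fun m => by (repeat' (first | with_reducible exact IntF.id | with_reducible exact IntF.fst' | with_reducible exact IntF.snd' | with_reducible exact IntF.const _ | with_reducible exact Int.const _ | assumption | with_reducible apply Int.and | with_reducible apply Int.or | with_reducible apply Int.not | with_reducible apply Int.imp | with_reducible apply Int.iff | with_reducible apply Int.ne | with_reducible apply Int.eq | with_reducible apply Int.mem | with_reducible apply Int.subset | with_reducible apply Int.ltN | with_reducible apply Int.leN | with_reducible_and_instances apply Int.le | with_reducible_and_instances apply Int.lt | with_reducible apply Int.all | with_reducible apply Int.ex | with_reducible apply IntF.fst | with_reducible apply IntF.snd | with_reducible apply IntF.app | with_reducible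 apply IntF.inl | with_reducible apply IntF.inr | with_reducible_and_instances apply IntF.mul | with_reducible_and_instances apply IntF.inv | with_reducible_and_instances apply IntF.add | with_reducible_and_instances apply IntF.sub | with_reducible_and_instances apply IntF.neg | with_reducible_and_instances apply IntF.smul | with_reducible apply Int.fin | with_reducible apply IntF.sep | with_reducible apply IntF.lam | with_reducible apply IntF.insert | with_reducible apply IntF.singleton | with_reducible apply IntF.union | with_reducible apply IntF.iimage | with_reducible apply IntF.ite | with_reducible apply IntF.the | with_reducible apply IntF.irec | with_reducible apply IntF.succ | with_reducible apply IntF.val | with_reducible apply IntF.mk | (with_reducible refine Int.comp ?_ ?_; assumption) | (with_reducible refine Int.comp₂ ?_ ?_ ?_; assumption) | (with_reducible refine Int.comp₃ ?_ ?_ ?_ ?_; assumption) | (with_reducible refine Int.comp₄ ?_ ?_ ?_ ?_ ?_; assumption) | (with_reducible refine IntF.comp ?_ ?_; assumption) | (with_reducible refine IntF.comp₂ ?_ ?_ ?_; assumption) | (with_reducible refine IntF.comp₃ ?_ ?_ ?_ ?_; assumption) | with_reducible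 apply IntF.pair))
      refine ⟨fun m => sep M fun q => Sg τ R 0 (y m) q, by (repeat' (first | with_reducible exact IntF.id | with_reducible exact IntF.fst' | with_reducible exact IntF.snd' | with_reducible exact IntF.const _ | with_reducible exact Int.const _ | assumption | with_reducible apply Int.and | with_reducible apply Int.or | with_reducible apply Int.not | with_reducible apply Int.imp | with_reducible apply Int.iff | with_reducible apply Int.ne | with_reducible apply Int.eq | with_reducible apply Int.mem | with_reducible apply Int.subset | with_reducible apply Int.ltN | with_reducible apply Int.leN | with_reducible_and_instances apply Int.le | with_reducible_and_instances apply Int.lt | with_reducible apply Int.all | with_reducible apply Int.ex | with_reducible apply IntF.fst | with_reducible apply IntF.snd | with_reducible apply IntF.app | with_reducible apply IntF.inl | with_reducible apply IntF.inr | with_reducible_and_instances apply IntF.mul | with_reducible_and_instances apply IntF.inv | with_reducible_and_instances apply IntF.add | with_reducible_and_instances apply IntF.sub | with_reducible_and_instances apply IntF.neg | with_reducible_and_instances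 apply IntF.smul | with_reducible apply Int.fin | with_reducible apply IntF.sep | with_reducible apply IntF.lam | with_reducible apply IntF.insert | with_reducible apply IntF.singleton | with_reducible apply IntF.union | with_reducible apply IntF.iimage | with_reducible apply IntF.ite | with_reducible apply IntF.the | with_reducible apply IntF.irec | with_reducible apply IntF.succ | with_reducible apply IntF.val | with_reducible apply IntF.mk | (with_reducible refine Int.comp ?_ ?_; assumption) | (with_reducible refine Int.comp₂ ?_ ?_ ?_; assumption) | (with_reducible refine Int.comp₃ ?_ ?_ ?_ ?_; assumption) | (with_reducible refine Int.comp₄ ?_ ?_ ?_ ?_ ?_; assumption) | (with_reducible refine IntF.comp ?_ ?_; assumption) | (with_reducible refine IntF.comp₂ ?_ ?_ ?_; assumption) | (with_reducible refine IntF.comp₃ ?_ ?_ ?_ ?_; assumption) | with_reducible apply IntF.pair)), fun m => opC_sg h (h1 m)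
        fun q => mem_sep (hI m), fun q => ?_⟩
      simp only [mem_sep (hI _)]
      rw [← h2, lo_zero h]
    · obtain ⟨z, hz, h3, h4⟩ := seq_hi h k
      have hI : ∀ m, Int M (fun q => Sg τ R k.succ (y m) q ∧ ¬ Sg τ R k (z m) q) := fun m => by
        (repeat' (first | with_reducible exact IntF.id | with_reducible exact IntF.fst' | with_reducible exact IntF.snd' | with_reducible exact IntF.const _ | with_reducible exact Int.const _ | assumption | with_reducible apply Int.and | with_reducible apply Int.or | with_reducible apply Int.not | with_reducible apply Int.imp | with_reducible apply Int.iff | with_reducible apply Int.ne | with_reducible apply Int.eq | with_reducible apply Int.mem | with_reducible apply Int.subset | with_reducible apply Int.ltN | with_reducible apply Int.leN | with_reducible_and_instances apply Int.le | with_reducible_and_instances apply Int.lt | with_reducible apply Int.all | with_reducible apply Int.ex | with_reducible apply IntF.fst | with_reducible apply IntF.snd | with_reducible apply IntF.app | with_reducible apply IntF.inl | with_reducible apply IntF.inr | with_reducible_and_instances apply IntF.mul | with_reducible_and_instances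 apply IntF.inv | with_reducible_and_instances apply IntF.add | with_reducible_and_instances apply IntF.sub | with_reducible_and_instances apply IntF.neg | with_reducible_and_instances apply IntF.smul | with_reducible apply Int.fin | with_reducible apply IntF.sep | with_reducible apply IntF.lam | with_reducible apply IntF.insert | with_reducible apply IntF.singleton | with_reducible apply IntF.union | with_reducible apply IntF.iimage | with_reducible apply IntF.ite | with_reducible apply IntF.the | with_reducible apply IntF.irec | with_reducible apply IntF.succ | with_reducible apply IntF.val | with_reducible apply IntF.mk | (with_reducible refine Int.comp ?_ ?_; assumption) | (with_reducible refine Int.comp₂ ?_ ?_ ?_; assumption) | (with_reducible refine Int.comp₃ ?_ ?_ ?_ ?_; assumption) | (with_reducible refine Int.comp₄ ?_ ?_ ?_ ?_ ?_; assumption) | (with_reducible refine IntF.comp ?_ ?_; assumption) | (with_reducible refine IntF.comp₂ ?_ ?_ ?_; assumption) | (with_reducible refine IntF.comp₃ ?_ ?_ ?_ ?_; assumption) | with_reducible apply IntF.pair))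
      have hJ : ∀ m, Int M (fun q => Sg τ R k.succ (y m) q) := fun m => by (repeat' (first | with_reducible exact IntF.id | with_reducible exact IntF.fst' | with_reducible exact IntF.snd' | with_reducible exact IntF.const _ | with_reducible exact Int.const _ | assumption | with_reducible apply Int.and | with_reducible apply Int.or | with_reducible apply Int.not | with_reducible apply Int.imp | with_reducible apply Int.iff | with_reducible apply Int.ne | with_reducible apply Int.eq | with_reducible apply Int.mem | with_reducible apply Int.subset | with_reducible apply Int.ltN | with_reducible apply Int.leN | with_reducible_and_instances apply Int.le | with_reducible_and_instances apply Int.lt | with_reducible apply Int.all | with_reducible apply Int.ex | with_reducible apply IntF.fst | with_reducible apply IntF.snd | with_reducible apply IntF.app | with_reducible apply IntF.inl | with_reducible apply IntF.inr | with_reducible_and_instances apply IntF.mul | with_reducible_and_instances apply IntF.inv | with_reducible_and_instances apply IntF.add | with_reducible_and_instances apply IntF.sub | with_reducible_and_instances apply IntF.neg | with_reducible_and_instances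 apply IntF.smul | with_reducible apply Int.fin | with_reducible apply IntF.sep | with_reducible apply IntF.lam | with_reducible apply IntF.insert | with_reducible apply IntF.singleton | with_reducible apply IntF.union | with_reducible apply IntF.iimage | with_reducible apply IntF.ite | with_reducible apply IntF.the | with_reducible apply IntF.irec | with_reducible apply IntF.succ | with_reducible apply IntF.val | with_reducible apply IntF.mk | (with_reducible refine Int.comp ?_ ?_; assumption) | (with_reducible refine Int.comp₂ ?_ ?_ ?_; assumption) | (with_reducible refine Int.comp₃ ?_ ?_ ?_ ?_; assumption) | (with_reducible refine Int.comp₄ ?_ ?_ ?_ ?_ ?_; assumption) | (with_reducible refine IntF.comp ?_ ?_; assumption) | (with_reducible refine IntF.comp₂ ?_ ?_ ?_; assumption) | (with_reducible refine IntF.comp₃ ?_ ?_ ?_ ?_; assumption) | with_reducible apply IntF.pair))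
      have hK : ∀ m, Int M (fun q => ¬ Sg τ R k (z m) q) := fun m => by (repeat' (first | with_reducible exact IntF.id | with_reducible exact IntF.fst' | with_reducible exact IntF.snd' | with_reducible exact IntF.const _ | with_reducible exact Int.const _ | assumption | with_reducible apply Int.and | with_reducible apply Int.or | with_reducible apply Int.not | with_reducible apply Int.imp | with_reducible apply Int.iff | with_reducible apply Int.ne | with_reducible apply Int.eq | with_reducible apply Int.mem | with_reducible apply Int.subset | with_reducible apply Int.ltN | with_reducible apply Int.leN | with_reducible_and_instances apply Int.le | with_reducible_and_instances apply Int.lt | with_reducible apply Int.all | with_reducible apply Int.ex | with_reducible apply IntF.fst | with_reducible apply IntF.snd | with_reducible apply IntF.app | with_reducible apply IntF.inl | with_reducible apply IntF.inr | with_reducible_and_instances apply IntF.mul | with_reducible_and_instances apply IntF.inv | with_reducible_and_instances apply IntF.add | with_reducible_and_instances apply IntF.sub | with_reducible_and_instances apply IntF.neg | with_reducible_and_instances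 apply IntF.smul | with_reducible apply Int.fin | with_reducible apply IntF.sep | with_reducible apply IntF.lam | with_reducible apply IntF.insert | with_reducible apply IntF.singleton | with_reducible apply IntF.union | with_reducible apply IntF.iimage | with_reducible apply IntF.ite | with_reducible apply IntF.the | with_reducible apply IntF.irec | with_reducible apply IntF.succ | with_reducible apply IntF.val | with_reducible apply IntF.mk | (with_reducible refine Int.comp ?_ ?_; assumption) | (with_reducible refine Int.comp₂ ?_ ?_ ?_; assumption) | (with_reducible refine Int.comp₃ ?_ ?_ ?_ ?_; assumption) | (with_reducible refine Int.comp₄ ?_ ?_ ?_ ?_ ?_; assumption) | (with_reducible refine IntF.comp ?_ ?_; assumption) | (with_reducible refine IntF.comp₂ ?_ ?_ ?_; assumption) | (with_reducible refine IntF.comp₃ ?_ ?_ ?_ ?_; assumption) | with_reducible apply IntF.pair))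
      refine ⟨fun m => sep M fun q => Sg τ R k.succ (y m) q ∧ ¬ Sg τ R k (z m) q, by (repeat' (first | with_reducible exact IntF.id | with_reducible exact IntF.fst' | with_reducible exact IntF.snd' | with_reducible exact IntF.const _ | with_reducible exact Int.const _ | assumption | with_reducible apply Int.and | with_reducible apply Int.or | with_reducible apply Int.not | with_reducible apply Int.imp | with_reducible apply Int.iff | with_reducible apply Int.ne | with_reducible apply Int.eq | with_reducible apply Int.mem | with_reducible apply Int.subset | with_reducible apply Int.ltN | with_reducible apply Int.leN | with_reducible_and_instances apply Int.le | with_reducible_and_instances apply Int.lt | with_reducible apply Int.all | with_reducible apply Int.ex | with_reducible apply IntF.fst | with_reducible apply IntF.snd | with_reducible apply IntF.app | with_reducible apply IntF.inl | with_reducible apply IntF.inr | with_reducible_and_instances apply IntF.mul | with_reducible_and_instances apply IntF.inv | with_reducible_and_instances apply IntF.add | with_reducible_and_instances apply IntF.sub | with_reducible_and_instances apply IntF.neg | with_reducible_and_instances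 apply IntF.smul | with_reducible apply Int.fin | with_reducible apply IntF.sep | with_reducible apply IntF.lam | with_reducible apply IntF.insert | with_reducible apply IntF.singleton | with_reducible apply IntF.union | with_reducible apply IntF.iimage | with_reducible apply IntF.ite | with_reducible apply IntF.the | with_reducible apply IntF.irec | with_reducible apply IntF.succ | with_reducible apply IntF.val | with_reducible apply IntF.mk | (with_reducible refine Int.comp ?_ ?_; assumption) | (with_reducible refine Int.comp₂ ?_ ?_ ?_; assumption) | (with_reducible refine Int.comp₃ ?_ ?_ ?_ ?_; assumption) | (with_reducible refine Int.comp₄ ?_ ?_ ?_ ?_ ?_; assumption) | (with_reducible refine IntF.comp ?_ ?_; assumption) | (with_reducible refine IntF.comp₂ ?_ ?_ ?_; assumption) | (with_reducible refine IntF.comp₃ ?_ ?_ ?_ ?_; assumption) | with_reducible apply IntF.pair)),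
        fun m => opC_inter h (opC_sg h (h1 m) fun q => mem_sep (hJ m))
          (opC_sg' h (h3 m) fun q => mem_sep (hK m)) fun q => ?_, fun q => ?_⟩
      · rw [mem_sep (hI m), mem_sep (hJ m), mem_sep (hK m)]
      · simp only [mem_sep (hI _)]
        rw [forall_and, ← h2, ← h4]
        constructor
        · rintro ⟨h5, h6 | h6⟩
          · exact absurd h5 h6
          · exact h6
        · rintro rfl
          exact ⟨(lo_τ h).2 le_rfl, Or.inr rfl⟩
  · have hI : Int M (fun q : P => q = p) := by (repeat' (first | with_reducible exact IntF.id | with_reducible exact IntF.fst' | with_reducible exact IntF.snd' | with_reducible exact IntF.const _ | with_reducible exact Int.const _ | assumption | with_reducible apply Int.and | with_reducible apply Int.or | with_reducible apply Int.not | with_reducible apply Int.imp | with_reducible apply Int.iff | with_reducible apply Int.ne | with_reducible apply Int.eq | with_reducible apply Int.mem | with_reducible apply Int.subset | with_reducible apply Int.ltN | with_reducible apply Int.leN | with_reducible_and_instances apply Int.le | with_reducible_and_instances apply Int.lt | with_reducible apply Int.all | with_reducible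 apply Int.ex | with_reducible apply IntF.fst | with_reducible apply IntF.snd | with_reducible apply IntF.app | with_reducible apply IntF.inl | with_reducible apply IntF.inr | with_reducible_and_instances apply IntF.mul | with_reducible_and_instances apply IntF.inv | with_reducible_and_instances apply IntF.add | with_reducible_and_instances apply IntF.sub | with_reducible_and_instances apply IntF.neg | with_reducible_and_instances apply IntF.smul | with_reducible apply Int.fin | with_reducible apply IntF.sep | with_reducible apply IntF.lam | with_reducible apply IntF.insert | with_reducible apply IntF.singleton | with_reducible apply IntF.union | with_reducible apply IntF.iimage | with_reducible apply IntF.ite | with_reducible apply IntF.the | with_reducible apply IntF.irec | with_reducible apply IntF.succ | with_reducible apply IntF.val | with_reducible apply IntF.mk | (with_reducible refine Int.comp ?_ ?_; assumption) | (with_reducible refine Int.comp₂ ?_ ?_ ?_; assumption) | (with_reducible refine Int.comp₃ ?_ ?_ ?_ ?_; assumption) | (with_reducible refine Int.comp₄ ?_ ?_ ?_ ?_ ?_; assumption) | (with_reducible refine IntF.comp ?_ ?_; assumption) | (with_reducible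 refine IntF.comp₂ ?_ ?_ ?_; assumption) | (with_reducible refine IntF.comp₃ ?_ ?_ ?_ ?_; assumption) | with_reducible apply IntF.pair))
    refine ⟨fun _ => sep M fun q => q = p, by (repeat' (first | with_reducible exact IntF.id | with_reducible exact IntF.fst' | with_reducible exact IntF.snd' | with_reducible exact IntF.const _ | with_reducible exact Int.const _ | assumption | with_reducible apply Int.and | with_reducible apply Int.or | with_reducible apply Int.not | with_reducible apply Int.imp | with_reducible apply Int.iff | with_reducible apply Int.ne | with_reducible apply Int.eq | with_reducible apply Int.mem | with_reducible apply Int.subset | with_reducible apply Int.ltN | with_reducible apply Int.leN | with_reducible_and_instances apply Int.le | with_reducible_and_instances apply Int.lt | with_reducible apply Int.all | with_reducible apply Int.ex | with_reducible apply IntF.fst | with_reducible apply IntF.snd | with_reducible apply IntF.app | with_reducible apply IntF.inl | with_reducible apply IntF.inr | with_reducible_and_instances apply IntF.mul | with_reducible_and_instances apply IntF.inv | with_reducible_and_instances apply IntF.add | with_reducible_and_instances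 apply IntF.sub | with_reducible_and_instances apply IntF.neg | with_reducible_and_instances apply IntF.smul | with_reducible apply Int.fin | with_reducible apply IntF.sep | with_reducible apply IntF.lam | with_reducible apply IntF.insert | with_reducible apply IntF.singleton | with_reducible apply IntF.union | with_reducible apply IntF.iimage | with_reducible apply IntF.ite | with_reducible apply IntF.the | with_reducible apply IntF.irec | with_reducible apply IntF.succ | with_reducible apply IntF.val | with_reducible apply IntF.mk | (with_reducible refine Int.comp ?_ ?_; assumption) | (with_reducible refine Int.comp₂ ?_ ?_ ?_; assumption) | (with_reducible refine Int.comp₃ ?_ ?_ ?_ ?_; assumption) | (with_reducible refine Int.comp₄ ?_ ?_ ?_ ?_ ?_; assumption) | (with_reducible refine IntF.comp ?_ ?_; assumption) | (with_reducible refine IntF.comp₂ ?_ ?_ ?_; assumption) | (with_reducible refine IntF.comp₃ ?_ ?_ ?_ ?_; assumption) | with_reducible apply IntF.pair)), fun m => opC_single h h1 fun q =>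
      mem_sep hI, fun q => ?_⟩
    simp only [mem_sep hI]
    exact ⟨fun h2 => h2 0, fun h2 _ => h2⟩

end

end Pool.Agent.Q301.TM
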