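import Pool.Agent.Q301.TM.RealX
import Pool.Agent.Q301.TM.ChTop

/-!
# The space of the chain in the model
-/

set_option maxHeartbeats 1000000
set_option linter.all false
set_option synthInstance.maxSize 2000

namespace Pool.Agent.Q301.TM

open FirstOrder FirstOrder.Language
open Pool.Agent.Helper672.ZFA
open Pool.Agent.Helper672.Plain (LSet)
open Pool.Agent.Helper672.ZFA.H635 (toL plainN_ordPair plainN_graph plainN_opGraph)
open Pool.Agent.H635Amen (IsReals)
open Pool.Agent.H310Cards (IsOmega IsFinite IsFun App IsInj IsNat)
open Pool.Agent.H310Top (IsTopology IsClosed IsCompact)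
open Pool.Agent.H310 (FinP finP_iff finP_le finP_lt exists_BN mem_nat nat_iff appN finite_of_finP
  mem_cp extN exists_code instPEl exists_q pr int_pr pr_inj)

universe u u₁

attribute [local instance] toL instPEl

section

variable {N : Type u} [LSet.Structure N] [hM : IsModel N] {x : N}
variable {o : Helper672.Plain.El x} {τ : INat N → Helper672.Plain.El x} {R : INat N × (Helper672.Plain.El x × Helper672.Plain.El x) → Prop}
variable (h : Ch N o τ R)
include h

/-- The topology. -/
theorem exists_top : ∃ t, IsTopology t x ∧ ∀ U : IPow N (Helper672.Plain.El x), Helper672.Plain.Mem (code U) t ↔ OpC o τ R U := by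
  have hO := int_OpC h
  have hm : ∀ u, Helper672.Plain.Mem u (code (sep N fun U : IPow N (Helper672.Plain.El x) => OpC o τ R U)) ↔
      ∃ U, OpC o τ R U ∧ code U = u := fun u => mem_cp.trans
    (exists_congr fun U => and_congr_left fun _ => mem_sep hO)
  have hm' : ∀ U : IPow N (Helper672.Plain.El x), Helper672.Plain.Mem (code U) (code (sep N fun U : IPow N (Helper672.Plain.El x) =>
      OpC o τ R U)) ↔ OpC o τ R U := fun U => (hm _).trans
    ⟨fun ⟨V, h1, h2⟩ => (ITy.inj (M := N) h2 : V = U) ▸ h1, fun h1 => ⟨U, h1, rfl⟩⟩
  refine ⟨code (sep N fun U : IPow N (Helper672.Plain.El x) => OpC o τ R U), ⟨fun u hu z hz => ?_, ?_,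
    fun u v w hu hv hw => ?_, fun c w hc hw => ?_⟩, hm'⟩
  · obtain ⟨U, -, rfl⟩ := (hm u).1 hu
    exact (mem_cpE.1 hz).1
  · refine (hm x).2 ⟨sep N fun _ => True, opC_univ h fun p => (mem_sep (Int.const _)).2 trivial,
      extN fun z => mem_cpE.trans ⟨fun h1 => h1.1, fun h1 => ⟨h1, (mem_sep (Int.const _)).2 trivial⟩⟩⟩
  · obtain ⟨U, hU, rfl⟩ := (hm u).1 hu
    obtain ⟨V, hV, rfl⟩ := (hm v).1 hv
    obtain ⟨W, rfl, hW⟩ := exists_code (a := x) (u := w) fun z hz =>
      (mem_cpE.1 ((hw z).1 hz).1).1
    refine (hm _).2 ⟨W, opC_inter h hU hV fun p => (hW p).trans ((hw p.1).trans ?_), rfl⟩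
    exact and_congr mem_cpE' mem_cpE'
  · have hcx : ∀ u, Helper672.Plain.Mem u c → ∀ z, Helper672.Plain.Mem z u → Helper672.Plain.Mem z x := by
      intro u hu z hz
      obtain ⟨U, -, rfl⟩ := (hm u).1 (hc u hu)
      exact (mem_cpE.1 hz).1
    obtain ⟨W, rfl, hW⟩ := exists_code (a := x) (u := w) fun z hz => by
      obtain ⟨u, hu, h1⟩ := (hw z).1 hz
      exact hcx u hu z h1
    have hcI : Int N (fun U : IPow N (Helper672.Plain.El x) => Mem (code U) c) := ⟨c, fun U => Iff.rfl⟩
    refine (hm _).2 ⟨W, opC_union (C := sep N fun U => Mem (code U) c) (fun U hU => ?_)
      (fun p => ?_), rfl⟩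
    · exact (hm' U).1 (hc _ ((mem_sep hcI).1 hU))
    · refine (hW p).trans ((hw p.1).trans ⟨?_, ?_⟩)
      · rintro ⟨u, hu, h1⟩
        obtain ⟨U, rfl, hU⟩ := exists_code (a := x) (hcx u hu)
        exact ⟨U, (mem_sep hcI).2 hu, (hU p).2 h1⟩
      · rintro ⟨U, hU, h1⟩
        exact ⟨code U, (mem_sep hcI).1 hU, mem_cpE'.2 h1⟩

variable {t : N} (ht : IsTopology t x) (hO : ∀ U : IPow N (Helper672.Plain.El x), Helper672.Plain.Mem (code U) t ↔ OpC o τ R U)
include ht hO

theorem ch_T1 : IsT1 t x := by
  intro p
  have hI : Int N (fun q : Helper672.Plain.El x => q ≠ p) := by (repeat' (first | with_reducible apply memPE | with_reducible apply memPE' | with_reducible apply memPE'' | with_reducible apply memCode | with_reducible apply memCodeP | with_reducible apply memCode₂ | with_reducible apply eqPE | with_reducible apply eqPE' | with_reducible exact IntF.id | with_reducible exact IntF.fst' | with_reducible exact IntF.snd' | with_reducible exact IntF.const _ | with_reducible exact Int.const _ | assumption | with_reducible apply Int.and | with_reducible apply Int.or | with_reducible apply Int.not | with_reducible apply Int.imp | with_reducible apply Int.iff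 | with_reducible apply Int.ne | with_reducible apply Int.eq | with_reducible apply Int.mem | with_reducible apply Int.subset | with_reducible apply Int.ltN | with_reducible apply Int.leN | with_reducible_and_instances apply Int.le | with_reducible_and_instances apply Int.lt | with_reducible apply Int.all | with_reducible apply Int.ex | with_reducible apply IntF.fst | with_reducible apply IntF.snd | with_reducible apply IntF.app | with_reducible apply IntF.inl | with_reducible apply IntF.inr | with_reducible_and_instances apply IntF.mul | with_reducible_and_instances apply IntF.inv | with_reducible_and_instances apply IntF.add | with_reducible_and_instances apply IntF.sub | with_reducible_and_instances apply IntF.neg | with_reducible_and_instances apply IntF.smul | with_reducible apply Int.fin | with_reducible apply IntF.sep | with_reducible apply IntF.lam | with_reducible apply IntF.insert | with_reducible apply IntF.singleton | with_reducible apply IntF.union | with_reducible apply IntF.iimage | with_reducible apply IntF.ite | with_reducible apply IntF.the | with_reducible apply IntF.irec | with_reducible apply IntF.succ | with_reducible apply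 IntF.val | with_reducible apply IntF.mk | (with_reducible refine Int.comp ?_ ?_; assumption) | (with_reducible refine Int.comp₂ ?_ ?_ ?_; assumption) | (with_reducible refine Int.comp₃ ?_ ?_ ?_ ?_; assumption) | (with_reducible refine Int.comp₄ ?_ ?_ ?_ ?_ ?_; assumption) | (with_reducible refine IntF.comp ?_ ?_; assumption) | (with_reducible refine IntF.comp₂ ?_ ?_ ?_; assumption) | (with_reducible refine IntF.comp₃ ?_ ?_ ?_ ?_; assumption) | with_reducible apply IntF.pair))
  refine ⟨code ({p} : IPow N (Helper672.Plain.El x)), ⟨fun z hz => (mem_cpE.1 hz).1,
    code (sep N fun q : Helper672.Plain.El x => q ≠ p), (hO _).2 (opC_ne h p fun q => mem_sep hI), fun z => ?_⟩,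
    fun z => ?_⟩
  · rw [show Helper672.Plain.Mem z (code (sep N fun q : Helper672.Plain.El x => q ≠ p)) ↔ _ from mem_cpE,
      show Helper672.Plain.Mem z (code ({p} : IPow N (Helper672.Plain.El x))) ↔ _ from mem_cpE]
    constructor
    · rintro ⟨h1, h2⟩
      rw [mem_sep hI] at h2
      exact ⟨h1, fun ⟨_, h3⟩ => h2 (mem_singleton.1 h3)⟩
    · rintro ⟨h1, h2⟩
      refine ⟨h1, ?_⟩
      rw [mem_sep hI]
      exact fun h3 => h2 ⟨h1, mem_singleton.2 h3⟩
  · rw [show Helper672.Plain.Mem z (code ({p} : IPow N (Helper672.Plain.El x))) ↔ _ from mem_cpE]
    constructor
    · rintro ⟨h1, h2⟩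
      have h3 : mkE z h1 = p := mem_singleton.1 h2
      rw [← h3]
      rfl
    · rintro rfl
      exact ⟨p.2, mem_singleton.2 rfl⟩

theorem ch_clopen {C C' : IPow N (Helper672.Plain.El x)} (hC : OpC o τ R C) (hC' : OpC o τ R C')
    (hCC : ∀ q, q ∈ C' ↔ ¬ q ∈ C) : IsClopen t x (code C) := by
  refine ⟨(hO _).2 hC, fun z hz => (mem_cpE.1 hz).1, code C', (hO _).2 hC', fun z => ?_⟩
  rw [show Helper672.Plain.Mem z (code C') ↔ _ from mem_cpE,
    show Helper672.Plain.Mem z (code C) ↔ _ from mem_cpE]
  constructor
  · rintro ⟨h1, h2⟩
    exact ⟨h1, fun ⟨_, h3⟩ => (hCC _).1 h2 h3⟩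
  · rintro ⟨h1, h2⟩
    exact ⟨h1, (hCC _).2 fun h3 => h2 ⟨h1, h3⟩⟩

theorem ch_zd : IsZeroDim t x := by
  intro u hu p hp
  obtain ⟨U, rfl, hU⟩ := exists_code (a := x) (ht.sub u hu)
  have hpx := ht.sub _ hu p hp
  obtain ⟨C, C', h1, h2, h3, h4, h5⟩ := opC_zd h ((hO U).1 hu) (p := mkE p hpx) ((hU _).2 hp)
  refine ⟨code C, ch_clopen h ht hO h1 h2 h3, mem_cpE.2 ⟨hpx, h4⟩, fun z hz => ?_⟩
  obtain ⟨h6, h7⟩ := mem_cpE.1 hz
  exact mem_cpE.2 ⟨h6, h5 _ h7⟩

omit ht in
theorem ch_compact_aux {p : Helper672.Plain.El x → Prop} (hp : Int N p)
    (hc : ∀ C : IPow N (IPow N (Helper672.Plain.El x)), (∀ U, U ∈ C → OpC o τ R U) →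
      (∀ q, p q → ∃ U, U ∈ C ∧ q ∈ U) → ∃ C' : IPow N (IPow N (Helper672.Plain.El x)), IFin C' ∧
      (∀ U, U ∈ C' → U ∈ C) ∧ ∀ q, p q → ∃ U, U ∈ C' ∧ q ∈ U) (ht : IsTopology t x) {y : N}
    (hy : ∀ z, Helper672.Plain.Mem z y ↔ ∃ h : Helper672.Plain.Mem z x, p (mkE z h)) : IsCompact t y := by
  intro c hct hcov
  have hcI : Int N (fun U : IPow N (Helper672.Plain.El x) => Mem (code U) c) := ⟨c, fun U => Iff.rfl⟩
  obtain ⟨C', h1, h2, h3⟩ := hc (sep N fun U => Mem (code U) c)
    (fun U hU => (hO U).1 (hct _ ((mem_sep hcI).1 hU))) (fun q hq => by
      obtain ⟨u, hu, hqu⟩ := hcov q.1 ((hy q.1).2 ⟨q.2, hq⟩)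
      obtain ⟨U, rfl, hU⟩ := exists_code (a := x) (ht.sub u (hct u hu))
      exact ⟨U, (mem_sep hcI).2 hu, (hU q).2 hqu⟩)
  refine ⟨code C', finite_of_finP (p := fun U => U ∈ C') (by (repeat' (first | with_reducible apply memPE | with_reducible apply memPE' | with_reducible apply memPE'' | with_reducible apply memCode | with_reducible apply memCodeP | with_reducible apply memCode₂ | with_reducible apply eqPE | with_reducible apply eqPE' | with_reducible exact IntF.id | with_reducible exact IntF.fst' | with_reducible exact IntF.snd' | with_reducible exact IntF.const _ | with_reducible exact Int.const _ | assumption | with_reducible apply Int.and | with_reducible apply Int.or | with_reducible apply Int.not | with_reducible apply Int.imp | with_reducible apply Int.iff | with_reducible apply Int.ne | with_reducible apply Int.eq | with_reducible apply Int.mem | with_reducible apply Int.subset | with_reducible apply Int.ltN | with_reducible apply Int.leN | with_reducible_and_instances apply Int.le | with_reducible_and_instances apply Int.lt | with_reducible apply Int.all | with_reducible apply Int.ex | with_reducible apply IntF.fst | with_reducible apply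 IntF.snd | with_reducible apply IntF.app | with_reducible apply IntF.inl | with_reducible apply IntF.inr | with_reducible_and_instances apply IntF.mul | with_reducible_and_instances apply IntF.inv | with_reducible_and_instances apply IntF.add | with_reducible_and_instances apply IntF.sub | with_reducible_and_instances apply IntF.neg | with_reducible_and_instances apply IntF.smul | with_reducible apply Int.fin | with_reducible apply IntF.sep | with_reducible apply IntF.lam | with_reducible apply IntF.insert | with_reducible apply IntF.singleton | with_reducible apply IntF.union | with_reducible apply IntF.iimage | with_reducible apply IntF.ite | with_reducible apply IntF.the | with_reducible apply IntF.irec | with_reducible apply IntF.succ | with_reducible apply IntF.val | with_reducible apply IntF.mk | (with_reducible refine Int.comp ?_ ?_; assumption) | (with_reducible refine Int.comp₂ ?_ ?_ ?_; assumption) | (with_reducible refine Int.comp₃ ?_ ?_ ?_ ?_; assumption) | (with_reducible refine Int.comp₄ ?_ ?_ ?_ ?_ ?_; assumption) | (with_reducible refine IntF.comp ?_ ?_; assumption) | (with_reducible refine IntF.comp₂ ?_ ?_ ?_; assumption) | (with_reducible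 refine IntF.comp₃ ?_ ?_ ?_ ?_; assumption) | with_reducible apply IntF.pair))) (fun z => mem_cp)
    ((finP_iff (by (repeat' (first | with_reducible apply memPE | with_reducible apply memPE' | with_reducible apply memPE'' | with_reducible apply memCode | with_reducible apply memCodeP | with_reducible apply memCode₂ | with_reducible apply eqPE | with_reducible apply eqPE' | with_reducible exact IntF.id | with_reducible exact IntF.fst' | with_reducible exact IntF.snd' | with_reducible exact IntF.const _ | with_reducible exact Int.const _ | assumption | with_reducible apply Int.and | with_reducible apply Int.or | with_reducible apply Int.not | with_reducible apply Int.imp | with_reducible apply Int.iff | with_reducible apply Int.ne | with_reducible apply Int.eq | with_reducible apply Int.mem | with_reducible apply Int.subset | with_reducible apply Int.ltN | with_reducible apply Int.leN | with_reducible_and_instances apply Int.le | with_reducible_and_instances apply Int.lt | with_reducible apply Int.all | with_reducible apply Int.ex | with_reducible apply IntF.fst | with_reducible apply IntF.snd | with_reducible apply IntF.app | with_reducible apply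 IntF.inl | with_reducible apply IntF.inr | with_reducible_and_instances apply IntF.mul | with_reducible_and_instances apply IntF.inv | with_reducible_and_instances apply IntF.add | with_reducible_and_instances apply IntF.sub | with_reducible_and_instances apply IntF.neg | with_reducible_and_instances apply IntF.smul | with_reducible apply Int.fin | with_reducible apply IntF.sep | with_reducible apply IntF.lam | with_reducible apply IntF.insert | with_reducible apply IntF.singleton | with_reducible apply IntF.union | with_reducible apply IntF.iimage | with_reducible apply IntF.ite | with_reducible apply IntF.the | with_reducible apply IntF.irec | with_reducible apply IntF.succ | with_reducible apply IntF.val | with_reducible apply IntF.mk | (with_reducible refine Int.comp ?_ ?_; assumption) | (with_reducible refine Int.comp₂ ?_ ?_ ?_; assumption) | (with_reducible refine Int.comp₃ ?_ ?_ ?_ ?_; assumption) | (with_reducible refine Int.comp₄ ?_ ?_ ?_ ?_ ?_; assumption) | (with_reducible refine IntF.comp ?_ ?_; assumption) | (with_reducible refine IntF.comp₂ ?_ ?_ ?_; assumption) | (with_reducible refine IntF.comp₃ ?_ ?_ ?_ ?_; assumption) | with_reducible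 apply IntF.pair)))).2 (h1.subset fun U hU => (mem_sep (by (repeat' (first | with_reducible apply memPE | with_reducible apply memPE' | with_reducible apply memPE'' | with_reducible apply memCode | with_reducible apply memCodeP | with_reducible apply memCode₂ | with_reducible apply eqPE | with_reducible apply eqPE' | with_reducible exact IntF.id | with_reducible exact IntF.fst' | with_reducible exact IntF.snd' | with_reducible exact IntF.const _ | with_reducible exact Int.const _ | assumption | with_reducible apply Int.and | with_reducible apply Int.or | with_reducible apply Int.not | with_reducible apply Int.imp | with_reducible apply Int.iff | with_reducible apply Int.ne | with_reducible apply Int.eq | with_reducible apply Int.mem | with_reducible apply Int.subset | with_reducible apply Int.ltN | with_reducible apply Int.leN | with_reducible_and_instances apply Int.le | with_reducible_and_instances apply Int.lt | with_reducible apply Int.all | with_reducible apply Int.ex | with_reducible apply IntF.fst | with_reducible apply IntF.snd | with_reducible apply IntF.app | with_reducible apply IntF.inl | with_reducible apply IntF.inr | with_reducible_and_instances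 apply IntF.mul | with_reducible_and_instances apply IntF.inv | with_reducible_and_instances apply IntF.add | with_reducible_and_instances apply IntF.sub | with_reducible_and_instances apply IntF.neg | with_reducible_and_instances apply IntF.smul | with_reducible apply Int.fin | with_reducible apply IntF.sep | with_reducible apply IntF.lam | with_reducible apply IntF.insert | with_reducible apply IntF.singleton | with_reducible apply IntF.union | with_reducible apply IntF.iimage | with_reducible apply IntF.ite | with_reducible apply IntF.the | with_reducible apply IntF.irec | with_reducible apply IntF.succ | with_reducible apply IntF.val | with_reducible apply IntF.mk | (with_reducible refine Int.comp ?_ ?_; assumption) | (with_reducible refine Int.comp₂ ?_ ?_ ?_; assumption) | (with_reducible refine Int.comp₃ ?_ ?_ ?_ ?_; assumption) | (with_reducible refine Int.comp₄ ?_ ?_ ?_ ?_ ?_; assumption) | (with_reducible refine IntF.comp ?_ ?_; assumption) | (with_reducible refine IntF.comp₂ ?_ ?_ ?_; assumption) | (with_reducible refine IntF.comp₃ ?_ ?_ ?_ ?_; assumption) | with_reducible apply IntF.pair)))).1 hU)),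
    fun u hu => ?_, fun z hz => ?_⟩
  · obtain ⟨U, hU, rfl⟩ := mem_cp.1 hu
    exact (mem_sep hcI).1 (h2 U hU)
  · obtain ⟨h4, h5⟩ := (hy z).1 hz
    obtain ⟨U, hU, hzU⟩ := h3 _ h5
    exact ⟨code U, mem_cp.2 ⟨U, hU, rfl⟩, mem_cpE.2 ⟨h4, hzU⟩⟩

theorem ch_compact : IsCompact t x :=
  ch_compact_aux h hO (p := fun _ => True) (Int.const _) (fun C hC hcov => by
    obtain ⟨C', h1, h2, h3⟩ := compact_all h hC fun q => hcov q trivial
    exact ⟨C', h1, h2, fun q _ => h3 q⟩) ht fun z => ⟨fun h1 => ⟨h1, trivial⟩, fun h1 => h1.1⟩

theorem ch_compact_lo {n : INat N} {y : N} (hy : ∀ z, Helper672.Plain.Mem z y ↔ ∃ h : Helper672.Plain.Mem z x, Lo τ R n (mkE z h)) :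
    IsCompact t y := by
  have hL := int_Lo h
  exact ch_compact_aux h hO (p := fun q => Lo τ R n q) (by (repeat' (first | with_reducible apply memPE | with_reducible apply memPE' | with_reducible apply memPE'' | with_reducible apply memCode | with_reducible apply memCodeP | with_reducible apply memCode₂ | with_reducible apply eqPE | with_reducible apply eqPE' | with_reducible exact IntF.id | with_reducible exact IntF.fst' | with_reducible exact IntF.snd' | with_reducible exact IntF.const _ | with_reducible exact Int.const _ | assumption | with_reducible apply Int.and | with_reducible apply Int.or | with_reducible apply Int.not | with_reducible apply Int.imp | with_reducible apply Int.iff | with_reducible apply Int.ne | with_reducible apply Int.eq | with_reducible apply Int.mem | with_reducible apply Int.subset | with_reducible apply Int.ltN | with_reducible apply Int.leN | with_reducible_and_instances apply Int.le | with_reducible_and_instances apply Int.lt | with_reducible apply Int.all | with_reducible apply Int.ex | with_reducible apply IntF.fst | with_reducible apply IntF.snd | with_reducible apply IntF.app | with_reducible apply IntF.inl |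 with_reducible apply IntF.inr | with_reducible_and_instances apply IntF.mul | with_reducible_and_instances apply IntF.inv | with_reducible_and_instances apply IntF.add | with_reducible_and_instances apply IntF.sub | with_reducible_and_instances apply IntF.neg | with_reducible_and_instances apply IntF.smul | with_reducible apply Int.fin | with_reducible apply IntF.sep | with_reducible apply IntF.lam | with_reducible apply IntF.insert | with_reducible apply IntF.singleton | with_reducible apply IntF.union | with_reducible apply IntF.iimage | with_reducible apply IntF.ite | with_reducible apply IntF.the | with_reducible apply IntF.irec | with_reducible apply IntF.succ | with_reducible apply IntF.val | with_reducible apply IntF.mk | (with_reducible refine Int.comp ?_ ?_; assumption) | (with_reducible refine Int.comp₂ ?_ ?_ ?_; assumption) | (with_reducible refine Int.comp₃ ?_ ?_ ?_ ?_; assumption) | (with_reducible refine Int.comp₄ ?_ ?_ ?_ ?_ ?_; assumption) | (with_reducible refine IntF.comp ?_ ?_; assumption) | (with_reducible refine IntF.comp₂ ?_ ?_ ?_; assumption) | (with_reducible refine IntF.comp₃ ?_ ?_ ?_ ?_; assumption) | with_reducible apply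 IntF.pair))) (fun C hC hcov =>
    compact_lo h hC n hcov) ht hy

omit h ht hO in
/-- The inclusion. -/
theorem exists_inc {x' : N} (hx' : ∀ z, Helper672.Plain.Mem z x' → Helper672.Plain.Mem z x) :
    ∃ i : Helper672.Plain.El x' → Helper672.Plain.El x, IntF N i ∧ ∀ p, (i p).1 = p.1 := by
  let i : Helper672.Plain.El x' → Helper672.Plain.El x := fun p => mkE p.1 (hx' _ p.2)
  refine ⟨i, ?_, fun p => rfl⟩
  refine IntF.of_D (S := fun v => v 0 = v 1) (D.eqf (DF.var _) (DF.var _)) fun a b => ?_
  change a.1 = b.1 ↔ i a = b
  exact ⟨fun h => Subtype.ext h, fun h => h ▸ rfl⟩

section rr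

variable {r : N} [Field (Helper672.Plain.El r)] [LinearOrder (Helper672.Plain.El r)] [IsStrictOrderedRing (Helper672.Plain.El r)]
variable (hr : IsReals r)
include hr

variable {x' t' : N} (hx' : ∀ z, Helper672.Plain.Mem z x' ↔ ∃ h : Helper672.Plain.Mem z x, mkE z h ≠ o) (ht' : IsSubspace t' x' t)
include hx' ht'

omit hr ht hO ht' in
theorem exists_tau' : ∃ τ' : INat N → Helper672.Plain.El x', IntF N τ' ∧ ∀ n, (τ' n).1 = (τ n).1 := by
  let τ' : INat N → Helper672.Plain.El x' := fun n => mkE (τ n).1 ((hx' _).2 ⟨(τ n).2, h.oτ n⟩)
  refine ⟨τ', ?_, fun p => rfl⟩
  have hτ := h.intτ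
  refine IntF.of_rel (r := fun (n : INat N) (p : Helper672.Plain.El x') => (τ n).1 = p.1) (by (repeat' (first | with_reducible apply memPE | with_reducible apply memPE' | with_reducible apply memPE'' | with_reducible apply memCode | with_reducible apply memCodeP | with_reducible apply memCode₂ | with_reducible apply eqPE | with_reducible apply eqPE' | with_reducible exact IntF.id | with_reducible exact IntF.fst' | with_reducible exact IntF.snd' | with_reducible exact IntF.const _ | with_reducible exact Int.const _ | assumption | with_reducible apply Int.and | with_reducible apply Int.or | with_reducible apply Int.not | with_reducible apply Int.imp | with_reducible apply Int.iff | with_reducible apply Int.ne | with_reducible apply Int.eq | with_reducible apply Int.mem | with_reducible apply Int.subset | with_reducible apply Int.ltN | with_reducible apply Int.leN | with_reducible_and_instances apply Int.le | with_reducible_and_instances apply Int.lt | with_reducible apply Int.all | with_reducible apply Int.ex | with_reducible apply IntF.fst | with_reducible apply IntF.snd | with_reducible apply IntF.app | with_reducible apply IntF.inl | with_reducible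 apply IntF.inr | with_reducible_and_instances apply IntF.mul | with_reducible_and_instances apply IntF.inv | with_reducible_and_instances apply IntF.add | with_reducible_and_instances apply IntF.sub | with_reducible_and_instances apply IntF.neg | with_reducible_and_instances apply IntF.smul | with_reducible apply Int.fin | with_reducible apply IntF.sep | with_reducible apply IntF.lam | with_reducible apply IntF.insert | with_reducible apply IntF.singleton | with_reducible apply IntF.union | with_reducible apply IntF.iimage | with_reducible apply IntF.ite | with_reducible apply IntF.the | with_reducible apply IntF.irec | with_reducible apply IntF.succ | with_reducible apply IntF.val | with_reducible apply IntF.mk | (with_reducible refine Int.comp ?_ ?_; assumption) | (with_reducible refine Int.comp₂ ?_ ?_ ?_; assumption) | (with_reducible refine Int.comp₃ ?_ ?_ ?_ ?_; assumption) | (with_reducible refine Int.comp₄ ?_ ?_ ?_ ?_ ?_; assumption) | (with_reducible refine IntF.comp ?_ ?_; assumption) | (with_reducible refine IntF.comp₂ ?_ ?_ ?_; assumption) | (with_reducible refine IntF.comp₃ ?_ ?_ ?_ ?_; assumption) | with_reducible apply IntF.pair)))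 fun n p => ?_
  exact ⟨fun h1 => Subtype.ext h1, fun h1 => h1 ▸ rfl⟩

/-- Continuous functions are eventually constant. -/
theorem evconst {i : Helper672.Plain.El x' → Helper672.Plain.El x} (hi : ∀ p, (i p).1 = p.1) {f : Helper672.Plain.El x' → Helper672.Plain.El r}
    (hf : IsCont t' f) : ∃ m c, ∀ p, ¬ Lo τ R m (i p) → f p = c := by
  obtain ⟨hfI, hfc⟩ := hf
  replace hfI := isMap_iff.1 hfI
  obtain ⟨Wd, hWI, hWd⟩ := exists_dense hr
  obtain ⟨τ', hτ', hττ⟩ := exists_tau' h hx'
  have hW : Int N (fun q : Helper672.Plain.El x × INat N => ∃ p : Helper672.Plain.El x', p.1 = q.1.1 ∧ Wd (f p) q.2) := by (repeat' (first | with_reducible apply memPE | with_reducible apply memPE' | with_reducible apply memPE'' | with_reducible apply memCode | with_reducible apply memCodeP | with_reducible apply memCode₂ | with_reducible apply eqPE | with_reducible apply eqPE' | with_reducible exact IntF.id | with_reducible exact IntF.fst' | with_reducible exact IntF.snd' | with_reducible exact IntF.const _ | with_reducible exact Int.const _ | assumption | with_reducible apply Int.and | with_reducible apply Int.or | with_reducible apply Int.not | with_reducible apply Int.imp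 | with_reducible apply Int.iff | with_reducible apply Int.ne | with_reducible apply Int.eq | with_reducible apply Int.mem | with_reducible apply Int.subset | with_reducible apply Int.ltN | with_reducible apply Int.leN | with_reducible_and_instances apply Int.le | with_reducible_and_instances apply Int.lt | with_reducible apply Int.all | with_reducible apply Int.ex | with_reducible apply IntF.fst | with_reducible apply IntF.snd | with_reducible apply IntF.app | with_reducible apply IntF.inl | with_reducible apply IntF.inr | with_reducible_and_instances apply IntF.mul | with_reducible_and_instances apply IntF.inv | with_reducible_and_instances apply IntF.add | with_reducible_and_instances apply IntF.sub | with_reducible_and_instances apply IntF.neg | with_reducible_and_instances apply IntF.smul | with_reducible apply Int.fin | with_reducible apply IntF.sep | with_reducible apply IntF.lam | with_reducible apply IntF.insert | with_reducible apply IntF.singleton | with_reducible apply IntF.union | with_reducible apply IntF.iimage | with_reducible apply IntF.ite | with_reducible apply IntF.the | with_reducible apply IntF.irec | with_reducible apply IntF.succ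 | with_reducible apply IntF.val | with_reducible apply IntF.mk | (with_reducible refine Int.comp ?_ ?_; assumption) | (with_reducible refine Int.comp₂ ?_ ?_ ?_; assumption) | (with_reducible refine Int.comp₃ ?_ ?_ ?_ ?_; assumption) | (with_reducible refine Int.comp₄ ?_ ?_ ?_ ?_ ?_; assumption) | (with_reducible refine IntF.comp ?_ ?_; assumption) | (with_reducible refine IntF.comp₂ ?_ ?_ ?_; assumption) | (with_reducible refine IntF.comp₃ ?_ ?_ ?_ ?_; assumption) | with_reducible apply IntF.pair))
  obtain ⟨m, hm⟩ := h.hom _ hW
  have hle : ∀ n (a b : Helper672.Plain.El x'), m ≤ n → R (n, (i a, i a)) → R (n, (i b, i b)) → f a ≤ f b := by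
    intro n a b hmn ha hb
    refine hWd _ _ fun k hk => ?_
    obtain ⟨p, h1, h2⟩ := hm n (i a) (i b) hmn ha hb k ⟨a, (hi a).symm, hk⟩
    have h3 : p = b := Subtype.ext (h1.trans (hi b))
    rw [← h3]
    exact h2
  have heq : ∀ n (a b : Helper672.Plain.El x'), m ≤ n → R (n, (i a, i a)) → R (n, (i b, i b)) → f a = f b :=
    fun n a b hmn ha hb => le_antisymm (hle n a b hmn ha hb) (hle n b a hmn hb ha)
  have hiτ : ∀ n, i (τ' n) = τ n := fun n => Subtype.ext ((hi _).trans (hττ n))
  have hpt : ∀ n (a : Helper672.Plain.El x), R (n, (a, a)) → ∃ a' : Helper672.Plain.El x', i a' = a := by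
    intro n a ha
    refine ⟨mkE a.1 ((hx' _).2 ⟨a.2, ?_⟩), Subtype.ext (hi _)⟩
    rintro (rfl : a = o)
    exact h.oR _ ha
  -- a point `p` in whose neighbourhoods there are points of the `n`-th copy
  have hadh : ∀ n (p a : Helper672.Plain.El x'), m ≤ n → R (n, (i a, i a)) →
      (∀ V : IPow N (Helper672.Plain.El x), OpC o τ R V → i p ∈ V → ∃ b, R (n, (b, b)) ∧ b ∈ V) → f p = f a := by
    intro n p a hmn ha hV
    by_contra hne
    have hpos : 0 < |f a - f p| := abs_pos.2 fun h1 => hne (sub_eq_zero.1 h1).symm
    obtain ⟨u, hu, hpu, h1⟩ := hfc p _ hpos
    obtain ⟨v, hv, h2⟩ := (ht' u).1 hu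
    obtain ⟨V, rfl, hVv⟩ := exists_code (a := x) (ht.sub v hv)
    obtain ⟨b, hb, hbV⟩ := hV V ((hO V).1 hv) ((hVv _).2 (by
      rw [hi]
      exact ((h2 _).1 hpu).1))
    obtain ⟨b', rfl⟩ := hpt n b hb
    have h3 := h1 b' ((h2 _).2 ⟨by rw [← hi]; exact (hVv _).1 hbV, b'.2⟩)
    rw [heq n b' a hmn hb ha] at h3
    exact lt_irrefl _ h3
  have hl : ∀ n (a : Helper672.Plain.El x'), m ≤ n → R (n, (i a, i a)) → f (τ' n) = f a := by
    intro n a hmn ha
    refine hadh n _ a hmn ha fun V hV hp => ?_
    rw [hiτ] at hp
    obtain ⟨y, hy, h1⟩ := hV.1 n hp
    exact ⟨y, hy, h1 y hy⟩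
  have hrr : ∀ n (a : Helper672.Plain.El x'), m ≤ n → R (n, (i a, i a)) → f (τ' n.succ) = f a := by
    intro n a hmn ha
    refine hadh n _ a hmn ha fun V hV hp => ?_
    rw [hiτ] at hp
    obtain ⟨y, hy, h1⟩ := hV.2.1 n hp
    exact ⟨y, hy, h1 y hy⟩
  have hτc : ∀ n, m ≤ n → f (τ' n) = f (τ' m) := by
    refine INat.ind (p := fun n => m ≤ n → f (τ' n) = f (τ' m)) (by (repeat' (first | with_reducible apply memPE | with_reducible apply memPE' | with_reducible apply memPE'' | with_reducible apply memCode | with_reducible apply memCodeP | with_reducible apply memCode₂ | with_reducible apply eqPE | with_reducible apply eqPE' | with_reducible exact IntF.id | with_reducible exact IntF.fst' | with_reducible exact IntF.snd' | with_reducible exact IntF.const _ | with_reducible exact Int.const _ | assumption | with_reducible apply Int.and | with_reducible apply Int.or | with_reducible apply Int.not | with_reducible apply Int.imp | with_reducible apply Int.iff | with_reducible apply Int.ne | with_reducible apply Int.eq | with_reducible apply Int.mem | with_reducible apply Int.subset | with_reducible apply Int.ltN | with_reducible apply Int.leN | with_reducible_and_instances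 apply Int.le | with_reducible_and_instances apply Int.lt | with_reducible apply Int.all | with_reducible apply Int.ex | with_reducible apply IntF.fst | with_reducible apply IntF.snd | with_reducible apply IntF.app | with_reducible apply IntF.inl | with_reducible apply IntF.inr | with_reducible_and_instances apply IntF.mul | with_reducible_and_instances apply IntF.inv | with_reducible_and_instances apply IntF.add | with_reducible_and_instances apply IntF.sub | with_reducible_and_instances apply IntF.neg | with_reducible_and_instances apply IntF.smul | with_reducible apply Int.fin | with_reducible apply IntF.sep | with_reducible apply IntF.lam | with_reducible apply IntF.insert | with_reducible apply IntF.singleton | with_reducible apply IntF.union | with_reducible apply IntF.iimage | with_reducible apply IntF.ite | with_reducible apply IntF.the | with_reducible apply IntF.irec | with_reducible apply IntF.succ | with_reducible apply IntF.val | with_reducible apply IntF.mk | (with_reducible refine Int.comp ?_ ?_; assumption) | (with_reducible refine Int.comp₂ ?_ ?_ ?_; assumption) | (with_reducible refine Int.comp₃ ?_ ?_ ?_ ?_; assumption) | (with_reducible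 refine Int.comp₄ ?_ ?_ ?_ ?_ ?_; assumption) | (with_reducible refine IntF.comp ?_ ?_; assumption) | (with_reducible refine IntF.comp₂ ?_ ?_ ?_; assumption) | (with_reducible refine IntF.comp₃ ?_ ?_ ?_ ?_; assumption) | with_reducible apply IntF.pair))) ?_ ?_
    · intro h1
      rw [le_antisymm h1 (INat.zero_le m)]
    · intro n ih h1
      rcases h1.lt_or_eq with h1 | h1
      · have h2 : m ≤ n := INat.lt_succ_iff.1 h1
        obtain ⟨a, ha⟩ := h.ne n
        obtain ⟨a', rfl⟩ := hpt n a ha
        rw [hrr n a' h2 ha, ← hl n a' h2 ha]
        exact ih h2
      · rw [h1]
  refine ⟨m, f (τ' m), fun p hp => ?_⟩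
  rcases h.cov (i p) with h1 | ⟨n, h1⟩ | ⟨n, h1⟩
  · obtain ⟨h2, h3⟩ := (hx' p.1).1 p.2
    exact absurd (Subtype.ext ((hi p).symm.trans (congrArg Subtype.val h1)) : mkE p.1 h2 = o) h3
  · have h2 : p = τ' n := Subtype.ext ((hi p).symm.trans ((congrArg Subtype.val h1).trans
      (hττ n).symm))
    rw [h2]
    refine hτc n ?_
    by_contra h3
    exact hp (by rw [h1]; exact (lo_τ h).2 (not_le.1 h3).le)
  · have h2 : m ≤ n := by
      by_contra h3
      exact hp ((lo_R h h1).2 (not_le.1 h3))
    rw [← hl n p h2 h1]
    exact hτc n h2

/-- The space without the last point is not realcompact. -/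
theorem not_rc : ¬ IsRealcompact t' x' r := by
  rintro ⟨j, e, he, hinj, htop, hcl⟩
  have hx'x : ∀ z, Helper672.Plain.Mem z x' → Helper672.Plain.Mem z x := fun z hz => ((hx' z).1 hz).1
  obtain ⟨i, hiI, hi⟩ := exists_inc hx'x
  obtain ⟨τ', hτ', hττ⟩ := exists_tau' h hx'
  have hiτ : ∀ n, i (τ' n) = τ n := fun n => Subtype.ext ((hi _).trans (hττ n))
  have heI := isMap₂_iff.1 he
  have hL := int_Lo h
  have hlt := int_lt hr
  obtain ⟨d, hdI, hd⟩ : ∃ d : Helper672.Plain.El r → Helper672.Plain.El r → Helper672.Plain.El r, IntF N (fun q : Helper672.Plain.El r × Helper672.Plain.El r => d q.1 q.2) ∧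
      ∀ a b, d a b = |a - b| := ⟨fun a b => |a - b|, int_dist hr, fun _ _ => rfl⟩
  have hcont : ∀ k : Helper672.Plain.El j, IsCont t' (fun p => e p k) := by
    intro k
    refine ⟨isMap_iff.2 (by (repeat' (first | with_reducible apply memPE | with_reducible apply memPE' | with_reducible apply memPE'' | with_reducible apply memCode | with_reducible apply memCodeP | with_reducible apply memCode₂ | with_reducible apply eqPE | with_reducible apply eqPE' | with_reducible exact IntF.id | with_reducible exact IntF.fst' | with_reducible exact IntF.snd' | with_reducible exact IntF.const _ | with_reducible exact Int.const _ | assumption | with_reducible apply Int.and | with_reducible apply Int.or | with_reducible apply Int.not | with_reducible apply Int.imp | with_reducible apply Int.iff | with_reducible apply Int.ne | with_reducible apply Int.eq | with_reducible apply Int.mem | with_reducible apply Int.subset | with_reducible apply Int.ltN | with_reducible apply Int.leN | with_reducible_and_instances apply Int.le | with_reducible_and_instances apply Int.lt | with_reducible apply Int.all | with_reducible apply Int.ex | with_reducible apply IntF.fst | with_reducible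 apply IntF.snd | with_reducible apply IntF.app | with_reducible apply IntF.inl | with_reducible apply IntF.inr | with_reducible_and_instances apply IntF.mul | with_reducible_and_instances apply IntF.inv | with_reducible_and_instances apply IntF.add | with_reducible_and_instances apply IntF.sub | with_reducible_and_instances apply IntF.neg | with_reducible_and_instances apply IntF.smul | with_reducible apply Int.fin | with_reducible apply IntF.sep | with_reducible apply IntF.lam | with_reducible apply IntF.insert | with_reducible apply IntF.singleton | with_reducible apply IntF.union | with_reducible apply IntF.iimage | with_reducible apply IntF.ite | with_reducible apply IntF.the | with_reducible apply IntF.irec | with_reducible apply IntF.succ | with_reducible apply IntF.val | with_reducible apply IntF.mk | (with_reducible refine Int.comp ?_ ?_; assumption) | (with_reducible refine Int.comp₂ ?_ ?_ ?_; assumption) | (with_reducible refine Int.comp₃ ?_ ?_ ?_ ?_; assumption) | (with_reducible refine Int.comp₄ ?_ ?_ ?_ ?_ ?_; assumption) | (with_reducible refine IntF.comp ?_ ?_; assumption) | (with_reducible refine IntF.comp₂ ?_ ?_ ?_; assumption)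 | (with_reducible refine IntF.comp₃ ?_ ?_ ?_ ?_; assumption) | with_reducible apply IntF.pair))), fun p ε hε => ?_⟩
    obtain ⟨u, hu⟩ := exists_set (a := x') (p := fun q => d (e q k) (e p k) < ε) (by (repeat' (first | with_reducible apply memPE | with_reducible apply memPE' | with_reducible apply memPE'' | with_reducible apply memCode | with_reducible apply memCodeP | with_reducible apply memCode₂ | with_reducible apply eqPE | with_reducible apply eqPE' | with_reducible exact IntF.id | with_reducible exact IntF.fst' | with_reducible exact IntF.snd' | with_reducible exact IntF.const _ | with_reducible exact Int.const _ | assumption | with_reducible apply Int.and | with_reducible apply Int.or | with_reducible apply Int.not | with_reducible apply Int.imp | with_reducible apply Int.iff | with_reducible apply Int.ne | with_reducible apply Int.eq | with_reducible apply Int.mem | with_reducible apply Int.subset | with_reducible apply Int.ltN | with_reducible apply Int.leN | with_reducible_and_instances apply Int.le | with_reducible_and_instances apply Int.lt | with_reducible apply Int.all | with_reducible apply Int.ex | with_reducible apply IntF.fst |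 with_reducible apply IntF.snd | with_reducible apply IntF.app | with_reducible apply IntF.inl | with_reducible apply IntF.inr | with_reducible_and_instances apply IntF.mul | with_reducible_and_instances apply IntF.inv | with_reducible_and_instances apply IntF.add | with_reducible_and_instances apply IntF.sub | with_reducible_and_instances apply IntF.neg | with_reducible_and_instances apply IntF.smul | with_reducible apply Int.fin | with_reducible apply IntF.sep | with_reducible apply IntF.lam | with_reducible apply IntF.insert | with_reducible apply IntF.singleton | with_reducible apply IntF.union | with_reducible apply IntF.iimage | with_reducible apply IntF.ite | with_reducible apply IntF.the | with_reducible apply IntF.irec | with_reducible apply IntF.succ | with_reducible apply IntF.val | with_reducible apply IntF.mk | (with_reducible refine Int.comp ?_ ?_; assumption) | (with_reducible refine Int.comp₂ ?_ ?_ ?_; assumption) | (with_reducible refine Int.comp₃ ?_ ?_ ?_ ?_; assumption) | (with_reducible refine Int.comp₄ ?_ ?_ ?_ ?_ ?_; assumption) | (with_reducible refine IntF.comp ?_ ?_; assumption) | (with_reducible refine IntF.comp₂ ?_ ?_ ?_;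 assumption) | (with_reducible refine IntF.comp₃ ?_ ?_ ?_ ?_; assumption) | with_reducible apply IntF.pair)))
    simp only [hd] at hu
    refine ⟨u, ?_, (hu _).2 ⟨p.2, ?_⟩, fun q hq => ((hu _).1 hq).2⟩
    · refine (htop u fun z hz => ((hu z).1 hz).1).2 fun q hq => ?_
      obtain ⟨_, h1⟩ := (hu _).1 hq
      replace h1 : |e q k - e p k| < ε := h1
      refine ⟨code ({k} : IPow N (Helper672.Plain.El j)), ε - |e q k - e p k|, finite_code (IFin.singleton k),
        sub_pos.2 h1, fun q' hq' => (hu _).2 ⟨q'.2, ?_⟩⟩
      have h2 := hq' k (mem_cpE'.2 (mem_singleton.2 rfl))
      change |e q' k - e p k| < ε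
      have h3 : e q' k - e p k = (e q' k - e q k) + (e q k - e p k) := by ring
      rw [h3]
      refine (abs_add_le _ _).trans_lt ?_
      linarith
    · change |e p k - e p k| < ε
      rw [sub_self, abs_zero]
      exact hε
  have hex : ∀ k : Helper672.Plain.El j, ∃ c m, ∀ p, ¬ Lo τ R m (i p) → e p k = c := by
    intro k
    obtain ⟨m, c, h1⟩ := evconst h ht hO hr hx' ht' hi (hcont k)
    exact ⟨c, m, h1⟩
  have hbig : ∀ m n, m < n → ¬ Lo τ R m (i (τ' n)) := by
    intro m n hmn h1
    rw [hiτ, lo_τ h] at h1
    exact absurd hmn (not_lt.2 h1)
  have huniq : ∀ (k : Helper672.Plain.El j) (c c' : Helper672.Plain.El r), (∃ m, ∀ p, ¬ Lo τ R m (i p) → e p k = c) →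
      (∃ m, ∀ p, ¬ Lo τ R m (i p) → e p k = c') → c = c' := by
    rintro k c c' ⟨m, h1⟩ ⟨m', h2⟩
    rw [← h1 (τ' (max m m').succ) (hbig _ _ (INat.lt_succ_iff.2 (le_max_left _ _))),
      ← h2 (τ' (max m m').succ) (hbig _ _ (INat.lt_succ_iff.2 (le_max_right _ _)))]
  choose y hy using hex
  have hyI : IntF N y := IntF.of_unique (p := fun (k : Helper672.Plain.El j) (c : Helper672.Plain.El r) =>
    ∃ m, ∀ p, ¬ Lo τ R m (i p) → e p k = c) (by (repeat' (first | with_reducible apply memPE | with_reducible apply memPE' | with_reducible apply memPE'' | with_reducible apply memCode | with_reducible apply memCodeP | with_reducible apply memCode₂ | with_reducible apply eqPE | with_reducible apply eqPE' | with_reducible exact IntF.id | with_reducible exact IntF.fst' | with_reducible exact IntF.snd' | with_reducible exact IntF.const _ | with_reducible exact Int.const _ | assumption | with_reducible apply Int.and | with_reducible apply Int.or | with_reducible apply Int.not | with_reducible apply Int.imp | with_reducible apply Int.iff | with_reducible apply Int.ne | with_reducible apply Int.eq | with_reducible apply Int.mem | with_reducible apply Int.subset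 | with_reducible apply Int.ltN | with_reducible apply Int.leN | with_reducible_and_instances apply Int.le | with_reducible_and_instances apply Int.lt | with_reducible apply Int.all | with_reducible apply Int.ex | with_reducible apply IntF.fst | with_reducible apply IntF.snd | with_reducible apply IntF.app | with_reducible apply IntF.inl | with_reducible apply IntF.inr | with_reducible_and_instances apply IntF.mul | with_reducible_and_instances apply IntF.inv | with_reducible_and_instances apply IntF.add | with_reducible_and_instances apply IntF.sub | with_reducible_and_instances apply IntF.neg | with_reducible_and_instances apply IntF.smul | with_reducible apply Int.fin | with_reducible apply IntF.sep | with_reducible apply IntF.lam | with_reducible apply IntF.insert | with_reducible apply IntF.singleton | with_reducible apply IntF.union | with_reducible apply IntF.iimage | with_reducible apply IntF.ite | with_reducible apply IntF.the | with_reducible apply IntF.irec | with_reducible apply IntF.succ | with_reducible apply IntF.val | with_reducible apply IntF.mk | (with_reducible refine Int.comp ?_ ?_; assumption) | (with_reducible refine Int.comp₂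 ?_ ?_ ?_; assumption) | (with_reducible refine Int.comp₃ ?_ ?_ ?_ ?_; assumption) | (with_reducible refine Int.comp₄ ?_ ?_ ?_ ?_ ?_; assumption) | (with_reducible refine IntF.comp ?_ ?_; assumption) | (with_reducible refine IntF.comp₂ ?_ ?_ ?_; assumption) | (with_reducible refine IntF.comp₃ ?_ ?_ ?_ ?_; assumption) | with_reducible apply IntF.pair))) hy huniq
  have hbd : ∀ F : N, IsFinite F → ∃ m, ∀ k : Helper672.Plain.El j, Helper672.Plain.Mem k.1 F → ∀ p, ¬ Lo τ R m (i p) →
      e p k = y k := by
    intro F hF
    obtain ⟨m, hm⟩ := IFin.exists_bound (r := fun (k : Helper672.Plain.El j) (m : INat N) =>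
      ∀ p, ¬ Lo τ R m (i p) → e p k = y k) (by (repeat' (first | with_reducible apply memPE | with_reducible apply memPE' | with_reducible apply memPE'' | with_reducible apply memCode | with_reducible apply memCodeP | with_reducible apply memCode₂ | with_reducible apply eqPE | with_reducible apply eqPE' | with_reducible exact IntF.id | with_reducible exact IntF.fst' | with_reducible exact IntF.snd' | with_reducible exact IntF.const _ | with_reducible exact Int.const _ | assumption | with_reducible apply Int.and | with_reducible apply Int.or | with_reducible apply Int.not | with_reducible apply Int.imp | with_reducible apply Int.iff | with_reducible apply Int.ne | with_reducible apply Int.eq | with_reducible apply Int.mem | with_reducible apply Int.subset | with_reducible apply Int.ltN | with_reducible apply Int.leN | with_reducible_and_instances apply Int.le | with_reducible_and_instances apply Int.lt | with_reducible apply Int.all | with_reducible apply Int.ex | with_reducible apply IntF.fst | with_reducible apply IntF.snd | with_reducible apply IntF.app | with_reducible apply IntF.inl | with_reducible apply IntF.inr | with_reducible_and_instances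 apply IntF.mul | with_reducible_and_instances apply IntF.inv | with_reducible_and_instances apply IntF.add | with_reducible_and_instances apply IntF.sub | with_reducible_and_instances apply IntF.neg | with_reducible_and_instances apply IntF.smul | with_reducible apply Int.fin | with_reducible apply IntF.sep | with_reducible apply IntF.lam | with_reducible apply IntF.insert | with_reducible apply IntF.singleton | with_reducible apply IntF.union | with_reducible apply IntF.iimage | with_reducible apply IntF.ite | with_reducible apply IntF.the | with_reducible apply IntF.irec | with_reducible apply IntF.succ | with_reducible apply IntF.val | with_reducible apply IntF.mk | (with_reducible refine Int.comp ?_ ?_; assumption) | (with_reducible refine Int.comp₂ ?_ ?_ ?_; assumption) | (with_reducible refine Int.comp₃ ?_ ?_ ?_ ?_; assumption) | (with_reducible refine Int.comp₄ ?_ ?_ ?_ ?_ ?_; assumption) | (with_reducible refine IntF.comp ?_ ?_; assumption) | (with_reducible refine IntF.comp₂ ?_ ?_ ?_; assumption) | (with_reducible refine IntF.comp₃ ?_ ?_ ?_ ?_; assumption) | with_reducible apply IntF.pair))) (fun b c => ⟨max b c, fun k hk p hp => by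
        rcases hk with hk | hk
        · exact hk p fun h1 => hp (lo_mono (le_max_left _ _) h1)
        · exact hk p fun h1 => hp (lo_mono (le_max_right _ _) h1)⟩) ⟨0⟩ (ifin_of_finite hF j)
      fun k _ => hy k
    exact ⟨m, fun k hk => hm k ((mem_sep (memI' _ _)).2 hk)⟩
  obtain ⟨p, hp⟩ := hcl y (isMap_iff.2 hyI) fun F ε hF hε => by
    obtain ⟨m, hm⟩ := hbd F hF
    refine ⟨τ' m.succ, fun k hk => ?_⟩
    rw [hm k hk _ (hbig _ _ (INat.lt_succ_self m)), sub_self, abs_zero]
    exact hε
  have hpo : i p ≠ o := by
    intro h1
    obtain ⟨h2, h3⟩ := (hx' p.1).1 p.2
    exact h3 (Subtype.ext ((hi p).symm.trans (congrArg Subtype.val h1)))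
  obtain ⟨n, hn⟩ := exists_lo h hpo
  obtain ⟨z, hz⟩ := h.ne n
  have hS := int_Sg h
  have hSI : Int N (fun q => Sg τ R n z q) := by (repeat' (first | with_reducible apply memPE | with_reducible apply memPE' | with_reducible apply memPE'' | with_reducible apply memCode | with_reducible apply memCodeP | with_reducible apply memCode₂ | with_reducible apply eqPE | with_reducible apply eqPE' | with_reducible exact IntF.id | with_reducible exact IntF.fst' | with_reducible exact IntF.snd' | with_reducible exact IntF.const _ | with_reducible exact Int.const _ | assumption | with_reducible apply Int.and | with_reducible apply Int.or | with_reducible apply Int.not | with_reducible apply Int.imp | with_reducible apply Int.iff | with_reducible apply Int.ne | with_reducible apply Int.eq | with_reducible apply Int.mem | with_reducible apply Int.subset | with_reducible apply Int.ltN | with_reducible apply Int.leN | with_reducible_and_instances apply Int.le | with_reducible_and_instances apply Int.lt | with_reducible apply Int.all | with_reducible apply Int.ex | with_reducible apply IntF.fst | with_reducible apply IntF.snd | with_reducible apply IntF.app | with_reducible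 apply IntF.inl | with_reducible apply IntF.inr | with_reducible_and_instances apply IntF.mul | with_reducible_and_instances apply IntF.inv | with_reducible_and_instances apply IntF.add | with_reducible_and_instances apply IntF.sub | with_reducible_and_instances apply IntF.neg | with_reducible_and_instances apply IntF.smul | with_reducible apply Int.fin | with_reducible apply IntF.sep | with_reducible apply IntF.lam | with_reducible apply IntF.insert | with_reducible apply IntF.singleton | with_reducible apply IntF.union | with_reducible apply IntF.iimage | with_reducible apply IntF.ite | with_reducible apply IntF.the | with_reducible apply IntF.irec | with_reducible apply IntF.succ | with_reducible apply IntF.val | with_reducible apply IntF.mk | (with_reducible refine Int.comp ?_ ?_; assumption) | (with_reducible refine Int.comp₂ ?_ ?_ ?_; assumption) | (with_reducible refine Int.comp₃ ?_ ?_ ?_ ?_; assumption) | (with_reducible refine Int.comp₄ ?_ ?_ ?_ ?_ ?_; assumption) | (with_reducible refine IntF.comp ?_ ?_; assumption) | (with_reducible refine IntF.comp₂ ?_ ?_ ?_; assumption) | (with_reducible refine IntF.comp₃ ?_ ?_ ?_ ?_; assumption) | with_reducible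 apply IntF.pair))
  obtain ⟨u, hu⟩ := exists_trace (code (sep N fun q => Sg τ R n z q)) x'
  have hut : Helper672.Plain.Mem u t' := ht'.trace ((hO _).2 (opC_sg h hz fun q => mem_sep hSI)) hu
  have hpu : Helper672.Plain.Mem p.1 u := (hu _).2 ⟨by
    rw [← hi, show Helper672.Plain.Mem (i p).1 (code (sep N fun q => Sg τ R n z q)) ↔ _ from
      mem_cpE', mem_sep hSI]
    exact Or.inl hn, p.2⟩
  obtain ⟨F, ε, hF, hε, h1⟩ := (htop u fun z hz => ht'.sub hut hz).1 hut p hpu
  obtain ⟨m, hm⟩ := hbd F hF
  have h2 := h1 (τ' (max m n).succ) fun k hk => by
    rw [hm k hk _ (hbig _ _ (INat.lt_succ_iff.2 (le_max_left _ _))), hp k, sub_self, abs_zero]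
    exact hε
  have h3 := ((hu _).1 h2).1
  rw [← hi, show Helper672.Plain.Mem (i (τ' (max m n).succ)).1
    (code (sep N fun q => Sg τ R n z q)) ↔ _ from mem_cpE', mem_sep hSI, hiτ, sg_τ h] at h3
  exact absurd (INat.lt_succ_self (max m n)) (not_lt.2 (h3.trans (le_max_right _ _)))

end rr

end

end Pool.Agent.Q301.TM
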