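import Pool.Agent.H310R3.Gen

/-!
# Homogeneous chains of copies of the integers
-/

set_option maxHeartbeats 1000000
set_option linter.all false

namespace Pool.Agent.Q301.TM

open FirstOrder FirstOrder.Language
open Pool.Agent.Helper672.ZFA
open Pool.Agent.H310 (FinP)

universe u u₁

variable (M : Type u) [L.Structure M] [hM : IsModel M]
variable {α : Type u₁} [ITy M α]

/-- A sequence of copies of the integers with many automorphisms: `R (n, (x, y))` says that `x`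
and `y` are in the `n`-th copy and `x ≤ y`. -/
structure ChD (R : INat M × (α × α) → Prop) : Prop where
  int : Int M R
  cov : ∀ a, ∃ n, R (n, (a, a))
  uniq : ∀ m n a, R (m, (a, a)) → R (n, (a, a)) → m = n
  left : ∀ n a b, R (n, (a, b)) → R (n, (a, a))
  right : ∀ n a b, R (n, (a, b)) → R (n, (b, b))
  total : ∀ n a b, R (n, (a, a)) → R (n, (b, b)) → R (n, (a, b)) ∨ R (n, (b, a))
  antisymm : ∀ n a b, R (n, (a, b)) → R (n, (b, a)) → a = b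
  trans : ∀ n a b c, R (n, (a, b)) → R (n, (b, c)) → R (n, (a, c))
  ne : ∀ n, ∃ a, R (n, (a, a))
  top : ∀ n a, R (n, (a, a)) → ∃ b, R (n, (a, b)) ∧ b ≠ a
  bot : ∀ n a, R (n, (a, a)) → ∃ b, R (n, (b, a)) ∧ b ≠ a
  fin : ∀ n a b, FinP M (fun c => R (n, (a, c)) ∧ R (n, (c, b)))
  up : ∀ n, ∃ u : INat M → α, IntF M u ∧ (∀ m, R (n, (u m, u m))) ∧
    ∀ a, R (n, (a, a)) → ∃ m, R (n, (a, u m))
  dn : ∀ n, ∃ u : INat M → α, IntF M u ∧ (∀ m, R (n, (u m, u m))) ∧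
    ∀ a, R (n, (a, a)) → ∃ m, R (n, (u m, a))
  hom : ∀ W : α × INat M → Prop, Int M W → ∃ m, ∀ n a b, m ≤ n → R (n, (a, a)) →
    R (n, (b, b)) → ∀ k, W (a, k) → W (b, k)

/-- The chain with the points `τ n` between the copies and the last point `o`. -/
structure Ch {P : Type u₁} [ITy M P] (o : P) (τ : INat M → P) (R : INat M × (P × P) → Prop) :
    Prop where
  int : Int M R
  intτ : IntF M τ
  cov : ∀ p, p = o ∨ (∃ n, p = τ n) ∨ ∃ n, R (n, (p, p))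
  oτ : ∀ n, τ n ≠ o
  oR : ∀ n, ¬ R (n, (o, o))
  ττ : ∀ m n, τ m = τ n → m = n
  τR : ∀ m n, ¬ R (n, (τ m, τ m))
  uniq : ∀ m n a, R (m, (a, a)) → R (n, (a, a)) → m = n
  left : ∀ n a b, R (n, (a, b)) → R (n, (a, a))
  right : ∀ n a b, R (n, (a, b)) → R (n, (b, b))
  total : ∀ n a b, R (n, (a, a)) → R (n, (b, b)) → R (n, (a, b)) ∨ R (n, (b, a))
  antisymm : ∀ n a b, R (n, (a, b)) → R (n, (b, a)) → a = b
  trans : ∀ n a b c, R (n, (a, b)) → R (n, (b, c)) → R (n, (a, c))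
  ne : ∀ n, ∃ a, R (n, (a, a))
  top : ∀ n a, R (n, (a, a)) → ∃ b, R (n, (a, b)) ∧ b ≠ a
  bot : ∀ n a, R (n, (a, a)) → ∃ b, R (n, (b, a)) ∧ b ≠ a
  fin : ∀ n a b, FinP M (fun c => R (n, (a, c)) ∧ R (n, (c, b)))
  up : ∀ n, ∃ u : INat M → P, IntF M u ∧ (∀ m, R (n, (u m, u m))) ∧
    ∀ a, R (n, (a, a)) → ∃ m, R (n, (a, u m))
  dn : ∀ n, ∃ u : INat M → P, IntF M u ∧ (∀ m, R (n, (u m, u m))) ∧
    ∀ a, R (n, (a, a)) → ∃ m, R (n, (u m, a))
  hom : ∀ W : P × INat M → Prop, Int M W → ∃ m, ∀ n a b, m ≤ n → R (n, (a, a)) →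
    R (n, (b, b)) → ∀ k, W (a, k) → W (b, k)

end Pool.Agent.Q301.TM
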