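import Pool.Agent.Q301.TM.RealX

/-!
# Sequences of clopen sets, retractions and embeddings
-/

set_option maxHeartbeats 1000000
set_option linter.all false
set_option synthInstance.maxSize 2000

namespace Pool.Agent.Q301.TM

open FirstOrder FirstOrder.Language
open Pool.Agent.Helper672.ZFA
open Pool.Agent.Helper672.Plain (LSet)
open Pool.Agent.Helper672.ZFA.H635 (toL plainN_ordPair plainN_graph plainN_opGraph)
open Pool.Agent.H635Amen (IsReals)
open Pool.Agent.H310Cards (IsOmega IsFinite IsFun App IsInj IsNat)
open Pool.Agent.H310Top (IsTopology IsClosed IsCompact)
open Pool.Agent.H310 (FinP finP_iff finP_le finP_lt exists_BN mem_nat nat_iff appN finite_of_finP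
  mem_cp extN exists_code instPEl exists_q pr int_pr pr_inj)

universe u u₁

attribute [local instance] toL instPEl

section

variable {N : Type u} [LSet.Structure N] [hM : IsModel N] {x t y s : N}

/-- Intersections of sequences of clopen sets. -/
def SeqC (t x c : N) : Prop := ∃ C : INat N → IPow N (Helper672.Plain.El x), IntF N C ∧
  (∀ m, IsClopen t x (code (C m))) ∧ ∀ z, Helper672.Plain.Mem z c ↔ ∃ h : Helper672.Plain.Mem z x, ∀ m, mkE z h ∈ C m

theorem eqCode {γ : Type u₁} {α : Type u} [ITy N γ] [ITy N α] {a : N} {f : γ → α} {g : γ → Helper672.Plain.El a}
    (hf : IntF N f) (hg : IntF N g) : Int N (fun c => code (f c) = (g c).1) :=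
  Int.comp₂ (p := fun (p : α) (q : Helper672.Plain.El a) => code p = q.1)
    (Int.of_D₂ (S := fun v => v 0 = v 1) (D.eqf (DF.var _) (DF.var _)) fun _ _ => Iff.rfl) hf hg

/-- Sequences of sets in the model. -/
theorem exists_seqmap {w T : N} (hw : IsOmega w) {C : INat N → IPow N (Helper672.Plain.El x)} (hC : IntF N C)
    (hT : ∀ m, Helper672.Plain.Mem (code (C m)) T) : ∃ (ν : Helper672.Plain.El w ≃ INat N) (D : Helper672.Plain.El w → Helper672.Plain.El T), IsMap D ∧
      IntF N (fun n => ν n) ∧ IntF N (fun n => ν.symm n) ∧ ∀ n, (D n).1 = code (C (ν n)) := by
  obtain ⟨ν, hν, hν', -⟩ := omega_equiv hw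
  let D : Helper672.Plain.El w → Helper672.Plain.El T := fun n => mkE (code (C (ν n))) (hT _)
  refine ⟨ν, D, isMap_iff.2 ?_, hν, hν', fun n => rfl⟩
  refine IntF.of_rel (r := fun (n : Helper672.Plain.El w) (v : Helper672.Plain.El T) => code (C (ν n)) = v.1) ?_ fun n v => ?_
  · exact eqCode (IntF.comp (g := C) hC (IntF.comp (g := fun n => ν n) hν IntF.fst')) IntF.snd'
  · exact ⟨fun h => Subtype.ext h, fun h => h ▸ rfl⟩

theorem cdelta_iff (ht : IsTopology t x) {c : N} : IsCdelta t x c ↔ SeqC t x c := by
  constructor
  · rintro ⟨w, C, hw, hC, hcl, hc⟩
    obtain ⟨ν, hν, hν', -⟩ := omega_equiv hw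
    have hCI := isMap_iff.1 hC
    have hI : IntF N (fun m : INat N => sep N fun p : Helper672.Plain.El x => Helper672.Plain.Mem p.1 (C (ν.symm m)).1) := by
      refine IntF.sep (memPE IntF.snd' ?_)
      exact IntF.comp (g := C) hCI (IntF.comp (g := fun m => ν.symm m) hν' IntF.fst')
    have hI' : ∀ m, Int N (fun p : Helper672.Plain.El x => Helper672.Plain.Mem p.1 (C (ν.symm m)).1) := fun m => memI' _ _
    have hcode : ∀ m, code (M := N) (sep N fun p : Helper672.Plain.El x => Helper672.Plain.Mem p.1 (C (ν.symm m)).1) =
        (C (ν.symm m)).1 := fun m => extN fun z => by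
      rw [show Helper672.Plain.Mem z (code (sep N fun p : Helper672.Plain.El x => Helper672.Plain.Mem p.1 (C (ν.symm m)).1)) ↔ _ from
        mem_cpE]
      constructor
      · rintro ⟨h1, h2⟩
        rw [mem_sep (hI' m)] at h2
        exact h2
      · intro h1
        refine ⟨ht.sub _ (C (ν.symm m)).2 z h1, ?_⟩
        rw [mem_sep (hI' m)]
        exact h1
    refine ⟨_, hI, fun m => ?_, fun z => (hc z).trans ⟨?_, ?_⟩⟩
    · rw [hcode m]
      exact hcl _
    · rintro ⟨h1, h2⟩
      refine ⟨h1, fun m => ?_⟩
      rw [mem_sep (hI' m)]
      exact h2 _
    · rintro ⟨h1, h2⟩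
      refine ⟨h1, fun n => ?_⟩
      have h3 := h2 (ν n)
      rw [mem_sep (hI' _), Equiv.symm_apply_apply] at h3
      exact h3
  · rintro ⟨C, hC, hcl, hc⟩
    obtain ⟨w, hw⟩ := exists_omega (N := N)
    obtain ⟨ν, D, hD, hν, hν', hDC⟩ := exists_seqmap hw hC (T := t) fun m => (hcl m).1
    refine ⟨w, D, hw, hD, fun n => ?_, fun z => (hc z).trans ⟨?_, ?_⟩⟩
    · rw [hDC n]
      exact hcl _
    · rintro ⟨h1, h2⟩
      refine ⟨h1, fun n => ?_⟩
      rw [hDC n]
      exact mem_cpE.2 ⟨h1, h2 _⟩
    · rintro ⟨h1, h2⟩
      refine ⟨h1, fun m => ?_⟩
      have h3 := h2 (ν.symm m)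
      rw [hDC, Equiv.apply_symm_apply] at h3
      exact (mem_cpE.1 h3).2

theorem univ_clopen (ht : IsTopology t x) : IsClopen t x x := by
  obtain ⟨v, hv⟩ := exists_diff x x
  exact ⟨ht.univ, fun z hz => hz, v, open_of_local ht fun z hz =>
    absurd ((hv z).1 hz).1 ((hv z).1 hz).2, hv⟩

theorem cdeltaC_iff (ht : IsTopology t x) {c : N} : IsCdeltaC t x c ↔ SeqC t x c := by
  constructor
  · rintro ⟨b, ⟨w, f, hw, hf, hinj⟩, ⟨v₀, hv₀⟩, hcl, hc⟩
    have hf' : Int N (fun q : Helper672.Plain.El b × INat N => Mem (op q.1.1 q.2.val) f) := ⟨f, fun _ => Iff.rfl⟩
    have hI : Int N (fun q : INat N × Helper672.Plain.El x => ∀ v : Helper672.Plain.El b, Mem (op v.1 q.1.val) f →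
        Helper672.Plain.Mem q.2.1 v.1) := by
      obtain ⟨A, hA, hA'⟩ : ∃ A : Helper672.Plain.El b → INat N → Prop, Int N (fun q : Helper672.Plain.El b × INat N => A q.1 q.2) ∧
          ∀ v n, A v n ↔ Mem (op v.1 n.val) f := ⟨_, hf', fun _ _ => Iff.rfl⟩
      simp only [← hA']
      (repeat' (first | with_reducible apply memPE | with_reducible apply memPE' | with_reducible apply memPE'' | with_reducible apply memCode | with_reducible apply memCodeP | with_reducible apply memCode₂ | with_reducible apply eqPE | with_reducible apply eqPE' | with_reducible exact IntF.id | with_reducible exact IntF.fst' | with_reducible exact IntF.snd' | with_reducible exact IntF.const _ | with_reducible exact Int.const _ | assumption | with_reducible apply Int.and | with_reducible apply Int.or | with_reducible apply Int.not | with_reducible apply Int.imp | with_reducible apply Int.iff | with_reducible apply Int.ne | with_reducible apply Int.eq | with_reducible apply Int.mem | with_reducible apply Int.subset | with_reducible apply Int.ltN | with_reducible apply Int.leN | with_reducible_and_instances apply Int.le | with_reducible_and_instances apply Int.lt | with_reducible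 apply Int.all | with_reducible apply Int.ex | with_reducible apply IntF.fst | with_reducible apply IntF.snd | with_reducible apply IntF.app | with_reducible apply IntF.inl | with_reducible apply IntF.inr | with_reducible_and_instances apply IntF.mul | with_reducible_and_instances apply IntF.inv | with_reducible_and_instances apply IntF.add | with_reducible_and_instances apply IntF.sub | with_reducible_and_instances apply IntF.neg | with_reducible_and_instances apply IntF.smul | with_reducible apply Int.fin | with_reducible apply IntF.sep | with_reducible apply IntF.lam | with_reducible apply IntF.insert | with_reducible apply IntF.singleton | with_reducible apply IntF.union | with_reducible apply IntF.iimage | with_reducible apply IntF.ite | with_reducible apply IntF.the | with_reducible apply IntF.irec | with_reducible apply IntF.succ | with_reducible apply IntF.val | with_reducible apply IntF.mk | (with_reducible refine Int.comp ?_ ?_; assumption) | (with_reducible refine Int.comp₂ ?_ ?_ ?_; assumption) | (with_reducible refine Int.comp₃ ?_ ?_ ?_ ?_; assumption) | (with_reducible refine Int.comp₄ ?_ ?_ ?_ ?_ ?_; assumption) | (with_reducible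 refine IntF.comp ?_ ?_; assumption) | (with_reducible refine IntF.comp₂ ?_ ?_ ?_; assumption) | (with_reducible refine IntF.comp₃ ?_ ?_ ?_ ?_; assumption) | with_reducible apply IntF.pair))
    have hIm : ∀ m : INat N, Int N (fun p : Helper672.Plain.El x => ∀ v : Helper672.Plain.El b, Mem (op v.1 m.val) f →
        Helper672.Plain.Mem p.1 v.1) := fun m => Int.slice (p := fun (m : INat N) (p : Helper672.Plain.El x) =>
          ∀ v : Helper672.Plain.El b, Mem (op v.1 m.val) f → Helper672.Plain.Mem p.1 v.1) hI m
    refine ⟨fun m => sep N fun p : Helper672.Plain.El x => ∀ v : Helper672.Plain.El b, Mem (op v.1 m.val) f → Helper672.Plain.Mem p.1 v.1,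
      IntF.sep hI, fun m => ?_, fun z => (hc z).trans ⟨fun h => ?_, ?_⟩⟩
    · by_cases hm : ∃ v, Helper672.Plain.Mem v b ∧ Mem (op v m.val) f
      · obtain ⟨v, hv, h1⟩ := hm
        have h2 : code (M := N) (sep N fun p : Helper672.Plain.El x => ∀ v : Helper672.Plain.El b, Mem (op v.1 m.val) f →
            Helper672.Plain.Mem p.1 v.1) = v := extN fun z => by
          rw [show Helper672.Plain.Mem z (code (sep N fun p : Helper672.Plain.El x => ∀ v : Helper672.Plain.El b,
            Mem (op v.1 m.val) f → Helper672.Plain.Mem p.1 v.1)) ↔ _ from mem_cpE]
          constructor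
          · rintro ⟨h3, h4⟩
            rw [mem_sep (hIm m)] at h4
            exact h4 (mkE v hv) h1
          · intro h3
            refine ⟨(hcl v hv).2.1 z h3, ?_⟩
            rw [mem_sep (hIm m)]
            intro v' h4
            have h5 : v'.1 = v := hinj _ _ _ (appN.2 h4) (appN.2 h1)
            rw [h5]
            exact h3
        rw [h2]
        exact hcl v hv
      · have h2 : code (M := N) (sep N fun p : Helper672.Plain.El x => ∀ v : Helper672.Plain.El b, Mem (op v.1 m.val) f →
            Helper672.Plain.Mem p.1 v.1) = x := extN fun z => by
          rw [show Helper672.Plain.Mem z (code (sep N fun p : Helper672.Plain.El x => ∀ v : Helper672.Plain.El b,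
            Mem (op v.1 m.val) f → Helper672.Plain.Mem p.1 v.1)) ↔ _ from mem_cpE]
          constructor
          · rintro ⟨h3, h4⟩
            exact h3
          · intro h3
            refine ⟨h3, ?_⟩
            rw [mem_sep (hIm m)]
            intro v' h4
            exact absurd ⟨v'.1, v'.2, h4⟩ hm
        rw [h2]
        exact univ_clopen ht
    · have hzx : Helper672.Plain.Mem z x := (hcl v₀ hv₀).2.1 z (h v₀ hv₀)
      refine ⟨hzx, fun m => ?_⟩
      rw [mem_sep (hIm m)]
      exact fun v _ => h v.1 v.2
    · rintro ⟨h1, h2⟩ v hv
      obtain ⟨y, hy, -⟩ := hf.2 v hv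
      obtain ⟨q, h4, h5⟩ := hy
      obtain ⟨x', y', h8, h9, h10⟩ := hf.1 q h5
      obtain ⟨-, rfl⟩ := op_inj ((plainN_ordPair.1 h4).symm.trans (plainN_ordPair.1 h10))
      obtain ⟨m, hm⟩ := nat_iff.1 ((hw y).1 h9)
      have h6 := h2 m
      rw [mem_sep (hIm m)] at h6
      refine h6 (mkE v hv) ?_
      rw [hm]
      exact appN.1 ⟨q, h4, h5⟩
  · rintro ⟨C, hC, hcl, hc⟩
    have hI : Int N (fun U : IPow N (Helper672.Plain.El x) => ∃ m, C m = U) := by (repeat' (first | with_reducible apply memPE | with_reducible apply memPE' | with_reducible apply memPE'' | with_reducible apply memCode | with_reducible apply memCodeP | with_reducible apply memCode₂ | with_reducible apply eqPE | with_reducible apply eqPE' | with_reducible exact IntF.id | with_reducible exact IntF.fst' | with_reducible exact IntF.snd' | with_reducible exact IntF.const _ | with_reducible exact Int.const _ | assumption | with_reducible apply Int.and | with_reducible apply Int.or | with_reducible apply Int.not | with_reducible apply Int.imp | with_reducible apply Int.iff | with_reducible apply Int.ne | with_reducible apply Int.eq | with_reducible apply Int.mem | with_reducible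 apply Int.subset | with_reducible apply Int.ltN | with_reducible apply Int.leN | with_reducible_and_instances apply Int.le | with_reducible_and_instances apply Int.lt | with_reducible apply Int.all | with_reducible apply Int.ex | with_reducible apply IntF.fst | with_reducible apply IntF.snd | with_reducible apply IntF.app | with_reducible apply IntF.inl | with_reducible apply IntF.inr | with_reducible_and_instances apply IntF.mul | with_reducible_and_instances apply IntF.inv | with_reducible_and_instances apply IntF.add | with_reducible_and_instances apply IntF.sub | with_reducible_and_instances apply IntF.neg | with_reducible_and_instances apply IntF.smul | with_reducible apply Int.fin | with_reducible apply IntF.sep | with_reducible apply IntF.lam | with_reducible apply IntF.insert | with_reducible apply IntF.singleton | with_reducible apply IntF.union | with_reducible apply IntF.iimage | with_reducible apply IntF.ite | with_reducible apply IntF.the | with_reducible apply IntF.irec | with_reducible apply IntF.succ | with_reducible apply IntF.val | with_reducible apply IntF.mk | (with_reducible refine Int.comp ?_ ?_; assumption) | (with_reducible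 refine Int.comp₂ ?_ ?_ ?_; assumption) | (with_reducible refine Int.comp₃ ?_ ?_ ?_ ?_; assumption) | (with_reducible refine Int.comp₄ ?_ ?_ ?_ ?_ ?_; assumption) | (with_reducible refine IntF.comp ?_ ?_; assumption) | (with_reducible refine IntF.comp₂ ?_ ?_ ?_; assumption) | (with_reducible refine IntF.comp₃ ?_ ?_ ?_ ?_; assumption) | with_reducible apply IntF.pair))
    have hb : ∀ z, Helper672.Plain.Mem z (code (M := N) (sep N fun U : IPow N (Helper672.Plain.El x) => ∃ m, C m = U)) ↔
        ∃ m, code (C m) = z := by
      intro z
      refine mem_cp.trans ⟨?_, ?_⟩
      · rintro ⟨U, hU, rfl⟩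
        obtain ⟨m, rfl⟩ := (mem_sep hI).1 hU
        exact ⟨m, rfl⟩
      · rintro ⟨m, rfl⟩
        exact ⟨_, (mem_sep hI).2 ⟨m, rfl⟩, rfl⟩
    refine ⟨_, countable_range hC hb, ⟨_, (hb _).2 ⟨0, rfl⟩⟩, fun v hv => ?_, fun z =>
      (hc z).trans ⟨?_, fun h => ?_⟩⟩
    · obtain ⟨m, rfl⟩ := (hb v).1 hv
      exact hcl m
    · rintro ⟨h1, h2⟩ v hv
      obtain ⟨m, rfl⟩ := (hb v).1 hv
      exact mem_cpE.2 ⟨h1, h2 m⟩
    · refine ⟨(mem_cpE.1 (h _ ((hb _).2 ⟨0, rfl⟩))).1, fun m => ?_⟩
      exact (mem_cpE.1 (h _ ((hb _).2 ⟨m, rfl⟩))).2

theorem int_clopenP (ht : IsTopology t x) :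
    Int N (fun U : IPow N (Helper672.Plain.El x) => IsClopen t x (code U)) := by
  have hI : ∀ U : IPow N (Helper672.Plain.El x), Int N (fun p : Helper672.Plain.El x => ¬ p ∈ U) := fun U => by (repeat' (first | with_reducible apply memPE | with_reducible apply memPE' | with_reducible apply memPE'' | with_reducible apply memCode | with_reducible apply memCodeP | with_reducible apply memCode₂ | with_reducible apply eqPE | with_reducible apply eqPE' | with_reducible exact IntF.id | with_reducible exact IntF.fst' | with_reducible exact IntF.snd' | with_reducible exact IntF.const _ | with_reducible exact Int.const _ | assumption | with_reducible apply Int.and | with_reducible apply Int.or | with_reducible apply Int.not | with_reducible apply Int.imp | with_reducible apply Int.iff | with_reducible apply Int.ne | with_reducible apply Int.eq | with_reducible apply Int.mem | with_reducible apply Int.subset | with_reducible apply Int.ltN | with_reducible apply Int.leN | with_reducible_and_instances apply Int.le | with_reducible_and_instances apply Int.lt | with_reducible apply Int.all | with_reducible apply Int.ex | with_reducible apply IntF.fst | with_reducible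 apply IntF.snd | with_reducible apply IntF.app | with_reducible apply IntF.inl | with_reducible apply IntF.inr | with_reducible_and_instances apply IntF.mul | with_reducible_and_instances apply IntF.inv | with_reducible_and_instances apply IntF.add | with_reducible_and_instances apply IntF.sub | with_reducible_and_instances apply IntF.neg | with_reducible_and_instances apply IntF.smul | with_reducible apply Int.fin | with_reducible apply IntF.sep | with_reducible apply IntF.lam | with_reducible apply IntF.insert | with_reducible apply IntF.singleton | with_reducible apply IntF.union | with_reducible apply IntF.iimage | with_reducible apply IntF.ite | with_reducible apply IntF.the | with_reducible apply IntF.irec | with_reducible apply IntF.succ | with_reducible apply IntF.val | with_reducible apply IntF.mk | (with_reducible refine Int.comp ?_ ?_; assumption) | (with_reducible refine Int.comp₂ ?_ ?_ ?_; assumption) | (with_reducible refine Int.comp₃ ?_ ?_ ?_ ?_; assumption) | (with_reducible refine Int.comp₄ ?_ ?_ ?_ ?_ ?_; assumption) | (with_reducible refine IntF.comp ?_ ?_; assumption) | (with_reducible refine IntF.comp₂ ?_ ?_ ?_; assumption)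 | (with_reducible refine IntF.comp₃ ?_ ?_ ?_ ?_; assumption) | with_reducible apply IntF.pair))
  refine Int.congr (p := fun U : IPow N (Helper672.Plain.El x) => Mem (code U) t ∧
    Mem (code (sep N fun p : Helper672.Plain.El x => ¬ p ∈ U)) t) (by (repeat' (first | with_reducible apply memPE | with_reducible apply memPE' | with_reducible apply memPE'' | with_reducible apply memCode | with_reducible apply memCodeP | with_reducible apply memCode₂ | with_reducible apply eqPE | with_reducible apply eqPE' | with_reducible exact IntF.id | with_reducible exact IntF.fst' | with_reducible exact IntF.snd' | with_reducible exact IntF.const _ | with_reducible exact Int.const _ | assumption | with_reducible apply Int.and | with_reducible apply Int.or | with_reducible apply Int.not | with_reducible apply Int.imp | with_reducible apply Int.iff | with_reducible apply Int.ne | with_reducible apply Int.eq | with_reducible apply Int.mem | with_reducible apply Int.subset | with_reducible apply Int.ltN | with_reducible apply Int.leN | with_reducible_and_instances apply Int.le | with_reducible_and_instances apply Int.lt | with_reducible apply Int.all | with_reducible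 apply Int.ex | with_reducible apply IntF.fst | with_reducible apply IntF.snd | with_reducible apply IntF.app | with_reducible apply IntF.inl | with_reducible apply IntF.inr | with_reducible_and_instances apply IntF.mul | with_reducible_and_instances apply IntF.inv | with_reducible_and_instances apply IntF.add | with_reducible_and_instances apply IntF.sub | with_reducible_and_instances apply IntF.neg | with_reducible_and_instances apply IntF.smul | with_reducible apply Int.fin | with_reducible apply IntF.sep | with_reducible apply IntF.lam | with_reducible apply IntF.insert | with_reducible apply IntF.singleton | with_reducible apply IntF.union | with_reducible apply IntF.iimage | with_reducible apply IntF.ite | with_reducible apply IntF.the | with_reducible apply IntF.irec | with_reducible apply IntF.succ | with_reducible apply IntF.val | with_reducible apply IntF.mk | (with_reducible refine Int.comp ?_ ?_; assumption) | (with_reducible refine Int.comp₂ ?_ ?_ ?_; assumption) | (with_reducible refine Int.comp₃ ?_ ?_ ?_ ?_; assumption) | (with_reducible refine Int.comp₄ ?_ ?_ ?_ ?_ ?_; assumption) | (with_reducible refine IntF.comp ?_ ?_; assumption)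 | (with_reducible refine IntF.comp₂ ?_ ?_ ?_; assumption) | (with_reducible refine IntF.comp₃ ?_ ?_ ?_ ?_; assumption) | with_reducible apply IntF.pair))) fun U => ?_
  have hc : ∀ z : N, Helper672.Plain.Mem z (code (sep N fun p : Helper672.Plain.El x => ¬ p ∈ U)) ↔ Helper672.Plain.Mem z x ∧ ¬ Helper672.Plain.Mem z (code U) := by
    intro z
    rw [show Helper672.Plain.Mem z (code (sep N fun p : Helper672.Plain.El x => ¬ p ∈ U)) ↔ _ from mem_cpE,
      show Helper672.Plain.Mem z (code U) ↔ _ from mem_cpE]
    constructor
    · rintro ⟨h1, h2⟩
      rw [mem_sep (hI U)] at h2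
      exact ⟨h1, fun ⟨_, h3⟩ => h2 h3⟩
    · rintro ⟨h1, h2⟩
      refine ⟨h1, ?_⟩
      rw [mem_sep (hI U)]
      exact fun h3 => h2 ⟨h1, h3⟩
  constructor
  · rintro ⟨h1, h2⟩
    exact ⟨h1, fun z hz => (mem_cpE.1 hz).1, _, h2, hc⟩
  · rintro ⟨h1, -, u, hu, h2⟩
    refine ⟨h1, ?_⟩
    have h3 : u = code (sep N fun p : Helper672.Plain.El x => ¬ p ∈ U) := extN fun z => (h2 z).trans (hc z).symm
    rw [← h3]
    exact hu

theorem int_SeqC (ht : IsTopology t x) : Int N (fun V : IPow N (Helper672.Plain.El x) => SeqC t x (code V)) := by
  obtain ⟨A, hA, hA'⟩ : ∃ A : IPow N (Helper672.Plain.El x) → Prop, Int N A ∧ ∀ U, A U ↔ IsClopen t x (code U) :=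
    ⟨_, int_clopenP ht, fun _ => Iff.rfl⟩
  refine Int.congr (p := fun V : IPow N (Helper672.Plain.El x) => ∃ C : IFun N (INat N) (IPow N (Helper672.Plain.El x)),
    (∀ m, A (C m)) ∧ ∀ p, (p ∈ V ↔ ∀ m, p ∈ C m)) (by (repeat' (first | with_reducible apply memPE | with_reducible apply memPE' | with_reducible apply memPE'' | with_reducible apply memCode | with_reducible apply memCodeP | with_reducible apply memCode₂ | with_reducible apply eqPE | with_reducible apply eqPE' | with_reducible exact IntF.id | with_reducible exact IntF.fst' | with_reducible exact IntF.snd' | with_reducible exact IntF.const _ | with_reducible exact Int.const _ | assumption | with_reducible apply Int.and | with_reducible apply Int.or | with_reducible apply Int.not | with_reducible apply Int.imp | with_reducible apply Int.iff | with_reducible apply Int.ne | with_reducible apply Int.eq | with_reducible apply Int.mem | with_reducible apply Int.subset | with_reducible apply Int.ltN | with_reducible apply Int.leN | with_reducible_and_instances apply Int.le | with_reducible_and_instances apply Int.lt | with_reducible apply Int.all | with_reducible apply Int.ex | with_reducible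 apply IntF.fst | with_reducible apply IntF.snd | with_reducible apply IntF.app | with_reducible apply IntF.inl | with_reducible apply IntF.inr | with_reducible_and_instances apply IntF.mul | with_reducible_and_instances apply IntF.inv | with_reducible_and_instances apply IntF.add | with_reducible_and_instances apply IntF.sub | with_reducible_and_instances apply IntF.neg | with_reducible_and_instances apply IntF.smul | with_reducible apply Int.fin | with_reducible apply IntF.sep | with_reducible apply IntF.lam | with_reducible apply IntF.insert | with_reducible apply IntF.singleton | with_reducible apply IntF.union | with_reducible apply IntF.iimage | with_reducible apply IntF.ite | with_reducible apply IntF.the | with_reducible apply IntF.irec | with_reducible apply IntF.succ | with_reducible apply IntF.val | with_reducible apply IntF.mk | (with_reducible refine Int.comp ?_ ?_; assumption) | (with_reducible refine Int.comp₂ ?_ ?_ ?_; assumption) | (with_reducible refine Int.comp₃ ?_ ?_ ?_ ?_; assumption) | (with_reducible refine Int.comp₄ ?_ ?_ ?_ ?_ ?_; assumption) | (with_reducible refine IntF.comp ?_ ?_; assumption) | (with_reducible refine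 IntF.comp₂ ?_ ?_ ?_; assumption) | (with_reducible refine IntF.comp₃ ?_ ?_ ?_ ?_; assumption) | with_reducible apply IntF.pair))) fun V => ?_
  constructor
  · rintro ⟨C, h1, h2⟩
    refine ⟨fun m => C m, C.int, fun m => (hA' _).1 (h1 m), fun z => mem_cpE.trans ?_⟩
    exact exists_congr fun h => h2 _
  · rintro ⟨C, hC, h1, h2⟩
    refine ⟨⟨C, hC⟩, fun m => (hA' _).2 (h1 m), fun p => ?_⟩
    refine (mem_cpE' (S := V)).symm.trans ((h2 p.1).trans ⟨fun h => h.2, fun h => ⟨p.2, h⟩⟩)

theorem SeqC.inter (ht : IsTopology t x) {u v c : N} (hu : SeqC t x u) (hv : SeqC t x v)
    (hc : ∀ z, Helper672.Plain.Mem z c ↔ Helper672.Plain.Mem z u ∧ Helper672.Plain.Mem z v) : SeqC t x c := by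
  obtain ⟨C, hC, h1, h2⟩ := hu
  obtain ⟨D, hD, h3, h4⟩ := hv
  have hI : ∀ m, Int N (fun p : Helper672.Plain.El x => p ∈ C m ∧ p ∈ D m) := fun m => by (repeat' (first | with_reducible apply memPE | with_reducible apply memPE' | with_reducible apply memPE'' | with_reducible apply memCode | with_reducible apply memCodeP | with_reducible apply memCode₂ | with_reducible apply eqPE | with_reducible apply eqPE' | with_reducible exact IntF.id | with_reducible exact IntF.fst' | with_reducible exact IntF.snd' | with_reducible exact IntF.const _ | with_reducible exact Int.const _ | assumption | with_reducible apply Int.and | with_reducible apply Int.or | with_reducible apply Int.not | with_reducible apply Int.imp | with_reducible apply Int.iff | with_reducible apply Int.ne | with_reducible apply Int.eq | with_reducible apply Int.mem | with_reducible apply Int.subset | with_reducible apply Int.ltN | with_reducible apply Int.leN | with_reducible_and_instances apply Int.le | with_reducible_and_instances apply Int.lt | with_reducible apply Int.all | with_reducible apply Int.ex | with_reducible apply IntF.fst | with_reducible apply IntF.snd | with_reducible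 apply IntF.app | with_reducible apply IntF.inl | with_reducible apply IntF.inr | with_reducible_and_instances apply IntF.mul | with_reducible_and_instances apply IntF.inv | with_reducible_and_instances apply IntF.add | with_reducible_and_instances apply IntF.sub | with_reducible_and_instances apply IntF.neg | with_reducible_and_instances apply IntF.smul | with_reducible apply Int.fin | with_reducible apply IntF.sep | with_reducible apply IntF.lam | with_reducible apply IntF.insert | with_reducible apply IntF.singleton | with_reducible apply IntF.union | with_reducible apply IntF.iimage | with_reducible apply IntF.ite | with_reducible apply IntF.the | with_reducible apply IntF.irec | with_reducible apply IntF.succ | with_reducible apply IntF.val | with_reducible apply IntF.mk | (with_reducible refine Int.comp ?_ ?_; assumption) | (with_reducible refine Int.comp₂ ?_ ?_ ?_; assumption) | (with_reducible refine Int.comp₃ ?_ ?_ ?_ ?_; assumption) | (with_reducible refine Int.comp₄ ?_ ?_ ?_ ?_ ?_; assumption) | (with_reducible refine IntF.comp ?_ ?_; assumption) | (with_reducible refine IntF.comp₂ ?_ ?_ ?_; assumption) | (with_reducible refine IntF.comp₃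 ?_ ?_ ?_ ?_; assumption) | with_reducible apply IntF.pair))
  refine ⟨fun m => sep N fun p => p ∈ C m ∧ p ∈ D m, by (repeat' (first | with_reducible apply memPE | with_reducible apply memPE' | with_reducible apply memPE'' | with_reducible apply memCode | with_reducible apply memCodeP | with_reducible apply memCode₂ | with_reducible apply eqPE | with_reducible apply eqPE' | with_reducible exact IntF.id | with_reducible exact IntF.fst' | with_reducible exact IntF.snd' | with_reducible exact IntF.const _ | with_reducible exact Int.const _ | assumption | with_reducible apply Int.and | with_reducible apply Int.or | with_reducible apply Int.not | with_reducible apply Int.imp | with_reducible apply Int.iff | with_reducible apply Int.ne | with_reducible apply Int.eq | with_reducible apply Int.mem | with_reducible apply Int.subset | with_reducible apply Int.ltN | with_reducible apply Int.leN | with_reducible_and_instances apply Int.le | with_reducible_and_instances apply Int.lt | with_reducible apply Int.all | with_reducible apply Int.ex | with_reducible apply IntF.fst | with_reducible apply IntF.snd | with_reducible apply IntF.app | with_reducible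 apply IntF.inl | with_reducible apply IntF.inr | with_reducible_and_instances apply IntF.mul | with_reducible_and_instances apply IntF.inv | with_reducible_and_instances apply IntF.add | with_reducible_and_instances apply IntF.sub | with_reducible_and_instances apply IntF.neg | with_reducible_and_instances apply IntF.smul | with_reducible apply Int.fin | with_reducible apply IntF.sep | with_reducible apply IntF.lam | with_reducible apply IntF.insert | with_reducible apply IntF.singleton | with_reducible apply IntF.union | with_reducible apply IntF.iimage | with_reducible apply IntF.ite | with_reducible apply IntF.the | with_reducible apply IntF.irec | with_reducible apply IntF.succ | with_reducible apply IntF.val | with_reducible apply IntF.mk | (with_reducible refine Int.comp ?_ ?_; assumption) | (with_reducible refine Int.comp₂ ?_ ?_ ?_; assumption) | (with_reducible refine Int.comp₃ ?_ ?_ ?_ ?_; assumption) | (with_reducible refine Int.comp₄ ?_ ?_ ?_ ?_ ?_; assumption) | (with_reducible refine IntF.comp ?_ ?_; assumption) | (with_reducible refine IntF.comp₂ ?_ ?_ ?_; assumption) | (with_reducible refine IntF.comp₃ ?_ ?_ ?_ ?_; assumption)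 | with_reducible apply IntF.pair)), fun m => ?_, fun z => ?_⟩
  · obtain ⟨h5, -, c1, h6, h7⟩ := h1 m
    obtain ⟨h5', -, c2, h6', h7'⟩ := h3 m
    have hm : ∀ z : N, Helper672.Plain.Mem z (code (sep N fun p : Helper672.Plain.El x => p ∈ C m ∧ p ∈ D m)) ↔
        Helper672.Plain.Mem z (code (C m)) ∧ Helper672.Plain.Mem z (code (D m)) := by
      intro z
      rw [show Helper672.Plain.Mem z (code (sep N fun p : Helper672.Plain.El x => p ∈ C m ∧ p ∈ D m)) ↔ _ from
        mem_cpE, show Helper672.Plain.Mem z (code (C m)) ↔ _ from mem_cpE,
        show Helper672.Plain.Mem z (code (D m)) ↔ _ from mem_cpE]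
      constructor
      · rintro ⟨h8, h9⟩
        rw [mem_sep (hI m)] at h9
        exact ⟨⟨h8, h9.1⟩, h8, h9.2⟩
      · rintro ⟨⟨h8, h9⟩, _, h10⟩
        refine ⟨h8, ?_⟩
        rw [mem_sep (hI m)]
        exact ⟨h9, h10⟩
    obtain ⟨w, hw⟩ := exists_diff x (code (sep N fun p : Helper672.Plain.El x => p ∈ C m ∧ p ∈ D m))
    refine ⟨ht.inter _ _ _ h5 h5' hm, fun z hz => (mem_cpE.1 hz).1, w, open_of_local ht
      fun z hz => ?_, hw⟩
    obtain ⟨h8, h9⟩ := (hw z).1 hz
    rw [hm, not_and_or] at h9
    rcases h9 with h9 | h9
    · exact ⟨c1, h6, (h7 z).2 ⟨h8, h9⟩, fun z' hz' => (hw z').2 ⟨((h7 z').1 hz').1, fun h10 =>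
        ((h7 z').1 hz').2 ((hm z').1 h10).1⟩⟩
    · exact ⟨c2, h6', (h7' z).2 ⟨h8, h9⟩, fun z' hz' => (hw z').2 ⟨((h7' z').1 hz').1, fun h10 =>
        ((h7' z').1 hz').2 ((hm z').1 h10).2⟩⟩
  · rw [hc z, h2 z, h4 z]
    constructor
    · rintro ⟨⟨h5, h6⟩, _, h7⟩
      exact ⟨h5, fun m => (mem_sep (hI m)).2 ⟨h6 m, h7 m⟩⟩
    · rintro ⟨h5, h6⟩
      exact ⟨⟨h5, fun m => ((mem_sep (hI m)).1 (h6 m)).1⟩, h5, fun m =>
        ((mem_sep (hI m)).1 (h6 m)).2⟩

theorem SeqC.sub {c : N} (hc : SeqC t x c) : ∀ z, Helper672.Plain.Mem z c → Helper672.Plain.Mem z x := by
  obtain ⟨C, hC, h1, h2⟩ := hc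
  exact fun z hz => ((h2 z).1 hz).1

theorem SeqC.closed (ht : IsTopology t x) {c : N} (hc : SeqC t x c) : IsClosed t x c := by
  have hcx := hc.sub
  obtain ⟨C, hC, h1, h2⟩ := hc
  obtain ⟨w, hw⟩ := exists_diff x c
  refine ⟨hcx, w, open_of_local ht fun z hz => ?_, hw⟩
  obtain ⟨h3, h4⟩ := (hw z).1 hz
  rw [h2 z] at h4
  push Not at h4
  obtain ⟨m, hm⟩ := h4 h3
  obtain ⟨-, -, v, hv, h5⟩ := h1 m
  refine ⟨v, hv, (h5 z).2 ⟨h3, fun h6 => hm (mem_cpE.1 h6).2⟩, fun z' hz' => (hw z').2
    ⟨((h5 z').1 hz').1, fun h6 => ((h5 z').1 hz').2 ?_⟩⟩
  obtain ⟨h7, h8⟩ := (h2 z').1 h6
  exact mem_cpE.2 ⟨h7, h8 m⟩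

/-! ### Retractions -/

section retr

variable {ρ : Helper672.Plain.El x → Helper672.Plain.El y} (hρI : IntF N ρ) (ht : IsTopology t x) (hs : IsTopology s y)
  (hρ : ∀ p : Helper672.Plain.El x, Helper672.Plain.Mem p.1 y → (ρ p).1 = p.1)
  (hy : ∀ z, Helper672.Plain.Mem z y → Helper672.Plain.Mem z x)
  (hρc : ∀ v, Helper672.Plain.Mem v s → ∃ u, Helper672.Plain.Mem u t ∧ ∀ p : Helper672.Plain.El x, (Helper672.Plain.Mem p.1 u ↔ Helper672.Plain.Mem (ρ p).1 v))
include hρI ht hs hρ hy hρc

theorem retr_clopen {c : N} (hc : IsClopen s y c) {d : N}
    (hd : ∀ z, Helper672.Plain.Mem z d ↔ ∃ h : Helper672.Plain.Mem z x, Helper672.Plain.Mem (ρ (mkE z h)).1 c) : IsClopen t x d := by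
  obtain ⟨h1, -, c', h2, h3⟩ := hc
  obtain ⟨u, hu, h4⟩ := hρc c h1
  obtain ⟨v, hv, h5⟩ := hρc c' h2
  have hud : u = d := extN fun z => by
    rw [hd z]
    constructor
    · intro hz
      have hzx := ht.sub u hu z hz
      exact ⟨hzx, (h4 (mkE z hzx)).1 hz⟩
    · rintro ⟨hzx, hz⟩
      exact (h4 (mkE z hzx)).2 hz
  refine ⟨hud ▸ hu, fun z hz => ((hd z).1 hz).1, v, hv, fun z => ?_⟩
  rw [hd z]
  constructor
  · intro hz
    have hzx := ht.sub v hv z hz
    exact ⟨hzx, fun ⟨_, h6⟩ => ((h3 _).1 ((h5 (mkE z hzx)).1 hz)).2 h6⟩
  · rintro ⟨hzx, h6⟩
    exact (h5 (mkE z hzx)).2 ((h3 _).2 ⟨(ρ _).2, fun h7 => h6 ⟨hzx, h7⟩⟩)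

theorem retr_two : IsTwoEmbedded s y t x := by
  intro c hc
  have hI : Int N (fun p : Helper672.Plain.El x => Helper672.Plain.Mem (ρ p).1 c) := by (repeat' (first | with_reducible apply memPE | with_reducible apply memPE' | with_reducible apply memPE'' | with_reducible apply memCode | with_reducible apply memCodeP | with_reducible apply memCode₂ | with_reducible apply eqPE | with_reducible apply eqPE' | with_reducible exact IntF.id | with_reducible exact IntF.fst' | with_reducible exact IntF.snd' | with_reducible exact IntF.const _ | with_reducible exact Int.const _ | assumption | with_reducible apply Int.and | with_reducible apply Int.or | with_reducible apply Int.not | with_reducible apply Int.imp | with_reducible apply Int.iff | with_reducible apply Int.ne | with_reducible apply Int.eq | with_reducible apply Int.mem | with_reducible apply Int.subset | with_reducible apply Int.ltN | with_reducible apply Int.leN | with_reducible_and_instances apply Int.le | with_reducible_and_instances apply Int.lt | with_reducible apply Int.all | with_reducible apply Int.ex | with_reducible apply IntF.fst | with_reducible apply IntF.snd | with_reducible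 apply IntF.app | with_reducible apply IntF.inl | with_reducible apply IntF.inr | with_reducible_and_instances apply IntF.mul | with_reducible_and_instances apply IntF.inv | with_reducible_and_instances apply IntF.add | with_reducible_and_instances apply IntF.sub | with_reducible_and_instances apply IntF.neg | with_reducible_and_instances apply IntF.smul | with_reducible apply Int.fin | with_reducible apply IntF.sep | with_reducible apply IntF.lam | with_reducible apply IntF.insert | with_reducible apply IntF.singleton | with_reducible apply IntF.union | with_reducible apply IntF.iimage | with_reducible apply IntF.ite | with_reducible apply IntF.the | with_reducible apply IntF.irec | with_reducible apply IntF.succ | with_reducible apply IntF.val | with_reducible apply IntF.mk | (with_reducible refine Int.comp ?_ ?_; assumption) | (with_reducible refine Int.comp₂ ?_ ?_ ?_; assumption) | (with_reducible refine Int.comp₃ ?_ ?_ ?_ ?_; assumption) | (with_reducible refine Int.comp₄ ?_ ?_ ?_ ?_ ?_; assumption) | (with_reducible refine IntF.comp ?_ ?_; assumption) | (with_reducible refine IntF.comp₂ ?_ ?_ ?_; assumption) | (with_reducible refine IntF.comp₃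 ?_ ?_ ?_ ?_; assumption) | with_reducible apply IntF.pair))
  obtain ⟨d, hd⟩ := exists_set hI
  refine ⟨d, retr_clopen hρI ht hs hρ hy hρc hc hd, fun z => ?_⟩
  rw [hd z]
  constructor
  · intro hz
    have hzy := hc.2.1 z hz
    exact ⟨⟨hy z hzy, by rw [hρ (mkE z (hy z hzy)) hzy]; exact hz⟩, hzy⟩
  · rintro ⟨⟨hzx, h1⟩, hzy⟩
    rwa [hρ (mkE z hzx) hzy] at h1

theorem retr_cd : IsCdEmbedded s y t x := by
  intro c hc
  rw [cdelta_iff hs] at hc
  have hcy := hc.sub
  obtain ⟨C, hC, h1, h2⟩ := hc
  have hI : Int N (fun p : Helper672.Plain.El x => ∀ m, ρ p ∈ C m) := by (repeat' (first | with_reducible apply memPE | with_reducible apply memPE' | with_reducible apply memPE'' | with_reducible apply memCode | with_reducible apply memCodeP | with_reducible apply memCode₂ | with_reducible apply eqPE | with_reducible apply eqPE' | with_reducible exact IntF.id | with_reducible exact IntF.fst' | with_reducible exact IntF.snd' | with_reducible exact IntF.const _ | with_reducible exact Int.const _ | assumption | with_reducible apply Int.and | with_reducible apply Int.or | with_reducible apply Int.not | with_reducible apply Int.imp | with_reducible apply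 Int.iff | with_reducible apply Int.ne | with_reducible apply Int.eq | with_reducible apply Int.mem | with_reducible apply Int.subset | with_reducible apply Int.ltN | with_reducible apply Int.leN | with_reducible_and_instances apply Int.le | with_reducible_and_instances apply Int.lt | with_reducible apply Int.all | with_reducible apply Int.ex | with_reducible apply IntF.fst | with_reducible apply IntF.snd | with_reducible apply IntF.app | with_reducible apply IntF.inl | with_reducible apply IntF.inr | with_reducible_and_instances apply IntF.mul | with_reducible_and_instances apply IntF.inv | with_reducible_and_instances apply IntF.add | with_reducible_and_instances apply IntF.sub | with_reducible_and_instances apply IntF.neg | with_reducible_and_instances apply IntF.smul | with_reducible apply Int.fin | with_reducible apply IntF.sep | with_reducible apply IntF.lam | with_reducible apply IntF.insert | with_reducible apply IntF.singleton | with_reducible apply IntF.union | with_reducible apply IntF.iimage | with_reducible apply IntF.ite | with_reducible apply IntF.the | with_reducible apply IntF.irec | with_reducible apply IntF.succ | with_reducible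 apply IntF.val | with_reducible apply IntF.mk | (with_reducible refine Int.comp ?_ ?_; assumption) | (with_reducible refine Int.comp₂ ?_ ?_ ?_; assumption) | (with_reducible refine Int.comp₃ ?_ ?_ ?_ ?_; assumption) | (with_reducible refine Int.comp₄ ?_ ?_ ?_ ?_ ?_; assumption) | (with_reducible refine IntF.comp ?_ ?_; assumption) | (with_reducible refine IntF.comp₂ ?_ ?_ ?_; assumption) | (with_reducible refine IntF.comp₃ ?_ ?_ ?_ ?_; assumption) | with_reducible apply IntF.pair))
  have hIm : ∀ m, Int N (fun p : Helper672.Plain.El x => ρ p ∈ C m) := fun m => by (repeat' (first | with_reducible apply memPE | with_reducible apply memPE' | with_reducible apply memPE'' | with_reducible apply memCode | with_reducible apply memCodeP | with_reducible apply memCode₂ | with_reducible apply eqPE | with_reducible apply eqPE' | with_reducible exact IntF.id | with_reducible exact IntF.fst' | with_reducible exact IntF.snd' | with_reducible exact IntF.const _ | with_reducible exact Int.const _ | assumption | with_reducible apply Int.and | with_reducible apply Int.or | with_reducible apply Int.not | with_reducible apply Int.imp | with_reducible apply Int.iff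 | with_reducible apply Int.ne | with_reducible apply Int.eq | with_reducible apply Int.mem | with_reducible apply Int.subset | with_reducible apply Int.ltN | with_reducible apply Int.leN | with_reducible_and_instances apply Int.le | with_reducible_and_instances apply Int.lt | with_reducible apply Int.all | with_reducible apply Int.ex | with_reducible apply IntF.fst | with_reducible apply IntF.snd | with_reducible apply IntF.app | with_reducible apply IntF.inl | with_reducible apply IntF.inr | with_reducible_and_instances apply IntF.mul | with_reducible_and_instances apply IntF.inv | with_reducible_and_instances apply IntF.add | with_reducible_and_instances apply IntF.sub | with_reducible_and_instances apply IntF.neg | with_reducible_and_instances apply IntF.smul | with_reducible apply Int.fin | with_reducible apply IntF.sep | with_reducible apply IntF.lam | with_reducible apply IntF.insert | with_reducible apply IntF.singleton | with_reducible apply IntF.union | with_reducible apply IntF.iimage | with_reducible apply IntF.ite | with_reducible apply IntF.the | with_reducible apply IntF.irec | with_reducible apply IntF.succ | with_reducible apply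 IntF.val | with_reducible apply IntF.mk | (with_reducible refine Int.comp ?_ ?_; assumption) | (with_reducible refine Int.comp₂ ?_ ?_ ?_; assumption) | (with_reducible refine Int.comp₃ ?_ ?_ ?_ ?_; assumption) | (with_reducible refine Int.comp₄ ?_ ?_ ?_ ?_ ?_; assumption) | (with_reducible refine IntF.comp ?_ ?_; assumption) | (with_reducible refine IntF.comp₂ ?_ ?_ ?_; assumption) | (with_reducible refine IntF.comp₃ ?_ ?_ ?_ ?_; assumption) | with_reducible apply IntF.pair))
  obtain ⟨d, hd⟩ := exists_set hI
  refine ⟨d, (cdelta_iff ht).2 ⟨fun m => sep N fun p : Helper672.Plain.El x => ρ p ∈ C m, by (repeat' (first | with_reducible apply memPE | with_reducible apply memPE' | with_reducible apply memPE'' | with_reducible apply memCode | with_reducible apply memCodeP | with_reducible apply memCode₂ | with_reducible apply eqPE | with_reducible apply eqPE' | with_reducible exact IntF.id | with_reducible exact IntF.fst' | with_reducible exact IntF.snd' | with_reducible exact IntF.const _ | with_reducible exact Int.const _ | assumption | with_reducible apply Int.and | with_reducible apply Int.or | with_reducible apply Int.not | with_reducible apply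 Int.imp | with_reducible apply Int.iff | with_reducible apply Int.ne | with_reducible apply Int.eq | with_reducible apply Int.mem | with_reducible apply Int.subset | with_reducible apply Int.ltN | with_reducible apply Int.leN | with_reducible_and_instances apply Int.le | with_reducible_and_instances apply Int.lt | with_reducible apply Int.all | with_reducible apply Int.ex | with_reducible apply IntF.fst | with_reducible apply IntF.snd | with_reducible apply IntF.app | with_reducible apply IntF.inl | with_reducible apply IntF.inr | with_reducible_and_instances apply IntF.mul | with_reducible_and_instances apply IntF.inv | with_reducible_and_instances apply IntF.add | with_reducible_and_instances apply IntF.sub | with_reducible_and_instances apply IntF.neg | with_reducible_and_instances apply IntF.smul | with_reducible apply Int.fin | with_reducible apply IntF.sep | with_reducible apply IntF.lam | with_reducible apply IntF.insert | with_reducible apply IntF.singleton | with_reducible apply IntF.union | with_reducible apply IntF.iimage | with_reducible apply IntF.ite | with_reducible apply IntF.the | with_reducible apply IntF.irec | with_reducible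 apply IntF.succ | with_reducible apply IntF.val | with_reducible apply IntF.mk | (with_reducible refine Int.comp ?_ ?_; assumption) | (with_reducible refine Int.comp₂ ?_ ?_ ?_; assumption) | (with_reducible refine Int.comp₃ ?_ ?_ ?_ ?_; assumption) | (with_reducible refine Int.comp₄ ?_ ?_ ?_ ?_ ?_; assumption) | (with_reducible refine IntF.comp ?_ ?_; assumption) | (with_reducible refine IntF.comp₂ ?_ ?_ ?_; assumption) | (with_reducible refine IntF.comp₃ ?_ ?_ ?_ ?_; assumption) | with_reducible apply IntF.pair)), fun m => ?_,
    fun z => (hd z).trans (exists_congr fun h => forall_congr' fun m => (mem_sep (hIm m)).symm)⟩,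
    fun z => ?_⟩
  · refine retr_clopen hρI ht hs hρ hy hρc (h1 m) fun z => mem_cpE.trans
      (exists_congr fun h => (mem_sep (hIm m)).trans ?_)
    exact (mem_cpE' (S := C m)).symm
  · rw [hd z, h2 z]
    constructor
    · rintro ⟨hzy, h3⟩
      refine ⟨⟨hy z hzy, fun m => ?_⟩, hzy⟩
      have h4 : ρ (mkE z (hy z hzy)) = mkE z hzy := Subtype.ext (hρ (mkE z (hy z hzy)) hzy)
      rw [h4]
      exact h3 m
    · rintro ⟨⟨hzx, h3⟩, hzy⟩
      have h4 : ρ (mkE z hzx) = mkE z hzy := Subtype.ext (hρ (mkE z hzx) hzy)
      rw [h4] at h3
      exact ⟨hzy, h3⟩

theorem retr_z {r : N} [Field (Helper672.Plain.El r)] [LinearOrder (Helper672.Plain.El r)] [IsStrictOrderedRing (Helper672.Plain.El r)]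
    (hr : IsReals r) : IsZEmbedded s y t x r := by
  rintro c ⟨hcy, g, ⟨hgI, hg⟩, hgc⟩
  replace hgI := isMap_iff.1 hgI
  have hI : Int N (fun p : Helper672.Plain.El x => g (ρ p) = 0) := by (repeat' (first | with_reducible apply memPE | with_reducible apply memPE' | with_reducible apply memPE'' | with_reducible apply memCode | with_reducible apply memCodeP | with_reducible apply memCode₂ | with_reducible apply eqPE | with_reducible apply eqPE' | with_reducible exact IntF.id | with_reducible exact IntF.fst' | with_reducible exact IntF.snd' | with_reducible exact IntF.const _ | with_reducible exact Int.const _ | assumption | with_reducible apply Int.and | with_reducible apply Int.or | with_reducible apply Int.not | with_reducible apply Int.imp | with_reducible apply Int.iff | with_reducible apply Int.ne | with_reducible apply Int.eq | with_reducible apply Int.mem | with_reducible apply Int.subset | with_reducible apply Int.ltN | with_reducible apply Int.leN | with_reducible_and_instances apply Int.le | with_reducible_and_instances apply Int.lt | with_reducible apply Int.all | with_reducible apply Int.ex | with_reducible apply IntF.fst | with_reducible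 apply IntF.snd | with_reducible apply IntF.app | with_reducible apply IntF.inl | with_reducible apply IntF.inr | with_reducible_and_instances apply IntF.mul | with_reducible_and_instances apply IntF.inv | with_reducible_and_instances apply IntF.add | with_reducible_and_instances apply IntF.sub | with_reducible_and_instances apply IntF.neg | with_reducible_and_instances apply IntF.smul | with_reducible apply Int.fin | with_reducible apply IntF.sep | with_reducible apply IntF.lam | with_reducible apply IntF.insert | with_reducible apply IntF.singleton | with_reducible apply IntF.union | with_reducible apply IntF.iimage | with_reducible apply IntF.ite | with_reducible apply IntF.the | with_reducible apply IntF.irec | with_reducible apply IntF.succ | with_reducible apply IntF.val | with_reducible apply IntF.mk | (with_reducible refine Int.comp ?_ ?_; assumption) | (with_reducible refine Int.comp₂ ?_ ?_ ?_; assumption) | (with_reducible refine Int.comp₃ ?_ ?_ ?_ ?_; assumption) | (with_reducible refine Int.comp₄ ?_ ?_ ?_ ?_ ?_; assumption) | (with_reducible refine IntF.comp ?_ ?_; assumption) | (with_reducible refine IntF.comp₂ ?_ ?_ ?_; assumption)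 | (with_reducible refine IntF.comp₃ ?_ ?_ ?_ ?_; assumption) | with_reducible apply IntF.pair))
  obtain ⟨d, hd⟩ := exists_set hI
  refine ⟨d, ⟨fun z hz => ((hd z).1 hz).1, fun p => g (ρ p), ⟨isMap_iff.2 (by (repeat' (first | with_reducible apply memPE | with_reducible apply memPE' | with_reducible apply memPE'' | with_reducible apply memCode | with_reducible apply memCodeP | with_reducible apply memCode₂ | with_reducible apply eqPE | with_reducible apply eqPE' | with_reducible exact IntF.id | with_reducible exact IntF.fst' | with_reducible exact IntF.snd' | with_reducible exact IntF.const _ | with_reducible exact Int.const _ | assumption | with_reducible apply Int.and | with_reducible apply Int.or | with_reducible apply Int.not | with_reducible apply Int.imp | with_reducible apply Int.iff | with_reducible apply Int.ne | with_reducible apply Int.eq | with_reducible apply Int.mem | with_reducible apply Int.subset | with_reducible apply Int.ltN | with_reducible apply Int.leN | with_reducible_and_instances apply Int.le | with_reducible_and_instances apply Int.lt | with_reducible apply Int.all | with_reducible apply Int.ex | with_reducible apply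 IntF.fst | with_reducible apply IntF.snd | with_reducible apply IntF.app | with_reducible apply IntF.inl | with_reducible apply IntF.inr | with_reducible_and_instances apply IntF.mul | with_reducible_and_instances apply IntF.inv | with_reducible_and_instances apply IntF.add | with_reducible_and_instances apply IntF.sub | with_reducible_and_instances apply IntF.neg | with_reducible_and_instances apply IntF.smul | with_reducible apply Int.fin | with_reducible apply IntF.sep | with_reducible apply IntF.lam | with_reducible apply IntF.insert | with_reducible apply IntF.singleton | with_reducible apply IntF.union | with_reducible apply IntF.iimage | with_reducible apply IntF.ite | with_reducible apply IntF.the | with_reducible apply IntF.irec | with_reducible apply IntF.succ | with_reducible apply IntF.val | with_reducible apply IntF.mk | (with_reducible refine Int.comp ?_ ?_; assumption) | (with_reducible refine Int.comp₂ ?_ ?_ ?_; assumption) | (with_reducible refine Int.comp₃ ?_ ?_ ?_ ?_; assumption) | (with_reducible refine Int.comp₄ ?_ ?_ ?_ ?_ ?_; assumption) | (with_reducible refine IntF.comp ?_ ?_; assumption) | (with_reducible refine IntF.comp₂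 ?_ ?_ ?_; assumption) | (with_reducible refine IntF.comp₃ ?_ ?_ ?_ ?_; assumption) | with_reducible apply IntF.pair))),
    fun p ε hε => ?_⟩, fun p => (hd p.1).trans ⟨fun h => h.2, fun h => ⟨p.2, h⟩⟩⟩, fun z => ?_⟩
  · obtain ⟨v, hv, h1, h2⟩ := hg (ρ p) ε hε
    obtain ⟨u, hu, h3⟩ := hρc v hv
    exact ⟨u, hu, (h3 p).2 h1, fun q hq => h2 (ρ q) ((h3 q).1 hq)⟩
  · rw [hd z]
    constructor
    · intro hz
      have hzy := hcy z hz
      refine ⟨⟨hy z hzy, ?_⟩, hzy⟩
      have h4 : ρ (mkE z (hy z hzy)) = mkE z hzy := Subtype.ext (hρ (mkE z (hy z hzy)) hzy)
      rw [h4]
      exact (hgc (mkE z hzy)).1 hz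
    · rintro ⟨⟨hzx, h3⟩, hzy⟩
      have h4 : ρ (mkE z hzx) = mkE z hzy := Subtype.ext (hρ (mkE z hzx) hzy)
      rw [h4] at h3
      exact (hgc (mkE z hzy)).2 h3

end retr

end

end Pool.Agent.Q301.TM
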