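import Pool.Agent.Q301.TM.FinT

/-!
# The model and the results
-/

set_option maxHeartbeats 1000000
set_option linter.all false
set_option synthInstance.maxSize 2000

namespace Pool.Agent.Q301.TM

open FirstOrder FirstOrder.Language
open Pool.Agent.Helper672.ZFA
open Pool.Agent.Helper672.ZFA.H310M
open Pool.Agent.Helper672.Plain (LSet)
open Pool.Agent.Helper672.ZFA.H635 (toL plainN_ordPair plainN_graph plainN_opGraph IsGen NN nn_zf
  CollL coll_of_zf exists_countable_sub exists_reals isModel_of_zermelo nn_zermelo)
open Pool.Agent.H635Amen (IsReals ZF)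
open Pool.Agent.H310Cards (IsOmega IsFinite IsFun App IsInj IsNat)
open Pool.Agent.H310Top (IsTopology IsClosed IsCompact)
open Pool.Agent.H310 (FinP finP_iff finP_le finP_lt exists_BN mem_nat nat_iff appN finite_of_finP
  mem_cp extN exists_code instPEl exists_q pr int_pr pr_inj)

universe u u₁

section

attribute [local instance] toL instPEl

theorem ch_of_chD {N : Type u} [LSet.Structure N] [hM : IsModel N] {a : N}
    {R : INat N × (El a × El a) → Prop} (h : ChD N (α := El a) R) :
    ∃ (x : N) (o : Helper672.Plain.El x) (τ : INat N → Helper672.Plain.El x) (R' : INat N × (Helper672.Plain.El x × Helper672.Plain.El x) → Prop),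
      Ch N o τ R' := by
  let x : N := dom N (INat N ⊕ El a)
  let e : INat N ⊕ El a → Helper672.Plain.El x := fun b => mkE (code b) (code_mem_dom (M := N) b)
  have heI : IntF N e := by
    refine IntF.of_D (S := fun v => v 0 = v 1) (D.eqf (DF.var _) (DF.var _)) fun b c => ?_
    change code b = c.1 ↔ e b = c
    exact ⟨fun h => Subtype.ext h, fun h => h ▸ rfl⟩
  have heinj : ∀ b c, e b = e c → b = c := fun b c h => ITy.inj (M := N) (congrArg Subtype.val h)
  have hesurj : ∀ p : Helper672.Plain.El x, ∃ b, e b = p := fun p => by
    obtain ⟨b, hb⟩ := mem_dom.1 (show Mem p.1 (dom N (INat N ⊕ El a)) from p.2)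
    exact ⟨b, Subtype.ext hb⟩
  have hR := h.int
  let R' : INat N × (Helper672.Plain.El x × Helper672.Plain.El x) → Prop := fun q => ∃ b c : El a, e (Sum.inr b) = q.2.1 ∧
    e (Sum.inr c) = q.2.2 ∧ R (q.1, (b, c))
  have hR' : ∀ n b c, R' (n, (e (Sum.inr b), e (Sum.inr c))) ↔ R (n, (b, c)) := by
    intro n b c
    constructor
    · rintro ⟨b', c', h1, h2, h3⟩
      rw [← Sum.inr_injective (heinj _ _ h1), ← Sum.inr_injective (heinj _ _ h2)]
      exact h3
    · exact fun h1 => ⟨b, c, rfl, rfl, h1⟩
  have hRe : ∀ n p q, R' (n, (p, q)) → ∃ b c, e (Sum.inr b) = p ∧ e (Sum.inr c) = q := by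
    rintro n p q ⟨b, c, h1, h2, -⟩
    exact ⟨b, c, h1, h2⟩
  have hRI : Int N R' := by
    change Int N fun q : INat N × (Helper672.Plain.El x × Helper672.Plain.El x) => ∃ b c : El a, e (Sum.inr b) = q.2.1 ∧
      e (Sum.inr c) = q.2.2 ∧ R (q.1, (b, c))
    (repeat' (first | with_reducible apply memPE | with_reducible apply memPE' | with_reducible apply memPE'' | with_reducible apply memCode | with_reducible apply memCodeP | with_reducible apply memCode₂ | with_reducible apply eqPE | with_reducible apply eqPE' | with_reducible exact IntF.id | with_reducible exact IntF.fst' | with_reducible exact IntF.snd' | with_reducible exact IntF.const _ | with_reducible exact Int.const _ | assumption | with_reducible apply Int.and | with_reducible apply Int.or | with_reducible apply Int.not | with_reducible apply Int.imp | with_reducible apply Int.iff | with_reducible apply Int.ne | with_reducible apply Int.eq | with_reducible apply Int.mem | with_reducible apply Int.subset | with_reducible apply Int.ltN | with_reducible apply Int.leN | with_reducible_and_instances apply Int.le | with_reducible_and_instances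 apply Int.lt | with_reducible apply Int.all | with_reducible apply Int.ex | with_reducible apply IntF.fst | with_reducible apply IntF.snd | with_reducible apply IntF.app | with_reducible apply IntF.inl | with_reducible apply IntF.inr | with_reducible_and_instances apply IntF.mul | with_reducible_and_instances apply IntF.inv | with_reducible_and_instances apply IntF.add | with_reducible_and_instances apply IntF.sub | with_reducible_and_instances apply IntF.neg | with_reducible_and_instances apply IntF.smul | with_reducible apply Int.fin | with_reducible apply IntF.sep | with_reducible apply IntF.lam | with_reducible apply IntF.insert | with_reducible apply IntF.singleton | with_reducible apply IntF.union | with_reducible apply IntF.iimage | with_reducible apply IntF.ite | with_reducible apply IntF.the | with_reducible apply IntF.irec | with_reducible apply IntF.succ | with_reducible apply IntF.val | with_reducible apply IntF.mk | (with_reducible refine Int.comp ?_ ?_; assumption) | (with_reducible refine Int.comp₂ ?_ ?_ ?_; assumption) | (with_reducible refine Int.comp₃ ?_ ?_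 ?_ ?_; assumption) | (with_reducible refine Int.comp₄ ?_ ?_ ?_ ?_ ?_; assumption) | (with_reducible refine IntF.comp ?_ ?_; assumption) | (with_reducible refine IntF.comp₂ ?_ ?_ ?_; assumption) | (with_reducible refine IntF.comp₃ ?_ ?_ ?_ ?_; assumption) | with_reducible apply IntF.pair))
  refine ⟨x, e (Sum.inl 0), fun n => e (Sum.inl n.succ), R', ⟨hRI, by (repeat' (first | with_reducible apply memPE | with_reducible apply memPE' | with_reducible apply memPE'' | with_reducible apply memCode | with_reducible apply memCodeP | with_reducible apply memCode₂ | with_reducible apply eqPE | with_reducible apply eqPE' | with_reducible exact IntF.id | with_reducible exact IntF.fst' | with_reducible exact IntF.snd' | with_reducible exact IntF.const _ | with_reducible exact Int.const _ | assumption | with_reducible apply Int.and | with_reducible apply Int.or | with_reducible apply Int.not | with_reducible apply Int.imp | with_reducible apply Int.iff | with_reducible apply Int.ne | with_reducible apply Int.eq | with_reducible apply Int.mem | with_reducible apply Int.subset | with_reducible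 apply Int.ltN | with_reducible apply Int.leN | with_reducible_and_instances apply Int.le | with_reducible_and_instances apply Int.lt | with_reducible apply Int.all | with_reducible apply Int.ex | with_reducible apply IntF.fst | with_reducible apply IntF.snd | with_reducible apply IntF.app | with_reducible apply IntF.inl | with_reducible apply IntF.inr | with_reducible_and_instances apply IntF.mul | with_reducible_and_instances apply IntF.inv | with_reducible_and_instances apply IntF.add | with_reducible_and_instances apply IntF.sub | with_reducible_and_instances apply IntF.neg | with_reducible_and_instances apply IntF.smul | with_reducible apply Int.fin | with_reducible apply IntF.sep | with_reducible apply IntF.lam | with_reducible apply IntF.insert | with_reducible apply IntF.singleton | with_reducible apply IntF.union | with_reducible apply IntF.iimage | with_reducible apply IntF.ite | with_reducible apply IntF.the | with_reducible apply IntF.irec | with_reducible apply IntF.succ | with_reducible apply IntF.val | with_reducible apply IntF.mk | (with_reducible refine Int.comp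 ?_ ?_; assumption) | (with_reducible refine Int.comp₂ ?_ ?_ ?_; assumption) | (with_reducible refine Int.comp₃ ?_ ?_ ?_ ?_; assumption) | (with_reducible refine Int.comp₄ ?_ ?_ ?_ ?_ ?_; assumption) | (with_reducible refine IntF.comp ?_ ?_; assumption) | (with_reducible refine IntF.comp₂ ?_ ?_ ?_; assumption) | (with_reducible refine IntF.comp₃ ?_ ?_ ?_ ?_; assumption) | with_reducible apply IntF.pair)), fun p => ?_,
    fun n h1 => ?_, fun n h1 => ?_, fun m n h1 => ?_, fun m n h1 => ?_, fun m n p h1 h2 => ?_,
    fun n p q h1 => ?_, fun n p q h1 => ?_, fun n p q h1 h2 => ?_, fun n p q h1 h2 => ?_,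
    fun n p q r h1 h2 => ?_, fun n => ?_, fun n p h1 => ?_, fun n p h1 => ?_, fun n p q => ?_,
    fun n => ?_, fun n => ?_, fun W hW => ?_⟩⟩
  · obtain ⟨b, rfl⟩ := hesurj p
    rcases b with n | b
    · rcases INat.eq_zero_or_succ n with rfl | ⟨k, rfl⟩
      · exact Or.inl rfl
      · exact Or.inr (Or.inl ⟨k, rfl⟩)
    · obtain ⟨n, hn⟩ := h.cov b
      exact Or.inr (Or.inr ⟨n, (hR' _ _ _).2 hn⟩)
  · exact INat.succ_ne_zero _ (Sum.inl_injective (heinj _ _ h1))
  · obtain ⟨b, c, h2, h3⟩ := hRe _ _ _ h1
    cases heinj _ _ h2
  · exact INat.succ_inj (Sum.inl_injective (heinj _ _ h1))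
  · obtain ⟨b, c, h2, h3⟩ := hRe _ _ _ h1
    cases heinj _ _ h2
  · obtain ⟨b, c, rfl, -⟩ := hRe _ _ _ h1
    rw [hR'] at h1 h2
    exact h.uniq _ _ _ h1 h2
  · obtain ⟨b, c, rfl, rfl⟩ := hRe _ _ _ h1
    rw [hR'] at h1 ⊢
    exact h.left _ _ _ h1
  · obtain ⟨b, c, rfl, rfl⟩ := hRe _ _ _ h1
    rw [hR'] at h1 ⊢
    exact h.right _ _ _ h1
  · obtain ⟨b, -, rfl, -⟩ := hRe _ _ _ h1
    obtain ⟨c, -, rfl, -⟩ := hRe _ _ _ h2
    rw [hR'] at h1 h2
    rw [hR', hR']
    exact h.total _ _ _ h1 h2
  · obtain ⟨b, c, rfl, rfl⟩ := hRe _ _ _ h1
    rw [hR'] at h1 h2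
    rw [h.antisymm _ _ _ h1 h2]
  · obtain ⟨b, c, rfl, rfl⟩ := hRe _ _ _ h1
    obtain ⟨-, d, -, rfl⟩ := hRe _ _ _ h2
    rw [hR'] at h1 h2 ⊢
    exact h.trans _ _ _ _ h1 h2
  · obtain ⟨b, hb⟩ := h.ne n
    exact ⟨e (Sum.inr b), (hR' _ _ _).2 hb⟩
  · obtain ⟨b, -, rfl, -⟩ := hRe _ _ _ h1
    rw [hR'] at h1
    obtain ⟨c, h2, h3⟩ := h.top n b h1
    exact ⟨e (Sum.inr c), (hR' _ _ _).2 h2, fun h4 => h3 (Sum.inr_injective (heinj _ _ h4))⟩
  · obtain ⟨b, -, rfl, -⟩ := hRe _ _ _ h1
    rw [hR'] at h1
    obtain ⟨c, h2, h3⟩ := h.bot n b h1
    exact ⟨e (Sum.inr c), (hR' _ _ _).2 h2, fun h4 => h3 (Sum.inr_injective (heinj _ _ h4))⟩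
  · by_cases hex : ∃ b c, e (Sum.inr b) = p ∧ e (Sum.inr c) = q
    · obtain ⟨b, c, rfl, rfl⟩ := hex
      refine ((h.fin n b c).image (f := fun d => e (Sum.inr d)) (by (repeat' (first | with_reducible apply memPE | with_reducible apply memPE' | with_reducible apply memPE'' | with_reducible apply memCode | with_reducible apply memCodeP | with_reducible apply memCode₂ | with_reducible apply eqPE | with_reducible apply eqPE' | with_reducible exact IntF.id | with_reducible exact IntF.fst' | with_reducible exact IntF.snd' | with_reducible exact IntF.const _ | with_reducible exact Int.const _ | assumption | with_reducible apply Int.and | with_reducible apply Int.or | with_reducible apply Int.not | with_reducible apply Int.imp | with_reducible apply Int.iff | with_reducible apply Int.ne | with_reducible apply Int.eq | with_reducible apply Int.mem | with_reducible apply Int.subset | with_reducible apply Int.ltN | with_reducible apply Int.leN | with_reducible_and_instances apply Int.le | with_reducible_and_instances apply Int.lt | with_reducible apply Int.all | with_reducible apply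 Int.ex | with_reducible apply IntF.fst | with_reducible apply IntF.snd | with_reducible apply IntF.app | with_reducible apply IntF.inl | with_reducible apply IntF.inr | with_reducible_and_instances apply IntF.mul | with_reducible_and_instances apply IntF.inv | with_reducible_and_instances apply IntF.add | with_reducible_and_instances apply IntF.sub | with_reducible_and_instances apply IntF.neg | with_reducible_and_instances apply IntF.smul | with_reducible apply Int.fin | with_reducible apply IntF.sep | with_reducible apply IntF.lam | with_reducible apply IntF.insert | with_reducible apply IntF.singleton | with_reducible apply IntF.union | with_reducible apply IntF.iimage | with_reducible apply IntF.ite | with_reducible apply IntF.the | with_reducible apply IntF.irec | with_reducible apply IntF.succ | with_reducible apply IntF.val | with_reducible apply IntF.mk | (with_reducible refine Int.comp ?_ ?_; assumption) | (with_reducible refine Int.comp₂ ?_ ?_ ?_; assumption) | (with_reducible refine Int.comp₃ ?_ ?_ ?_ ?_; assumption) | (with_reducible refine Int.comp₄ ?_ ?_ ?_ ?_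 ?_; assumption) | (with_reducible refine IntF.comp ?_ ?_; assumption) | (with_reducible refine IntF.comp₂ ?_ ?_ ?_; assumption) | (with_reducible refine IntF.comp₃ ?_ ?_ ?_ ?_; assumption) | with_reducible apply IntF.pair)))).mono ?_
      rintro s ⟨h1, h2⟩
      obtain ⟨-, d, -, rfl⟩ := hRe _ _ _ h1
      rw [hR'] at h1 h2
      exact ⟨d, ⟨h1, h2⟩, rfl⟩
    · refine ⟨∅, IFin.empty, ?_⟩
      rintro s ⟨h1, h2⟩
      obtain ⟨b, -, h3, -⟩ := hRe _ _ _ h1
      obtain ⟨-, c, -, h4⟩ := hRe _ _ _ h2
      exact absurd ⟨b, c, h3, h4⟩ hex
  · obtain ⟨u, hu, h1, h2⟩ := h.up n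
    refine ⟨fun m => e (Sum.inr (u m)), by (repeat' (first | with_reducible apply memPE | with_reducible apply memPE' | with_reducible apply memPE'' | with_reducible apply memCode | with_reducible apply memCodeP | with_reducible apply memCode₂ | with_reducible apply eqPE | with_reducible apply eqPE' | with_reducible exact IntF.id | with_reducible exact IntF.fst' | with_reducible exact IntF.snd' | with_reducible exact IntF.const _ | with_reducible exact Int.const _ | assumption | with_reducible apply Int.and | with_reducible apply Int.or | with_reducible apply Int.not | with_reducible apply Int.imp | with_reducible apply Int.iff | with_reducible apply Int.ne | with_reducible apply Int.eq | with_reducible apply Int.mem | with_reducible apply Int.subset | with_reducible apply Int.ltN | with_reducible apply Int.leN | with_reducible_and_instances apply Int.le | with_reducible_and_instances apply Int.lt | with_reducible apply Int.all | with_reducible apply Int.ex | with_reducible apply IntF.fst | with_reducible apply IntF.snd | with_reducible apply IntF.app | with_reducible apply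 IntF.inl | with_reducible apply IntF.inr | with_reducible_and_instances apply IntF.mul | with_reducible_and_instances apply IntF.inv | with_reducible_and_instances apply IntF.add | with_reducible_and_instances apply IntF.sub | with_reducible_and_instances apply IntF.neg | with_reducible_and_instances apply IntF.smul | with_reducible apply Int.fin | with_reducible apply IntF.sep | with_reducible apply IntF.lam | with_reducible apply IntF.insert | with_reducible apply IntF.singleton | with_reducible apply IntF.union | with_reducible apply IntF.iimage | with_reducible apply IntF.ite | with_reducible apply IntF.the | with_reducible apply IntF.irec | with_reducible apply IntF.succ | with_reducible apply IntF.val | with_reducible apply IntF.mk | (with_reducible refine Int.comp ?_ ?_; assumption) | (with_reducible refine Int.comp₂ ?_ ?_ ?_; assumption) | (with_reducible refine Int.comp₃ ?_ ?_ ?_ ?_; assumption) | (with_reducible refine Int.comp₄ ?_ ?_ ?_ ?_ ?_; assumption) | (with_reducible refine IntF.comp ?_ ?_; assumption) | (with_reducible refine IntF.comp₂ ?_ ?_ ?_; assumption)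 | (with_reducible refine IntF.comp₃ ?_ ?_ ?_ ?_; assumption) | with_reducible apply IntF.pair)), fun m => (hR' _ _ _).2 (h1 m), fun p hp => ?_⟩
    obtain ⟨b, -, rfl, -⟩ := hRe _ _ _ hp
    rw [hR'] at hp
    obtain ⟨m, hm⟩ := h2 b hp
    exact ⟨m, (hR' _ _ _).2 hm⟩
  · obtain ⟨u, hu, h1, h2⟩ := h.dn n
    refine ⟨fun m => e (Sum.inr (u m)), by (repeat' (first | with_reducible apply memPE | with_reducible apply memPE' | with_reducible apply memPE'' | with_reducible apply memCode | with_reducible apply memCodeP | with_reducible apply memCode₂ | with_reducible apply eqPE | with_reducible apply eqPE' | with_reducible exact IntF.id | with_reducible exact IntF.fst' | with_reducible exact IntF.snd' | with_reducible exact IntF.const _ | with_reducible exact Int.const _ | assumption | with_reducible apply Int.and | with_reducible apply Int.or | with_reducible apply Int.not | with_reducible apply Int.imp | with_reducible apply Int.iff | with_reducible apply Int.ne | with_reducible apply Int.eq | with_reducible apply Int.mem | with_reducible apply Int.subset | with_reducible apply Int.ltN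 | with_reducible apply Int.leN | with_reducible_and_instances apply Int.le | with_reducible_and_instances apply Int.lt | with_reducible apply Int.all | with_reducible apply Int.ex | with_reducible apply IntF.fst | with_reducible apply IntF.snd | with_reducible apply IntF.app | with_reducible apply IntF.inl | with_reducible apply IntF.inr | with_reducible_and_instances apply IntF.mul | with_reducible_and_instances apply IntF.inv | with_reducible_and_instances apply IntF.add | with_reducible_and_instances apply IntF.sub | with_reducible_and_instances apply IntF.neg | with_reducible_and_instances apply IntF.smul | with_reducible apply Int.fin | with_reducible apply IntF.sep | with_reducible apply IntF.lam | with_reducible apply IntF.insert | with_reducible apply IntF.singleton | with_reducible apply IntF.union | with_reducible apply IntF.iimage | with_reducible apply IntF.ite | with_reducible apply IntF.the | with_reducible apply IntF.irec | with_reducible apply IntF.succ | with_reducible apply IntF.val | with_reducible apply IntF.mk | (with_reducible refine Int.comp ?_ ?_; assumption)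 | (with_reducible refine Int.comp₂ ?_ ?_ ?_; assumption) | (with_reducible refine Int.comp₃ ?_ ?_ ?_ ?_; assumption) | (with_reducible refine Int.comp₄ ?_ ?_ ?_ ?_ ?_; assumption) | (with_reducible refine IntF.comp ?_ ?_; assumption) | (with_reducible refine IntF.comp₂ ?_ ?_ ?_; assumption) | (with_reducible refine IntF.comp₃ ?_ ?_ ?_ ?_; assumption) | with_reducible apply IntF.pair)), fun m => (hR' _ _ _).2 (h1 m), fun p hp => ?_⟩
    obtain ⟨b, -, rfl, -⟩ := hRe _ _ _ hp
    rw [hR'] at hp
    obtain ⟨m, hm⟩ := h2 b hp
    exact ⟨m, (hR' _ _ _).2 hm⟩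
  · obtain ⟨m, hm⟩ := h.hom (fun q => W (e (Sum.inr q.1), q.2)) (by (repeat' (first | with_reducible apply memPE | with_reducible apply memPE' | with_reducible apply memPE'' | with_reducible apply memCode | with_reducible apply memCodeP | with_reducible apply memCode₂ | with_reducible apply eqPE | with_reducible apply eqPE' | with_reducible exact IntF.id | with_reducible exact IntF.fst' | with_reducible exact IntF.snd' | with_reducible exact IntF.const _ | with_reducible exact Int.const _ | assumption | with_reducible apply Int.and | with_reducible apply Int.or | with_reducible apply Int.not | with_reducible apply Int.imp | with_reducible apply Int.iff | with_reducible apply Int.ne | with_reducible apply Int.eq | with_reducible apply Int.mem | with_reducible apply Int.subset | with_reducible apply Int.ltN | with_reducible apply Int.leN | with_reducible_and_instances apply Int.le | with_reducible_and_instances apply Int.lt | with_reducible apply Int.all | with_reducible apply Int.ex | with_reducible apply IntF.fst | with_reducible apply IntF.snd | with_reducible apply IntF.app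 | with_reducible apply IntF.inl | with_reducible apply IntF.inr | with_reducible_and_instances apply IntF.mul | with_reducible_and_instances apply IntF.inv | with_reducible_and_instances apply IntF.add | with_reducible_and_instances apply IntF.sub | with_reducible_and_instances apply IntF.neg | with_reducible_and_instances apply IntF.smul | with_reducible apply Int.fin | with_reducible apply IntF.sep | with_reducible apply IntF.lam | with_reducible apply IntF.insert | with_reducible apply IntF.singleton | with_reducible apply IntF.union | with_reducible apply IntF.iimage | with_reducible apply IntF.ite | with_reducible apply IntF.the | with_reducible apply IntF.irec | with_reducible apply IntF.succ | with_reducible apply IntF.val | with_reducible apply IntF.mk | (with_reducible refine Int.comp ?_ ?_; assumption) | (with_reducible refine Int.comp₂ ?_ ?_ ?_; assumption) | (with_reducible refine Int.comp₃ ?_ ?_ ?_ ?_; assumption) | (with_reducible refine Int.comp₄ ?_ ?_ ?_ ?_ ?_; assumption) | (with_reducible refine IntF.comp ?_ ?_; assumption) | (with_reducible refine IntF.comp₂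 ?_ ?_ ?_; assumption) | (with_reducible refine IntF.comp₃ ?_ ?_ ?_ ?_; assumption) | with_reducible apply IntF.pair)))
    refine ⟨m, fun n p q hmn hp hq k hk => ?_⟩
    obtain ⟨b, -, rfl, -⟩ := hRe _ _ _ hp
    obtain ⟨c, -, rfl, -⟩ := hRe _ _ _ hq
    rw [hR'] at hp hq
    exact hm n b c hmn hp hq k hk

end

/-- The model. -/
def HasCh (N : Type u) [LSet.Structure N] : Prop :=
  ∃ hN : Helper672.Plain.Zermelo N, letI := toL N; letI : IsModel N := isModel_of_zermelo hN
    letI := fun x : N => instPEl (N := N) x
    ∃ (x t x' t' : N) (o : Helper672.Plain.El x) (τ : INat N → Helper672.Plain.El x) (R : INat N × (Helper672.Plain.El x × Helper672.Plain.El x) → Prop)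
      (i : Helper672.Plain.El x' → Helper672.Plain.El x), Dat N x t x' t' o τ R i

theorem exists_ch' (M : Type u) [L.Structure M] [IsModel M] [Countable M] (hC : CollL M) :
    ∃ (N : Type u) (_ : LSet.Structure N), ZF N ∧ HasCh N := by
  have p₀ : Co M (XI M) := ⟨∅, fun i k d d' h => absurd h (by simp), IFin.empty⟩
  obtain ⟨G, hG⟩ := H635.exists_gen (M := M) p₀
  refine ⟨NN (SS (GZ M)) hG, inferInstance, nn_zf hG hC, nn_zermelo hG, ?_⟩
  letI := toL (NN (SS (GZ M)) hG)
  letI : IsModel (NN (SS (GZ M)) hG) := isModel_of_zermelo (nn_zermelo hG)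
  obtain ⟨R, hR⟩ := exists_chD hG hC
  obtain ⟨x, o, τ, R', h⟩ := ch_of_chD (N := NN (SS (GZ M)) hG) hR
  obtain ⟨t, x', t', i, h'⟩ := exists_dat h
  exact ⟨x, t, x', t', o, τ, R', i, h'⟩

section

attribute [local instance] toL

theorem exists_ch_c (M : Type u) [LSet.Structure M] [Countable M] (h : ZF M) :
    ∃ (N : Type u) (_ : LSet.Structure N), ZF N ∧ HasCh N := by
  have hM : IsModel M := isModel_of_zermelo h.toZermelo
  exact exists_ch' M (coll_of_zf h)

end

theorem exists_ch (h : ∃ (M : Type u) (_ : LSet.Structure M), ZF M) :
    ∃ (N : Type u) (_ : LSet.Structure N), ZF N ∧ HasCh N := by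
  obtain ⟨M, i, hM⟩ := h
  obtain ⟨M₀, h1, h2⟩ := exists_countable_sub M hM
  exact exists_ch_c M₀ h2


theorem p053343 (h : ∃ (M : Type u) (_ : LSet.Structure M), ZF M) :
    ∃ (N : Type u) (_ : LSet.Structure N), ZF N ∧
      ∃ (r : N) (_ : Field (Helper672.Plain.El r)) (_ : LinearOrder (Helper672.Plain.El r)) (_ : IsStrictOrderedRing (Helper672.Plain.El r)),
        IsReals r ∧ ∃ t x : N, IsTychonoff t x r ∧ IsCountablePseudocharacter t x ∧
          ∃ u, (∀ z, Helper672.Plain.Mem z u → Helper672.Plain.Mem z x) ∧ ¬ IsZOpen t x r u := by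
  obtain ⟨N, iN, hN, hZ, D⟩ := exists_ch h
  letI := toL N
  letI : IsModel N := isModel_of_zermelo hZ
  obtain ⟨x, t, x', t', o, τ, R, i, D⟩ := D
  obtain ⟨r, i1, i2, i3, hr⟩ := exists_reals hZ
  exact ⟨N, iN, hN, r, i1, i2, i3, hr, t, x, D.tych, D.pseudo, D.not_zopen hr⟩

theorem p05264e (h : ∃ (M : Type u) (_ : LSet.Structure M), ZF M) :
    ∃ (N : Type u) (_ : LSet.Structure N), ZF N ∧
      ∃ (r : N) (_ : Field (Helper672.Plain.El r)) (_ : LinearOrder (Helper672.Plain.El r)) (_ : IsStrictOrderedRing (Helper672.Plain.El r)),
        IsReals r ∧ ∃ t x : N, IsTychonoff t x r ∧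
          (∀ F, IsUltraIn (IsZeroSet t x r) F → IsCIP F → IsFixed x F) ∧
          ¬ IsRealcompact t x r := by
  obtain ⟨N, iN, hN, hZ, D⟩ := exists_ch h
  letI := toL N
  letI : IsModel N := isModel_of_zermelo hZ
  obtain ⟨x, t, x', t', o, τ, R, i, D⟩ := D
  obtain ⟨r, i1, i2, i3, hr⟩ := exists_reals hZ
  exact ⟨N, iN, hN, r, i1, i2, i3, hr, t', x', D.tych', fun F hF hc => D.z_fixed hr hF hc,
    D.nrc hr⟩

theorem p5f3c77 (h : ∃ (M : Type u) (_ : LSet.Structure M), ZF M) :
    ∃ (N : Type u) (_ : LSet.Structure N), ZF N ∧
      ∃ (r : N) (_ : Field (Helper672.Plain.El r)) (_ : LinearOrder (Helper672.Plain.El r)) (_ : IsStrictOrderedRing (Helper672.Plain.El r)),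
        IsReals r ∧ ∃ t x : N, IsTychonoff t x r ∧
          (∃ (w b : N) (A : Helper672.Plain.El w → Helper672.Plain.El b), IsUnionOf A x ∧ ∀ n, ∃ s, IsSubspace s (A n).1 t ∧
            IsRealcompact s (A n).1 r ∧ IsZEmbedded s (A n).1 t x r) ∧
          ¬ IsRealcompact t x r := by
  obtain ⟨N, iN, hN, hZ, D⟩ := exists_ch h
  letI := toL N
  letI : IsModel N := isModel_of_zermelo hZ
  obtain ⟨x, t, x', t', o, τ, R, i, D⟩ := D
  obtain ⟨r, i1, i2, i3, hr⟩ := exists_reals hZ
  obtain ⟨w, b, A, hA, hA'⟩ := D.exists_A
  refine ⟨N, iN, hN, r, i1, i2, i3, hr, t', x', D.tych', ⟨w, b, A, hA, fun n => ?_⟩, D.nrc hr⟩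
  obtain ⟨k, hk⟩ := hA' n
  obtain ⟨s, hs⟩ := exists_subspace (A n).1 t'
  exact ⟨s, hs, D.lo_rc hr k hk hs, D.lo_z hr k hk hs⟩

theorem not_nc_of_nrc {N : Type u} [LSet.Structure N] (hZ : Helper672.Plain.Zermelo N) {t x r : N}
    [Field (Helper672.Plain.El r)] [LinearOrder (Helper672.Plain.El r)] [IsStrictOrderedRing (Helper672.Plain.El r)] (hr : IsReals r)
    (h : ¬ IsRealcompact t x r) : ¬ IsNCompact t x := by
  letI := toL N
  letI : IsModel N := isModel_of_zermelo hZ
  exact fun h1 => h (isRealcompact_of_nc hr h1)

theorem p63c7e0 (h : ∃ (M : Type u) (_ : LSet.Structure M), ZF M) :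
    ∃ (N : Type u) (_ : LSet.Structure N), ZF N ∧
      ∃ t x : N, IsTopology t x ∧ IsT1 t x ∧ IsZeroDim t x ∧
        (∃ (w b : N) (A : Helper672.Plain.El w → Helper672.Plain.El b), IsUnionOf A x ∧ ∀ n, ∃ s, IsSubspace s (A n).1 t ∧
          IsNCompact s (A n).1 ∧ IsTwoEmbedded s (A n).1 t x) ∧
        ¬ IsNCompact t x := by
  obtain ⟨N, iN, hN, hZ, D⟩ := exists_ch h
  letI := toL N
  letI : IsModel N := isModel_of_zermelo hZ
  obtain ⟨x, t, x', t', o, τ, R, i, D⟩ := D
  obtain ⟨r, i1, i2, i3, hr⟩ := exists_reals hZ
  obtain ⟨w, b, A, hA, hA'⟩ := D.exists_A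
  refine ⟨N, iN, hN, t', x', D.top', D.T1', D.zd', ⟨w, b, A, hA, fun n => ?_⟩,
    not_nc_of_nrc hZ hr (D.nrc hr)⟩
  obtain ⟨k, hk⟩ := hA' n
  obtain ⟨s, hs⟩ := exists_subspace (A n).1 t'
  exact ⟨s, hs, D.lo_nc k hk hs, D.lo_two k hk hs⟩

theorem p591233 (h : ∃ (M : Type u) (_ : LSet.Structure M), ZF M) :
    ∃ (N : Type u) (_ : LSet.Structure N), ZF N ∧
      ∃ t x : N, IsTopology t x ∧ IsT1 t x ∧ IsZeroDim t x ∧
        (∃ (w b : N) (A : Helper672.Plain.El w → Helper672.Plain.El b), IsUnionOf A x ∧ ∀ n, ∃ s, IsSubspace s (A n).1 t ∧
          IsNCompact s (A n).1 ∧ IsCdEmbedded s (A n).1 t x) ∧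
        ¬ IsNCompact t x := by
  obtain ⟨N, iN, hN, hZ, D⟩ := exists_ch h
  letI := toL N
  letI : IsModel N := isModel_of_zermelo hZ
  obtain ⟨x, t, x', t', o, τ, R, i, D⟩ := D
  obtain ⟨r, i1, i2, i3, hr⟩ := exists_reals hZ
  obtain ⟨w, b, A, hA, hA'⟩ := D.exists_A
  refine ⟨N, iN, hN, t', x', D.top', D.T1', D.zd', ⟨w, b, A, hA, fun n => ?_⟩,
    not_nc_of_nrc hZ hr (D.nrc hr)⟩
  obtain ⟨k, hk⟩ := hA' n
  obtain ⟨s, hs⟩ := exists_subspace (A n).1 t'
  exact ⟨s, hs, D.lo_nc k hk hs, D.lo_cd k hk hs⟩

theorem p6a4164 (h : ∃ (M : Type u) (_ : LSet.Structure M), ZF M) :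
    ∃ (N : Type u) (_ : LSet.Structure N), ZF N ∧
      ∃ t x : N, IsTopology t x ∧ IsT1 t x ∧ IsZeroDim t x ∧
        (∀ F, IsUltraIn (IsCdeltaC t x) F → IsCIP F → IsFixed x F) ∧
        ¬ IsNCompact t x := by
  obtain ⟨N, iN, hN, hZ, D⟩ := exists_ch h
  letI := toL N
  letI : IsModel N := isModel_of_zermelo hZ
  obtain ⟨x, t, x', t', o, τ, R, i, D⟩ := D
  obtain ⟨r, i1, i2, i3, hr⟩ := exists_reals hZ
  exact ⟨N, iN, hN, t', x', D.top', D.T1', D.zd', fun F hF hc => D.c_fixed hF hc,
    not_nc_of_nrc hZ hr (D.nrc hr)⟩

theorem pf2f7cf (h : ∃ (M : Type u) (_ : LSet.Structure M), ZF M) :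
    ∃ (N : Type u) (_ : LSet.Structure N), ZF N ∧ ¬ CMC N ∧
      ∃ (r : N) (_ : Field (Helper672.Plain.El r)) (_ : LinearOrder (Helper672.Plain.El r)) (_ : IsStrictOrderedRing (Helper672.Plain.El r)),
        IsReals r ∧ ∃ t x : N, IsTopology t x ∧ IsRealcompact t x r ∧
          ∃ b s, IsBaire t x r b ∧ IsSubspace s b t ∧ ¬ IsRealcompact s b r := by
  obtain ⟨N, iN, hN, hZ, D⟩ := exists_ch h
  letI := toL N
  letI : IsModel N := isModel_of_zermelo hZ
  obtain ⟨x, t, x', t', o, τ, R, i, D⟩ := D
  obtain ⟨r, i1, i2, i3, hr⟩ := exists_reals hZ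
  exact ⟨N, iN, hN, D.not_cmc, r, i1, i2, i3, hr, t, x, D.top, isRealcompact_of_nc hr D.nc, x', t',
    D.baire hr, D.sub, D.nrc hr⟩

end Pool.Agent.Q301.TM
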