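import Pool.Agent.H310R3.PM5
import Pool.Agent.Q301.TM.Chain

/-!
# The permutation model with a homogeneous chain
-/

set_option maxHeartbeats 1000000
set_option linter.all false
set_option synthInstance.maxSize 2000

namespace Pool.Agent.Q301.TM

open FirstOrder FirstOrder.Language
open Pool.Agent.Helper672.ZFA
open Pool.Agent.Helper672.ZFA.H310M
open Pool.Agent.Helper672.ZFA.H635 (IPerm SymSys IG WFI FEq FMem tw Good feq_of_map feq_iff IsGen
  nd nd_eq mem_nd mem_nd_nd exists_mk mk_eq_nd EqFam NN nn_ext CollL nn_zf mem_NN)
open Pool.Agent.Helper672.Plain (LSet)
open Pool.Agent.H310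

universe u

variable (M : Type u) [L.Structure M] [hM : IsModel M]

/-- The integers: `inl m` is `-1 - m` and `inr m` is `m`. -/
abbrev ZZ : Type u := INat M ⊕ INat M

/-- The index set. -/
abbrev XI : Type u := INat M × ZZ M

variable {M}

/-- The order. -/
def leZ (x y : ZZ M) : Prop :=
  (∃ m k : INat M, x = Sum.inl m ∧ y = Sum.inl k ∧ k ≤ m) ∨
  (∃ m k : INat M, x = Sum.inl m ∧ y = Sum.inr k) ∨
  (∃ m k : INat M, x = Sum.inr m ∧ y = Sum.inr k ∧ m ≤ k)

/-- The graph of the shift. -/
def shR (x y : ZZ M) : Prop :=
  (x = Sum.inl 0 ∧ y = Sum.inr 0) ∨
  (∃ m : INat M, x = Sum.inl m.succ ∧ y = Sum.inl m) ∨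
  (∃ m : INat M, x = Sum.inr m ∧ y = Sum.inr m.succ)

theorem int_leZ : Int M (fun q : ZZ M × ZZ M => leZ q.1 q.2) := by
  unfold leZ
  (repeat' (first | with_reducible exact IntF.id | with_reducible exact IntF.fst' | with_reducible exact IntF.snd' | with_reducible exact IntF.const _ | with_reducible exact Int.const _ | assumption | with_reducible apply Int.and | with_reducible apply Int.or | with_reducible apply Int.not | with_reducible apply Int.imp | with_reducible apply Int.iff | with_reducible apply Int.ne | with_reducible apply Int.eq | with_reducible apply Int.mem | with_reducible apply Int.subset | with_reducible apply Int.ltN | with_reducible apply Int.leN | with_reducible_and_instances apply Int.le | with_reducible_and_instances apply Int.lt | with_reducible apply Int.all | with_reducible apply Int.ex | with_reducible apply IntF.fst | with_reducible apply IntF.snd | with_reducible apply IntF.app | with_reducible apply IntF.inl | with_reducible apply IntF.inr | with_reducible_and_instances apply IntF.mul | with_reducible_and_instances apply IntF.inv | with_reducible_and_instances apply IntF.add | with_reducible_and_instances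 apply IntF.sub | with_reducible_and_instances apply IntF.neg | with_reducible_and_instances apply IntF.smul | with_reducible apply Int.fin | with_reducible apply IntF.sep | with_reducible apply IntF.lam | with_reducible apply IntF.insert | with_reducible apply IntF.singleton | with_reducible apply IntF.union | with_reducible apply IntF.iimage | with_reducible apply IntF.ite | with_reducible apply IntF.the | with_reducible apply IntF.irec | with_reducible apply IntF.succ | with_reducible apply IntF.val | with_reducible apply IntF.mk | (with_reducible refine Int.comp ?_ ?_; assumption) | (with_reducible refine Int.comp₂ ?_ ?_ ?_; assumption) | (with_reducible refine Int.comp₃ ?_ ?_ ?_ ?_; assumption) | (with_reducible refine Int.comp₄ ?_ ?_ ?_ ?_ ?_; assumption) | (with_reducible refine IntF.comp ?_ ?_; assumption) | (with_reducible refine IntF.comp₂ ?_ ?_ ?_; assumption) | (with_reducible refine IntF.comp₃ ?_ ?_ ?_ ?_; assumption) | with_reducible apply IntF.pair))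

theorem int_shR : Int M (fun q : ZZ M × ZZ M => shR q.1 q.2) := by
  unfold shR
  (repeat' (first | with_reducible exact IntF.id | with_reducible exact IntF.fst' | with_reducible exact IntF.snd' | with_reducible exact IntF.const _ | with_reducible exact Int.const _ | assumption | with_reducible apply Int.and | with_reducible apply Int.or | with_reducible apply Int.not | with_reducible apply Int.imp | with_reducible apply Int.iff | with_reducible apply Int.ne | with_reducible apply Int.eq | with_reducible apply Int.mem | with_reducible apply Int.subset | with_reducible apply Int.ltN | with_reducible apply Int.leN | with_reducible_and_instances apply Int.le | with_reducible_and_instances apply Int.lt | with_reducible apply Int.all | with_reducible apply Int.ex | with_reducible apply IntF.fst | with_reducible apply IntF.snd | with_reducible apply IntF.app | with_reducible apply IntF.inl | with_reducible apply IntF.inr | with_reducible_and_instances apply IntF.mul | with_reducible_and_instances apply IntF.inv | with_reducible_and_instances apply IntF.add | with_reducible_and_instances apply IntF.sub | with_reducible_and_instances apply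 IntF.neg | with_reducible_and_instances apply IntF.smul | with_reducible apply Int.fin | with_reducible apply IntF.sep | with_reducible apply IntF.lam | with_reducible apply IntF.insert | with_reducible apply IntF.singleton | with_reducible apply IntF.union | with_reducible apply IntF.iimage | with_reducible apply IntF.ite | with_reducible apply IntF.the | with_reducible apply IntF.irec | with_reducible apply IntF.succ | with_reducible apply IntF.val | with_reducible apply IntF.mk | (with_reducible refine Int.comp ?_ ?_; assumption) | (with_reducible refine Int.comp₂ ?_ ?_ ?_; assumption) | (with_reducible refine Int.comp₃ ?_ ?_ ?_ ?_; assumption) | (with_reducible refine Int.comp₄ ?_ ?_ ?_ ?_ ?_; assumption) | (with_reducible refine IntF.comp ?_ ?_; assumption) | (with_reducible refine IntF.comp₂ ?_ ?_ ?_; assumption) | (with_reducible refine IntF.comp₃ ?_ ?_ ?_ ?_; assumption) | with_reducible apply IntF.pair))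

@[simp] theorem leZ_ll {m k : INat M} : leZ (Sum.inl m : ZZ M) (Sum.inl k) ↔ k ≤ m := by
  simp [leZ]

@[simp] theorem leZ_lr {m k : INat M} : leZ (Sum.inl m : ZZ M) (Sum.inr k) := by
  simp [leZ]

@[simp] theorem leZ_rl {m k : INat M} : ¬ leZ (Sum.inr m : ZZ M) (Sum.inl k) := by
  simp [leZ]

@[simp] theorem leZ_rr {m k : INat M} : leZ (Sum.inr m : ZZ M) (Sum.inr k) ↔ m ≤ k := by
  simp [leZ]

theorem shR_ex (x : ZZ M) : ∃ y, shR x y := by
  rcases x with m | m
  · rcases INat.eq_zero_or_succ m with rfl | ⟨k, rfl⟩
    · exact ⟨_, Or.inl ⟨rfl, rfl⟩⟩
    · exact ⟨_, Or.inr (Or.inl ⟨k, rfl, rfl⟩)⟩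
  · exact ⟨_, Or.inr (Or.inr ⟨m, rfl, rfl⟩)⟩

theorem shR_ex' (y : ZZ M) : ∃ x, shR x y := by
  rcases y with m | m
  · exact ⟨_, Or.inr (Or.inl ⟨m, rfl, rfl⟩)⟩
  · rcases INat.eq_zero_or_succ m with rfl | ⟨k, rfl⟩
    · exact ⟨_, Or.inl ⟨rfl, rfl⟩⟩
    · exact ⟨_, Or.inr (Or.inr ⟨k, rfl, rfl⟩)⟩

theorem shR_unique {x y y' : ZZ M} (h : shR x y) (h' : shR x y') : y = y' := by
  rcases h with ⟨rfl, rfl⟩ | ⟨m, rfl, rfl⟩ | ⟨m, rfl, rfl⟩ <;>
    rcases h' with ⟨h1, rfl⟩ | ⟨k, h1, rfl⟩ | ⟨k, h1, rfl⟩
  · rfl
  · exact absurd (Sum.inl.inj h1).symm (INat.succ_ne_zero _)
  · cases h1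
  · exact absurd (Sum.inl.inj h1) (INat.succ_ne_zero _)
  · rw [INat.succ_inj (Sum.inl.inj h1)]
  · cases h1
  · cases h1
  · cases h1
  · rw [Sum.inr.inj h1]

theorem shR_unique' {x x' y : ZZ M} (h : shR x y) (h' : shR x' y) : x = x' := by
  rcases h with ⟨rfl, rfl⟩ | ⟨m, rfl, rfl⟩ | ⟨m, rfl, rfl⟩ <;>
    rcases h' with ⟨rfl, h1⟩ | ⟨k, rfl, h1⟩ | ⟨k, rfl, h1⟩
  · rfl
  · cases h1
  · exact absurd (Sum.inr.inj h1).symm (INat.succ_ne_zero _)
  · cases h1
  · rw [Sum.inl.inj h1]
  · cases h1
  · exact absurd (Sum.inr.inj h1) (INat.succ_ne_zero _)
  · cases h1
  · rw [INat.succ_inj (Sum.inr.inj h1)]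

theorem succ_le_succ {m k : INat M} : m.succ ≤ k.succ ↔ m ≤ k := by
  rw [INat.succ_le_iff, INat.lt_succ_iff]

theorem shR_le {x x' y y' : ZZ M} (h : shR x x') (h' : shR y y') : leZ x y ↔ leZ x' y' := by
  rcases h with ⟨rfl, rfl⟩ | ⟨m, rfl, rfl⟩ | ⟨m, rfl, rfl⟩ <;>
    rcases h' with ⟨rfl, rfl⟩ | ⟨k, rfl, rfl⟩ | ⟨k, rfl, rfl⟩ <;>
    simp only [leZ_ll, leZ_lr, leZ_rl, leZ_rr, INat.zero_le, le_refl, iff_self, iff_true, true_iff,
      succ_le_succ, iff_false, false_iff]
  · exact not_le.2 (INat.succ_le_iff.1 (succ_le_succ.2 (INat.zero_le k)))
  · exact not_le.2 (INat.succ_le_iff.1 (succ_le_succ.2 (INat.zero_le m)))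

theorem leZ_refl (x : ZZ M) : leZ x x := by
  rcases x with m | m <;> simp

theorem leZ_total (x y : ZZ M) : leZ x y ∨ leZ y x := by
  rcases x with m | m <;> rcases y with k | k
  · simpa using le_total k m
  · simp
  · simp
  · simpa using le_total m k

theorem leZ_antisymm {x y : ZZ M} (h : leZ x y) (h' : leZ y x) : x = y := by
  rcases x with m | m <;> rcases y with k | k
  · rw [le_antisymm (leZ_ll.1 h') (leZ_ll.1 h)]
  · exact absurd h' leZ_rl
  · exact absurd h leZ_rl
  · rw [le_antisymm (leZ_rr.1 h) (leZ_rr.1 h')]

theorem leZ_trans {x y z : ZZ M} (h : leZ x y) (h' : leZ y z) : leZ x z := by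
  rcases x with m | m <;> rcases y with k | k <;> rcases z with l | l
  · exact leZ_ll.2 ((leZ_ll.1 h').trans (leZ_ll.1 h))
  · exact leZ_lr
  · exact absurd h' leZ_rl
  · exact leZ_lr
  · exact absurd h leZ_rl
  · exact absurd h leZ_rl
  · exact absurd h' leZ_rl
  · exact leZ_rr.2 ((leZ_rr.1 h).trans (leZ_rr.1 h'))

/-- The relation. -/
def RZ (q : INat M × (XI M × XI M)) : Prop := q.2.1.1 = q.1 ∧ q.2.2.1 = q.1 ∧ leZ q.2.1.2 q.2.2.2

theorem int_RZ : Int M (RZ (M := M)) := by
  have h := int_leZ (M := M)
  unfold RZ
  (repeat' (first | with_reducible exact IntF.id | with_reducible exact IntF.fst' | with_reducible exact IntF.snd' | with_reducible exact IntF.const _ | with_reducible exact Int.const _ | assumption | with_reducible apply Int.and | with_reducible apply Int.or | with_reducible apply Int.not | with_reducible apply Int.imp | with_reducible apply Int.iff | with_reducible apply Int.ne | with_reducible apply Int.eq | with_reducible apply Int.mem | with_reducible apply Int.subset | with_reducible apply Int.ltN | with_reducible apply Int.leN | with_reducible_and_instances apply Int.le | with_reducible_and_instances apply Int.lt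 | with_reducible apply Int.all | with_reducible apply Int.ex | with_reducible apply IntF.fst | with_reducible apply IntF.snd | with_reducible apply IntF.app | with_reducible apply IntF.inl | with_reducible apply IntF.inr | with_reducible_and_instances apply IntF.mul | with_reducible_and_instances apply IntF.inv | with_reducible_and_instances apply IntF.add | with_reducible_and_instances apply IntF.sub | with_reducible_and_instances apply IntF.neg | with_reducible_and_instances apply IntF.smul | with_reducible apply Int.fin | with_reducible apply IntF.sep | with_reducible apply IntF.lam | with_reducible apply IntF.insert | with_reducible apply IntF.singleton | with_reducible apply IntF.union | with_reducible apply IntF.iimage | with_reducible apply IntF.ite | with_reducible apply IntF.the | with_reducible apply IntF.irec | with_reducible apply IntF.succ | with_reducible apply IntF.val | with_reducible apply IntF.mk | (with_reducible refine Int.comp ?_ ?_; assumption) | (with_reducible refine Int.comp₂ ?_ ?_ ?_; assumption) | (with_reducible refine Int.comp₃ ?_ ?_ ?_ ?_; assumption) | (with_reducible refine Int.comp₄ ?_ ?_ ?_ ?_ ?_;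 assumption) | (with_reducible refine IntF.comp ?_ ?_; assumption) | (with_reducible refine IntF.comp₂ ?_ ?_ ?_; assumption) | (with_reducible refine IntF.comp₃ ?_ ?_ ?_ ?_; assumption) | with_reducible apply IntF.pair))

variable (M) in
/-- The automorphisms. -/
def HZ : Subgroup (IPerm M (XI M)) where
  carrier := {g | (∀ n x y, RZ (n, (x, y)) ↔ RZ (n, (g.1.1 x, g.1.1 y))) ∧
    ∀ x y : XI M, x.1 = y.1 → (shR x.2 y.2 ↔ shR (g.1.1 x).2 (g.1.1 y).2)}
  mul_mem' {a b} ha hb := by
    have hf : ∀ g : IPerm M (XI M), (∀ n x y, RZ (n, (x, y)) ↔ RZ (n, (g.1.1 x, g.1.1 y))) →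
        ∀ x, (g.1.1 x).1 = x.1 := fun g hg x => ((hg x.1 x x).1 ⟨rfl, rfl, leZ_refl _⟩).1
    refine ⟨fun n x y => ?_, fun x y hxy => ?_⟩
    · rw [hb.1 n x y, ha.1 n (b.1.1 x) (b.1.1 y), IPerm.mul_apply, IPerm.mul_apply]
    · rw [hb.2 x y hxy, ha.2 (b.1.1 x) (b.1.1 y) (by rw [hf b hb.1, hf b hb.1, hxy]),
        IPerm.mul_apply, IPerm.mul_apply]
  one_mem' := ⟨fun n x y => by rw [IPerm.one_apply, IPerm.one_apply],
    fun x y _ => by rw [IPerm.one_apply, IPerm.one_apply]⟩
  inv_mem' {a} ha := by
    have e1 : ∀ x, a.1.1 (a.1.2 x) = x := a.2.1
    have h1 : ∀ n x y, RZ (n, (x, y)) ↔ RZ (n, (a.1.2 x, a.1.2 y)) := by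
      intro n x y
      rw [ha.1 n (a.1.2 x), e1, e1]
    refine ⟨h1, fun x y hxy => ?_⟩
    change _ ↔ shR (a.1.2 x).2 (a.1.2 y).2
    have h2 : ∀ x, (a.1.2 x).1 = x.1 := fun x => ((h1 x.1 x x).1 ⟨rfl, rfl, leZ_refl _⟩).1
    rw [ha.2 (a.1.2 x) (a.1.2 y) (by rw [h2, h2, hxy]), e1, e1]

variable (M) in
/-- The group of the automorphisms. -/
def GZ : PGr M (XI M) where
  H := HZ M
  int := by
    have h := int_RZ (M := M)
    have h' := int_shR (M := M)
    change Int M (fun g : IPerm M (XI M) =>
      (∀ n x y, RZ (n, (x, y)) ↔ RZ (n, (g.1.1 x, g.1.1 y))) ∧
      ∀ x y : XI M, x.1 = y.1 → (shR x.2 y.2 ↔ shR (g.1.1 x).2 (g.1.1 y).2))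
    (repeat' (first | with_reducible exact IntF.id | with_reducible exact IntF.fst' | with_reducible exact IntF.snd' | with_reducible exact IntF.const _ | with_reducible exact Int.const _ | assumption | with_reducible apply Int.and | with_reducible apply Int.or | with_reducible apply Int.not | with_reducible apply Int.imp | with_reducible apply Int.iff | with_reducible apply Int.ne | with_reducible apply Int.eq | with_reducible apply Int.mem | with_reducible apply Int.subset | with_reducible apply Int.ltN | with_reducible apply Int.leN | with_reducible_and_instances apply Int.le | with_reducible_and_instances apply Int.lt | with_reducible apply Int.all | with_reducible apply Int.ex | with_reducible apply IntF.fst | with_reducible apply IntF.snd | with_reducible apply IntF.app | with_reducible apply IntF.inl | with_reducible apply IntF.inr | with_reducible_and_instances apply IntF.mul | with_reducible_and_instances apply IntF.inv | with_reducible_and_instances apply IntF.add | with_reducible_and_instances apply IntF.sub | with_reducible_and_instances apply IntF.neg | with_reducible_and_instances apply IntF.smul | with_reducible apply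 Int.fin | with_reducible apply IntF.sep | with_reducible apply IntF.lam | with_reducible apply IntF.insert | with_reducible apply IntF.singleton | with_reducible apply IntF.union | with_reducible apply IntF.iimage | with_reducible apply IntF.ite | with_reducible apply IntF.the | with_reducible apply IntF.irec | with_reducible apply IntF.succ | with_reducible apply IntF.val | with_reducible apply IntF.mk | (with_reducible refine Int.comp ?_ ?_; assumption) | (with_reducible refine Int.comp₂ ?_ ?_ ?_; assumption) | (with_reducible refine Int.comp₃ ?_ ?_ ?_ ?_; assumption) | (with_reducible refine Int.comp₄ ?_ ?_ ?_ ?_ ?_; assumption) | (with_reducible refine IntF.comp ?_ ?_; assumption) | (with_reducible refine IntF.comp₂ ?_ ?_ ?_; assumption) | (with_reducible refine IntF.comp₃ ?_ ?_ ?_ ?_; assumption) | with_reducible apply IntF.pair))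

theorem mem_GZ {g : IPerm M (XI M)} : g ∈ (GZ M).H ↔
    (∀ n x y, RZ (n, (x, y)) ↔ RZ (n, (g.1.1 x, g.1.1 y))) ∧
      ∀ x y : XI M, x.1 = y.1 → (shR x.2 y.2 ↔ shR (g.1.1 x).2 (g.1.1 y).2) := Iff.rfl

theorem fst_of_mem {g : IPerm M (XI M)} (hg : g ∈ (GZ M).H) (x : XI M) : (g.1.1 x).1 = x.1 :=
  ((hg.1 x.1 x x).1 ⟨rfl, rfl, leZ_refl _⟩).1

/-- The shift of one copy. -/
theorem exists_sh (n : INat M) : ∃ g ∈ (GZ M).H, (∀ x, x.1 ≠ n → g.1.1 x = x) ∧
    ∀ x y, shR x y → g.1.1 (n, x) = (n, y) := by
  classical
  choose s hs using shR_ex (M := M)
  choose s' hs' using shR_ex' (M := M)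
  have hI := int_shR (M := M)
  have hsi : IntF M s := IntF.of_unique (p := fun x y => shR x y) (by (repeat' (first | with_reducible exact IntF.id | with_reducible exact IntF.fst' | with_reducible exact IntF.snd' | with_reducible exact IntF.const _ | with_reducible exact Int.const _ | assumption | with_reducible apply Int.and | with_reducible apply Int.or | with_reducible apply Int.not | with_reducible apply Int.imp | with_reducible apply Int.iff | with_reducible apply Int.ne | with_reducible apply Int.eq | with_reducible apply Int.mem | with_reducible apply Int.subset | with_reducible apply Int.ltN | with_reducible apply Int.leN | with_reducible_and_instances apply Int.le | with_reducible_and_instances apply Int.lt | with_reducible apply Int.all | with_reducible apply Int.ex | with_reducible apply IntF.fst | with_reducible apply IntF.snd | with_reducible apply IntF.app | with_reducible apply IntF.inl | with_reducible apply IntF.inr | with_reducible_and_instances apply IntF.mul | with_reducible_and_instances apply IntF.inv | with_reducible_and_instances apply IntF.add | with_reducible_and_instances apply IntF.sub | with_reducible_and_instances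 apply IntF.neg | with_reducible_and_instances apply IntF.smul | with_reducible apply Int.fin | with_reducible apply IntF.sep | with_reducible apply IntF.lam | with_reducible apply IntF.insert | with_reducible apply IntF.singleton | with_reducible apply IntF.union | with_reducible apply IntF.iimage | with_reducible apply IntF.ite | with_reducible apply IntF.the | with_reducible apply IntF.irec | with_reducible apply IntF.succ | with_reducible apply IntF.val | with_reducible apply IntF.mk | (with_reducible refine Int.comp ?_ ?_; assumption) | (with_reducible refine Int.comp₂ ?_ ?_ ?_; assumption) | (with_reducible refine Int.comp₃ ?_ ?_ ?_ ?_; assumption) | (with_reducible refine Int.comp₄ ?_ ?_ ?_ ?_ ?_; assumption) | (with_reducible refine IntF.comp ?_ ?_; assumption) | (with_reducible refine IntF.comp₂ ?_ ?_ ?_; assumption) | (with_reducible refine IntF.comp₃ ?_ ?_ ?_ ?_; assumption) | with_reducible apply IntF.pair))) hs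
    fun _ _ _ => shR_unique
  have hsi' : IntF M s' := IntF.of_unique (p := fun x y => shR y x) (by (repeat' (first | with_reducible exact IntF.id | with_reducible exact IntF.fst' | with_reducible exact IntF.snd' | with_reducible exact IntF.const _ | with_reducible exact Int.const _ | assumption | with_reducible apply Int.and | with_reducible apply Int.or | with_reducible apply Int.not | with_reducible apply Int.imp | with_reducible apply Int.iff | with_reducible apply Int.ne | with_reducible apply Int.eq | with_reducible apply Int.mem | with_reducible apply Int.subset | with_reducible apply Int.ltN | with_reducible apply Int.leN | with_reducible_and_instances apply Int.le | with_reducible_and_instances apply Int.lt | with_reducible apply Int.all | with_reducible apply Int.ex | with_reducible apply IntF.fst | with_reducible apply IntF.snd | with_reducible apply IntF.app | with_reducible apply IntF.inl | with_reducible apply IntF.inr | with_reducible_and_instances apply IntF.mul | with_reducible_and_instances apply IntF.inv | with_reducible_and_instances apply IntF.add | with_reducible_and_instances apply IntF.sub | with_reducible_and_instances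 apply IntF.neg | with_reducible_and_instances apply IntF.smul | with_reducible apply Int.fin | with_reducible apply IntF.sep | with_reducible apply IntF.lam | with_reducible apply IntF.insert | with_reducible apply IntF.singleton | with_reducible apply IntF.union | with_reducible apply IntF.iimage | with_reducible apply IntF.ite | with_reducible apply IntF.the | with_reducible apply IntF.irec | with_reducible apply IntF.succ | with_reducible apply IntF.val | with_reducible apply IntF.mk | (with_reducible refine Int.comp ?_ ?_; assumption) | (with_reducible refine Int.comp₂ ?_ ?_ ?_; assumption) | (with_reducible refine Int.comp₃ ?_ ?_ ?_ ?_; assumption) | (with_reducible refine Int.comp₄ ?_ ?_ ?_ ?_ ?_; assumption) | (with_reducible refine IntF.comp ?_ ?_; assumption) | (with_reducible refine IntF.comp₂ ?_ ?_ ?_; assumption) | (with_reducible refine IntF.comp₃ ?_ ?_ ?_ ?_; assumption) | with_reducible apply IntF.pair))) hs'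
    fun _ _ _ h h' => shR_unique' h h'
  have e1 : ∀ x, s (s' x) = x := fun x => shR_unique (hs _) (hs' _)
  have e2 : ∀ x, s' (s x) = x := fun x => shR_unique' (hs' _) (hs _)
  have hf : IntF M (fun x : XI M => if x.1 = n then (x.1, s x.2) else x) := by (repeat' (first | with_reducible exact IntF.id | with_reducible exact IntF.fst' | with_reducible exact IntF.snd' | with_reducible exact IntF.const _ | with_reducible exact Int.const _ | assumption | with_reducible apply Int.and | with_reducible apply Int.or | with_reducible apply Int.not | with_reducible apply Int.imp | with_reducible apply Int.iff | with_reducible apply Int.ne | with_reducible apply Int.eq | with_reducible apply Int.mem | with_reducible apply Int.subset | with_reducible apply Int.ltN | with_reducible apply Int.leN | with_reducible_and_instances apply Int.le | with_reducible_and_instances apply Int.lt | with_reducible apply Int.all | with_reducible apply Int.ex | with_reducible apply IntF.fst | with_reducible apply IntF.snd | with_reducible apply IntF.app | with_reducible apply IntF.inl | with_reducible apply IntF.inr | with_reducible_and_instances apply IntF.mul |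 with_reducible_and_instances apply IntF.inv | with_reducible_and_instances apply IntF.add | with_reducible_and_instances apply IntF.sub | with_reducible_and_instances apply IntF.neg | with_reducible_and_instances apply IntF.smul | with_reducible apply Int.fin | with_reducible apply IntF.sep | with_reducible apply IntF.lam | with_reducible apply IntF.insert | with_reducible apply IntF.singleton | with_reducible apply IntF.union | with_reducible apply IntF.iimage | with_reducible apply IntF.ite | with_reducible apply IntF.the | with_reducible apply IntF.irec | with_reducible apply IntF.succ | with_reducible apply IntF.val | with_reducible apply IntF.mk | (with_reducible refine Int.comp ?_ ?_; assumption) | (with_reducible refine Int.comp₂ ?_ ?_ ?_; assumption) | (with_reducible refine Int.comp₃ ?_ ?_ ?_ ?_; assumption) | (with_reducible refine Int.comp₄ ?_ ?_ ?_ ?_ ?_; assumption) | (with_reducible refine IntF.comp ?_ ?_; assumption) | (with_reducible refine IntF.comp₂ ?_ ?_ ?_; assumption) | (with_reducible refine IntF.comp₃ ?_ ?_ ?_ ?_; assumption) | with_reducible apply IntF.pair))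
  have hf' : IntF M (fun x : XI M => if x.1 = n then (x.1, s' x.2) else x) := by (repeat' (first | with_reducible exact IntF.id | with_reducible exact IntF.fst' | with_reducible exact IntF.snd' | with_reducible exact IntF.const _ | with_reducible exact Int.const _ | assumption | with_reducible apply Int.and | with_reducible apply Int.or | with_reducible apply Int.not | with_reducible apply Int.imp | with_reducible apply Int.iff | with_reducible apply Int.ne | with_reducible apply Int.eq | with_reducible apply Int.mem | with_reducible apply Int.subset | with_reducible apply Int.ltN | with_reducible apply Int.leN | with_reducible_and_instances apply Int.le | with_reducible_and_instances apply Int.lt | with_reducible apply Int.all | with_reducible apply Int.ex | with_reducible apply IntF.fst | with_reducible apply IntF.snd | with_reducible apply IntF.app | with_reducible apply IntF.inl | with_reducible apply IntF.inr | with_reducible_and_instances apply IntF.mul | with_reducible_and_instances apply IntF.inv | with_reducible_and_instances apply IntF.add | with_reducible_and_instances apply IntF.sub | with_reducible_and_instances apply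 IntF.neg | with_reducible_and_instances apply IntF.smul | with_reducible apply Int.fin | with_reducible apply IntF.sep | with_reducible apply IntF.lam | with_reducible apply IntF.insert | with_reducible apply IntF.singleton | with_reducible apply IntF.union | with_reducible apply IntF.iimage | with_reducible apply IntF.ite | with_reducible apply IntF.the | with_reducible apply IntF.irec | with_reducible apply IntF.succ | with_reducible apply IntF.val | with_reducible apply IntF.mk | (with_reducible refine Int.comp ?_ ?_; assumption) | (with_reducible refine Int.comp₂ ?_ ?_ ?_; assumption) | (with_reducible refine Int.comp₃ ?_ ?_ ?_ ?_; assumption) | (with_reducible refine Int.comp₄ ?_ ?_ ?_ ?_ ?_; assumption) | (with_reducible refine IntF.comp ?_ ?_; assumption) | (with_reducible refine IntF.comp₂ ?_ ?_ ?_; assumption) | (with_reducible refine IntF.comp₃ ?_ ?_ ?_ ?_; assumption) | with_reducible apply IntF.pair))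
  refine ⟨⟨(⟨_, hf⟩, ⟨_, hf'⟩), fun x => ?_, fun x => ?_⟩, ⟨fun m x y => ?_, fun x y hxy => ?_⟩,
    fun x hx => if_neg hx, fun x y hxy => ?_⟩
  · change (if (if x.1 = n then (x.1, s' x.2) else x).1 = n then
      ((if x.1 = n then (x.1, s' x.2) else x).1, s (if x.1 = n then (x.1, s' x.2) else x).2)
      else (if x.1 = n then (x.1, s' x.2) else x)) = x
    by_cases h : x.1 = n
    · simp only [if_pos h, e1]
    · simp only [if_neg h]
  · change (if (if x.1 = n then (x.1, s x.2) else x).1 = n then
      ((if x.1 = n then (x.1, s x.2) else x).1, s' (if x.1 = n then (x.1, s x.2) else x).2)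
      else (if x.1 = n then (x.1, s x.2) else x)) = x
    by_cases h : x.1 = n
    · simp only [if_pos h, e2]
    · simp only [if_neg h]
  · change RZ (m, (x, y)) ↔ RZ (m, ((if x.1 = n then (x.1, s x.2) else x),
      (if y.1 = n then (y.1, s y.2) else y)))
    by_cases hx : x.1 = n <;> by_cases hy : y.1 = n
    · rw [if_pos hx, if_pos hy]
      exact and_congr_right fun _ => and_congr_right fun _ => shR_le (hs _) (hs _)
    · rw [if_pos hx, if_neg hy]
      exact ⟨fun h => absurd (h.2.1.trans (h.1.symm.trans hx)) hy,
        fun h => absurd (h.2.1.trans (h.1.symm.trans hx)) hy⟩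
    · rw [if_neg hx, if_pos hy]
      exact ⟨fun h => absurd (h.1.trans (h.2.1.symm.trans hy)) hx,
        fun h => absurd (h.1.trans (h.2.1.symm.trans hy)) hx⟩
    · rw [if_neg hx, if_neg hy]
  · change shR x.2 y.2 ↔ shR (if x.1 = n then (x.1, s x.2) else x).2
      (if y.1 = n then (y.1, s y.2) else y).2
    by_cases hx : x.1 = n
    · have hy : y.1 = n := hxy.symm.trans hx
      rw [if_pos hx, if_pos hy]
      constructor
      · intro h
        have h1 : s x.2 = y.2 := shR_unique (hs _) h
        change shR (s x.2) (s y.2)
        rw [h1]
        exact hs _
      · intro h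
        have h1 : s (s x.2) = s y.2 := shR_unique (hs _) h
        have h2 : s x.2 = y.2 := by rw [← e2 (s x.2), h1, e2]
        rw [← h2]
        exact hs _
    · have hy : ¬ y.1 = n := fun h => hx (hxy.trans h)
      rw [if_neg hx, if_neg hy]
  · change (if n = n then (n, s x) else (n, x)) = (n, y)
    rw [if_pos rfl, shR_unique (hs x) hxy]

/-- Transitivity. -/
theorem exists_tr (n : INat M) (z : ZZ M) : ∃ g ∈ (GZ M).H, (∀ x, x.1 ≠ n → g.1.1 x = x) ∧
    g.1.1 (n, Sum.inr 0) = (n, z) := by
  have hI := (GZ M).int
  obtain ⟨s, hs, hs1, hs2⟩ := exists_sh (M := M) n
  rcases z with m | m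
  · refine INat.ind (p := fun m => ∃ g, g ∈ (GZ M).H ∧ (∀ x, x.1 ≠ n → g.1.1 x = x) ∧
      g.1.1 (n, Sum.inr 0) = (n, Sum.inl m)) (by (repeat' (first | with_reducible exact IntF.id | with_reducible exact IntF.fst' | with_reducible exact IntF.snd' | with_reducible exact IntF.const _ | with_reducible exact Int.const _ | assumption | with_reducible apply Int.and | with_reducible apply Int.or | with_reducible apply Int.not | with_reducible apply Int.imp | with_reducible apply Int.iff | with_reducible apply Int.ne | with_reducible apply Int.eq | with_reducible apply Int.mem | with_reducible apply Int.subset | with_reducible apply Int.ltN | with_reducible apply Int.leN | with_reducible_and_instances apply Int.le | with_reducible_and_instances apply Int.lt | with_reducible apply Int.all | with_reducible apply Int.ex | with_reducible apply IntF.fst | with_reducible apply IntF.snd | with_reducible apply IntF.app | with_reducible apply IntF.inl | with_reducible apply IntF.inr | with_reducible_and_instances apply IntF.mul | with_reducible_and_instances apply IntF.inv | with_reducible_and_instances apply IntF.add | with_reducible_and_instances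 apply IntF.sub | with_reducible_and_instances apply IntF.neg | with_reducible_and_instances apply IntF.smul | with_reducible apply Int.fin | with_reducible apply IntF.sep | with_reducible apply IntF.lam | with_reducible apply IntF.insert | with_reducible apply IntF.singleton | with_reducible apply IntF.union | with_reducible apply IntF.iimage | with_reducible apply IntF.ite | with_reducible apply IntF.the | with_reducible apply IntF.irec | with_reducible apply IntF.succ | with_reducible apply IntF.val | with_reducible apply IntF.mk | (with_reducible refine Int.comp ?_ ?_; assumption) | (with_reducible refine Int.comp₂ ?_ ?_ ?_; assumption) | (with_reducible refine Int.comp₃ ?_ ?_ ?_ ?_; assumption) | (with_reducible refine Int.comp₄ ?_ ?_ ?_ ?_ ?_; assumption) | (with_reducible refine IntF.comp ?_ ?_; assumption) | (with_reducible refine IntF.comp₂ ?_ ?_ ?_; assumption) | (with_reducible refine IntF.comp₃ ?_ ?_ ?_ ?_; assumption) | with_reducible apply IntF.pair))) ?_ ?_ m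
    · refine ⟨s⁻¹, (GZ M).H.inv_mem hs, fun x hx => ?_, ?_⟩
      · rw [IPerm.inv_apply]
        conv_lhs => rw [← hs1 x hx]
        exact s.2.2 x
      · rw [IPerm.inv_apply, ← hs2 (Sum.inl 0) (Sum.inr 0) (Or.inl ⟨rfl, rfl⟩)]
        exact s.2.2 _
    · rintro m ⟨g, hg, h1, h2⟩
      refine ⟨s⁻¹ * g, (GZ M).H.mul_mem ((GZ M).H.inv_mem hs) hg, fun x hx => ?_, ?_⟩
      · rw [IPerm.mul_apply, h1 x hx, IPerm.inv_apply]
        conv_lhs => rw [← hs1 x hx]
        exact s.2.2 x
      · rw [IPerm.mul_apply, h2, IPerm.inv_apply,
          ← hs2 (Sum.inl m.succ) (Sum.inl m) (Or.inr (Or.inl ⟨m, rfl, rfl⟩))]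
        exact s.2.2 _
  · refine INat.ind (p := fun m => ∃ g, g ∈ (GZ M).H ∧ (∀ x, x.1 ≠ n → g.1.1 x = x) ∧
      g.1.1 (n, Sum.inr 0) = (n, Sum.inr m)) (by (repeat' (first | with_reducible exact IntF.id | with_reducible exact IntF.fst' | with_reducible exact IntF.snd' | with_reducible exact IntF.const _ | with_reducible exact Int.const _ | assumption | with_reducible apply Int.and | with_reducible apply Int.or | with_reducible apply Int.not | with_reducible apply Int.imp | with_reducible apply Int.iff | with_reducible apply Int.ne | with_reducible apply Int.eq | with_reducible apply Int.mem | with_reducible apply Int.subset | with_reducible apply Int.ltN | with_reducible apply Int.leN | with_reducible_and_instances apply Int.le | with_reducible_and_instances apply Int.lt | with_reducible apply Int.all | with_reducible apply Int.ex | with_reducible apply IntF.fst | with_reducible apply IntF.snd | with_reducible apply IntF.app | with_reducible apply IntF.inl | with_reducible apply IntF.inr | with_reducible_and_instances apply IntF.mul | with_reducible_and_instances apply IntF.inv | with_reducible_and_instances apply IntF.add | with_reducible_and_instances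 apply IntF.sub | with_reducible_and_instances apply IntF.neg | with_reducible_and_instances apply IntF.smul | with_reducible apply Int.fin | with_reducible apply IntF.sep | with_reducible apply IntF.lam | with_reducible apply IntF.insert | with_reducible apply IntF.singleton | with_reducible apply IntF.union | with_reducible apply IntF.iimage | with_reducible apply IntF.ite | with_reducible apply IntF.the | with_reducible apply IntF.irec | with_reducible apply IntF.succ | with_reducible apply IntF.val | with_reducible apply IntF.mk | (with_reducible refine Int.comp ?_ ?_; assumption) | (with_reducible refine Int.comp₂ ?_ ?_ ?_; assumption) | (with_reducible refine Int.comp₃ ?_ ?_ ?_ ?_; assumption) | (with_reducible refine Int.comp₄ ?_ ?_ ?_ ?_ ?_; assumption) | (with_reducible refine IntF.comp ?_ ?_; assumption) | (with_reducible refine IntF.comp₂ ?_ ?_ ?_; assumption) | (with_reducible refine IntF.comp₃ ?_ ?_ ?_ ?_; assumption) | with_reducible apply IntF.pair))) ?_ ?_ m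
    · refine ⟨1, (GZ M).H.one_mem, fun x hx => IPerm.one_apply x, IPerm.one_apply _⟩
    · rintro m ⟨g, hg, h1, h2⟩
      refine ⟨s * g, (GZ M).H.mul_mem hs hg, fun x hx => ?_, ?_⟩
      · rw [IPerm.mul_apply, h1 x hx, hs1 x hx]
      · rw [IPerm.mul_apply, h2, hs2 _ _ (Or.inr (Or.inr ⟨m, rfl, rfl⟩))]

theorem exists_tr' {n : INat M} {x y : XI M} (hx : x.1 = n) (hy : y.1 = n) :
    ∃ g ∈ (GZ M).H, (∀ z, z.1 ≠ n → g.1.1 z = z) ∧ g.1.1 x = y := by
  obtain ⟨g, hg, h1, h2⟩ := exists_tr n x.2
  obtain ⟨g', hg', h1', h2'⟩ := exists_tr n y.2
  have hx' : x = (n, x.2) := Prod.ext hx rfl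
  have hy' : y = (n, y.2) := Prod.ext hy rfl
  refine ⟨g' * g⁻¹, (GZ M).H.mul_mem hg' ((GZ M).H.inv_mem hg), fun z hz => ?_, ?_⟩
  · rw [IPerm.mul_apply, IPerm.inv_apply]
    have h3 : g.1.2 z = z := by
      conv_lhs => rw [← h1 z hz]
      exact g.2.2 z
    rw [h3, h1' z hz]
  · rw [IPerm.mul_apply, IPerm.inv_apply]
    have h3 : g.1.2 x = (n, Sum.inr 0) := by
      rw [hx', ← h2]
      exact g.2.2 _
    rw [h3, h2', ← hy']

/-- Rigidity. -/
theorem fix_copy {n : INat M} {g : IPerm M (XI M)} (hg : g ∈ (GZ M).H)
    (h : g.1.1 (n, Sum.inr 0) = (n, Sum.inr 0)) (z : ZZ M) : g.1.1 (n, z) = (n, z) := by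
  have hfst := fst_of_mem hg
  have key : ∀ x y : ZZ M, shR x y → ((g.1.1 (n, x) = (n, x)) ↔ g.1.1 (n, y) = (n, y)) := by
    intro x y hxy
    have h1 : shR (g.1.1 (n, x)).2 (g.1.1 (n, y)).2 := (hg.2 (n, x) (n, y) rfl).1 hxy
    constructor
    · intro h2
      rw [h2] at h1
      exact Prod.ext (hfst _) (shR_unique h1 hxy)
    · intro h2
      rw [h2] at h1
      exact Prod.ext (hfst _) (shR_unique' h1 hxy)
  rcases z with m | m
  · refine INat.ind (p := fun m : INat M => g.1.1 (n, Sum.inl m) = (n, Sum.inl m)) (by (repeat' (first | with_reducible exact IntF.id | with_reducible exact IntF.fst' | with_reducible exact IntF.snd' | with_reducible exact IntF.const _ | with_reducible exact Int.const _ | assumption | with_reducible apply Int.and | with_reducible apply Int.or | with_reducible apply Int.not | with_reducible apply Int.imp | with_reducible apply Int.iff | with_reducible apply Int.ne | with_reducible apply Int.eq | with_reducible apply Int.mem | with_reducible apply Int.subset | with_reducible apply Int.ltN | with_reducible apply Int.leN | with_reducible_and_instances apply Int.le | with_reducible_and_instances apply Int.lt |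 with_reducible apply Int.all | with_reducible apply Int.ex | with_reducible apply IntF.fst | with_reducible apply IntF.snd | with_reducible apply IntF.app | with_reducible apply IntF.inl | with_reducible apply IntF.inr | with_reducible_and_instances apply IntF.mul | with_reducible_and_instances apply IntF.inv | with_reducible_and_instances apply IntF.add | with_reducible_and_instances apply IntF.sub | with_reducible_and_instances apply IntF.neg | with_reducible_and_instances apply IntF.smul | with_reducible apply Int.fin | with_reducible apply IntF.sep | with_reducible apply IntF.lam | with_reducible apply IntF.insert | with_reducible apply IntF.singleton | with_reducible apply IntF.union | with_reducible apply IntF.iimage | with_reducible apply IntF.ite | with_reducible apply IntF.the | with_reducible apply IntF.irec | with_reducible apply IntF.succ | with_reducible apply IntF.val | with_reducible apply IntF.mk | (with_reducible refine Int.comp ?_ ?_; assumption) | (with_reducible refine Int.comp₂ ?_ ?_ ?_; assumption) | (with_reducible refine Int.comp₃ ?_ ?_ ?_ ?_; assumption) | (with_reducible refine Int.comp₄ ?_ ?_ ?_ ?_ ?_; assumption)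 | (with_reducible refine IntF.comp ?_ ?_; assumption) | (with_reducible refine IntF.comp₂ ?_ ?_ ?_; assumption) | (with_reducible refine IntF.comp₃ ?_ ?_ ?_ ?_; assumption) | with_reducible apply IntF.pair))) ?_ ?_ m
    · exact (key _ _ (Or.inl ⟨rfl, rfl⟩)).2 h
    · intro m hm
      exact (key _ _ (Or.inr (Or.inl ⟨m, rfl, rfl⟩))).2 hm
  · refine INat.ind (p := fun m : INat M => g.1.1 (n, Sum.inr m) = (n, Sum.inr m)) (by (repeat' (first | with_reducible exact IntF.id | with_reducible exact IntF.fst' | with_reducible exact IntF.snd' | with_reducible exact IntF.const _ | with_reducible exact Int.const _ | assumption | with_reducible apply Int.and | with_reducible apply Int.or | with_reducible apply Int.not | with_reducible apply Int.imp | with_reducible apply Int.iff | with_reducible apply Int.ne | with_reducible apply Int.eq | with_reducible apply Int.mem | with_reducible apply Int.subset | with_reducible apply Int.ltN | with_reducible apply Int.leN | with_reducible_and_instances apply Int.le | with_reducible_and_instances apply Int.lt | with_reducible apply Int.all | with_reducible apply Int.ex | with_reducible apply IntF.fst | with_reducible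 apply IntF.snd | with_reducible apply IntF.app | with_reducible apply IntF.inl | with_reducible apply IntF.inr | with_reducible_and_instances apply IntF.mul | with_reducible_and_instances apply IntF.inv | with_reducible_and_instances apply IntF.add | with_reducible_and_instances apply IntF.sub | with_reducible_and_instances apply IntF.neg | with_reducible_and_instances apply IntF.smul | with_reducible apply Int.fin | with_reducible apply IntF.sep | with_reducible apply IntF.lam | with_reducible apply IntF.insert | with_reducible apply IntF.singleton | with_reducible apply IntF.union | with_reducible apply IntF.iimage | with_reducible apply IntF.ite | with_reducible apply IntF.the | with_reducible apply IntF.irec | with_reducible apply IntF.succ | with_reducible apply IntF.val | with_reducible apply IntF.mk | (with_reducible refine Int.comp ?_ ?_; assumption) | (with_reducible refine Int.comp₂ ?_ ?_ ?_; assumption) | (with_reducible refine Int.comp₃ ?_ ?_ ?_ ?_; assumption) | (with_reducible refine Int.comp₄ ?_ ?_ ?_ ?_ ?_; assumption) | (with_reducible refine IntF.comp ?_ ?_; assumption) | (with_reducible refine IntF.comp₂ ?_ ?_ ?_;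 assumption) | (with_reducible refine IntF.comp₃ ?_ ?_ ?_ ?_; assumption) | with_reducible apply IntF.pair))) h ?_ m
    intro m hm
    exact (key _ _ (Or.inr (Or.inr ⟨m, rfl, rfl⟩))).1 hm

/-- Intervals are finite. -/
theorem fin_int (n : INat M) (x y : XI M) :
    FinP M (fun z : XI M => RZ (n, (x, z)) ∧ RZ (n, (z, y))) := by
  have hl : ∀ m : INat M, FinP M (fun z : XI M => ∃ k, k ≤ m ∧ z = (n, Sum.inl k)) := fun m =>
    ((finP_le m).image (f := fun k => ((n, Sum.inl k) : XI M)) (by (repeat' (first | with_reducible exact IntF.id | with_reducible exact IntF.fst' | with_reducible exact IntF.snd' | with_reducible exact IntF.const _ | with_reducible exact Int.const _ | assumption | with_reducible apply Int.and | with_reducible apply Int.or | with_reducible apply Int.not | with_reducible apply Int.imp | with_reducible apply Int.iff | with_reducible apply Int.ne | with_reducible apply Int.eq | with_reducible apply Int.mem | with_reducible apply Int.subset | with_reducible apply Int.ltN | with_reducible apply Int.leN | with_reducible_and_instances apply Int.le | with_reducible_and_instances apply Int.lt | with_reducible apply Int.all |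 with_reducible apply Int.ex | with_reducible apply IntF.fst | with_reducible apply IntF.snd | with_reducible apply IntF.app | with_reducible apply IntF.inl | with_reducible apply IntF.inr | with_reducible_and_instances apply IntF.mul | with_reducible_and_instances apply IntF.inv | with_reducible_and_instances apply IntF.add | with_reducible_and_instances apply IntF.sub | with_reducible_and_instances apply IntF.neg | with_reducible_and_instances apply IntF.smul | with_reducible apply Int.fin | with_reducible apply IntF.sep | with_reducible apply IntF.lam | with_reducible apply IntF.insert | with_reducible apply IntF.singleton | with_reducible apply IntF.union | with_reducible apply IntF.iimage | with_reducible apply IntF.ite | with_reducible apply IntF.the | with_reducible apply IntF.irec | with_reducible apply IntF.succ | with_reducible apply IntF.val | with_reducible apply IntF.mk | (with_reducible refine Int.comp ?_ ?_; assumption) | (with_reducible refine Int.comp₂ ?_ ?_ ?_; assumption) | (with_reducible refine Int.comp₃ ?_ ?_ ?_ ?_; assumption) | (with_reducible refine Int.comp₄ ?_ ?_ ?_ ?_ ?_; assumption) | (with_reducible refine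 IntF.comp ?_ ?_; assumption) | (with_reducible refine IntF.comp₂ ?_ ?_ ?_; assumption) | (with_reducible refine IntF.comp₃ ?_ ?_ ?_ ?_; assumption) | with_reducible apply IntF.pair)))).mono
      fun z ⟨k, h1, h2⟩ => ⟨k, h1, h2.symm⟩
  have hr : ∀ m : INat M, FinP M (fun z : XI M => ∃ k, k ≤ m ∧ z = (n, Sum.inr k)) := fun m =>
    ((finP_le m).image (f := fun k => ((n, Sum.inr k) : XI M)) (by (repeat' (first | with_reducible exact IntF.id | with_reducible exact IntF.fst' | with_reducible exact IntF.snd' | with_reducible exact IntF.const _ | with_reducible exact Int.const _ | assumption | with_reducible apply Int.and | with_reducible apply Int.or | with_reducible apply Int.not | with_reducible apply Int.imp | with_reducible apply Int.iff | with_reducible apply Int.ne | with_reducible apply Int.eq | with_reducible apply Int.mem | with_reducible apply Int.subset | with_reducible apply Int.ltN | with_reducible apply Int.leN | with_reducible_and_instances apply Int.le | with_reducible_and_instances apply Int.lt | with_reducible apply Int.all | with_reducible apply Int.ex | with_reducible apply IntF.fst | with_reducible apply IntF.snd |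 with_reducible apply IntF.app | with_reducible apply IntF.inl | with_reducible apply IntF.inr | with_reducible_and_instances apply IntF.mul | with_reducible_and_instances apply IntF.inv | with_reducible_and_instances apply IntF.add | with_reducible_and_instances apply IntF.sub | with_reducible_and_instances apply IntF.neg | with_reducible_and_instances apply IntF.smul | with_reducible apply Int.fin | with_reducible apply IntF.sep | with_reducible apply IntF.lam | with_reducible apply IntF.insert | with_reducible apply IntF.singleton | with_reducible apply IntF.union | with_reducible apply IntF.iimage | with_reducible apply IntF.ite | with_reducible apply IntF.the | with_reducible apply IntF.irec | with_reducible apply IntF.succ | with_reducible apply IntF.val | with_reducible apply IntF.mk | (with_reducible refine Int.comp ?_ ?_; assumption) | (with_reducible refine Int.comp₂ ?_ ?_ ?_; assumption) | (with_reducible refine Int.comp₃ ?_ ?_ ?_ ?_; assumption) | (with_reducible refine Int.comp₄ ?_ ?_ ?_ ?_ ?_; assumption) | (with_reducible refine IntF.comp ?_ ?_; assumption) | (with_reducible refine IntF.comp₂ ?_ ?_ ?_; assumption) | (with_reducible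 refine IntF.comp₃ ?_ ?_ ?_ ?_; assumption) | with_reducible apply IntF.pair)))).mono
      fun z ⟨k, h1, h2⟩ => ⟨k, h1, h2.symm⟩
  rcases x with ⟨a, x⟩
  rcases y with ⟨b, y⟩
  rcases x with m | m <;> rcases y with k | k
  · refine (hl m).mono ?_
    rintro ⟨c, z⟩ ⟨⟨-, h1, h2⟩, -, -, h3⟩
    rcases z with l | l
    · exact ⟨l, leZ_ll.1 h2, Prod.ext h1 rfl⟩
    · exact absurd h3 leZ_rl
  · refine ((hl m).or (hr k)).mono ?_
    rintro ⟨c, z⟩ ⟨⟨-, h1, h2⟩, -, -, h3⟩
    rcases z with l | l
    · exact Or.inl ⟨l, leZ_ll.1 h2, Prod.ext h1 rfl⟩
    · exact Or.inr ⟨l, leZ_rr.1 h3, Prod.ext h1 rfl⟩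
  · refine (hr k).mono ?_
    rintro ⟨c, z⟩ ⟨⟨-, h1, h2⟩, -, -, h3⟩
    rcases z with l | l
    · exact absurd h2 leZ_rl
    · exact absurd h3 leZ_rl
  · refine (hr k).mono ?_
    rintro ⟨c, z⟩ ⟨⟨-, h1, h2⟩, -, -, h3⟩
    rcases z with l | l
    · exact absurd h2 leZ_rl
    · exact ⟨l, leZ_rr.1 h3, Prod.ext h1 rfl⟩

section ext

variable {G : Set (Co M (XI M))} (hG : IsGen M G) (hC : CollL M)

/-- Sequences in one copy. -/
theorem exists_seq (n : INat M) {v : INat M → XI M} (hv : IntF M v) (hvn : ∀ m, (v m).1 = n) :
    ∃ u : INat (NN (SS (GZ M)) hG) → El (AA (GZ M) hG), IntF (NN (SS (GZ M)) hG) u ∧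
      ∀ m, u (nnN (GZ M) hG hC m) = cA (GZ M) hG (v m) := by
  have h1 : EF (GZ M) hG (fun (g : IPerm M (XI M)) (q : INat M × XI M) => (q.1, g.1.1 q.2))
      (fun q => op (nn (GZ M) hG q.1) (cc (GZ M) hG q.2)) := by
    refine EF.op hG (fun g b => ?_) ?_ ?_
    · exact Prod.ext rfl (g.2.2 _)
    · exact EF.comp hG (ef_nn hG) (φ := fun q : INat M × XI M => q.1) (by (repeat' (first | with_reducible exact IntF.id | with_reducible exact IntF.fst' | with_reducible exact IntF.snd' | with_reducible exact IntF.const _ | with_reducible exact Int.const _ | assumption | with_reducible apply Int.and | with_reducible apply Int.or | with_reducible apply Int.not | with_reducible apply Int.imp | with_reducible apply Int.iff | with_reducible apply Int.ne | with_reducible apply Int.eq | with_reducible apply Int.mem | with_reducible apply Int.subset | with_reducible apply Int.ltN | with_reducible apply Int.leN | with_reducible_and_instances apply Int.le | with_reducible_and_instances apply Int.lt | with_reducible apply Int.all | with_reducible apply Int.ex | with_reducible apply IntF.fst | with_reducible apply IntF.snd | with_reducible apply IntF.app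 | with_reducible apply IntF.inl | with_reducible apply IntF.inr | with_reducible_and_instances apply IntF.mul | with_reducible_and_instances apply IntF.inv | with_reducible_and_instances apply IntF.add | with_reducible_and_instances apply IntF.sub | with_reducible_and_instances apply IntF.neg | with_reducible_and_instances apply IntF.smul | with_reducible apply Int.fin | with_reducible apply IntF.sep | with_reducible apply IntF.lam | with_reducible apply IntF.insert | with_reducible apply IntF.singleton | with_reducible apply IntF.union | with_reducible apply IntF.iimage | with_reducible apply IntF.ite | with_reducible apply IntF.the | with_reducible apply IntF.irec | with_reducible apply IntF.succ | with_reducible apply IntF.val | with_reducible apply IntF.mk | (with_reducible refine Int.comp ?_ ?_; assumption) | (with_reducible refine Int.comp₂ ?_ ?_ ?_; assumption) | (with_reducible refine Int.comp₃ ?_ ?_ ?_ ?_; assumption) | (with_reducible refine Int.comp₄ ?_ ?_ ?_ ?_ ?_; assumption) | (with_reducible refine IntF.comp ?_ ?_; assumption) | (with_reducible refine IntF.comp₂ ?_ ?_ ?_; assumption) | (with_reducible refine IntF.comp₃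 ?_ ?_ ?_ ?_; assumption) | with_reducible apply IntF.pair))) fun _ _ => rfl
    · exact EF.comp hG (ef_cc hG) (φ := fun q : INat M × XI M => q.2) (by (repeat' (first | with_reducible exact IntF.id | with_reducible exact IntF.fst' | with_reducible exact IntF.snd' | with_reducible exact IntF.const _ | with_reducible exact Int.const _ | assumption | with_reducible apply Int.and | with_reducible apply Int.or | with_reducible apply Int.not | with_reducible apply Int.imp | with_reducible apply Int.iff | with_reducible apply Int.ne | with_reducible apply Int.eq | with_reducible apply Int.mem | with_reducible apply Int.subset | with_reducible apply Int.ltN | with_reducible apply Int.leN | with_reducible_and_instances apply Int.le | with_reducible_and_instances apply Int.lt | with_reducible apply Int.all | with_reducible apply Int.ex | with_reducible apply IntF.fst | with_reducible apply IntF.snd | with_reducible apply IntF.app | with_reducible apply IntF.inl | with_reducible apply IntF.inr | with_reducible_and_instances apply IntF.mul | with_reducible_and_instances apply IntF.inv | with_reducible_and_instances apply IntF.add | with_reducible_and_instances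 apply IntF.sub | with_reducible_and_instances apply IntF.neg | with_reducible_and_instances apply IntF.smul | with_reducible apply Int.fin | with_reducible apply IntF.sep | with_reducible apply IntF.lam | with_reducible apply IntF.insert | with_reducible apply IntF.singleton | with_reducible apply IntF.union | with_reducible apply IntF.iimage | with_reducible apply IntF.ite | with_reducible apply IntF.the | with_reducible apply IntF.irec | with_reducible apply IntF.succ | with_reducible apply IntF.val | with_reducible apply IntF.mk | (with_reducible refine Int.comp ?_ ?_; assumption) | (with_reducible refine Int.comp₂ ?_ ?_ ?_; assumption) | (with_reducible refine Int.comp₃ ?_ ?_ ?_ ?_; assumption) | (with_reducible refine Int.comp₄ ?_ ?_ ?_ ?_ ?_; assumption) | (with_reducible refine IntF.comp ?_ ?_; assumption) | (with_reducible refine IntF.comp₂ ?_ ?_ ?_; assumption) | (with_reducible refine IntF.comp₃ ?_ ?_ ?_ ?_; assumption) | with_reducible apply IntF.pair))) fun _ _ => rfl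
  obtain ⟨z, hz⟩ := EF.set hG h1 (Y := fun q : INat M × XI M => q.2 = v q.1) (by (repeat' (first | with_reducible exact IntF.id | with_reducible exact IntF.fst' | with_reducible exact IntF.snd' | with_reducible exact IntF.const _ | with_reducible exact Int.const _ | assumption | with_reducible apply Int.and | with_reducible apply Int.or | with_reducible apply Int.not | with_reducible apply Int.imp | with_reducible apply Int.iff | with_reducible apply Int.ne | with_reducible apply Int.eq | with_reducible apply Int.mem | with_reducible apply Int.subset | with_reducible apply Int.ltN | with_reducible apply Int.leN | with_reducible_and_instances apply Int.le | with_reducible_and_instances apply Int.lt | with_reducible apply Int.all | with_reducible apply Int.ex | with_reducible apply IntF.fst | with_reducible apply IntF.snd | with_reducible apply IntF.app | with_reducible apply IntF.inl | with_reducible apply IntF.inr | with_reducible_and_instances apply IntF.mul | with_reducible_and_instances apply IntF.inv | with_reducible_and_instances apply IntF.add | with_reducible_and_instances apply IntF.sub | with_reducible_and_instances apply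 IntF.neg | with_reducible_and_instances apply IntF.smul | with_reducible apply Int.fin | with_reducible apply IntF.sep | with_reducible apply IntF.lam | with_reducible apply IntF.insert | with_reducible apply IntF.singleton | with_reducible apply IntF.union | with_reducible apply IntF.iimage | with_reducible apply IntF.ite | with_reducible apply IntF.the | with_reducible apply IntF.irec | with_reducible apply IntF.succ | with_reducible apply IntF.val | with_reducible apply IntF.mk | (with_reducible refine Int.comp ?_ ?_; assumption) | (with_reducible refine Int.comp₂ ?_ ?_ ?_; assumption) | (with_reducible refine Int.comp₃ ?_ ?_ ?_ ?_; assumption) | (with_reducible refine Int.comp₄ ?_ ?_ ?_ ?_ ?_; assumption) | (with_reducible refine IntF.comp ?_ ?_; assumption) | (with_reducible refine IntF.comp₂ ?_ ?_ ?_; assumption) | (with_reducible refine IntF.comp₃ ?_ ?_ ?_ ?_; assumption) | with_reducible apply IntF.pair)))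
    (E := fs1 (n, Sum.inr 0)) (fun g hg hgE c hc => by
      change g.1.1 c.2 = v c.1
      rw [hc]
      have h2 : v c.1 = (n, (v c.1).2) := Prod.ext (hvn _) rfl
      rw [h2]
      exact fix_copy hg (hgE _ (mem_fs1.2 rfl)) _)
  have hz' : ∀ m x, Mem (op (nn (GZ M) hG m) (cc (GZ M) hG x)) z ↔ x = v m := by
    intro m x
    refine (hz _).trans ⟨?_, fun h => ⟨(m, x), h, rfl⟩⟩
    rintro ⟨⟨m', x'⟩, h, h2⟩
    obtain ⟨h3, h4⟩ := op_inj h2
    obtain rfl := (nn_inj hG).1 h3
    obtain rfl := (cc_inj hG).1 h4
    exact h
  have hI : Int (NN (SS (GZ M)) hG) (fun q : INat (NN (SS (GZ M)) hG) × El (AA (GZ M) hG) =>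
      Mem (op q.1.val q.2.1) z) :=
    Int.of_D₂ (S := fun v => Mem (op (v 0) (v 1)) z)
      (D.memf (DF.op (DF.var _) (DF.var _)) (DF.const _)) fun _ _ => Iff.rfl
  have hn := nnN_surj (Z := GZ M) hG hC
  have hc := cA_surj (Z := GZ M) hG
  have hex : ∀ m : INat (NN (SS (GZ M)) hG), ∃ a : El (AA (GZ M) hG), Mem (op m.val a.1) z := by
    intro m
    obtain ⟨m, rfl⟩ := hn m
    exact ⟨cA (GZ M) hG (v m), (hz' _ _).2 rfl⟩
  choose u hu using hex
  have huniq : ∀ (m : INat (NN (SS (GZ M)) hG)) (a b : El (AA (GZ M) hG)),
      Mem (op m.val a.1) z → Mem (op m.val b.1) z → a = b := by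
    intro m a b ha hb
    obtain ⟨m, rfl⟩ := hn m
    obtain ⟨a, rfl⟩ := hc a
    obtain ⟨b, rfl⟩ := hc b
    rw [(hz' m a).1 ha, (hz' m b).1 hb]
  refine ⟨u, IntF.of_unique (p := fun (m : INat (NN (SS (GZ M)) hG)) (a : El (AA (GZ M) hG)) =>
    Mem (op m.val a.1) z) hI hu huniq, fun m => ?_⟩
  exact huniq _ _ _ (hu _) ((hz' _ _).2 rfl)

include hC in
/-- The model has a homogeneous chain. -/
theorem exists_chD : ∃ R, ChD (NN (SS (GZ M)) hG) (α := El (AA (GZ M) hG)) R := by
  obtain ⟨R, hR, hR'⟩ := exists_rel (Z := GZ M) hG hC int_RZ
    (fun g hg n x y h => (hg.1 n x y).1 h)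
  have hn := nnN_surj (Z := GZ M) hG hC
  have hc := cA_surj (Z := GZ M) hG
  have hle : ∀ m n : INat M, nnN (GZ M) hG hC m ≤ nnN (GZ M) hG hC n ↔ m ≤ n := fun m n => by
    rw [← not_lt, ← not_lt, nnN_lt]
  refine ⟨R, ⟨hR, fun a => ?_, fun m n a h h' => ?_, fun n a b h => ?_, fun n a b h => ?_,
    fun n a b h h' => ?_, fun n a b h h' => ?_, fun n a b c h h' => ?_, fun n => ?_,
    fun n a h => ?_, fun n a h => ?_, fun n a b => ?_, fun n => ?_, fun n => ?_, fun W hW => ?_⟩⟩
  · obtain ⟨a, rfl⟩ := hc a
    exact ⟨nnN (GZ M) hG hC a.1, (hR' _ _ _).2 ⟨rfl, rfl, leZ_refl _⟩⟩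
  · obtain ⟨m, rfl⟩ := hn m
    obtain ⟨n, rfl⟩ := hn n
    obtain ⟨a, rfl⟩ := hc a
    rw [hR'] at h h'
    rw [show m = n from h.1.symm.trans h'.1]
  · obtain ⟨n, rfl⟩ := hn n
    obtain ⟨a, rfl⟩ := hc a
    obtain ⟨b, rfl⟩ := hc b
    rw [hR'] at h ⊢
    exact ⟨h.1, h.1, leZ_refl _⟩
  · obtain ⟨n, rfl⟩ := hn n
    obtain ⟨a, rfl⟩ := hc a
    obtain ⟨b, rfl⟩ := hc b
    rw [hR'] at h ⊢
    exact ⟨h.2.1, h.2.1, leZ_refl _⟩
  · obtain ⟨n, rfl⟩ := hn n
    obtain ⟨a, rfl⟩ := hc a
    obtain ⟨b, rfl⟩ := hc b
    rw [hR'] at h h'
    rw [hR', hR']
    rcases leZ_total a.2 b.2 with h1 | h1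
    · exact Or.inl ⟨h.1, h'.1, h1⟩
    · exact Or.inr ⟨h'.1, h.1, h1⟩
  · obtain ⟨n, rfl⟩ := hn n
    obtain ⟨a, rfl⟩ := hc a
    obtain ⟨b, rfl⟩ := hc b
    rw [hR'] at h h'
    rw [cA_inj]
    exact Prod.ext (h.1.trans h.2.1.symm) (leZ_antisymm h.2.2 h'.2.2)
  · obtain ⟨n, rfl⟩ := hn n
    obtain ⟨a, rfl⟩ := hc a
    obtain ⟨b, rfl⟩ := hc b
    obtain ⟨c, rfl⟩ := hc c
    rw [hR'] at h h' ⊢
    exact ⟨h.1, h'.2.1, leZ_trans h.2.2 h'.2.2⟩
  · obtain ⟨n, rfl⟩ := hn n
    exact ⟨cA (GZ M) hG (n, Sum.inr 0), (hR' _ _ _).2 ⟨rfl, rfl, leZ_refl _⟩⟩
  · obtain ⟨n, rfl⟩ := hn n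
    obtain ⟨⟨k, a⟩, rfl⟩ := hc a
    rw [hR'] at h
    obtain rfl : k = n := h.1
    rcases a with m | m
    · refine ⟨cA (GZ M) hG (k, Sum.inr 0), (hR' _ _ _).2 ⟨rfl, rfl, leZ_lr⟩, ?_⟩
      rw [Ne, cA_inj]
      intro h1
      cases congrArg Prod.snd h1
    · refine ⟨cA (GZ M) hG (k, Sum.inr m.succ), (hR' _ _ _).2 ⟨rfl, rfl,
        leZ_rr.2 (INat.le_succ_self m)⟩, ?_⟩
      rw [Ne, cA_inj]
      intro h1
      have h2 : m.succ = m := Sum.inr.inj (congrArg Prod.snd h1)
      exact absurd (INat.lt_succ_self m) (by rw [h2]; exact lt_irrefl m)
  · obtain ⟨n, rfl⟩ := hn n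
    obtain ⟨⟨k, a⟩, rfl⟩ := hc a
    rw [hR'] at h
    obtain rfl : k = n := h.1
    rcases a with m | m
    · refine ⟨cA (GZ M) hG (k, Sum.inl m.succ), (hR' _ _ _).2 ⟨rfl, rfl,
        leZ_ll.2 (INat.le_succ_self m)⟩, ?_⟩
      rw [Ne, cA_inj]
      intro h1
      have h2 : m.succ = m := Sum.inl.inj (congrArg Prod.snd h1)
      exact absurd (INat.lt_succ_self m) (by rw [h2]; exact lt_irrefl m)
    · refine ⟨cA (GZ M) hG (k, Sum.inl 0), (hR' _ _ _).2 ⟨rfl, rfl, leZ_lr⟩, ?_⟩
      rw [Ne, cA_inj]
      intro h1
      cases congrArg Prod.snd h1
  · obtain ⟨n, rfl⟩ := hn n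
    obtain ⟨a, rfl⟩ := hc a
    obtain ⟨b, rfl⟩ := hc b
    have h1 := int_RZ (M := M)
    have h2 : IFin (sep M (fun z : XI M => RZ (n, (a, z)) ∧ RZ (n, (z, b)))) :=
      (fin_int n a b).fin (by (repeat' (first | with_reducible exact IntF.id | with_reducible exact IntF.fst' | with_reducible exact IntF.snd' | with_reducible exact IntF.const _ | with_reducible exact Int.const _ | assumption | with_reducible apply Int.and | with_reducible apply Int.or | with_reducible apply Int.not | with_reducible apply Int.imp | with_reducible apply Int.iff | with_reducible apply Int.ne | with_reducible apply Int.eq | with_reducible apply Int.mem | with_reducible apply Int.subset | with_reducible apply Int.ltN | with_reducible apply Int.leN | with_reducible_and_instances apply Int.le | with_reducible_and_instances apply Int.lt | with_reducible apply Int.all | with_reducible apply Int.ex | with_reducible apply IntF.fst | with_reducible apply IntF.snd | with_reducible apply IntF.app | with_reducible apply IntF.inl | with_reducible apply IntF.inr | with_reducible_and_instances apply IntF.mul | with_reducible_and_instances apply IntF.inv | with_reducible_and_instances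 apply IntF.add | with_reducible_and_instances apply IntF.sub | with_reducible_and_instances apply IntF.neg | with_reducible_and_instances apply IntF.smul | with_reducible apply Int.fin | with_reducible apply IntF.sep | with_reducible apply IntF.lam | with_reducible apply IntF.insert | with_reducible apply IntF.singleton | with_reducible apply IntF.union | with_reducible apply IntF.iimage | with_reducible apply IntF.ite | with_reducible apply IntF.the | with_reducible apply IntF.irec | with_reducible apply IntF.succ | with_reducible apply IntF.val | with_reducible apply IntF.mk | (with_reducible refine Int.comp ?_ ?_; assumption) | (with_reducible refine Int.comp₂ ?_ ?_ ?_; assumption) | (with_reducible refine Int.comp₃ ?_ ?_ ?_ ?_; assumption) | (with_reducible refine Int.comp₄ ?_ ?_ ?_ ?_ ?_; assumption) | (with_reducible refine IntF.comp ?_ ?_; assumption) | (with_reducible refine IntF.comp₂ ?_ ?_ ?_; assumption) | (with_reducible refine IntF.comp₃ ?_ ?_ ?_ ?_; assumption) | with_reducible apply IntF.pair)))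
    obtain ⟨s, hs, hs'⟩ := exists_fin (Z := GZ M) hG hC ⟨_, h2⟩
    refine ⟨s, hs, fun c hc' => ?_⟩
    obtain ⟨c, rfl⟩ := hc c
    rw [hR', hR'] at hc'
    rw [hs']
    exact (mem_sep (by (repeat' (first | with_reducible exact IntF.id | with_reducible exact IntF.fst' | with_reducible exact IntF.snd' | with_reducible exact IntF.const _ | with_reducible exact Int.const _ | assumption | with_reducible apply Int.and | with_reducible apply Int.or | with_reducible apply Int.not | with_reducible apply Int.imp | with_reducible apply Int.iff | with_reducible apply Int.ne | with_reducible apply Int.eq | with_reducible apply Int.mem | with_reducible apply Int.subset | with_reducible apply Int.ltN | with_reducible apply Int.leN | with_reducible_and_instances apply Int.le | with_reducible_and_instances apply Int.lt | with_reducible apply Int.all | with_reducible apply Int.ex | with_reducible apply IntF.fst | with_reducible apply IntF.snd | with_reducible apply IntF.app | with_reducible apply IntF.inl | with_reducible apply IntF.inr | with_reducible_and_instances apply IntF.mul | with_reducible_and_instances apply IntF.inv | with_reducible_and_instances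 apply IntF.add | with_reducible_and_instances apply IntF.sub | with_reducible_and_instances apply IntF.neg | with_reducible_and_instances apply IntF.smul | with_reducible apply Int.fin | with_reducible apply IntF.sep | with_reducible apply IntF.lam | with_reducible apply IntF.insert | with_reducible apply IntF.singleton | with_reducible apply IntF.union | with_reducible apply IntF.iimage | with_reducible apply IntF.ite | with_reducible apply IntF.the | with_reducible apply IntF.irec | with_reducible apply IntF.succ | with_reducible apply IntF.val | with_reducible apply IntF.mk | (with_reducible refine Int.comp ?_ ?_; assumption) | (with_reducible refine Int.comp₂ ?_ ?_ ?_; assumption) | (with_reducible refine Int.comp₃ ?_ ?_ ?_ ?_; assumption) | (with_reducible refine Int.comp₄ ?_ ?_ ?_ ?_ ?_; assumption) | (with_reducible refine IntF.comp ?_ ?_; assumption) | (with_reducible refine IntF.comp₂ ?_ ?_ ?_; assumption) | (with_reducible refine IntF.comp₃ ?_ ?_ ?_ ?_; assumption) | with_reducible apply IntF.pair)))).2 hc'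
  · obtain ⟨n, rfl⟩ := hn n
    obtain ⟨u, hu, hu'⟩ := exists_seq hG hC n (v := fun m => (n, Sum.inr m)) (by (repeat' (first | with_reducible exact IntF.id | with_reducible exact IntF.fst' | with_reducible exact IntF.snd' | with_reducible exact IntF.const _ | with_reducible exact Int.const _ | assumption | with_reducible apply Int.and | with_reducible apply Int.or | with_reducible apply Int.not | with_reducible apply Int.imp | with_reducible apply Int.iff | with_reducible apply Int.ne | with_reducible apply Int.eq | with_reducible apply Int.mem | with_reducible apply Int.subset | with_reducible apply Int.ltN | with_reducible apply Int.leN | with_reducible_and_instances apply Int.le | with_reducible_and_instances apply Int.lt | with_reducible apply Int.all | with_reducible apply Int.ex | with_reducible apply IntF.fst | with_reducible apply IntF.snd | with_reducible apply IntF.app | with_reducible apply IntF.inl | with_reducible apply IntF.inr | with_reducible_and_instances apply IntF.mul | with_reducible_and_instances apply IntF.inv | with_reducible_and_instances apply IntF.add | with_reducible_and_instances apply IntF.sub | with_reducible_and_instances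 apply IntF.neg | with_reducible_and_instances apply IntF.smul | with_reducible apply Int.fin | with_reducible apply IntF.sep | with_reducible apply IntF.lam | with_reducible apply IntF.insert | with_reducible apply IntF.singleton | with_reducible apply IntF.union | with_reducible apply IntF.iimage | with_reducible apply IntF.ite | with_reducible apply IntF.the | with_reducible apply IntF.irec | with_reducible apply IntF.succ | with_reducible apply IntF.val | with_reducible apply IntF.mk | (with_reducible refine Int.comp ?_ ?_; assumption) | (with_reducible refine Int.comp₂ ?_ ?_ ?_; assumption) | (with_reducible refine Int.comp₃ ?_ ?_ ?_ ?_; assumption) | (with_reducible refine Int.comp₄ ?_ ?_ ?_ ?_ ?_; assumption) | (with_reducible refine IntF.comp ?_ ?_; assumption) | (with_reducible refine IntF.comp₂ ?_ ?_ ?_; assumption) | (with_reducible refine IntF.comp₃ ?_ ?_ ?_ ?_; assumption) | with_reducible apply IntF.pair)))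
      fun _ => rfl
    refine ⟨u, hu, fun m => ?_, fun a ha => ?_⟩
    · obtain ⟨m, rfl⟩ := hn m
      rw [hu', hR']
      exact ⟨rfl, rfl, leZ_refl _⟩
    · obtain ⟨⟨k, a⟩, rfl⟩ := hc a
      rw [hR'] at ha
      obtain rfl : k = n := ha.1
      rcases a with m | m
      · refine ⟨nnN (GZ M) hG hC 0, ?_⟩
        rw [hu', hR']
        exact ⟨rfl, rfl, leZ_lr⟩
      · refine ⟨nnN (GZ M) hG hC m, ?_⟩
        rw [hu', hR']
        exact ⟨rfl, rfl, leZ_refl _⟩
  · obtain ⟨n, rfl⟩ := hn n
    obtain ⟨u, hu, hu'⟩ := exists_seq hG hC n (v := fun m => (n, Sum.inl m)) (by (repeat' (first | with_reducible exact IntF.id | with_reducible exact IntF.fst' | with_reducible exact IntF.snd' | with_reducible exact IntF.const _ | with_reducible exact Int.const _ | assumption | with_reducible apply Int.and | with_reducible apply Int.or | with_reducible apply Int.not | with_reducible apply Int.imp | with_reducible apply Int.iff | with_reducible apply Int.ne | with_reducible apply Int.eq | with_reducible apply Int.mem | with_reducible apply Int.subset | with_reducible apply Int.ltN | with_reducible apply Int.leN | with_reducible_and_instances apply Int.le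 | with_reducible_and_instances apply Int.lt | with_reducible apply Int.all | with_reducible apply Int.ex | with_reducible apply IntF.fst | with_reducible apply IntF.snd | with_reducible apply IntF.app | with_reducible apply IntF.inl | with_reducible apply IntF.inr | with_reducible_and_instances apply IntF.mul | with_reducible_and_instances apply IntF.inv | with_reducible_and_instances apply IntF.add | with_reducible_and_instances apply IntF.sub | with_reducible_and_instances apply IntF.neg | with_reducible_and_instances apply IntF.smul | with_reducible apply Int.fin | with_reducible apply IntF.sep | with_reducible apply IntF.lam | with_reducible apply IntF.insert | with_reducible apply IntF.singleton | with_reducible apply IntF.union | with_reducible apply IntF.iimage | with_reducible apply IntF.ite | with_reducible apply IntF.the | with_reducible apply IntF.irec | with_reducible apply IntF.succ | with_reducible apply IntF.val | with_reducible apply IntF.mk | (with_reducible refine Int.comp ?_ ?_; assumption) | (with_reducible refine Int.comp₂ ?_ ?_ ?_; assumption) | (with_reducible refine Int.comp₃ ?_ ?_ ?_ ?_; assumption) | (with_reducible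 refine Int.comp₄ ?_ ?_ ?_ ?_ ?_; assumption) | (with_reducible refine IntF.comp ?_ ?_; assumption) | (with_reducible refine IntF.comp₂ ?_ ?_ ?_; assumption) | (with_reducible refine IntF.comp₃ ?_ ?_ ?_ ?_; assumption) | with_reducible apply IntF.pair)))
      fun _ => rfl
    refine ⟨u, hu, fun m => ?_, fun a ha => ?_⟩
    · obtain ⟨m, rfl⟩ := hn m
      rw [hu', hR']
      exact ⟨rfl, rfl, leZ_refl _⟩
    · obtain ⟨⟨k, a⟩, rfl⟩ := hc a
      rw [hR'] at ha
      obtain rfl : k = n := ha.1
      rcases a with m | m
      · refine ⟨nnN (GZ M) hG hC m, ?_⟩
        rw [hu', hR']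
        exact ⟨rfl, rfl, leZ_refl _⟩
      · refine ⟨nnN (GZ M) hG hC 0, ?_⟩
        rw [hu', hR']
        exact ⟨rfl, rfl, leZ_lr⟩
  · obtain ⟨E, hE⟩ := exists_hom (Z := GZ M) hG hC hW
    obtain ⟨m, hm⟩ := IFin.exists_bound (r := fun (x : XI M) (n : INat M) => x.1 < n)
      (by (repeat' (first | with_reducible exact IntF.id | with_reducible exact IntF.fst' | with_reducible exact IntF.snd' | with_reducible exact IntF.const _ | with_reducible exact Int.const _ | assumption | with_reducible apply Int.and | with_reducible apply Int.or | with_reducible apply Int.not | with_reducible apply Int.imp | with_reducible apply Int.iff | with_reducible apply Int.ne | with_reducible apply Int.eq | with_reducible apply Int.mem | with_reducible apply Int.subset | with_reducible apply Int.ltN | with_reducible apply Int.leN | with_reducible_and_instances apply Int.le | with_reducible_and_instances apply Int.lt | with_reducible apply Int.all | with_reducible apply Int.ex | with_reducible apply IntF.fst | with_reducible apply IntF.snd | with_reducible apply IntF.app | with_reducible apply IntF.inl | with_reducible apply IntF.inr | with_reducible_and_instances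 apply IntF.mul | with_reducible_and_instances apply IntF.inv | with_reducible_and_instances apply IntF.add | with_reducible_and_instances apply IntF.sub | with_reducible_and_instances apply IntF.neg | with_reducible_and_instances apply IntF.smul | with_reducible apply Int.fin | with_reducible apply IntF.sep | with_reducible apply IntF.lam | with_reducible apply IntF.insert | with_reducible apply IntF.singleton | with_reducible apply IntF.union | with_reducible apply IntF.iimage | with_reducible apply IntF.ite | with_reducible apply IntF.the | with_reducible apply IntF.irec | with_reducible apply IntF.succ | with_reducible apply IntF.val | with_reducible apply IntF.mk | (with_reducible refine Int.comp ?_ ?_; assumption) | (with_reducible refine Int.comp₂ ?_ ?_ ?_; assumption) | (with_reducible refine Int.comp₃ ?_ ?_ ?_ ?_; assumption) | (with_reducible refine Int.comp₄ ?_ ?_ ?_ ?_ ?_; assumption) | (with_reducible refine IntF.comp ?_ ?_; assumption) | (with_reducible refine IntF.comp₂ ?_ ?_ ?_; assumption) | (with_reducible refine IntF.comp₃ ?_ ?_ ?_ ?_; assumption) | with_reducible apply IntF.pair))) (fun b c => ⟨max b c, fun a ha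 => ha.elim
        (fun h => lt_of_lt_of_le h (le_max_left _ _))
        fun h => lt_of_lt_of_le h (le_max_right _ _)⟩) ⟨0⟩ E.2
      fun a _ => ⟨a.1.succ, INat.lt_succ_self _⟩
    refine ⟨nnN (GZ M) hG hC m, fun n a b hmn ha hb k h => ?_⟩
    obtain ⟨n, rfl⟩ := hn n
    obtain ⟨a, rfl⟩ := hc a
    obtain ⟨b, rfl⟩ := hc b
    obtain ⟨k, rfl⟩ := hn k
    rw [hle] at hmn
    rw [hR'] at ha hb
    obtain ⟨g, hg, h1, h2⟩ := exists_tr' ha.1 hb.1
    have h3 := hE g hg (fun x hx => h1 x fun h4 => ?_) a k h
    · rwa [h2] at h3
    · have h5 := hm x hx
      rw [h4] at h5
      exact absurd hmn (not_le.2 h5)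

end ext

end Pool.Agent.Q301.TM
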