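import Pool.Agent.Q301.TM.ChSp
import Pool.Agent.Q301.TM.Emb
import Pool.Agent.Q301.TM.Mod
import Pool.Agent.H635R2.Ext

/-!
# The space of the chain: the theorems in the model
-/

set_option maxHeartbeats 1000000
set_option linter.all false
set_option synthInstance.maxSize 2000

namespace Pool.Agent.Q301.TM

open FirstOrder FirstOrder.Language
open Pool.Agent.Helper672.ZFA
open Pool.Agent.Helper672.Plain (LSet)
open Pool.Agent.Helper672.ZFA.H635 (toL plainN_ordPair plainN_graph plainN_opGraph)
open Pool.Agent.H635Amen (IsReals ZF)
open Pool.Agent.H310Cards (IsOmega IsFinite IsFun App IsInj IsNat)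
open Pool.Agent.H310Top (IsTopology IsClosed IsCompact)
open Pool.Agent.H310 (FinP finP_iff finP_le finP_lt exists_BN mem_nat nat_iff appN finite_of_finP
  mem_cp extN exists_code instPEl exists_q pr int_pr pr_inj)

universe u u₁

attribute [local instance] toL instPEl

/-- The chain space `(t, x)` and its subspace `(t', x')` without the last point. -/
structure Dat (N : Type u) [LSet.Structure N] [hM : IsModel N] (x t x' t' : N) (o : Helper672.Plain.El x)
    (τ : INat N → Helper672.Plain.El x) (R : INat N × (Helper672.Plain.El x × Helper672.Plain.El x) → Prop) (i : Helper672.Plain.El x' → Helper672.Plain.El x) : Prop where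
  ch : Ch N o τ R
  top : IsTopology t x
  opn : ∀ U : IPow N (Helper672.Plain.El x), Helper672.Plain.Mem (code U) t ↔ OpC o τ R U
  mem : ∀ z, Helper672.Plain.Mem z x' ↔ ∃ h : Helper672.Plain.Mem z x, mkE z h ≠ o
  sub : IsSubspace t' x' t
  iI : IntF N i
  i_val : ∀ p, (i p).1 = p.1

theorem exists_dat {N : Type u} [LSet.Structure N] [hM : IsModel N] {x : N} {o : Helper672.Plain.El x}
    {τ : INat N → Helper672.Plain.El x} {R : INat N × (Helper672.Plain.El x × Helper672.Plain.El x) → Prop} (h : Ch N o τ R) :
    ∃ t x' t' i, Dat N x t x' t' o τ R i := by
  obtain ⟨t, ht, hO⟩ := exists_top h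
  obtain ⟨x', hx'⟩ := exists_set (a := x) (p := fun p => p ≠ o) (by (repeat' (first | with_reducible apply memPE | with_reducible apply memPE' | with_reducible apply memPE'' | with_reducible apply memCode | with_reducible apply memCodeP | with_reducible apply memCode₂ | with_reducible apply eqPE | with_reducible apply eqPE' | with_reducible exact IntF.id | with_reducible exact IntF.fst' | with_reducible exact IntF.snd' | with_reducible exact IntF.const _ | with_reducible exact Int.const _ | assumption | with_reducible apply Int.and | with_reducible apply Int.or | with_reducible apply Int.not | with_reducible apply Int.imp | with_reducible apply Int.iff | with_reducible apply Int.ne | with_reducible apply Int.eq | with_reducible apply Int.mem | with_reducible apply Int.subset | with_reducible apply Int.ltN | with_reducible apply Int.leN | with_reducible_and_instances apply Int.le | with_reducible_and_instances apply Int.lt | with_reducible apply Int.all | with_reducible apply Int.ex | with_reducible apply IntF.fst | with_reducible apply IntF.snd | with_reducible apply IntF.app | with_reducible apply IntF.inl | with_reducible apply IntF.inr | with_reducible_and_instances apply IntF.mul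 | with_reducible_and_instances apply IntF.inv | with_reducible_and_instances apply IntF.add | with_reducible_and_instances apply IntF.sub | with_reducible_and_instances apply IntF.neg | with_reducible_and_instances apply IntF.smul | with_reducible apply Int.fin | with_reducible apply IntF.sep | with_reducible apply IntF.lam | with_reducible apply IntF.insert | with_reducible apply IntF.singleton | with_reducible apply IntF.union | with_reducible apply IntF.iimage | with_reducible apply IntF.ite | with_reducible apply IntF.the | with_reducible apply IntF.irec | with_reducible apply IntF.succ | with_reducible apply IntF.val | with_reducible apply IntF.mk | (with_reducible refine Int.comp ?_ ?_; assumption) | (with_reducible refine Int.comp₂ ?_ ?_ ?_; assumption) | (with_reducible refine Int.comp₃ ?_ ?_ ?_ ?_; assumption) | (with_reducible refine Int.comp₄ ?_ ?_ ?_ ?_ ?_; assumption) | (with_reducible refine IntF.comp ?_ ?_; assumption) | (with_reducible refine IntF.comp₂ ?_ ?_ ?_; assumption) | (with_reducible refine IntF.comp₃ ?_ ?_ ?_ ?_; assumption) | with_reducible apply IntF.pair)))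
  obtain ⟨t', ht'⟩ := exists_subspace x' t
  obtain ⟨i, hi, hi'⟩ := exists_inc (x := x) (x' := x') fun z hz => ((hx' z).1 hz).1
  exact ⟨t, x', t', i, h, ht, hO, hx', ht', hi, hi'⟩

section

variable {N : Type u} [LSet.Structure N] [hM : IsModel N] {x t x' t' : N} {o : Helper672.Plain.El x}
variable {τ : INat N → Helper672.Plain.El x} {R : INat N × (Helper672.Plain.El x × Helper672.Plain.El x) → Prop} {i : Helper672.Plain.El x' → Helper672.Plain.El x}
variable (D : Dat N x t x' t' o τ R i)
include D

theorem Dat.xx {z : N} (hz : Helper672.Plain.Mem z x') : Helper672.Plain.Mem z x := ((D.mem z).1 hz).1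

theorem Dat.top' : IsTopology t' x' := isTopology_sub D.top (fun z hz => D.xx hz) D.sub

theorem Dat.T1 : IsT1 t x := ch_T1 D.ch D.top D.opn

theorem Dat.zd : IsZeroDim t x := ch_zd D.ch D.top D.opn

theorem Dat.cpt : IsCompact t x := ch_compact D.ch D.top D.opn

theorem Dat.T1' : IsT1 t' x' := isT1_sub D.sub (fun z hz => D.xx hz) D.T1

theorem Dat.zd' : IsZeroDim t' x' := isZeroDim_sub D.sub (fun z hz => D.xx hz) D.zd

theorem Dat.nc : IsNCompact t x := isNCompact D.top D.T1 D.zd D.cpt

theorem Dat.io (p : Helper672.Plain.El x') : i p ≠ o := by
  intro h1
  obtain ⟨h2, h3⟩ := (D.mem p.1).1 p.2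
  exact h3 (Subtype.ext ((D.i_val p).symm.trans (congrArg Subtype.val h1)))

theorem Dat.i_surj {p : Helper672.Plain.El x} (hp : p ≠ o) : ∃ q, i q = p :=
  ⟨mkE p.1 ((D.mem _).2 ⟨p.2, hp⟩), Subtype.ext (D.i_val _)⟩

theorem Dat.mkE_i {z : N} (h : Helper672.Plain.Mem z x') : i (mkE z h) = mkE z (D.xx h) :=
  Subtype.ext (D.i_val _)

/-- Clopen sets of the subspace. -/
theorem Dat.clopen' {p : Helper672.Plain.El x → Prop} (hp : Int N p) (h : IsClopen t x (code (sep N p))) :
    IsClopen t' x' (code (sep N fun q : Helper672.Plain.El x' => p (i q))) := by
  have hi := D.iI
  have hI : Int N (fun q : Helper672.Plain.El x' => p (i q)) := by (repeat' (first | with_reducible apply memPE | with_reducible apply memPE' | with_reducible apply memPE'' | with_reducible apply memCode | with_reducible apply memCodeP | with_reducible apply memCode₂ | with_reducible apply eqPE | with_reducible apply eqPE' | with_reducible exact IntF.id | with_reducible exact IntF.fst' | with_reducible exact IntF.snd' | with_reducible exact IntF.const _ | with_reducible exact Int.const _ | assumption | with_reducible apply Int.and | with_reducible apply Int.or | with_reducible apply Int.not | with_reducible apply Int.imp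 | with_reducible apply Int.iff | with_reducible apply Int.ne | with_reducible apply Int.eq | with_reducible apply Int.mem | with_reducible apply Int.subset | with_reducible apply Int.ltN | with_reducible apply Int.leN | with_reducible_and_instances apply Int.le | with_reducible_and_instances apply Int.lt | with_reducible apply Int.all | with_reducible apply Int.ex | with_reducible apply IntF.fst | with_reducible apply IntF.snd | with_reducible apply IntF.app | with_reducible apply IntF.inl | with_reducible apply IntF.inr | with_reducible_and_instances apply IntF.mul | with_reducible_and_instances apply IntF.inv | with_reducible_and_instances apply IntF.add | with_reducible_and_instances apply IntF.sub | with_reducible_and_instances apply IntF.neg | with_reducible_and_instances apply IntF.smul | with_reducible apply Int.fin | with_reducible apply IntF.sep | with_reducible apply IntF.lam | with_reducible apply IntF.insert | with_reducible apply IntF.singleton | with_reducible apply IntF.union | with_reducible apply IntF.iimage | with_reducible apply IntF.ite | with_reducible apply IntF.the | with_reducible apply IntF.irec | with_reducible apply IntF.succ | with_reducible apply IntF.val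 | with_reducible apply IntF.mk | (with_reducible refine Int.comp ?_ ?_; assumption) | (with_reducible refine Int.comp₂ ?_ ?_ ?_; assumption) | (with_reducible refine Int.comp₃ ?_ ?_ ?_ ?_; assumption) | (with_reducible refine Int.comp₄ ?_ ?_ ?_ ?_ ?_; assumption) | (with_reducible refine IntF.comp ?_ ?_; assumption) | (with_reducible refine IntF.comp₂ ?_ ?_ ?_; assumption) | (with_reducible refine IntF.comp₃ ?_ ?_ ?_ ?_; assumption) | with_reducible apply IntF.pair))
  refine isClopen_trace D.sub (fun z hz => D.xx hz) h fun z => ?_
  rw [show Helper672.Plain.Mem z (code (sep N fun q : Helper672.Plain.El x' => p (i q))) ↔ _ from mem_cpE,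
    show Helper672.Plain.Mem z (code (sep N p)) ↔ _ from mem_cpE]
  constructor
  · rintro ⟨h1, h2⟩
    rw [mem_sep hI, D.mkE_i] at h2
    exact ⟨⟨D.xx h1, (mem_sep hp).2 h2⟩, h1⟩
  · rintro ⟨⟨h1, h2⟩, h3⟩
    refine ⟨h3, ?_⟩
    rw [mem_sep hI, D.mkE_i]
    exact (mem_sep hp).1 h2

theorem Dat.clopen_sg {n : INat N} {y : Helper672.Plain.El x} (hy : R (n, (y, y))) :
    IsClopen t x (code (sep N fun q => Sg τ R n y q)) := by
  have hS := int_Sg D.ch
  have hI : Int N (fun q => Sg τ R n y q) := by (repeat' (first | with_reducible apply memPE | with_reducible apply memPE' | with_reducible apply memPE'' | with_reducible apply memCode | with_reducible apply memCodeP | with_reducible apply memCode₂ | with_reducible apply eqPE | with_reducible apply eqPE' | with_reducible exact IntF.id | with_reducible exact IntF.fst' | with_reducible exact IntF.snd' | with_reducible exact IntF.const _ | with_reducible exact Int.const _ | assumption | with_reducible apply Int.and | with_reducible apply Int.or | with_reducible apply Int.not | with_reducible apply Int.imp | with_reducible apply Int.iff | with_reducible apply Int.ne | with_reducible apply Int.eq | with_reducible apply Int.mem | with_reducible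 apply Int.subset | with_reducible apply Int.ltN | with_reducible apply Int.leN | with_reducible_and_instances apply Int.le | with_reducible_and_instances apply Int.lt | with_reducible apply Int.all | with_reducible apply Int.ex | with_reducible apply IntF.fst | with_reducible apply IntF.snd | with_reducible apply IntF.app | with_reducible apply IntF.inl | with_reducible apply IntF.inr | with_reducible_and_instances apply IntF.mul | with_reducible_and_instances apply IntF.inv | with_reducible_and_instances apply IntF.add | with_reducible_and_instances apply IntF.sub | with_reducible_and_instances apply IntF.neg | with_reducible_and_instances apply IntF.smul | with_reducible apply Int.fin | with_reducible apply IntF.sep | with_reducible apply IntF.lam | with_reducible apply IntF.insert | with_reducible apply IntF.singleton | with_reducible apply IntF.union | with_reducible apply IntF.iimage | with_reducible apply IntF.ite | with_reducible apply IntF.the | with_reducible apply IntF.irec | with_reducible apply IntF.succ | with_reducible apply IntF.val | with_reducible apply IntF.mk | (with_reducible refine Int.comp ?_ ?_; assumption) | (with_reducible refine Int.comp₂ ?_ ?_ ?_; assumption)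 | (with_reducible refine Int.comp₃ ?_ ?_ ?_ ?_; assumption) | (with_reducible refine Int.comp₄ ?_ ?_ ?_ ?_ ?_; assumption) | (with_reducible refine IntF.comp ?_ ?_; assumption) | (with_reducible refine IntF.comp₂ ?_ ?_ ?_; assumption) | (with_reducible refine IntF.comp₃ ?_ ?_ ?_ ?_; assumption) | with_reducible apply IntF.pair))
  have hI' : Int N (fun q => ¬ Sg τ R n y q) := by (repeat' (first | with_reducible apply memPE | with_reducible apply memPE' | with_reducible apply memPE'' | with_reducible apply memCode | with_reducible apply memCodeP | with_reducible apply memCode₂ | with_reducible apply eqPE | with_reducible apply eqPE' | with_reducible exact IntF.id | with_reducible exact IntF.fst' | with_reducible exact IntF.snd' | with_reducible exact IntF.const _ | with_reducible exact Int.const _ | assumption | with_reducible apply Int.and | with_reducible apply Int.or | with_reducible apply Int.not | with_reducible apply Int.imp | with_reducible apply Int.iff | with_reducible apply Int.ne | with_reducible apply Int.eq | with_reducible apply Int.mem | with_reducible apply Int.subset | with_reducible apply Int.ltN | with_reducible apply Int.leN | with_reducible_and_instances apply Int.le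 | with_reducible_and_instances apply Int.lt | with_reducible apply Int.all | with_reducible apply Int.ex | with_reducible apply IntF.fst | with_reducible apply IntF.snd | with_reducible apply IntF.app | with_reducible apply IntF.inl | with_reducible apply IntF.inr | with_reducible_and_instances apply IntF.mul | with_reducible_and_instances apply IntF.inv | with_reducible_and_instances apply IntF.add | with_reducible_and_instances apply IntF.sub | with_reducible_and_instances apply IntF.neg | with_reducible_and_instances apply IntF.smul | with_reducible apply Int.fin | with_reducible apply IntF.sep | with_reducible apply IntF.lam | with_reducible apply IntF.insert | with_reducible apply IntF.singleton | with_reducible apply IntF.union | with_reducible apply IntF.iimage | with_reducible apply IntF.ite | with_reducible apply IntF.the | with_reducible apply IntF.irec | with_reducible apply IntF.succ | with_reducible apply IntF.val | with_reducible apply IntF.mk | (with_reducible refine Int.comp ?_ ?_; assumption) | (with_reducible refine Int.comp₂ ?_ ?_ ?_; assumption) | (with_reducible refine Int.comp₃ ?_ ?_ ?_ ?_; assumption) | (with_reducible refine Int.comp₄ ?_ ?_ ?_ ?_ ?_; assumption)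 | (with_reducible refine IntF.comp ?_ ?_; assumption) | (with_reducible refine IntF.comp₂ ?_ ?_ ?_; assumption) | (with_reducible refine IntF.comp₃ ?_ ?_ ?_ ?_; assumption) | with_reducible apply IntF.pair))
  refine ch_clopen D.ch D.top D.opn (opC_sg D.ch hy fun q => mem_sep hI)
    (opC_sg' D.ch hy (W := sep N fun q => ¬ Sg τ R n y q) fun q => mem_sep hI') fun q => ?_
  rw [mem_sep hI, mem_sep hI']

theorem Dat.clopen_sg' {n : INat N} {y : Helper672.Plain.El x} (hy : R (n, (y, y))) :
    IsClopen t x (code (sep N fun q => ¬ Sg τ R n y q)) := by
  have hS := int_Sg D.ch
  have hI : Int N (fun q => Sg τ R n y q) := by (repeat' (first | with_reducible apply memPE | with_reducible apply memPE' | with_reducible apply memPE'' | with_reducible apply memCode | with_reducible apply memCodeP | with_reducible apply memCode₂ | with_reducible apply eqPE | with_reducible apply eqPE' | with_reducible exact IntF.id | with_reducible exact IntF.fst' | with_reducible exact IntF.snd' | with_reducible exact IntF.const _ | with_reducible exact Int.const _ | assumption | with_reducible apply Int.and | with_reducible apply Int.or | with_reducible apply Int.not | with_reducible apply Int.imp | with_reducible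 apply Int.iff | with_reducible apply Int.ne | with_reducible apply Int.eq | with_reducible apply Int.mem | with_reducible apply Int.subset | with_reducible apply Int.ltN | with_reducible apply Int.leN | with_reducible_and_instances apply Int.le | with_reducible_and_instances apply Int.lt | with_reducible apply Int.all | with_reducible apply Int.ex | with_reducible apply IntF.fst | with_reducible apply IntF.snd | with_reducible apply IntF.app | with_reducible apply IntF.inl | with_reducible apply IntF.inr | with_reducible_and_instances apply IntF.mul | with_reducible_and_instances apply IntF.inv | with_reducible_and_instances apply IntF.add | with_reducible_and_instances apply IntF.sub | with_reducible_and_instances apply IntF.neg | with_reducible_and_instances apply IntF.smul | with_reducible apply Int.fin | with_reducible apply IntF.sep | with_reducible apply IntF.lam | with_reducible apply IntF.insert | with_reducible apply IntF.singleton | with_reducible apply IntF.union | with_reducible apply IntF.iimage | with_reducible apply IntF.ite | with_reducible apply IntF.the | with_reducible apply IntF.irec | with_reducible apply IntF.succ | with_reducible apply IntF.val | with_reducible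 apply IntF.mk | (with_reducible refine Int.comp ?_ ?_; assumption) | (with_reducible refine Int.comp₂ ?_ ?_ ?_; assumption) | (with_reducible refine Int.comp₃ ?_ ?_ ?_ ?_; assumption) | (with_reducible refine Int.comp₄ ?_ ?_ ?_ ?_ ?_; assumption) | (with_reducible refine IntF.comp ?_ ?_; assumption) | (with_reducible refine IntF.comp₂ ?_ ?_ ?_; assumption) | (with_reducible refine IntF.comp₃ ?_ ?_ ?_ ?_; assumption) | with_reducible apply IntF.pair))
  have hI' : Int N (fun q => ¬ Sg τ R n y q) := by (repeat' (first | with_reducible apply memPE | with_reducible apply memPE' | with_reducible apply memPE'' | with_reducible apply memCode | with_reducible apply memCodeP | with_reducible apply memCode₂ | with_reducible apply eqPE | with_reducible apply eqPE' | with_reducible exact IntF.id | with_reducible exact IntF.fst' | with_reducible exact IntF.snd' | with_reducible exact IntF.const _ | with_reducible exact Int.const _ | assumption | with_reducible apply Int.and | with_reducible apply Int.or | with_reducible apply Int.not | with_reducible apply Int.imp | with_reducible apply Int.iff | with_reducible apply Int.ne | with_reducible apply Int.eq | with_reducible apply Int.mem | with_reducible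 apply Int.subset | with_reducible apply Int.ltN | with_reducible apply Int.leN | with_reducible_and_instances apply Int.le | with_reducible_and_instances apply Int.lt | with_reducible apply Int.all | with_reducible apply Int.ex | with_reducible apply IntF.fst | with_reducible apply IntF.snd | with_reducible apply IntF.app | with_reducible apply IntF.inl | with_reducible apply IntF.inr | with_reducible_and_instances apply IntF.mul | with_reducible_and_instances apply IntF.inv | with_reducible_and_instances apply IntF.add | with_reducible_and_instances apply IntF.sub | with_reducible_and_instances apply IntF.neg | with_reducible_and_instances apply IntF.smul | with_reducible apply Int.fin | with_reducible apply IntF.sep | with_reducible apply IntF.lam | with_reducible apply IntF.insert | with_reducible apply IntF.singleton | with_reducible apply IntF.union | with_reducible apply IntF.iimage | with_reducible apply IntF.ite | with_reducible apply IntF.the | with_reducible apply IntF.irec | with_reducible apply IntF.succ | with_reducible apply IntF.val | with_reducible apply IntF.mk | (with_reducible refine Int.comp ?_ ?_; assumption) | (with_reducible refine Int.comp₂ ?_ ?_ ?_; assumption)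 | (with_reducible refine Int.comp₃ ?_ ?_ ?_ ?_; assumption) | (with_reducible refine Int.comp₄ ?_ ?_ ?_ ?_ ?_; assumption) | (with_reducible refine IntF.comp ?_ ?_; assumption) | (with_reducible refine IntF.comp₂ ?_ ?_ ?_; assumption) | (with_reducible refine IntF.comp₃ ?_ ?_ ?_ ?_; assumption) | with_reducible apply IntF.pair))
  refine ch_clopen D.ch D.top D.opn (opC_sg' D.ch hy fun q => mem_sep hI')
    (opC_sg D.ch hy (W := sep N fun q => Sg τ R n y q) fun q => mem_sep hI) fun q => ?_
  rw [mem_sep hI, mem_sep hI', not_not]

/-- The sets of the points up to `τ n`. -/
theorem Dat.seq_lo' (n : INat N) {c : N} (hc : ∀ z, Helper672.Plain.Mem z c ↔ ∃ h : Helper672.Plain.Mem z x', Lo τ R n (i (mkE z h))) :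
    SeqC t' x' c := by
  have hS := int_Sg D.ch
  have hi := D.iI
  obtain ⟨y, hy, h1, h2⟩ := seq_lo D.ch n
  have hI : ∀ m, Int N (fun q => Sg τ R n (y m) q) := fun m => by (repeat' (first | with_reducible apply memPE | with_reducible apply memPE' | with_reducible apply memPE'' | with_reducible apply memCode | with_reducible apply memCodeP | with_reducible apply memCode₂ | with_reducible apply eqPE | with_reducible apply eqPE' | with_reducible exact IntF.id | with_reducible exact IntF.fst' | with_reducible exact IntF.snd' | with_reducible exact IntF.const _ | with_reducible exact Int.const _ | assumption | with_reducible apply Int.and | with_reducible apply Int.or | with_reducible apply Int.not | with_reducible apply Int.imp | with_reducible apply Int.iff | with_reducible apply Int.ne | with_reducible apply Int.eq | with_reducible apply Int.mem | with_reducible apply Int.subset | with_reducible apply Int.ltN | with_reducible apply Int.leN | with_reducible_and_instances apply Int.le | with_reducible_and_instances apply Int.lt | with_reducible apply Int.all | with_reducible apply Int.ex | with_reducible apply IntF.fst | with_reducible apply IntF.snd | with_reducible apply IntF.app | with_reducible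 apply IntF.inl | with_reducible apply IntF.inr | with_reducible_and_instances apply IntF.mul | with_reducible_and_instances apply IntF.inv | with_reducible_and_instances apply IntF.add | with_reducible_and_instances apply IntF.sub | with_reducible_and_instances apply IntF.neg | with_reducible_and_instances apply IntF.smul | with_reducible apply Int.fin | with_reducible apply IntF.sep | with_reducible apply IntF.lam | with_reducible apply IntF.insert | with_reducible apply IntF.singleton | with_reducible apply IntF.union | with_reducible apply IntF.iimage | with_reducible apply IntF.ite | with_reducible apply IntF.the | with_reducible apply IntF.irec | with_reducible apply IntF.succ | with_reducible apply IntF.val | with_reducible apply IntF.mk | (with_reducible refine Int.comp ?_ ?_; assumption) | (with_reducible refine Int.comp₂ ?_ ?_ ?_; assumption) | (with_reducible refine Int.comp₃ ?_ ?_ ?_ ?_; assumption) | (with_reducible refine Int.comp₄ ?_ ?_ ?_ ?_ ?_; assumption) | (with_reducible refine IntF.comp ?_ ?_; assumption) | (with_reducible refine IntF.comp₂ ?_ ?_ ?_; assumption) | (with_reducible refine IntF.comp₃ ?_ ?_ ?_ ?_; assumption) | with_reducible apply IntF.pair))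
  have hI' : ∀ m, Int N (fun q : Helper672.Plain.El x' => Sg τ R n (y m) (i q)) := fun m => by (repeat' (first | with_reducible apply memPE | with_reducible apply memPE' | with_reducible apply memPE'' | with_reducible apply memCode | with_reducible apply memCodeP | with_reducible apply memCode₂ | with_reducible apply eqPE | with_reducible apply eqPE' | with_reducible exact IntF.id | with_reducible exact IntF.fst' | with_reducible exact IntF.snd' | with_reducible exact IntF.const _ | with_reducible exact Int.const _ | assumption | with_reducible apply Int.and | with_reducible apply Int.or | with_reducible apply Int.not | with_reducible apply Int.imp | with_reducible apply Int.iff | with_reducible apply Int.ne | with_reducible apply Int.eq | with_reducible apply Int.mem | with_reducible apply Int.subset | with_reducible apply Int.ltN | with_reducible apply Int.leN | with_reducible_and_instances apply Int.le | with_reducible_and_instances apply Int.lt | with_reducible apply Int.all | with_reducible apply Int.ex | with_reducible apply IntF.fst | with_reducible apply IntF.snd | with_reducible apply IntF.app | with_reducible apply IntF.inl | with_reducible apply IntF.inr | with_reducible_and_instances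 apply IntF.mul | with_reducible_and_instances apply IntF.inv | with_reducible_and_instances apply IntF.add | with_reducible_and_instances apply IntF.sub | with_reducible_and_instances apply IntF.neg | with_reducible_and_instances apply IntF.smul | with_reducible apply Int.fin | with_reducible apply IntF.sep | with_reducible apply IntF.lam | with_reducible apply IntF.insert | with_reducible apply IntF.singleton | with_reducible apply IntF.union | with_reducible apply IntF.iimage | with_reducible apply IntF.ite | with_reducible apply IntF.the | with_reducible apply IntF.irec | with_reducible apply IntF.succ | with_reducible apply IntF.val | with_reducible apply IntF.mk | (with_reducible refine Int.comp ?_ ?_; assumption) | (with_reducible refine Int.comp₂ ?_ ?_ ?_; assumption) | (with_reducible refine Int.comp₃ ?_ ?_ ?_ ?_; assumption) | (with_reducible refine Int.comp₄ ?_ ?_ ?_ ?_ ?_; assumption) | (with_reducible refine IntF.comp ?_ ?_; assumption) | (with_reducible refine IntF.comp₂ ?_ ?_ ?_; assumption) | (with_reducible refine IntF.comp₃ ?_ ?_ ?_ ?_; assumption) | with_reducible apply IntF.pair))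
  refine ⟨fun m => sep N fun q : Helper672.Plain.El x' => Sg τ R n (y m) (i q), by (repeat' (first | with_reducible apply memPE | with_reducible apply memPE' | with_reducible apply memPE'' | with_reducible apply memCode | with_reducible apply memCodeP | with_reducible apply memCode₂ | with_reducible apply eqPE | with_reducible apply eqPE' | with_reducible exact IntF.id | with_reducible exact IntF.fst' | with_reducible exact IntF.snd' | with_reducible exact IntF.const _ | with_reducible exact Int.const _ | assumption | with_reducible apply Int.and | with_reducible apply Int.or | with_reducible apply Int.not | with_reducible apply Int.imp | with_reducible apply Int.iff | with_reducible apply Int.ne | with_reducible apply Int.eq | with_reducible apply Int.mem | with_reducible apply Int.subset | with_reducible apply Int.ltN | with_reducible apply Int.leN | with_reducible_and_instances apply Int.le | with_reducible_and_instances apply Int.lt | with_reducible apply Int.all | with_reducible apply Int.ex | with_reducible apply IntF.fst | with_reducible apply IntF.snd | with_reducible apply IntF.app | with_reducible apply IntF.inl | with_reducible apply IntF.inr | with_reducible_and_instances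 apply IntF.mul | with_reducible_and_instances apply IntF.inv | with_reducible_and_instances apply IntF.add | with_reducible_and_instances apply IntF.sub | with_reducible_and_instances apply IntF.neg | with_reducible_and_instances apply IntF.smul | with_reducible apply Int.fin | with_reducible apply IntF.sep | with_reducible apply IntF.lam | with_reducible apply IntF.insert | with_reducible apply IntF.singleton | with_reducible apply IntF.union | with_reducible apply IntF.iimage | with_reducible apply IntF.ite | with_reducible apply IntF.the | with_reducible apply IntF.irec | with_reducible apply IntF.succ | with_reducible apply IntF.val | with_reducible apply IntF.mk | (with_reducible refine Int.comp ?_ ?_; assumption) | (with_reducible refine Int.comp₂ ?_ ?_ ?_; assumption) | (with_reducible refine Int.comp₃ ?_ ?_ ?_ ?_; assumption) | (with_reducible refine Int.comp₄ ?_ ?_ ?_ ?_ ?_; assumption) | (with_reducible refine IntF.comp ?_ ?_; assumption) | (with_reducible refine IntF.comp₂ ?_ ?_ ?_; assumption) | (with_reducible refine IntF.comp₃ ?_ ?_ ?_ ?_; assumption) | with_reducible apply IntF.pair)), fun m =>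
    D.clopen' (hI m) (D.clopen_sg (h1 m)), fun z => (hc z).trans (exists_congr fun h => ?_)⟩
  rw [h2]
  exact forall_congr' fun m => (mem_sep (hI' m)).symm

/-- The sets of the points from `τ n` on. -/
theorem Dat.seq_hi' (n : INat N) {c : N}
    (hc : ∀ z, Helper672.Plain.Mem z c ↔ ∃ h : Helper672.Plain.Mem z x', ¬ Lo τ R n (i (mkE z h)) ∨ i (mkE z h) = τ n) :
    SeqC t' x' c := by
  have hS := int_Sg D.ch
  have hi := D.iI
  rcases INat.eq_zero_or_succ n with rfl | ⟨k, rfl⟩
  · have hcx : c = x' := extN fun z => by
      rw [hc z]
      refine ⟨fun h => h.1, fun h => ⟨h, ?_⟩⟩
      by_contra h1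
      push Not at h1
      exact h1.2 ((lo_zero D.ch).1 h1.1)
    have h1 : c = code (sep N fun _ : Helper672.Plain.El x' => True) := extN fun z => by
      rw [hcx, show Helper672.Plain.Mem z (code (sep N fun _ : Helper672.Plain.El x' => True)) ↔ _ from mem_cpE]
      exact ⟨fun h => ⟨h, (mem_sep (Int.const _)).2 trivial⟩, fun h => h.1⟩
    refine ⟨fun _ => sep N fun _ : Helper672.Plain.El x' => True, IntF.const _, fun m => ?_, fun z => ?_⟩
    · rw [← h1, hcx]
      exact univ_clopen D.top'
    · rw [hcx]
      exact ⟨fun h => ⟨h, fun m => (mem_sep (Int.const _)).2 trivial⟩, fun h => h.1⟩
  · obtain ⟨y, hy, h1, h2⟩ := seq_hi D.ch k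
    have hI : ∀ m, Int N (fun q => ¬ Sg τ R k (y m) q) := fun m => by (repeat' (first | with_reducible apply memPE | with_reducible apply memPE' | with_reducible apply memPE'' | with_reducible apply memCode | with_reducible apply memCodeP | with_reducible apply memCode₂ | with_reducible apply eqPE | with_reducible apply eqPE' | with_reducible exact IntF.id | with_reducible exact IntF.fst' | with_reducible exact IntF.snd' | with_reducible exact IntF.const _ | with_reducible exact Int.const _ | assumption | with_reducible apply Int.and | with_reducible apply Int.or | with_reducible apply Int.not | with_reducible apply Int.imp | with_reducible apply Int.iff | with_reducible apply Int.ne | with_reducible apply Int.eq | with_reducible apply Int.mem | with_reducible apply Int.subset | with_reducible apply Int.ltN | with_reducible apply Int.leN | with_reducible_and_instances apply Int.le | with_reducible_and_instances apply Int.lt | with_reducible apply Int.all | with_reducible apply Int.ex | with_reducible apply IntF.fst | with_reducible apply IntF.snd | with_reducible apply IntF.app | with_reducible apply IntF.inl | with_reducible apply IntF.inr | with_reducible_and_instances apply IntF.mul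 | with_reducible_and_instances apply IntF.inv | with_reducible_and_instances apply IntF.add | with_reducible_and_instances apply IntF.sub | with_reducible_and_instances apply IntF.neg | with_reducible_and_instances apply IntF.smul | with_reducible apply Int.fin | with_reducible apply IntF.sep | with_reducible apply IntF.lam | with_reducible apply IntF.insert | with_reducible apply IntF.singleton | with_reducible apply IntF.union | with_reducible apply IntF.iimage | with_reducible apply IntF.ite | with_reducible apply IntF.the | with_reducible apply IntF.irec | with_reducible apply IntF.succ | with_reducible apply IntF.val | with_reducible apply IntF.mk | (with_reducible refine Int.comp ?_ ?_; assumption) | (with_reducible refine Int.comp₂ ?_ ?_ ?_; assumption) | (with_reducible refine Int.comp₃ ?_ ?_ ?_ ?_; assumption) | (with_reducible refine Int.comp₄ ?_ ?_ ?_ ?_ ?_; assumption) | (with_reducible refine IntF.comp ?_ ?_; assumption) | (with_reducible refine IntF.comp₂ ?_ ?_ ?_; assumption) | (with_reducible refine IntF.comp₃ ?_ ?_ ?_ ?_; assumption) | with_reducible apply IntF.pair))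
    have hI' : ∀ m, Int N (fun q : Helper672.Plain.El x' => ¬ Sg τ R k (y m) (i q)) := fun m => by (repeat' (first | with_reducible apply memPE | with_reducible apply memPE' | with_reducible apply memPE'' | with_reducible apply memCode | with_reducible apply memCodeP | with_reducible apply memCode₂ | with_reducible apply eqPE | with_reducible apply eqPE' | with_reducible exact IntF.id | with_reducible exact IntF.fst' | with_reducible exact IntF.snd' | with_reducible exact IntF.const _ | with_reducible exact Int.const _ | assumption | with_reducible apply Int.and | with_reducible apply Int.or | with_reducible apply Int.not | with_reducible apply Int.imp | with_reducible apply Int.iff | with_reducible apply Int.ne | with_reducible apply Int.eq | with_reducible apply Int.mem | with_reducible apply Int.subset | with_reducible apply Int.ltN | with_reducible apply Int.leN | with_reducible_and_instances apply Int.le | with_reducible_and_instances apply Int.lt | with_reducible apply Int.all | with_reducible apply Int.ex | with_reducible apply IntF.fst | with_reducible apply IntF.snd | with_reducible apply IntF.app | with_reducible apply IntF.inl | with_reducible apply IntF.inr | with_reducible_and_instances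 apply IntF.mul | with_reducible_and_instances apply IntF.inv | with_reducible_and_instances apply IntF.add | with_reducible_and_instances apply IntF.sub | with_reducible_and_instances apply IntF.neg | with_reducible_and_instances apply IntF.smul | with_reducible apply Int.fin | with_reducible apply IntF.sep | with_reducible apply IntF.lam | with_reducible apply IntF.insert | with_reducible apply IntF.singleton | with_reducible apply IntF.union | with_reducible apply IntF.iimage | with_reducible apply IntF.ite | with_reducible apply IntF.the | with_reducible apply IntF.irec | with_reducible apply IntF.succ | with_reducible apply IntF.val | with_reducible apply IntF.mk | (with_reducible refine Int.comp ?_ ?_; assumption) | (with_reducible refine Int.comp₂ ?_ ?_ ?_; assumption) | (with_reducible refine Int.comp₃ ?_ ?_ ?_ ?_; assumption) | (with_reducible refine Int.comp₄ ?_ ?_ ?_ ?_ ?_; assumption) | (with_reducible refine IntF.comp ?_ ?_; assumption) | (with_reducible refine IntF.comp₂ ?_ ?_ ?_; assumption) | (with_reducible refine IntF.comp₃ ?_ ?_ ?_ ?_; assumption) | with_reducible apply IntF.pair))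
    refine ⟨fun m => sep N fun q : Helper672.Plain.El x' => ¬ Sg τ R k (y m) (i q), by (repeat' (first | with_reducible apply memPE | with_reducible apply memPE' | with_reducible apply memPE'' | with_reducible apply memCode | with_reducible apply memCodeP | with_reducible apply memCode₂ | with_reducible apply eqPE | with_reducible apply eqPE' | with_reducible exact IntF.id | with_reducible exact IntF.fst' | with_reducible exact IntF.snd' | with_reducible exact IntF.const _ | with_reducible exact Int.const _ | assumption | with_reducible apply Int.and | with_reducible apply Int.or | with_reducible apply Int.not | with_reducible apply Int.imp | with_reducible apply Int.iff | with_reducible apply Int.ne | with_reducible apply Int.eq | with_reducible apply Int.mem | with_reducible apply Int.subset | with_reducible apply Int.ltN | with_reducible apply Int.leN | with_reducible_and_instances apply Int.le | with_reducible_and_instances apply Int.lt | with_reducible apply Int.all | with_reducible apply Int.ex | with_reducible apply IntF.fst | with_reducible apply IntF.snd | with_reducible apply IntF.app | with_reducible apply IntF.inl | with_reducible apply IntF.inr | with_reducible_and_instances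 apply IntF.mul | with_reducible_and_instances apply IntF.inv | with_reducible_and_instances apply IntF.add | with_reducible_and_instances apply IntF.sub | with_reducible_and_instances apply IntF.neg | with_reducible_and_instances apply IntF.smul | with_reducible apply Int.fin | with_reducible apply IntF.sep | with_reducible apply IntF.lam | with_reducible apply IntF.insert | with_reducible apply IntF.singleton | with_reducible apply IntF.union | with_reducible apply IntF.iimage | with_reducible apply IntF.ite | with_reducible apply IntF.the | with_reducible apply IntF.irec | with_reducible apply IntF.succ | with_reducible apply IntF.val | with_reducible apply IntF.mk | (with_reducible refine Int.comp ?_ ?_; assumption) | (with_reducible refine Int.comp₂ ?_ ?_ ?_; assumption) | (with_reducible refine Int.comp₃ ?_ ?_ ?_ ?_; assumption) | (with_reducible refine Int.comp₄ ?_ ?_ ?_ ?_ ?_; assumption) | (with_reducible refine IntF.comp ?_ ?_; assumption) | (with_reducible refine IntF.comp₂ ?_ ?_ ?_; assumption) | (with_reducible refine IntF.comp₃ ?_ ?_ ?_ ?_; assumption) | with_reducible apply IntF.pair)), fun m =>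
      D.clopen' (hI m) (D.clopen_sg' (h1 m)), fun z => (hc z).trans (exists_congr fun h => ?_)⟩
    rw [h2]
    exact forall_congr' fun m => (mem_sep (hI' m)).symm

theorem Dat.cpt_lo {n : INat N} {c : N}
    (hc : ∀ z, Helper672.Plain.Mem z c ↔ ∃ h : Helper672.Plain.Mem z x', Lo τ R n (i (mkE z h))) : IsCompact t' c := by
  refine isCompact_sub D.sub (fun z hz => ((hc z).1 hz).1) ?_
  refine ch_compact_lo D.ch D.top D.opn (n := n) fun z => (hc z).trans ⟨?_, ?_⟩
  · rintro ⟨h1, h2⟩
    rw [D.mkE_i] at h2
    exact ⟨D.xx h1, h2⟩
  · rintro ⟨h1, h2⟩
    have h3 : Helper672.Plain.Mem z x' := (D.mem z).2 ⟨h1, fun h3 => lo_o D.ch (h3 ▸ h2)⟩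
    refine ⟨h3, ?_⟩
    rw [D.mkE_i]
    exact h2

/-- The retraction of the subspace to the set of the points up to `τ n`. -/
theorem Dat.exists_retr (n : INat N) {y s : N}
    (hy : ∀ z, Helper672.Plain.Mem z y ↔ ∃ h : Helper672.Plain.Mem z x', Lo τ R n (i (mkE z h))) (hs : IsSubspace s y t') :
    ∃ ρ : Helper672.Plain.El x' → Helper672.Plain.El y, IntF N ρ ∧ (∀ p : Helper672.Plain.El x', Helper672.Plain.Mem p.1 y → (ρ p).1 = p.1) ∧
      ∀ v, Helper672.Plain.Mem v s → ∃ u, Helper672.Plain.Mem u t' ∧ ∀ p : Helper672.Plain.El x', (Helper672.Plain.Mem p.1 u ↔ Helper672.Plain.Mem (ρ p).1 v) := by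
  have hL := int_Lo D.ch
  have hi := D.iI
  have hτ := D.ch.intτ
  have hyi : ∀ p : Helper672.Plain.El x', Helper672.Plain.Mem p.1 y ↔ Lo τ R n (i p) := fun p =>
    (hy p.1).trans ⟨fun h => h.2, fun h => ⟨p.2, h⟩⟩
  have hτy : Helper672.Plain.Mem (τ n).1 y := by
    obtain ⟨q, hq⟩ := D.i_surj (D.ch.oτ n)
    have h1 : q.1 = (τ n).1 := (D.i_val q).symm.trans (congrArg Subtype.val hq)
    rw [← h1]
    refine (hyi q).2 ?_
    rw [hq]
    exact (lo_τ D.ch).2 le_rfl
  have hex : ∀ p : Helper672.Plain.El x', ∃ q : Helper672.Plain.El y, (Helper672.Plain.Mem p.1 y ∧ q.1 = p.1) ∨ (¬ Helper672.Plain.Mem p.1 y ∧ q.1 = (τ n).1) := by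
    intro p
    by_cases hp : Helper672.Plain.Mem p.1 y
    · exact ⟨mkE p.1 hp, Or.inl ⟨hp, rfl⟩⟩
    · exact ⟨mkE (τ n).1 hτy, Or.inr ⟨hp, rfl⟩⟩
  choose ρ hρ using hex
  have hρI : IntF N ρ := by
    refine IntF.of_unique (p := fun (p : Helper672.Plain.El x') (q : Helper672.Plain.El y) =>
      (Helper672.Plain.Mem p.1 y ∧ q.1 = p.1) ∨ (¬ Helper672.Plain.Mem p.1 y ∧ q.1 = (τ n).1)) (by (repeat' (first | with_reducible apply memPE | with_reducible apply memPE' | with_reducible apply memPE'' | with_reducible apply memCode | with_reducible apply memCodeP | with_reducible apply memCode₂ | with_reducible apply eqPE | with_reducible apply eqPE' | with_reducible exact IntF.id | with_reducible exact IntF.fst' | with_reducible exact IntF.snd' | with_reducible exact IntF.const _ | with_reducible exact Int.const _ | assumption | with_reducible apply Int.and | with_reducible apply Int.or | with_reducible apply Int.not | with_reducible apply Int.imp | with_reducible apply Int.iff | with_reducible apply Int.ne | with_reducible apply Int.eq | with_reducible apply Int.mem | with_reducible apply Int.subset | with_reducible apply Int.ltN | with_reducible apply Int.leN | with_reducible_and_instances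 apply Int.le | with_reducible_and_instances apply Int.lt | with_reducible apply Int.all | with_reducible apply Int.ex | with_reducible apply IntF.fst | with_reducible apply IntF.snd | with_reducible apply IntF.app | with_reducible apply IntF.inl | with_reducible apply IntF.inr | with_reducible_and_instances apply IntF.mul | with_reducible_and_instances apply IntF.inv | with_reducible_and_instances apply IntF.add | with_reducible_and_instances apply IntF.sub | with_reducible_and_instances apply IntF.neg | with_reducible_and_instances apply IntF.smul | with_reducible apply Int.fin | with_reducible apply IntF.sep | with_reducible apply IntF.lam | with_reducible apply IntF.insert | with_reducible apply IntF.singleton | with_reducible apply IntF.union | with_reducible apply IntF.iimage | with_reducible apply IntF.ite | with_reducible apply IntF.the | with_reducible apply IntF.irec | with_reducible apply IntF.succ | with_reducible apply IntF.val | with_reducible apply IntF.mk | (with_reducible refine Int.comp ?_ ?_; assumption) | (with_reducible refine Int.comp₂ ?_ ?_ ?_; assumption) | (with_reducible refine Int.comp₃ ?_ ?_ ?_ ?_; assumption) | (with_reducible refine Int.comp₄ ?_ ?_ ?_ ?_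 ?_; assumption) | (with_reducible refine IntF.comp ?_ ?_; assumption) | (with_reducible refine IntF.comp₂ ?_ ?_ ?_; assumption) | (with_reducible refine IntF.comp₃ ?_ ?_ ?_ ?_; assumption) | with_reducible apply IntF.pair))) hρ ?_
    rintro p a b (⟨h1, h2⟩ | ⟨h1, h2⟩) (⟨h3, h4⟩ | ⟨h3, h4⟩)
    · exact Subtype.ext (h2.trans h4.symm)
    · exact absurd h1 h3
    · exact absurd h3 h1
    · exact Subtype.ext (h2.trans h4.symm)
  refine ⟨ρ, hρI, fun p hp => ?_, fun v hv => ?_⟩
  · rcases hρ p with ⟨h1, h2⟩ | ⟨h1, h2⟩
    · exact h2
    · exact absurd hp h1
  · obtain ⟨v', hv', h1⟩ := (hs v).1 hv
    obtain ⟨v'', hv'', h2⟩ := (D.sub v').1 hv'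
    obtain ⟨V, rfl, hV⟩ := exists_code (a := x) (D.top.sub _ hv'')
    have hI : Int N (fun p : Helper672.Plain.El x => (Lo τ R n p ∧ p ∈ V) ∨ (¬ Lo τ R n p ∧ τ n ∈ V)) := by (repeat' (first | with_reducible apply memPE | with_reducible apply memPE' | with_reducible apply memPE'' | with_reducible apply memCode | with_reducible apply memCodeP | with_reducible apply memCode₂ | with_reducible apply eqPE | with_reducible apply eqPE' | with_reducible exact IntF.id | with_reducible exact IntF.fst' | with_reducible exact IntF.snd' | with_reducible exact IntF.const _ | with_reducible exact Int.const _ | assumption | with_reducible apply Int.and | with_reducible apply Int.or | with_reducible apply Int.not | with_reducible apply Int.imp | with_reducible apply Int.iff | with_reducible apply Int.ne | with_reducible apply Int.eq | with_reducible apply Int.mem | with_reducible apply Int.subset | with_reducible apply Int.ltN | with_reducible apply Int.leN | with_reducible_and_instances apply Int.le | with_reducible_and_instances apply Int.lt | with_reducible apply Int.all | with_reducible apply Int.ex | with_reducible apply IntF.fst | with_reducible apply IntF.snd | with_reducible apply IntF.app |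 with_reducible apply IntF.inl | with_reducible apply IntF.inr | with_reducible_and_instances apply IntF.mul | with_reducible_and_instances apply IntF.inv | with_reducible_and_instances apply IntF.add | with_reducible_and_instances apply IntF.sub | with_reducible_and_instances apply IntF.neg | with_reducible_and_instances apply IntF.smul | with_reducible apply Int.fin | with_reducible apply IntF.sep | with_reducible apply IntF.lam | with_reducible apply IntF.insert | with_reducible apply IntF.singleton | with_reducible apply IntF.union | with_reducible apply IntF.iimage | with_reducible apply IntF.ite | with_reducible apply IntF.the | with_reducible apply IntF.irec | with_reducible apply IntF.succ | with_reducible apply IntF.val | with_reducible apply IntF.mk | (with_reducible refine Int.comp ?_ ?_; assumption) | (with_reducible refine Int.comp₂ ?_ ?_ ?_; assumption) | (with_reducible refine Int.comp₃ ?_ ?_ ?_ ?_; assumption) | (with_reducible refine Int.comp₄ ?_ ?_ ?_ ?_ ?_; assumption) | (with_reducible refine IntF.comp ?_ ?_; assumption) | (with_reducible refine IntF.comp₂ ?_ ?_ ?_; assumption) | (with_reducible refine IntF.comp₃ ?_ ?_ ?_ ?_; assumption) | with_reducible apply IntF.pair))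
    obtain ⟨u, hu⟩ := exists_trace (code (sep N fun p : Helper672.Plain.El x =>
      (Lo τ R n p ∧ p ∈ V) ∨ (¬ Lo τ R n p ∧ τ n ∈ V))) x'
    refine ⟨u, D.sub.trace ((D.opn _).2 (opC_retr D.ch ((D.opn _).1 hv'') fun p => mem_sep hI)) hu,
      fun p => ?_⟩
    have h3 : Helper672.Plain.Mem p.1 u ↔ (Lo τ R n (i p) ∧ i p ∈ V) ∨ (¬ Lo τ R n (i p) ∧ τ n ∈ V) := by
      rw [hu p.1, ← D.i_val p, show Helper672.Plain.Mem (i p).1 (code (sep N fun p : Helper672.Plain.El x =>
        (Lo τ R n p ∧ p ∈ V) ∨ (¬ Lo τ R n p ∧ τ n ∈ V))) ↔ _ from mem_cpE', mem_sep hI]
      exact ⟨fun h => h.1, fun h => ⟨h, by rw [D.i_val]; exact p.2⟩⟩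
    rw [h3, h1, h2]
    rcases hρ p with ⟨h4, h5⟩ | ⟨h4, h5⟩
    · have h6 := (hyi p).1 h4
      rw [h5]
      constructor
      · rintro (⟨h7, h8⟩ | ⟨h7, h8⟩)
        · exact ⟨⟨by rw [← D.i_val]; exact (hV _).1 h8, p.2⟩, h4⟩
        · exact absurd h6 h7
      · rintro ⟨⟨h7, -⟩, -⟩
        exact Or.inl ⟨h6, (hV _).2 (by rw [D.i_val]; exact h7)⟩
    · have h6 : ¬ Lo τ R n (i p) := fun h => h4 ((hyi p).2 h)
      rw [h5]
      constructor
      · rintro (⟨h7, h8⟩ | ⟨h7, h8⟩)
        · exact absurd h7 h6
        · exact ⟨⟨(hV _).1 h8, ((hy _).1 hτy).1⟩, hτy⟩
      · rintro ⟨⟨h7, -⟩, -⟩
        exact Or.inr ⟨h6, (hV _).2 h7⟩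

theorem Dat.lo_nc (n : INat N) {y s : N}
    (hy : ∀ z, Helper672.Plain.Mem z y ↔ ∃ h : Helper672.Plain.Mem z x', Lo τ R n (i (mkE z h))) (hs : IsSubspace s y t') :
    IsNCompact s y := by
  have hyx : ∀ z, Helper672.Plain.Mem z y → Helper672.Plain.Mem z x' := fun z hz => ((hy z).1 hz).1
  exact isNCompact (isTopology_sub D.top' hyx hs) (isT1_sub hs hyx D.T1') (isZeroDim_sub hs hyx D.zd')
    (isCompact_sub hs (fun z hz => hz) (D.cpt_lo hy))

/-- The sequence of the sets of the points up to `τ n`. -/
theorem Dat.exists_A : ∃ (w b : N) (A : Helper672.Plain.El w → Helper672.Plain.El b), IsUnionOf A x' ∧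
    ∀ k, ∃ n : INat N, ∀ z, Helper672.Plain.Mem z (A k).1 ↔ ∃ h : Helper672.Plain.Mem z x', Lo τ R n (i (mkE z h)) := by
  have hL := int_Lo D.ch
  have hi := D.iI
  have hI : ∀ n, Int N (fun q : Helper672.Plain.El x' => Lo τ R n (i q)) := fun n => by (repeat' (first | with_reducible apply memPE | with_reducible apply memPE' | with_reducible apply memPE'' | with_reducible apply memCode | with_reducible apply memCodeP | with_reducible apply memCode₂ | with_reducible apply eqPE | with_reducible apply eqPE' | with_reducible exact IntF.id | with_reducible exact IntF.fst' | with_reducible exact IntF.snd' | with_reducible exact IntF.const _ | with_reducible exact Int.const _ | assumption | with_reducible apply Int.and | with_reducible apply Int.or | with_reducible apply Int.not | with_reducible apply Int.imp | with_reducible apply Int.iff | with_reducible apply Int.ne | with_reducible apply Int.eq | with_reducible apply Int.mem | with_reducible apply Int.subset | with_reducible apply Int.ltN | with_reducible apply Int.leN | with_reducible_and_instances apply Int.le | with_reducible_and_instances apply Int.lt | with_reducible apply Int.all | with_reducible apply Int.ex | with_reducible apply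 IntF.fst | with_reducible apply IntF.snd | with_reducible apply IntF.app | with_reducible apply IntF.inl | with_reducible apply IntF.inr | with_reducible_and_instances apply IntF.mul | with_reducible_and_instances apply IntF.inv | with_reducible_and_instances apply IntF.add | with_reducible_and_instances apply IntF.sub | with_reducible_and_instances apply IntF.neg | with_reducible_and_instances apply IntF.smul | with_reducible apply Int.fin | with_reducible apply IntF.sep | with_reducible apply IntF.lam | with_reducible apply IntF.insert | with_reducible apply IntF.singleton | with_reducible apply IntF.union | with_reducible apply IntF.iimage | with_reducible apply IntF.ite | with_reducible apply IntF.the | with_reducible apply IntF.irec | with_reducible apply IntF.succ | with_reducible apply IntF.val | with_reducible apply IntF.mk | (with_reducible refine Int.comp ?_ ?_; assumption) | (with_reducible refine Int.comp₂ ?_ ?_ ?_; assumption) | (with_reducible refine Int.comp₃ ?_ ?_ ?_ ?_; assumption) | (with_reducible refine Int.comp₄ ?_ ?_ ?_ ?_ ?_; assumption) | (with_reducible refine IntF.comp ?_ ?_; assumption) | (with_reducible refine IntF.comp₂ ?_ ?_ ?_; assumption) | (with_reducible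 refine IntF.comp₃ ?_ ?_ ?_ ?_; assumption) | with_reducible apply IntF.pair))
  have hC : IntF N (fun n : INat N => sep N fun q : Helper672.Plain.El x' => Lo τ R n (i q)) := by (repeat' (first | with_reducible apply memPE | with_reducible apply memPE' | with_reducible apply memPE'' | with_reducible apply memCode | with_reducible apply memCodeP | with_reducible apply memCode₂ | with_reducible apply eqPE | with_reducible apply eqPE' | with_reducible exact IntF.id | with_reducible exact IntF.fst' | with_reducible exact IntF.snd' | with_reducible exact IntF.const _ | with_reducible exact Int.const _ | assumption | with_reducible apply Int.and | with_reducible apply Int.or | with_reducible apply Int.not | with_reducible apply Int.imp | with_reducible apply Int.iff | with_reducible apply Int.ne | with_reducible apply Int.eq | with_reducible apply Int.mem | with_reducible apply Int.subset | with_reducible apply Int.ltN | with_reducible apply Int.leN | with_reducible_and_instances apply Int.le | with_reducible_and_instances apply Int.lt | with_reducible apply Int.all | with_reducible apply Int.ex | with_reducible apply IntF.fst | with_reducible apply IntF.snd | with_reducible apply IntF.app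 | with_reducible apply IntF.inl | with_reducible apply IntF.inr | with_reducible_and_instances apply IntF.mul | with_reducible_and_instances apply IntF.inv | with_reducible_and_instances apply IntF.add | with_reducible_and_instances apply IntF.sub | with_reducible_and_instances apply IntF.neg | with_reducible_and_instances apply IntF.smul | with_reducible apply Int.fin | with_reducible apply IntF.sep | with_reducible apply IntF.lam | with_reducible apply IntF.insert | with_reducible apply IntF.singleton | with_reducible apply IntF.union | with_reducible apply IntF.iimage | with_reducible apply IntF.ite | with_reducible apply IntF.the | with_reducible apply IntF.irec | with_reducible apply IntF.succ | with_reducible apply IntF.val | with_reducible apply IntF.mk | (with_reducible refine Int.comp ?_ ?_; assumption) | (with_reducible refine Int.comp₂ ?_ ?_ ?_; assumption) | (with_reducible refine Int.comp₃ ?_ ?_ ?_ ?_; assumption) | (with_reducible refine Int.comp₄ ?_ ?_ ?_ ?_ ?_; assumption) | (with_reducible refine IntF.comp ?_ ?_; assumption) | (with_reducible refine IntF.comp₂ ?_ ?_ ?_; assumption) | (with_reducible refine IntF.comp₃ ?_ ?_ ?_ ?_; assumption) | with_reducible apply IntF.pair))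
  obtain ⟨w, hw⟩ := exists_omega (N := N)
  obtain ⟨ν, A, hA, hν, hν', hAC⟩ := exists_seqmap hw hC (T := dom N (IPow N (Helper672.Plain.El x')))
    fun m => code_mem_dom (M := N) _
  have hm : ∀ k z, Helper672.Plain.Mem z (A k).1 ↔ ∃ h : Helper672.Plain.Mem z x', Lo τ R (ν k) (i (mkE z h)) := by
    intro k z
    rw [hAC k, show Helper672.Plain.Mem z (code (sep N fun q : Helper672.Plain.El x' => Lo τ R (ν k) (i q))) ↔ _
      from mem_cpE]
    exact exists_congr fun h => mem_sep (hI _)
  refine ⟨w, _, A, ⟨hw, hA, fun z => ⟨fun hz => ?_, ?_⟩⟩, fun k => ⟨ν k, hm k⟩⟩
  · obtain ⟨n, hn⟩ := exists_lo D.ch (D.io (mkE z hz))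
    refine ⟨ν.symm n, (hm _ z).2 ⟨hz, ?_⟩⟩
    rw [Equiv.apply_symm_apply]
    exact hn
  · rintro ⟨k, hk⟩
    exact ((hm k z).1 hk).1

/-- Ultrafilters with the countable intersection property are fixed. -/
theorem Dat.fixed {P : N → Prop} (hP : ∀ c, SeqC t' x' c → P c) (hPc : ∀ c, P c → IsClosed t' x' c)
    (hPI : Int N (fun V : IPow N (Helper672.Plain.El x') => P (code V)))
    (hPi : ∀ u v c, P u → P v → (∀ z, Helper672.Plain.Mem z c ↔ Helper672.Plain.Mem z u ∧ Helper672.Plain.Mem z v) → P c) {F : N}
    (hF : IsUltraIn P F) (hcip : IsCIP F) : IsFixed x' F := by
  have hL := int_Lo D.ch
  have hi := D.iI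
  have hτ := D.ch.intτ
  have hIA : ∀ n, Int N (fun q : Helper672.Plain.El x' => Lo τ R n (i q)) := fun n => by (repeat' (first | with_reducible apply memPE | with_reducible apply memPE' | with_reducible apply memPE'' | with_reducible apply memCode | with_reducible apply memCodeP | with_reducible apply memCode₂ | with_reducible apply eqPE | with_reducible apply eqPE' | with_reducible exact IntF.id | with_reducible exact IntF.fst' | with_reducible exact IntF.snd' | with_reducible exact IntF.const _ | with_reducible exact Int.const _ | assumption | with_reducible apply Int.and | with_reducible apply Int.or | with_reducible apply Int.not | with_reducible apply Int.imp | with_reducible apply Int.iff | with_reducible apply Int.ne | with_reducible apply Int.eq | with_reducible apply Int.mem | with_reducible apply Int.subset | with_reducible apply Int.ltN | with_reducible apply Int.leN | with_reducible_and_instances apply Int.le | with_reducible_and_instances apply Int.lt | with_reducible apply Int.all | with_reducible apply Int.ex | with_reducible apply IntF.fst | with_reducible apply IntF.snd | with_reducible apply IntF.app | with_reducible apply IntF.inl | with_reducible apply IntF.inr |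 with_reducible_and_instances apply IntF.mul | with_reducible_and_instances apply IntF.inv | with_reducible_and_instances apply IntF.add | with_reducible_and_instances apply IntF.sub | with_reducible_and_instances apply IntF.neg | with_reducible_and_instances apply IntF.smul | with_reducible apply Int.fin | with_reducible apply IntF.sep | with_reducible apply IntF.lam | with_reducible apply IntF.insert | with_reducible apply IntF.singleton | with_reducible apply IntF.union | with_reducible apply IntF.iimage | with_reducible apply IntF.ite | with_reducible apply IntF.the | with_reducible apply IntF.irec | with_reducible apply IntF.succ | with_reducible apply IntF.val | with_reducible apply IntF.mk | (with_reducible refine Int.comp ?_ ?_; assumption) | (with_reducible refine Int.comp₂ ?_ ?_ ?_; assumption) | (with_reducible refine Int.comp₃ ?_ ?_ ?_ ?_; assumption) | (with_reducible refine Int.comp₄ ?_ ?_ ?_ ?_ ?_; assumption) | (with_reducible refine IntF.comp ?_ ?_; assumption) | (with_reducible refine IntF.comp₂ ?_ ?_ ?_; assumption) | (with_reducible refine IntF.comp₃ ?_ ?_ ?_ ?_; assumption) | with_reducible apply IntF.pair))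
  have hIB : ∀ n, Int N (fun q : Helper672.Plain.El x' => ¬ Lo τ R n (i q) ∨ i q = τ n) := fun n => by (repeat' (first | with_reducible apply memPE | with_reducible apply memPE' | with_reducible apply memPE'' | with_reducible apply memCode | with_reducible apply memCodeP | with_reducible apply memCode₂ | with_reducible apply eqPE | with_reducible apply eqPE' | with_reducible exact IntF.id | with_reducible exact IntF.fst' | with_reducible exact IntF.snd' | with_reducible exact IntF.const _ | with_reducible exact Int.const _ | assumption | with_reducible apply Int.and | with_reducible apply Int.or | with_reducible apply Int.not | with_reducible apply Int.imp | with_reducible apply Int.iff | with_reducible apply Int.ne | with_reducible apply Int.eq | with_reducible apply Int.mem | with_reducible apply Int.subset | with_reducible apply Int.ltN | with_reducible apply Int.leN | with_reducible_and_instances apply Int.le | with_reducible_and_instances apply Int.lt | with_reducible apply Int.all | with_reducible apply Int.ex | with_reducible apply IntF.fst | with_reducible apply IntF.snd | with_reducible apply IntF.app | with_reducible apply IntF.inl | with_reducible apply IntF.inr | with_reducible_and_instances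 apply IntF.mul | with_reducible_and_instances apply IntF.inv | with_reducible_and_instances apply IntF.add | with_reducible_and_instances apply IntF.sub | with_reducible_and_instances apply IntF.neg | with_reducible_and_instances apply IntF.smul | with_reducible apply Int.fin | with_reducible apply IntF.sep | with_reducible apply IntF.lam | with_reducible apply IntF.insert | with_reducible apply IntF.singleton | with_reducible apply IntF.union | with_reducible apply IntF.iimage | with_reducible apply IntF.ite | with_reducible apply IntF.the | with_reducible apply IntF.irec | with_reducible apply IntF.succ | with_reducible apply IntF.val | with_reducible apply IntF.mk | (with_reducible refine Int.comp ?_ ?_; assumption) | (with_reducible refine Int.comp₂ ?_ ?_ ?_; assumption) | (with_reducible refine Int.comp₃ ?_ ?_ ?_ ?_; assumption) | (with_reducible refine Int.comp₄ ?_ ?_ ?_ ?_ ?_; assumption) | (with_reducible refine IntF.comp ?_ ?_; assumption) | (with_reducible refine IntF.comp₂ ?_ ?_ ?_; assumption) | (with_reducible refine IntF.comp₃ ?_ ?_ ?_ ?_; assumption) | with_reducible apply IntF.pair))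
  have hA : ∀ n z, Helper672.Plain.Mem z (code (sep N fun q : Helper672.Plain.El x' => Lo τ R n (i q))) ↔
      ∃ h : Helper672.Plain.Mem z x', Lo τ R n (i (mkE z h)) := fun n z =>
    mem_cpE.trans (exists_congr fun h => mem_sep (hIA n))
  have hB : ∀ n z, Helper672.Plain.Mem z (code (sep N fun q : Helper672.Plain.El x' => ¬ Lo τ R n (i q) ∨ i q = τ n)) ↔
      ∃ h : Helper672.Plain.Mem z x', ¬ Lo τ R n (i (mkE z h)) ∨ i (mkE z h) = τ n := fun n z =>
    mem_cpE.trans (exists_congr fun h => mem_sep (hIB n))
  have hor : ∀ n, Helper672.Plain.Mem (code (sep N fun q : Helper672.Plain.El x' => Lo τ R n (i q))) F ∨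
      Helper672.Plain.Mem (code (sep N fun q : Helper672.Plain.El x' => ¬ Lo τ R n (i q) ∨ i q = τ n)) F := by
    intro n
    refine ultra_or (x := x') (fun v hv => (hPc v hv).1) hPI hPi hF (hP _ (D.seq_lo' n (hA n)))
      (hP _ (D.seq_hi' n (hB n))) fun z hz => ?_
    by_cases h1 : Lo τ R n (i (mkE z hz))
    · exact Or.inl ((hA n z).2 ⟨hz, h1⟩)
    · exact Or.inr ((hB n z).2 ⟨hz, Or.inl h1⟩)
  by_cases hex : ∃ n, Helper672.Plain.Mem (code (sep N fun q : Helper672.Plain.El x' => Lo τ R n (i q))) F
  · obtain ⟨n, hn⟩ := hex
    exact fixed_of_compact D.top' hPc hF.1 hn (D.cpt_lo (hA n))
  · exfalso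
    push Not at hex
    have hBI : IntF N (fun n : INat N => sep N fun q : Helper672.Plain.El x' => ¬ Lo τ R n (i q) ∨ i q = τ n) := by
      (repeat' (first | with_reducible apply memPE | with_reducible apply memPE' | with_reducible apply memPE'' | with_reducible apply memCode | with_reducible apply memCodeP | with_reducible apply memCode₂ | with_reducible apply eqPE | with_reducible apply eqPE' | with_reducible exact IntF.id | with_reducible exact IntF.fst' | with_reducible exact IntF.snd' | with_reducible exact IntF.const _ | with_reducible exact Int.const _ | assumption | with_reducible apply Int.and | with_reducible apply Int.or | with_reducible apply Int.not | with_reducible apply Int.imp | with_reducible apply Int.iff | with_reducible apply Int.ne | with_reducible apply Int.eq | with_reducible apply Int.mem | with_reducible apply Int.subset | with_reducible apply Int.ltN | with_reducible apply Int.leN | with_reducible_and_instances apply Int.le | with_reducible_and_instances apply Int.lt | with_reducible apply Int.all | with_reducible apply Int.ex | with_reducible apply IntF.fst | with_reducible apply IntF.snd | with_reducible apply IntF.app | with_reducible apply IntF.inl | with_reducible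 apply IntF.inr | with_reducible_and_instances apply IntF.mul | with_reducible_and_instances apply IntF.inv | with_reducible_and_instances apply IntF.add | with_reducible_and_instances apply IntF.sub | with_reducible_and_instances apply IntF.neg | with_reducible_and_instances apply IntF.smul | with_reducible apply Int.fin | with_reducible apply IntF.sep | with_reducible apply IntF.lam | with_reducible apply IntF.insert | with_reducible apply IntF.singleton | with_reducible apply IntF.union | with_reducible apply IntF.iimage | with_reducible apply IntF.ite | with_reducible apply IntF.the | with_reducible apply IntF.irec | with_reducible apply IntF.succ | with_reducible apply IntF.val | with_reducible apply IntF.mk | (with_reducible refine Int.comp ?_ ?_; assumption) | (with_reducible refine Int.comp₂ ?_ ?_ ?_; assumption) | (with_reducible refine Int.comp₃ ?_ ?_ ?_ ?_; assumption) | (with_reducible refine Int.comp₄ ?_ ?_ ?_ ?_ ?_; assumption) | (with_reducible refine IntF.comp ?_ ?_; assumption) | (with_reducible refine IntF.comp₂ ?_ ?_ ?_; assumption) | (with_reducible refine IntF.comp₃ ?_ ?_ ?_ ?_; assumption) | with_reducible apply IntF.pair))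
    have hI : Int N (fun U : IPow N (Helper672.Plain.El x') => ∃ n, (sep N fun q : Helper672.Plain.El x' =>
      ¬ Lo τ R n (i q) ∨ i q = τ n) = U) := by (repeat' (first | with_reducible apply memPE | with_reducible apply memPE' | with_reducible apply memPE'' | with_reducible apply memCode | with_reducible apply memCodeP | with_reducible apply memCode₂ | with_reducible apply eqPE | with_reducible apply eqPE' | with_reducible exact IntF.id | with_reducible exact IntF.fst' | with_reducible exact IntF.snd' | with_reducible exact IntF.const _ | with_reducible exact Int.const _ | assumption | with_reducible apply Int.and | with_reducible apply Int.or | with_reducible apply Int.not | with_reducible apply Int.imp | with_reducible apply Int.iff | with_reducible apply Int.ne | with_reducible apply Int.eq | with_reducible apply Int.mem | with_reducible apply Int.subset | with_reducible apply Int.ltN | with_reducible apply Int.leN | with_reducible_and_instances apply Int.le | with_reducible_and_instances apply Int.lt | with_reducible apply Int.all | with_reducible apply Int.ex | with_reducible apply IntF.fst | with_reducible apply IntF.snd | with_reducible apply IntF.app | with_reducible apply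 IntF.inl | with_reducible apply IntF.inr | with_reducible_and_instances apply IntF.mul | with_reducible_and_instances apply IntF.inv | with_reducible_and_instances apply IntF.add | with_reducible_and_instances apply IntF.sub | with_reducible_and_instances apply IntF.neg | with_reducible_and_instances apply IntF.smul | with_reducible apply Int.fin | with_reducible apply IntF.sep | with_reducible apply IntF.lam | with_reducible apply IntF.insert | with_reducible apply IntF.singleton | with_reducible apply IntF.union | with_reducible apply IntF.iimage | with_reducible apply IntF.ite | with_reducible apply IntF.the | with_reducible apply IntF.irec | with_reducible apply IntF.succ | with_reducible apply IntF.val | with_reducible apply IntF.mk | (with_reducible refine Int.comp ?_ ?_; assumption) | (with_reducible refine Int.comp₂ ?_ ?_ ?_; assumption) | (with_reducible refine Int.comp₃ ?_ ?_ ?_ ?_; assumption) | (with_reducible refine Int.comp₄ ?_ ?_ ?_ ?_ ?_; assumption) | (with_reducible refine IntF.comp ?_ ?_; assumption) | (with_reducible refine IntF.comp₂ ?_ ?_ ?_; assumption) | (with_reducible refine IntF.comp₃ ?_ ?_ ?_ ?_; assumption) | with_reducible apply IntF.pair))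
    have hb : ∀ z, Helper672.Plain.Mem z (code (M := N) (sep N fun U : IPow N (Helper672.Plain.El x') => ∃ n, (sep N fun q : Helper672.Plain.El x' =>
        ¬ Lo τ R n (i q) ∨ i q = τ n) = U)) ↔ ∃ n, code (M := N) (sep N fun q : Helper672.Plain.El x' =>
        ¬ Lo τ R n (i q) ∨ i q = τ n) = z := by
      intro z
      refine mem_cp.trans ⟨?_, ?_⟩
      · rintro ⟨U, hU, rfl⟩
        obtain ⟨m, rfl⟩ := (mem_sep hI).1 hU
        exact ⟨m, rfl⟩
      · rintro ⟨m, rfl⟩
        exact ⟨_, (mem_sep hI).2 ⟨m, rfl⟩, rfl⟩
    obtain ⟨z, hz⟩ := hcip _ (countable_range hBI hb) ⟨_, (hb _).2 ⟨0, rfl⟩⟩ fun v hv => by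
      obtain ⟨n, rfl⟩ := (hb v).1 hv
      exact (hor n).resolve_left (hex n)
    obtain ⟨hzx, -⟩ := (hB 0 z).1 (hz _ ((hb _).2 ⟨0, rfl⟩))
    obtain ⟨n, hn⟩ := exists_lo D.ch (D.io (mkE z hzx))
    obtain ⟨_, h1⟩ := (hB n.succ z).1 (hz _ ((hb _).2 ⟨n.succ, rfl⟩))
    rcases h1 with h1 | h1
    · exact h1 (lo_mono (INat.le_succ_self n) hn)
    · rw [h1, lo_τ D.ch] at hn
      exact absurd (INat.lt_succ_self n) (not_lt.2 hn)

/-- Countable multiple choice fails. -/
theorem Dat.not_cmc : ¬ CMC N := by
  intro hcmc
  have hR := D.ch.int
  obtain ⟨w, hw⟩ := exists_omega (N := N)
  have hI : ∀ n, Int N (fun q : Helper672.Plain.El x => R (n, (q, q))) := fun n => by (repeat' (first | with_reducible apply memPE | with_reducible apply memPE' | with_reducible apply memPE'' | with_reducible apply memCode | with_reducible apply memCodeP | with_reducible apply memCode₂ | with_reducible apply eqPE | with_reducible apply eqPE' | with_reducible exact IntF.id | with_reducible exact IntF.fst' | with_reducible exact IntF.snd' | with_reducible exact IntF.const _ | with_reducible exact Int.const _ | assumption | with_reducible apply Int.and | with_reducible apply Int.or | with_reducible apply Int.not | with_reducible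 apply Int.imp | with_reducible apply Int.iff | with_reducible apply Int.ne | with_reducible apply Int.eq | with_reducible apply Int.mem | with_reducible apply Int.subset | with_reducible apply Int.ltN | with_reducible apply Int.leN | with_reducible_and_instances apply Int.le | with_reducible_and_instances apply Int.lt | with_reducible apply Int.all | with_reducible apply Int.ex | with_reducible apply IntF.fst | with_reducible apply IntF.snd | with_reducible apply IntF.app | with_reducible apply IntF.inl | with_reducible apply IntF.inr | with_reducible_and_instances apply IntF.mul | with_reducible_and_instances apply IntF.inv | with_reducible_and_instances apply IntF.add | with_reducible_and_instances apply IntF.sub | with_reducible_and_instances apply IntF.neg | with_reducible_and_instances apply IntF.smul | with_reducible apply Int.fin | with_reducible apply IntF.sep | with_reducible apply IntF.lam | with_reducible apply IntF.insert | with_reducible apply IntF.singleton | with_reducible apply IntF.union | with_reducible apply IntF.iimage | with_reducible apply IntF.ite | with_reducible apply IntF.the | with_reducible apply IntF.irec | with_reducible apply IntF.succ | with_reducible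 apply IntF.val | with_reducible apply IntF.mk | (with_reducible refine Int.comp ?_ ?_; assumption) | (with_reducible refine Int.comp₂ ?_ ?_ ?_; assumption) | (with_reducible refine Int.comp₃ ?_ ?_ ?_ ?_; assumption) | (with_reducible refine Int.comp₄ ?_ ?_ ?_ ?_ ?_; assumption) | (with_reducible refine IntF.comp ?_ ?_; assumption) | (with_reducible refine IntF.comp₂ ?_ ?_ ?_; assumption) | (with_reducible refine IntF.comp₃ ?_ ?_ ?_ ?_; assumption) | with_reducible apply IntF.pair))
  have hC : IntF N (fun n : INat N => sep N fun q : Helper672.Plain.El x => R (n, (q, q))) := by (repeat' (first | with_reducible apply memPE | with_reducible apply memPE' | with_reducible apply memPE'' | with_reducible apply memCode | with_reducible apply memCodeP | with_reducible apply memCode₂ | with_reducible apply eqPE | with_reducible apply eqPE' | with_reducible exact IntF.id | with_reducible exact IntF.fst' | with_reducible exact IntF.snd' | with_reducible exact IntF.const _ | with_reducible exact Int.const _ | assumption | with_reducible apply Int.and | with_reducible apply Int.or | with_reducible apply Int.not | with_reducible apply Int.imp | with_reducible apply Int.iff | with_reducible apply Int.ne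 | with_reducible apply Int.eq | with_reducible apply Int.mem | with_reducible apply Int.subset | with_reducible apply Int.ltN | with_reducible apply Int.leN | with_reducible_and_instances apply Int.le | with_reducible_and_instances apply Int.lt | with_reducible apply Int.all | with_reducible apply Int.ex | with_reducible apply IntF.fst | with_reducible apply IntF.snd | with_reducible apply IntF.app | with_reducible apply IntF.inl | with_reducible apply IntF.inr | with_reducible_and_instances apply IntF.mul | with_reducible_and_instances apply IntF.inv | with_reducible_and_instances apply IntF.add | with_reducible_and_instances apply IntF.sub | with_reducible_and_instances apply IntF.neg | with_reducible_and_instances apply IntF.smul | with_reducible apply Int.fin | with_reducible apply IntF.sep | with_reducible apply IntF.lam | with_reducible apply IntF.insert | with_reducible apply IntF.singleton | with_reducible apply IntF.union | with_reducible apply IntF.iimage | with_reducible apply IntF.ite | with_reducible apply IntF.the | with_reducible apply IntF.irec | with_reducible apply IntF.succ | with_reducible apply IntF.val | with_reducible apply IntF.mk | (with_reducible refine Int.comp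 ?_ ?_; assumption) | (with_reducible refine Int.comp₂ ?_ ?_ ?_; assumption) | (with_reducible refine Int.comp₃ ?_ ?_ ?_ ?_; assumption) | (with_reducible refine Int.comp₄ ?_ ?_ ?_ ?_ ?_; assumption) | (with_reducible refine IntF.comp ?_ ?_; assumption) | (with_reducible refine IntF.comp₂ ?_ ?_ ?_; assumption) | (with_reducible refine IntF.comp₃ ?_ ?_ ?_ ?_; assumption) | with_reducible apply IntF.pair))
  obtain ⟨ν, A, hA, hν, hν', hAC⟩ := exists_seqmap hw hC (T := dom N (IPow N (Helper672.Plain.El x)))
    fun m => code_mem_dom (M := N) _
  have hm : ∀ k z, Helper672.Plain.Mem z (A k).1 ↔ ∃ h : Helper672.Plain.Mem z x, R (ν k, (mkE z h, mkE z h)) := by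
    intro k z
    rw [hAC k, show Helper672.Plain.Mem z (code (sep N fun q : Helper672.Plain.El x => R (ν k, (q, q)))) ↔ _
      from mem_cpE]
    exact exists_congr fun h => mem_sep (hI _)
  obtain ⟨b, F, hF, h1⟩ := hcmc w _ A hw hA fun k => by
    obtain ⟨a, ha⟩ := D.ch.ne (ν k)
    exact ⟨a.1, (hm k _).2 ⟨a.2, ha⟩⟩
  have hFI := isMap_iff.1 hF
  have hW : Int N (fun q : Helper672.Plain.El x × INat N => Helper672.Plain.Mem q.1.1 (F (ν.symm q.2)).1) := by
    refine memPE IntF.fst' ?_
    exact IntF.comp (g := F) hFI (IntF.comp (g := fun m => ν.symm m) hν' IntF.snd')
  obtain ⟨m, hm'⟩ := D.ch.hom _ hW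
  obtain ⟨hfin, ⟨z, hz⟩, hsub⟩ := h1 (ν.symm m)
  obtain ⟨hzx, hzR⟩ := (hm _ z).1 (hsub z hz)
  rw [Equiv.apply_symm_apply] at hzR
  have hall : ∀ b : Helper672.Plain.El x, R (m, (b, b)) → Helper672.Plain.Mem b.1 (F (ν.symm m)).1 := fun b hb =>
    hm' m (mkE z hzx) b le_rfl hzR hb m hz
  have hfin' : FinP N (fun b : Helper672.Plain.El x => R (m, (b, b))) :=
    ⟨_, ifin_of_finite hfin x, fun b hb => (mem_sep (memI' _ _)).2 (hall b hb)⟩
  obtain ⟨a, ha, hmin⟩ := hfin'.exists_min (lt := fun a b => R (m, (b, a)) ∧ b ≠ a) (hI m)
    (by (repeat' (first | with_reducible apply memPE | with_reducible apply memPE' | with_reducible apply memPE'' | with_reducible apply memCode | with_reducible apply memCodeP | with_reducible apply memCode₂ | with_reducible apply eqPE | with_reducible apply eqPE' | with_reducible exact IntF.id | with_reducible exact IntF.fst' | with_reducible exact IntF.snd' | with_reducible exact IntF.const _ | with_reducible exact Int.const _ | assumption | with_reducible apply Int.and | with_reducible apply Int.or | with_reducible apply Int.not | with_reducible apply Int.imp | with_reducible apply Int.iff | with_reducible apply Int.ne | with_reducible apply Int.eq | with_reducible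 apply Int.mem | with_reducible apply Int.subset | with_reducible apply Int.ltN | with_reducible apply Int.leN | with_reducible_and_instances apply Int.le | with_reducible_and_instances apply Int.lt | with_reducible apply Int.all | with_reducible apply Int.ex | with_reducible apply IntF.fst | with_reducible apply IntF.snd | with_reducible apply IntF.app | with_reducible apply IntF.inl | with_reducible apply IntF.inr | with_reducible_and_instances apply IntF.mul | with_reducible_and_instances apply IntF.inv | with_reducible_and_instances apply IntF.add | with_reducible_and_instances apply IntF.sub | with_reducible_and_instances apply IntF.neg | with_reducible_and_instances apply IntF.smul | with_reducible apply Int.fin | with_reducible apply IntF.sep | with_reducible apply IntF.lam | with_reducible apply IntF.insert | with_reducible apply IntF.singleton | with_reducible apply IntF.union | with_reducible apply IntF.iimage | with_reducible apply IntF.ite | with_reducible apply IntF.the | with_reducible apply IntF.irec | with_reducible apply IntF.succ | with_reducible apply IntF.val | with_reducible apply IntF.mk | (with_reducible refine Int.comp ?_ ?_; assumption) | (with_reducible refine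 Int.comp₂ ?_ ?_ ?_; assumption) | (with_reducible refine Int.comp₃ ?_ ?_ ?_ ?_; assumption) | (with_reducible refine Int.comp₄ ?_ ?_ ?_ ?_ ?_; assumption) | (with_reducible refine IntF.comp ?_ ?_; assumption) | (with_reducible refine IntF.comp₂ ?_ ?_ ?_; assumption) | (with_reducible refine IntF.comp₃ ?_ ?_ ?_ ?_; assumption) | with_reducible apply IntF.pair))) (fun a h => h.2 rfl) (fun a b c h h' => ⟨D.ch.trans _ _ _ _ h'.1 h.1, fun h2 => by
      subst h2
      exact h.2 (D.ch.antisymm _ _ _ h.1 h'.1)⟩) ⟨_, hzR⟩
  obtain ⟨b, hb1, hb2⟩ := D.ch.top _ _ ha
  exact hmin b (D.ch.right _ _ _ hb1) ⟨hb1, hb2.symm⟩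

section rr

variable {r : N} [Field (Helper672.Plain.El r)] [LinearOrder (Helper672.Plain.El r)] [IsStrictOrderedRing (Helper672.Plain.El r)]
variable (hr : IsReals r)
include hr

theorem Dat.nrc : ¬ IsRealcompact t' x' r := not_rc D.ch D.top D.opn hr D.mem D.sub

omit hr in
theorem Dat.tych : IsTychonoff t x r := isTychonoff D.top D.T1 D.zd

omit hr in
theorem Dat.tych' : IsTychonoff t' x' r := isTychonoff D.top' D.T1' D.zd'

theorem Dat.lo_rc (n : INat N) {y s : N}
    (hy : ∀ z, Helper672.Plain.Mem z y ↔ ∃ h : Helper672.Plain.Mem z x', Lo τ R n (i (mkE z h))) (hs : IsSubspace s y t') :
    IsRealcompact s y r := isRealcompact_of_nc hr (D.lo_nc n hy hs)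

theorem Dat.lo_z (n : INat N) {y s : N}
    (hy : ∀ z, Helper672.Plain.Mem z y ↔ ∃ h : Helper672.Plain.Mem z x', Lo τ R n (i (mkE z h))) (hs : IsSubspace s y t') :
    IsZEmbedded s y t' x' r := by
  obtain ⟨ρ, h1, h2, h3⟩ := D.exists_retr n hy hs
  have hyx : ∀ z, Helper672.Plain.Mem z y → Helper672.Plain.Mem z x' := fun z hz => ((hy z).1 hz).1
  exact retr_z h1 D.top' (isTopology_sub D.top' hyx hs) h2 hyx h3 hr

omit hr in
theorem Dat.lo_two (n : INat N) {y s : N}
    (hy : ∀ z, Helper672.Plain.Mem z y ↔ ∃ h : Helper672.Plain.Mem z x', Lo τ R n (i (mkE z h))) (hs : IsSubspace s y t') :
    IsTwoEmbedded s y t' x' := by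
  obtain ⟨ρ, h1, h2, h3⟩ := D.exists_retr n hy hs
  have hyx : ∀ z, Helper672.Plain.Mem z y → Helper672.Plain.Mem z x' := fun z hz => ((hy z).1 hz).1
  exact retr_two h1 D.top' (isTopology_sub D.top' hyx hs) h2 hyx h3

omit hr in
theorem Dat.lo_cd (n : INat N) {y s : N}
    (hy : ∀ z, Helper672.Plain.Mem z y ↔ ∃ h : Helper672.Plain.Mem z x', Lo τ R n (i (mkE z h))) (hs : IsSubspace s y t') :
    IsCdEmbedded s y t' x' := by
  obtain ⟨ρ, h1, h2, h3⟩ := D.exists_retr n hy hs
  have hyx : ∀ z, Helper672.Plain.Mem z y → Helper672.Plain.Mem z x' := fun z hz => ((hy z).1 hz).1
  exact retr_cd h1 D.top' (isTopology_sub D.top' hyx hs) h2 hyx h3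

omit D in
theorem zero_of_seq (ht : IsTopology t x) {c : N} (hc : SeqC t x c) : IsZeroSet t x r c := by
  obtain ⟨C, hC, h1, h2⟩ := hc
  exact zeroSet_of_seq hr ht hC h1 h2

theorem Dat.z_fixed {F : N} (hF : IsUltraIn (IsZeroSet t' x' r) F) (hcip : IsCIP F) :
    IsFixed x' F :=
  D.fixed (fun c hc => zero_of_seq hr D.top' hc) (fun c hc => isClosed_zeroSet hr D.top' hc)
    (int_zeroSet hr) (fun u v c hu hv hc => zeroSet_inter hr D.top' hu hv hc) hF hcip

omit hr in
theorem Dat.c_fixed {F : N} (hF : IsUltraIn (IsCdeltaC t' x') F) (hcip : IsCIP F) :
    IsFixed x' F :=
  D.fixed (fun c hc => (cdeltaC_iff D.top').2 hc)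
    (fun c hc => ((cdeltaC_iff D.top').1 hc).closed D.top')
    ((int_SeqC D.top').congr fun V => (cdeltaC_iff D.top').symm)
    (fun u v c hu hv hc => (cdeltaC_iff D.top').2 (SeqC.inter D.top' ((cdeltaC_iff D.top').1 hu)
      ((cdeltaC_iff D.top').1 hv) hc)) hF hcip

/-- The last point is not a zero-set. -/
theorem Dat.not_zopen : ∃ u, (∀ z, Helper672.Plain.Mem z u → Helper672.Plain.Mem z x) ∧ ¬ IsZOpen t x r u := by
  have hi := D.iI
  obtain ⟨τ', hτ', hττ⟩ := exists_tau' D.ch D.mem
  have hiτ : ∀ n, i (τ' n) = τ n := fun n => Subtype.ext ((D.i_val _).trans (hττ n))
  refine ⟨code ({o} : IPow N (Helper672.Plain.El x)), fun z hz => (mem_cpE.1 hz).1, fun h => ?_⟩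
  obtain ⟨c, ⟨hcx, f, ⟨hfI, hf⟩, hfc⟩, hoc, hcu⟩ := h.2 o (mem_cpE'.2 (mem_singleton.2 rfl))
  replace hfI := isMap_iff.1 hfI
  have hcont : IsCont t' (fun p : Helper672.Plain.El x' => f (i p)) := by
    refine ⟨isMap_iff.2 (by (repeat' (first | with_reducible apply memPE | with_reducible apply memPE' | with_reducible apply memPE'' | with_reducible apply memCode | with_reducible apply memCodeP | with_reducible apply memCode₂ | with_reducible apply eqPE | with_reducible apply eqPE' | with_reducible exact IntF.id | with_reducible exact IntF.fst' | with_reducible exact IntF.snd' | with_reducible exact IntF.const _ | with_reducible exact Int.const _ | assumption | with_reducible apply Int.and | with_reducible apply Int.or | with_reducible apply Int.not | with_reducible apply Int.imp | with_reducible apply Int.iff | with_reducible apply Int.ne | with_reducible apply Int.eq | with_reducible apply Int.mem | with_reducible apply Int.subset | with_reducible apply Int.ltN | with_reducible apply Int.leN | with_reducible_and_instances apply Int.le | with_reducible_and_instances apply Int.lt | with_reducible apply Int.all | with_reducible apply Int.ex | with_reducible apply IntF.fst | with_reducible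 apply IntF.snd | with_reducible apply IntF.app | with_reducible apply IntF.inl | with_reducible apply IntF.inr | with_reducible_and_instances apply IntF.mul | with_reducible_and_instances apply IntF.inv | with_reducible_and_instances apply IntF.add | with_reducible_and_instances apply IntF.sub | with_reducible_and_instances apply IntF.neg | with_reducible_and_instances apply IntF.smul | with_reducible apply Int.fin | with_reducible apply IntF.sep | with_reducible apply IntF.lam | with_reducible apply IntF.insert | with_reducible apply IntF.singleton | with_reducible apply IntF.union | with_reducible apply IntF.iimage | with_reducible apply IntF.ite | with_reducible apply IntF.the | with_reducible apply IntF.irec | with_reducible apply IntF.succ | with_reducible apply IntF.val | with_reducible apply IntF.mk | (with_reducible refine Int.comp ?_ ?_; assumption) | (with_reducible refine Int.comp₂ ?_ ?_ ?_; assumption) | (with_reducible refine Int.comp₃ ?_ ?_ ?_ ?_; assumption) | (with_reducible refine Int.comp₄ ?_ ?_ ?_ ?_ ?_; assumption) | (with_reducible refine IntF.comp ?_ ?_; assumption) | (with_reducible refine IntF.comp₂ ?_ ?_ ?_; assumption) | (with_reducible refine IntF.comp₃ ?_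 ?_ ?_ ?_; assumption) | with_reducible apply IntF.pair))), fun p ε hε => ?_⟩
    obtain ⟨u, hu, h1, h2⟩ := hf (i p) ε hε
    obtain ⟨u', hu'⟩ := exists_trace u x'
    refine ⟨u', D.sub.trace hu hu', (hu' _).2 ⟨by rw [← D.i_val]; exact h1, p.2⟩, fun q hq =>
      h2 (i q) (by rw [D.i_val]; exact ((hu' _).1 hq).1)⟩
  obtain ⟨m, k, hk⟩ := evconst D.ch D.top D.opn hr D.mem D.sub D.i_val hcont
  have hbig : ∀ n, m < n → f (τ n) = k := by
    intro n hmn
    rw [← hiτ]
    refine hk (τ' n) fun h1 => ?_
    rw [hiτ, lo_τ D.ch] at h1
    exact absurd hmn (not_lt.2 h1)
  have h0 : f o = 0 := (hfc o).1 hoc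
  have hk0 : k = 0 := by
    by_contra hne
    obtain ⟨u, hu, h1, h2⟩ := hf o |k| (abs_pos.2 hne)
    obtain ⟨U, rfl, hU⟩ := exists_code (a := x) (D.top.sub _ hu)
    obtain ⟨n, hn⟩ := ((D.opn _).1 hu).2.2 ((hU _).2 h1)
    have h3 : ¬ Lo τ R n (τ (max m n).succ) := by
      rw [lo_τ D.ch]
      exact not_le.2 (INat.lt_succ_iff.2 (le_max_right _ _))
    have h4 := h2 _ ((hU _).1 (hn _ h3))
    rw [hbig _ (INat.lt_succ_iff.2 (le_max_left _ _)), h0, sub_zero] at h4
    exact lt_irrefl _ h4
  have h5 : Helper672.Plain.Mem (τ m.succ).1 c := (hfc _).2 ((hbig _ (INat.lt_succ_self m)).trans hk0)
  exact D.ch.oτ _ (mem_singleton.1 (mem_cpE'.1 (hcu _ h5)))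

omit hr in
theorem Dat.pseudo : IsCountablePseudocharacter t x := by
  intro p
  obtain ⟨C, hC, h1, h2⟩ := seq_pt D.ch p
  have hI : Int N (fun U : IPow N (Helper672.Plain.El x) => ∃ m, C m = U) := by (repeat' (first | with_reducible apply memPE | with_reducible apply memPE' | with_reducible apply memPE'' | with_reducible apply memCode | with_reducible apply memCodeP | with_reducible apply memCode₂ | with_reducible apply eqPE | with_reducible apply eqPE' | with_reducible exact IntF.id | with_reducible exact IntF.fst' | with_reducible exact IntF.snd' | with_reducible exact IntF.const _ | with_reducible exact Int.const _ | assumption | with_reducible apply Int.and | with_reducible apply Int.or | with_reducible apply Int.not | with_reducible apply Int.imp | with_reducible apply Int.iff | with_reducible apply Int.ne | with_reducible apply Int.eq | with_reducible apply Int.mem | with_reducible apply Int.subset | with_reducible apply Int.ltN | with_reducible apply Int.leN | with_reducible_and_instances apply Int.le | with_reducible_and_instances apply Int.lt | with_reducible apply Int.all | with_reducible apply Int.ex | with_reducible apply IntF.fst | with_reducible apply IntF.snd | with_reducible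 apply IntF.app | with_reducible apply IntF.inl | with_reducible apply IntF.inr | with_reducible_and_instances apply IntF.mul | with_reducible_and_instances apply IntF.inv | with_reducible_and_instances apply IntF.add | with_reducible_and_instances apply IntF.sub | with_reducible_and_instances apply IntF.neg | with_reducible_and_instances apply IntF.smul | with_reducible apply Int.fin | with_reducible apply IntF.sep | with_reducible apply IntF.lam | with_reducible apply IntF.insert | with_reducible apply IntF.singleton | with_reducible apply IntF.union | with_reducible apply IntF.iimage | with_reducible apply IntF.ite | with_reducible apply IntF.the | with_reducible apply IntF.irec | with_reducible apply IntF.succ | with_reducible apply IntF.val | with_reducible apply IntF.mk | (with_reducible refine Int.comp ?_ ?_; assumption) | (with_reducible refine Int.comp₂ ?_ ?_ ?_; assumption) | (with_reducible refine Int.comp₃ ?_ ?_ ?_ ?_; assumption) | (with_reducible refine Int.comp₄ ?_ ?_ ?_ ?_ ?_; assumption) | (with_reducible refine IntF.comp ?_ ?_; assumption) | (with_reducible refine IntF.comp₂ ?_ ?_ ?_; assumption) | (with_reducible refine IntF.comp₃ ?_ ?_ ?_ ?_; assumption) | with_reducible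 apply IntF.pair))
  have hb : ∀ z, Helper672.Plain.Mem z (code (M := N) (sep N fun U : IPow N (Helper672.Plain.El x) => ∃ m, C m = U)) ↔
      ∃ m, code (C m) = z := by
    intro z
    refine mem_cp.trans ⟨?_, ?_⟩
    · rintro ⟨U, hU, rfl⟩
      obtain ⟨m, rfl⟩ := (mem_sep hI).1 hU
      exact ⟨m, rfl⟩
    · rintro ⟨m, rfl⟩
      exact ⟨_, (mem_sep hI).2 ⟨m, rfl⟩, rfl⟩
  refine ⟨_, countable_range hC hb, fun v hv => ?_, fun z => ⟨?_, ?_⟩⟩
  · obtain ⟨m, rfl⟩ := (hb v).1 hv
    exact (D.opn _).2 (h1 m)
  · rintro ⟨hzx, h3⟩
    have h4 : mkE z hzx = p := (h2 _).1 fun m => (mem_cpE.1 (h3 _ ((hb _).2 ⟨m, rfl⟩))).2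
    rw [← h4]
    rfl
  · rintro rfl
    refine ⟨p.2, fun v hv => ?_⟩
    obtain ⟨m, rfl⟩ := (hb v).1 hv
    exact mem_cpE'.2 ((h2 p).2 rfl m)

/-- The subspace is a Baire set. -/
theorem Dat.baire : IsBaire t x r x' := by
  intro S hS hzero
  have hL := int_Lo D.ch
  have hSgI := int_Sg D.ch
  obtain ⟨w, hw⟩ := exists_omega (N := N)
  have hI : ∀ n, Int N (fun q : Helper672.Plain.El x => Lo τ R n q) := fun n => by (repeat' (first | with_reducible apply memPE | with_reducible apply memPE' | with_reducible apply memPE'' | with_reducible apply memCode | with_reducible apply memCodeP | with_reducible apply memCode₂ | with_reducible apply eqPE | with_reducible apply eqPE' | with_reducible exact IntF.id | with_reducible exact IntF.fst' | with_reducible exact IntF.snd' | with_reducible exact IntF.const _ | with_reducible exact Int.const _ | assumption | with_reducible apply Int.and | with_reducible apply Int.or | with_reducible apply Int.not | with_reducible apply Int.imp | with_reducible apply Int.iff | with_reducible apply Int.ne | with_reducible apply Int.eq | with_reducible apply Int.mem | with_reducible apply Int.subset | with_reducible apply Int.ltN | with_reducible apply Int.leN | with_reducible_and_instances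 apply Int.le | with_reducible_and_instances apply Int.lt | with_reducible apply Int.all | with_reducible apply Int.ex | with_reducible apply IntF.fst | with_reducible apply IntF.snd | with_reducible apply IntF.app | with_reducible apply IntF.inl | with_reducible apply IntF.inr | with_reducible_and_instances apply IntF.mul | with_reducible_and_instances apply IntF.inv | with_reducible_and_instances apply IntF.add | with_reducible_and_instances apply IntF.sub | with_reducible_and_instances apply IntF.neg | with_reducible_and_instances apply IntF.smul | with_reducible apply Int.fin | with_reducible apply IntF.sep | with_reducible apply IntF.lam | with_reducible apply IntF.insert | with_reducible apply IntF.singleton | with_reducible apply IntF.union | with_reducible apply IntF.iimage | with_reducible apply IntF.ite | with_reducible apply IntF.the | with_reducible apply IntF.irec | with_reducible apply IntF.succ | with_reducible apply IntF.val | with_reducible apply IntF.mk | (with_reducible refine Int.comp ?_ ?_; assumption) | (with_reducible refine Int.comp₂ ?_ ?_ ?_; assumption) | (with_reducible refine Int.comp₃ ?_ ?_ ?_ ?_; assumption) | (with_reducible refine Int.comp₄ ?_ ?_ ?_ ?_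 ?_; assumption) | (with_reducible refine IntF.comp ?_ ?_; assumption) | (with_reducible refine IntF.comp₂ ?_ ?_ ?_; assumption) | (with_reducible refine IntF.comp₃ ?_ ?_ ?_ ?_; assumption) | with_reducible apply IntF.pair))
  have hC : IntF N (fun n : INat N => sep N fun q : Helper672.Plain.El x => Lo τ R n q) := by (repeat' (first | with_reducible apply memPE | with_reducible apply memPE' | with_reducible apply memPE'' | with_reducible apply memCode | with_reducible apply memCodeP | with_reducible apply memCode₂ | with_reducible apply eqPE | with_reducible apply eqPE' | with_reducible exact IntF.id | with_reducible exact IntF.fst' | with_reducible exact IntF.snd' | with_reducible exact IntF.const _ | with_reducible exact Int.const _ | assumption | with_reducible apply Int.and | with_reducible apply Int.or | with_reducible apply Int.not | with_reducible apply Int.imp | with_reducible apply Int.iff | with_reducible apply Int.ne | with_reducible apply Int.eq | with_reducible apply Int.mem | with_reducible apply Int.subset | with_reducible apply Int.ltN | with_reducible apply Int.leN | with_reducible_and_instances apply Int.le | with_reducible_and_instances apply Int.lt | with_reducible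 apply Int.all | with_reducible apply Int.ex | with_reducible apply IntF.fst | with_reducible apply IntF.snd | with_reducible apply IntF.app | with_reducible apply IntF.inl | with_reducible apply IntF.inr | with_reducible_and_instances apply IntF.mul | with_reducible_and_instances apply IntF.inv | with_reducible_and_instances apply IntF.add | with_reducible_and_instances apply IntF.sub | with_reducible_and_instances apply IntF.neg | with_reducible_and_instances apply IntF.smul | with_reducible apply Int.fin | with_reducible apply IntF.sep | with_reducible apply IntF.lam | with_reducible apply IntF.insert | with_reducible apply IntF.singleton | with_reducible apply IntF.union | with_reducible apply IntF.iimage | with_reducible apply IntF.ite | with_reducible apply IntF.the | with_reducible apply IntF.irec | with_reducible apply IntF.succ | with_reducible apply IntF.val | with_reducible apply IntF.mk | (with_reducible refine Int.comp ?_ ?_; assumption) | (with_reducible refine Int.comp₂ ?_ ?_ ?_; assumption) | (with_reducible refine Int.comp₃ ?_ ?_ ?_ ?_; assumption) | (with_reducible refine Int.comp₄ ?_ ?_ ?_ ?_ ?_; assumption) | (with_reducible refine IntF.comp ?_ ?_; assumption) | (with_reducible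 refine IntF.comp₂ ?_ ?_ ?_; assumption) | (with_reducible refine IntF.comp₃ ?_ ?_ ?_ ?_; assumption) | with_reducible apply IntF.pair))
  have hz : ∀ n, Helper672.Plain.Mem (code (sep N fun q : Helper672.Plain.El x => Lo τ R n q)) S := by
    intro n
    obtain ⟨y, hy, h1, h2⟩ := seq_lo D.ch n
    have hI' : ∀ m, Int N (fun q => Sg τ R n (y m) q) := fun m => by (repeat' (first | with_reducible apply memPE | with_reducible apply memPE' | with_reducible apply memPE'' | with_reducible apply memCode | with_reducible apply memCodeP | with_reducible apply memCode₂ | with_reducible apply eqPE | with_reducible apply eqPE' | with_reducible exact IntF.id | with_reducible exact IntF.fst' | with_reducible exact IntF.snd' | with_reducible exact IntF.const _ | with_reducible exact Int.const _ | assumption | with_reducible apply Int.and | with_reducible apply Int.or | with_reducible apply Int.not | with_reducible apply Int.imp | with_reducible apply Int.iff | with_reducible apply Int.ne | with_reducible apply Int.eq | with_reducible apply Int.mem | with_reducible apply Int.subset | with_reducible apply Int.ltN | with_reducible apply Int.leN | with_reducible_and_instances apply Int.le | with_reducible_and_instances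 apply Int.lt | with_reducible apply Int.all | with_reducible apply Int.ex | with_reducible apply IntF.fst | with_reducible apply IntF.snd | with_reducible apply IntF.app | with_reducible apply IntF.inl | with_reducible apply IntF.inr | with_reducible_and_instances apply IntF.mul | with_reducible_and_instances apply IntF.inv | with_reducible_and_instances apply IntF.add | with_reducible_and_instances apply IntF.sub | with_reducible_and_instances apply IntF.neg | with_reducible_and_instances apply IntF.smul | with_reducible apply Int.fin | with_reducible apply IntF.sep | with_reducible apply IntF.lam | with_reducible apply IntF.insert | with_reducible apply IntF.singleton | with_reducible apply IntF.union | with_reducible apply IntF.iimage | with_reducible apply IntF.ite | with_reducible apply IntF.the | with_reducible apply IntF.irec | with_reducible apply IntF.succ | with_reducible apply IntF.val | with_reducible apply IntF.mk | (with_reducible refine Int.comp ?_ ?_; assumption) | (with_reducible refine Int.comp₂ ?_ ?_ ?_; assumption) | (with_reducible refine Int.comp₃ ?_ ?_ ?_ ?_; assumption) | (with_reducible refine Int.comp₄ ?_ ?_ ?_ ?_ ?_; assumption) | (with_reducible refine IntF.comp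 ?_ ?_; assumption) | (with_reducible refine IntF.comp₂ ?_ ?_ ?_; assumption) | (with_reducible refine IntF.comp₃ ?_ ?_ ?_ ?_; assumption) | with_reducible apply IntF.pair))
    refine hzero _ (zero_of_seq hr D.top ⟨fun m => sep N fun q : Helper672.Plain.El x => Sg τ R n (y m) q,
      by (repeat' (first | with_reducible apply memPE | with_reducible apply memPE' | with_reducible apply memPE'' | with_reducible apply memCode | with_reducible apply memCodeP | with_reducible apply memCode₂ | with_reducible apply eqPE | with_reducible apply eqPE' | with_reducible exact IntF.id | with_reducible exact IntF.fst' | with_reducible exact IntF.snd' | with_reducible exact IntF.const _ | with_reducible exact Int.const _ | assumption | with_reducible apply Int.and | with_reducible apply Int.or | with_reducible apply Int.not | with_reducible apply Int.imp | with_reducible apply Int.iff | with_reducible apply Int.ne | with_reducible apply Int.eq | with_reducible apply Int.mem | with_reducible apply Int.subset | with_reducible apply Int.ltN | with_reducible apply Int.leN | with_reducible_and_instances apply Int.le | with_reducible_and_instances apply Int.lt | with_reducible apply Int.all | with_reducible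 apply Int.ex | with_reducible apply IntF.fst | with_reducible apply IntF.snd | with_reducible apply IntF.app | with_reducible apply IntF.inl | with_reducible apply IntF.inr | with_reducible_and_instances apply IntF.mul | with_reducible_and_instances apply IntF.inv | with_reducible_and_instances apply IntF.add | with_reducible_and_instances apply IntF.sub | with_reducible_and_instances apply IntF.neg | with_reducible_and_instances apply IntF.smul | with_reducible apply Int.fin | with_reducible apply IntF.sep | with_reducible apply IntF.lam | with_reducible apply IntF.insert | with_reducible apply IntF.singleton | with_reducible apply IntF.union | with_reducible apply IntF.iimage | with_reducible apply IntF.ite | with_reducible apply IntF.the | with_reducible apply IntF.irec | with_reducible apply IntF.succ | with_reducible apply IntF.val | with_reducible apply IntF.mk | (with_reducible refine Int.comp ?_ ?_; assumption) | (with_reducible refine Int.comp₂ ?_ ?_ ?_; assumption) | (with_reducible refine Int.comp₃ ?_ ?_ ?_ ?_; assumption) | (with_reducible refine Int.comp₄ ?_ ?_ ?_ ?_ ?_; assumption) | (with_reducible refine IntF.comp ?_ ?_; assumption) | (with_reducible refine IntF.comp₂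 ?_ ?_ ?_; assumption) | (with_reducible refine IntF.comp₃ ?_ ?_ ?_ ?_; assumption) | with_reducible apply IntF.pair)), fun m => D.clopen_sg (h1 m), fun z => mem_cpE.trans (exists_congr fun h => ?_)⟩)
    rw [mem_sep (hI n), h2]
    exact forall_congr' fun m => (mem_sep (hI' m)).symm
  obtain ⟨ν, A, hA, hν, hν', hAC⟩ := exists_seqmap hw hC hz
  refine hS.union w A hw hA x' fun z => (D.mem z).trans ⟨?_, ?_⟩
  · rintro ⟨hzx, h1⟩
    obtain ⟨n, hn⟩ := exists_lo D.ch h1
    refine ⟨ν.symm n, ?_⟩
    rw [hAC, Equiv.apply_symm_apply]
    exact mem_cpE.2 ⟨hzx, (mem_sep (hI _)).2 hn⟩
  · rintro ⟨k, hk⟩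
    rw [hAC k] at hk
    obtain ⟨h1, h2⟩ := mem_cpE.1 hk
    refine ⟨h1, fun h3 => ?_⟩
    rw [h3, mem_sep (hI _)] at h2
    exact lo_o D.ch h2

end rr

end

end Pool.Agent.Q301.TM
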