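import Pool.Agent.Q301.TM.TopG

/-!
# Continuous real functions on the spaces of a model
-/

set_option maxHeartbeats 1000000
set_option linter.all false
set_option synthInstance.maxSize 2000

namespace Pool.Agent.Q301.TM

open FirstOrder FirstOrder.Language
open Pool.Agent.Helper672.ZFA
open Pool.Agent.Helper672.Plain (LSet)
open Pool.Agent.Helper672.ZFA.H635 (toL plainN_ordPair plainN_graph plainN_opGraph)
open Pool.Agent.H635Amen (IsReals)
open Pool.Agent.H310Cards (IsOmega IsFinite IsFun App IsInj IsNat)
open Pool.Agent.H310Top (IsTopology IsClosed IsCompact)
open Pool.Agent.H310 (FinP finP_iff finP_le finP_lt exists_BN mem_nat nat_iff appN finite_of_finP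
  mem_cp extN exists_code instPEl exists_q pr int_pr pr_inj)

universe u u₁

attribute [local instance] toL instPEl

section

variable {N : Type u} [LSet.Structure N] [hM : IsModel N] {x t y s : N}
variable {r : N} [Field (Helper672.Plain.El r)] [LinearOrder (Helper672.Plain.El r)] [IsStrictOrderedRing (Helper672.Plain.El r)]
variable (hr : IsReals r)
include hr

theorem int_add : IntF N (fun q : Helper672.Plain.El r × Helper672.Plain.El r => q.1 + q.2) := by
  obtain ⟨g, hg⟩ := hr.add
  exact ⟨g, fun q => ((hg q.1.1 q.1.2 q.2).trans plainN_opGraph).symm⟩

theorem int_mul : IntF N (fun q : Helper672.Plain.El r × Helper672.Plain.El r => q.1 * q.2) := by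
  obtain ⟨g, hg⟩ := hr.mul
  exact ⟨g, fun q => ((hg q.1.1 q.1.2 q.2).trans plainN_opGraph).symm⟩

theorem int_le : Int N (fun q : Helper672.Plain.El r × Helper672.Plain.El r => q.1 ≤ q.2) := by
  obtain ⟨g, hg⟩ := hr.le
  exact ⟨g, fun q => ((hg q.1 q.2).trans plainN_graph).symm⟩

theorem int_lt : Int N (fun q : Helper672.Plain.El r × Helper672.Plain.El r => q.1 < q.2) := by
  have h := int_le hr
  refine Int.congr (p := fun q : Helper672.Plain.El r × Helper672.Plain.El r => ¬ q.2 ≤ q.1) ?_ fun q => not_le
  exact Helper672.ZFA.Int.not (Int.comp₂ (p := fun a b : Helper672.Plain.El r => a ≤ b) h IntF.snd' IntF.fst')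

theorem int_sub' : IntF N (fun q : Helper672.Plain.El r × Helper672.Plain.El r => q.1 - q.2) := by
  have h := int_add hr
  refine IntF.of_rel (r := fun (q : Helper672.Plain.El r × Helper672.Plain.El r) (z : Helper672.Plain.El r) => z + q.2 = q.1) (by (repeat' (first | with_reducible apply memPE | with_reducible apply memPE' | with_reducible apply memPE'' | with_reducible apply memCode | with_reducible apply memCodeP | with_reducible apply memCode₂ | with_reducible apply eqPE | with_reducible apply eqPE' | with_reducible exact IntF.id | with_reducible exact IntF.fst' | with_reducible exact IntF.snd' | with_reducible exact IntF.const _ | with_reducible exact Int.const _ | assumption | with_reducible apply Int.and | with_reducible apply Int.or | with_reducible apply Int.not | with_reducible apply Int.imp | with_reducible apply Int.iff | with_reducible apply Int.ne | with_reducible apply Int.eq | with_reducible apply Int.mem | with_reducible apply Int.subset | with_reducible apply Int.ltN | with_reducible apply Int.leN | with_reducible_and_instances apply Int.le | with_reducible_and_instances apply Int.lt | with_reducible apply Int.all | with_reducible apply Int.ex | with_reducible apply IntF.fst | with_reducible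 apply IntF.snd | with_reducible apply IntF.app | with_reducible apply IntF.inl | with_reducible apply IntF.inr | with_reducible_and_instances apply IntF.mul | with_reducible_and_instances apply IntF.inv | with_reducible_and_instances apply IntF.add | with_reducible_and_instances apply IntF.sub | with_reducible_and_instances apply IntF.neg | with_reducible_and_instances apply IntF.smul | with_reducible apply Int.fin | with_reducible apply IntF.sep | with_reducible apply IntF.lam | with_reducible apply IntF.insert | with_reducible apply IntF.singleton | with_reducible apply IntF.union | with_reducible apply IntF.iimage | with_reducible apply IntF.ite | with_reducible apply IntF.the | with_reducible apply IntF.irec | with_reducible apply IntF.succ | with_reducible apply IntF.val | with_reducible apply IntF.mk | (with_reducible refine Int.comp ?_ ?_; assumption) | (with_reducible refine Int.comp₂ ?_ ?_ ?_; assumption) | (with_reducible refine Int.comp₃ ?_ ?_ ?_ ?_; assumption) | (with_reducible refine Int.comp₄ ?_ ?_ ?_ ?_ ?_; assumption) | (with_reducible refine IntF.comp ?_ ?_; assumption) | (with_reducible refine IntF.comp₂ ?_ ?_ ?_; assumption) | (with_reducible refine IntF.comp₃ ?_ ?_ ?_ ?_; assumption)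 | with_reducible apply IntF.pair)))
    fun q z => ?_
  rw [sub_eq_iff_eq_add]
  exact eq_comm

theorem int_abs' : IntF N (fun q : Helper672.Plain.El r => |q|) := by
  have h := int_add hr
  have h1 := int_le hr
  refine IntF.of_rel (r := fun (q : Helper672.Plain.El r) (z : Helper672.Plain.El r) => (0 ≤ q ∧ z = q) ∨ (¬ 0 ≤ q ∧ z + q = 0))
    (by (repeat' (first | with_reducible apply memPE | with_reducible apply memPE' | with_reducible apply memPE'' | with_reducible apply memCode | with_reducible apply memCodeP | with_reducible apply memCode₂ | with_reducible apply eqPE | with_reducible apply eqPE' | with_reducible exact IntF.id | with_reducible exact IntF.fst' | with_reducible exact IntF.snd' | with_reducible exact IntF.const _ | with_reducible exact Int.const _ | assumption | with_reducible apply Int.and | with_reducible apply Int.or | with_reducible apply Int.not | with_reducible apply Int.imp | with_reducible apply Int.iff | with_reducible apply Int.ne | with_reducible apply Int.eq | with_reducible apply Int.mem | with_reducible apply Int.subset | with_reducible apply Int.ltN | with_reducible apply Int.leN | with_reducible_and_instances apply Int.le | with_reducible_and_instances apply Int.lt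 | with_reducible apply Int.all | with_reducible apply Int.ex | with_reducible apply IntF.fst | with_reducible apply IntF.snd | with_reducible apply IntF.app | with_reducible apply IntF.inl | with_reducible apply IntF.inr | with_reducible_and_instances apply IntF.mul | with_reducible_and_instances apply IntF.inv | with_reducible_and_instances apply IntF.add | with_reducible_and_instances apply IntF.sub | with_reducible_and_instances apply IntF.neg | with_reducible_and_instances apply IntF.smul | with_reducible apply Int.fin | with_reducible apply IntF.sep | with_reducible apply IntF.lam | with_reducible apply IntF.insert | with_reducible apply IntF.singleton | with_reducible apply IntF.union | with_reducible apply IntF.iimage | with_reducible apply IntF.ite | with_reducible apply IntF.the | with_reducible apply IntF.irec | with_reducible apply IntF.succ | with_reducible apply IntF.val | with_reducible apply IntF.mk | (with_reducible refine Int.comp ?_ ?_; assumption) | (with_reducible refine Int.comp₂ ?_ ?_ ?_; assumption) | (with_reducible refine Int.comp₃ ?_ ?_ ?_ ?_; assumption) | (with_reducible refine Int.comp₄ ?_ ?_ ?_ ?_ ?_; assumption) | (with_reducible refine IntF.comp ?_ ?_; assumption) |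 (with_reducible refine IntF.comp₂ ?_ ?_ ?_; assumption) | (with_reducible refine IntF.comp₃ ?_ ?_ ?_ ?_; assumption) | with_reducible apply IntF.pair))) fun q z => ?_
  by_cases hq : 0 ≤ q
  · rw [abs_of_nonneg hq]
    simp only [hq, true_and, not_true_eq_false, false_and, or_false]
    exact eq_comm
  · rw [abs_of_neg (not_le.1 hq)]
    simp only [hq, not_false_eq_true, true_and, false_and, false_or]
    constructor <;> intro h2 <;> linarith

/-- The distance is internal. -/
theorem int_dist : IntF N (fun q : Helper672.Plain.El r × Helper672.Plain.El r => |q.1 - q.2|) := by
  have h1 := int_sub' hr
  have h2 := int_abs' hr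
  exact IntF.comp (g := fun z : Helper672.Plain.El r => |z|) h2 h1

/-- The natural numbers in the real numbers. -/
theorem exists_iota : ∃ i : INat N → Helper672.Plain.El r, IntF N i ∧ i 0 = 0 ∧ (∀ n, i n.succ = i n + 1) ∧
    ∀ ε : Helper672.Plain.El r, 0 < ε → ∀ z, ∃ n, z < i n * ε := by
  have ha := int_add hr
  have hmu := int_mul hr
  have hle := int_le hr
  obtain ⟨F, hF, hFy⟩ : ∃ F : Helper672.Plain.El r → Helper672.Plain.El r, IntF N F ∧ ∀ z, F z = z + 1 := by
    refine ⟨fun z => z + 1, ?_, fun z => rfl⟩
    exact IntF.comp₂ (p := fun a b : Helper672.Plain.El r => a + b) ha IntF.id (IntF.const _)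
  have hi : IntF N (fun n : INat N => irec (0 : Helper672.Plain.El r) (fun _ z => F z) n) := by (repeat' (first | with_reducible apply memPE | with_reducible apply memPE' | with_reducible apply memPE'' | with_reducible apply memCode | with_reducible apply memCodeP | with_reducible apply memCode₂ | with_reducible apply eqPE | with_reducible apply eqPE' | with_reducible exact IntF.id | with_reducible exact IntF.fst' | with_reducible exact IntF.snd' | with_reducible exact IntF.const _ | with_reducible exact Int.const _ | assumption | with_reducible apply Int.and | with_reducible apply Int.or | with_reducible apply Int.not | with_reducible apply Int.imp | with_reducible apply Int.iff | with_reducible apply Int.ne | with_reducible apply Int.eq | with_reducible apply Int.mem | with_reducible apply Int.subset | with_reducible apply Int.ltN | with_reducible apply Int.leN | with_reducible_and_instances apply Int.le | with_reducible_and_instances apply Int.lt | with_reducible apply Int.all | with_reducible apply Int.ex | with_reducible apply IntF.fst | with_reducible apply IntF.snd | with_reducible apply IntF.app | with_reducible apply IntF.inl | with_reducible apply IntF.inr | with_reducible_and_instances apply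 IntF.mul | with_reducible_and_instances apply IntF.inv | with_reducible_and_instances apply IntF.add | with_reducible_and_instances apply IntF.sub | with_reducible_and_instances apply IntF.neg | with_reducible_and_instances apply IntF.smul | with_reducible apply Int.fin | with_reducible apply IntF.sep | with_reducible apply IntF.lam | with_reducible apply IntF.insert | with_reducible apply IntF.singleton | with_reducible apply IntF.union | with_reducible apply IntF.iimage | with_reducible apply IntF.ite | with_reducible apply IntF.the | with_reducible apply IntF.irec | with_reducible apply IntF.succ | with_reducible apply IntF.val | with_reducible apply IntF.mk | (with_reducible refine Int.comp ?_ ?_; assumption) | (with_reducible refine Int.comp₂ ?_ ?_ ?_; assumption) | (with_reducible refine Int.comp₃ ?_ ?_ ?_ ?_; assumption) | (with_reducible refine Int.comp₄ ?_ ?_ ?_ ?_ ?_; assumption) | (with_reducible refine IntF.comp ?_ ?_; assumption) | (with_reducible refine IntF.comp₂ ?_ ?_ ?_; assumption) | (with_reducible refine IntF.comp₃ ?_ ?_ ?_ ?_; assumption) | with_reducible apply IntF.pair))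
  have hs : ∀ n : INat N, irec (0 : Helper672.Plain.El r) (fun _ z => F z) n.succ =
      irec (0 : Helper672.Plain.El r) (fun _ z => F z) n + 1 := fun n => by
    rw [irec_succ (by (repeat' (first | with_reducible apply memPE | with_reducible apply memPE' | with_reducible apply memPE'' | with_reducible apply memCode | with_reducible apply memCodeP | with_reducible apply memCode₂ | with_reducible apply eqPE | with_reducible apply eqPE' | with_reducible exact IntF.id | with_reducible exact IntF.fst' | with_reducible exact IntF.snd' | with_reducible exact IntF.const _ | with_reducible exact Int.const _ | assumption | with_reducible apply Int.and | with_reducible apply Int.or | with_reducible apply Int.not | with_reducible apply Int.imp | with_reducible apply Int.iff | with_reducible apply Int.ne | with_reducible apply Int.eq | with_reducible apply Int.mem | with_reducible apply Int.subset | with_reducible apply Int.ltN | with_reducible apply Int.leN | with_reducible_and_instances apply Int.le | with_reducible_and_instances apply Int.lt | with_reducible apply Int.all | with_reducible apply Int.ex | with_reducible apply IntF.fst | with_reducible apply IntF.snd | with_reducible apply IntF.app | with_reducible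 apply IntF.inl | with_reducible apply IntF.inr | with_reducible_and_instances apply IntF.mul | with_reducible_and_instances apply IntF.inv | with_reducible_and_instances apply IntF.add | with_reducible_and_instances apply IntF.sub | with_reducible_and_instances apply IntF.neg | with_reducible_and_instances apply IntF.smul | with_reducible apply Int.fin | with_reducible apply IntF.sep | with_reducible apply IntF.lam | with_reducible apply IntF.insert | with_reducible apply IntF.singleton | with_reducible apply IntF.union | with_reducible apply IntF.iimage | with_reducible apply IntF.ite | with_reducible apply IntF.the | with_reducible apply IntF.irec | with_reducible apply IntF.succ | with_reducible apply IntF.val | with_reducible apply IntF.mk | (with_reducible refine Int.comp ?_ ?_; assumption) | (with_reducible refine Int.comp₂ ?_ ?_ ?_; assumption) | (with_reducible refine Int.comp₃ ?_ ?_ ?_ ?_; assumption) | (with_reducible refine Int.comp₄ ?_ ?_ ?_ ?_ ?_; assumption) | (with_reducible refine IntF.comp ?_ ?_; assumption) | (with_reducible refine IntF.comp₂ ?_ ?_ ?_; assumption) | (with_reducible refine IntF.comp₃ ?_ ?_ ?_ ?_; assumption) | with_reducible apply IntF.pair))) n, hFy]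
  have h0 : irec (0 : Helper672.Plain.El r) (fun _ z => F z) (0 : INat N) = 0 := irec_zero (by (repeat' (first | with_reducible apply memPE | with_reducible apply memPE' | with_reducible apply memPE'' | with_reducible apply memCode | with_reducible apply memCodeP | with_reducible apply memCode₂ | with_reducible apply eqPE | with_reducible apply eqPE' | with_reducible exact IntF.id | with_reducible exact IntF.fst' | with_reducible exact IntF.snd' | with_reducible exact IntF.const _ | with_reducible exact Int.const _ | assumption | with_reducible apply Int.and | with_reducible apply Int.or | with_reducible apply Int.not | with_reducible apply Int.imp | with_reducible apply Int.iff | with_reducible apply Int.ne | with_reducible apply Int.eq | with_reducible apply Int.mem | with_reducible apply Int.subset | with_reducible apply Int.ltN | with_reducible apply Int.leN | with_reducible_and_instances apply Int.le | with_reducible_and_instances apply Int.lt | with_reducible apply Int.all | with_reducible apply Int.ex | with_reducible apply IntF.fst | with_reducible apply IntF.snd | with_reducible apply IntF.app | with_reducible apply IntF.inl | with_reducible apply IntF.inr | with_reducible_and_instances apply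 IntF.mul | with_reducible_and_instances apply IntF.inv | with_reducible_and_instances apply IntF.add | with_reducible_and_instances apply IntF.sub | with_reducible_and_instances apply IntF.neg | with_reducible_and_instances apply IntF.smul | with_reducible apply Int.fin | with_reducible apply IntF.sep | with_reducible apply IntF.lam | with_reducible apply IntF.insert | with_reducible apply IntF.singleton | with_reducible apply IntF.union | with_reducible apply IntF.iimage | with_reducible apply IntF.ite | with_reducible apply IntF.the | with_reducible apply IntF.irec | with_reducible apply IntF.succ | with_reducible apply IntF.val | with_reducible apply IntF.mk | (with_reducible refine Int.comp ?_ ?_; assumption) | (with_reducible refine Int.comp₂ ?_ ?_ ?_; assumption) | (with_reducible refine Int.comp₃ ?_ ?_ ?_ ?_; assumption) | (with_reducible refine Int.comp₄ ?_ ?_ ?_ ?_ ?_; assumption) | (with_reducible refine IntF.comp ?_ ?_; assumption) | (with_reducible refine IntF.comp₂ ?_ ?_ ?_; assumption) | (with_reducible refine IntF.comp₃ ?_ ?_ ?_ ?_; assumption) | with_reducible apply IntF.pair)))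
  refine ⟨_, hi, h0, hs, fun ε hε z => ?_⟩
  by_contra hc
  push Not at hc
  have hS : Int N (fun z : Helper672.Plain.El r => ∃ n : INat N, z ≤ irec (0 : Helper672.Plain.El r) (fun _ z => F z) n * ε) := by
    (repeat' (first | with_reducible apply memPE | with_reducible apply memPE' | with_reducible apply memPE'' | with_reducible apply memCode | with_reducible apply memCodeP | with_reducible apply memCode₂ | with_reducible apply eqPE | with_reducible apply eqPE' | with_reducible exact IntF.id | with_reducible exact IntF.fst' | with_reducible exact IntF.snd' | with_reducible exact IntF.const _ | with_reducible exact Int.const _ | assumption | with_reducible apply Int.and | with_reducible apply Int.or | with_reducible apply Int.not | with_reducible apply Int.imp | with_reducible apply Int.iff | with_reducible apply Int.ne | with_reducible apply Int.eq | with_reducible apply Int.mem | with_reducible apply Int.subset | with_reducible apply Int.ltN | with_reducible apply Int.leN | with_reducible_and_instances apply Int.le | with_reducible_and_instances apply Int.lt | with_reducible apply Int.all | with_reducible apply Int.ex | with_reducible apply IntF.fst | with_reducible apply IntF.snd | with_reducible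 apply IntF.app | with_reducible apply IntF.inl | with_reducible apply IntF.inr | with_reducible_and_instances apply IntF.mul | with_reducible_and_instances apply IntF.inv | with_reducible_and_instances apply IntF.add | with_reducible_and_instances apply IntF.sub | with_reducible_and_instances apply IntF.neg | with_reducible_and_instances apply IntF.smul | with_reducible apply Int.fin | with_reducible apply IntF.sep | with_reducible apply IntF.lam | with_reducible apply IntF.insert | with_reducible apply IntF.singleton | with_reducible apply IntF.union | with_reducible apply IntF.iimage | with_reducible apply IntF.ite | with_reducible apply IntF.the | with_reducible apply IntF.irec | with_reducible apply IntF.succ | with_reducible apply IntF.val | with_reducible apply IntF.mk | (with_reducible refine Int.comp ?_ ?_; assumption) | (with_reducible refine Int.comp₂ ?_ ?_ ?_; assumption) | (with_reducible refine Int.comp₃ ?_ ?_ ?_ ?_; assumption) | (with_reducible refine Int.comp₄ ?_ ?_ ?_ ?_ ?_; assumption) | (with_reducible refine IntF.comp ?_ ?_; assumption) | (with_reducible refine IntF.comp₂ ?_ ?_ ?_; assumption) | (with_reducible refine IntF.comp₃ ?_ ?_ ?_ ?_; assumption) | with_reducible apply IntF.pair))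
  obtain ⟨S, hS1⟩ := exists_set hS
  obtain ⟨c, h1, h2⟩ := hr.complete ⟨S, fun z hz => ((hS1 z).1 hz).1⟩
    ⟨(0 : Helper672.Plain.El r).1, (hS1 _).2 ⟨(0 : Helper672.Plain.El r).2, 0, by
      change (0 : Helper672.Plain.El r) ≤ _
      rw [h0, zero_mul]⟩⟩
    ⟨z, fun w hw => by
      obtain ⟨_, n, hn⟩ := (hS1 w.1).1 hw
      exact le_trans hn (hc n)⟩
  have h3 : ∀ n : INat N, irec (0 : Helper672.Plain.El r) (fun _ z => F z) n * ε ≤ c := fun n =>
    h1 ((hS1 _).2 ⟨(irec (0 : Helper672.Plain.El r) (fun _ z => F z) n * ε : Helper672.Plain.El r).2, n, le_rfl⟩)
  have h4 : c ≤ c - ε := h2 fun w hw => by
    obtain ⟨_, n, hn⟩ := (hS1 w.1).1 hw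
    have h5 := h3 n.succ
    rw [hs, add_mul, one_mul] at h5
    have h6 : w ≤ irec (0 : Helper672.Plain.El r) (fun _ z => F z) n * ε := hn
    linarith
  linarith

/-- The dyadic numbers separate the real numbers. -/
theorem exists_dense : ∃ W : Helper672.Plain.El r → INat N → Prop, Int N (fun q : Helper672.Plain.El r × INat N => W q.1 q.2) ∧
    (∀ a b, (∀ k, W a k → W b k) → a ≤ b) := by
  obtain ⟨i, hi, hi0, his, harch⟩ := exists_iota hr
  obtain ⟨q, hq, hpos, hanti, hlim⟩ := exists_q hr
  have ha := int_add hr
  have hs := int_sub' hr
  have hmu := int_mul hr
  have hlt := int_lt hr
  have hle := int_le hr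
  have hp := int_pr (M := N)
  let v : INat N → INat N → INat N → Helper672.Plain.El r := fun m n k => (i m - i n) * q k
  have hv : IntF N (fun c : (INat N × INat N) × INat N => v c.1.1 c.1.2 c.2) := by
    change IntF N (fun c : (INat N × INat N) × INat N => (i c.1.1 - i c.1.2) * q c.2)
    exact IntF.comp₂ (p := fun a b : Helper672.Plain.El r => a * b) hmu
      (IntF.comp₂ (p := fun a b : Helper672.Plain.El r => a - b) hs (hi.comp (IntF.fst IntF.fst'))
        (hi.comp (IntF.snd IntF.fst'))) (hq.comp IntF.snd')
  refine ⟨fun a c => ∃ m n k, c = pr (pr m n) k ∧ v m n k < a, ?_, fun a b h => ?_⟩
  · (repeat' (first | with_reducible apply memPE | with_reducible apply memPE' | with_reducible apply memPE'' | with_reducible apply memCode | with_reducible apply memCodeP | with_reducible apply memCode₂ | with_reducible apply eqPE | with_reducible apply eqPE' | with_reducible exact IntF.id | with_reducible exact IntF.fst' | with_reducible exact IntF.snd' | with_reducible exact IntF.const _ | with_reducible exact Int.const _ | assumption | with_reducible apply Int.and | with_reducible apply Int.or | with_reducible apply Int.not | with_reducible apply Int.imp | with_reducible apply Int.iff | with_reducible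 apply Int.ne | with_reducible apply Int.eq | with_reducible apply Int.mem | with_reducible apply Int.subset | with_reducible apply Int.ltN | with_reducible apply Int.leN | with_reducible_and_instances apply Int.le | with_reducible_and_instances apply Int.lt | with_reducible apply Int.all | with_reducible apply Int.ex | with_reducible apply IntF.fst | with_reducible apply IntF.snd | with_reducible apply IntF.app | with_reducible apply IntF.inl | with_reducible apply IntF.inr | with_reducible_and_instances apply IntF.mul | with_reducible_and_instances apply IntF.inv | with_reducible_and_instances apply IntF.add | with_reducible_and_instances apply IntF.sub | with_reducible_and_instances apply IntF.neg | with_reducible_and_instances apply IntF.smul | with_reducible apply Int.fin | with_reducible apply IntF.sep | with_reducible apply IntF.lam | with_reducible apply IntF.insert | with_reducible apply IntF.singleton | with_reducible apply IntF.union | with_reducible apply IntF.iimage | with_reducible apply IntF.ite | with_reducible apply IntF.the | with_reducible apply IntF.irec | with_reducible apply IntF.succ | with_reducible apply IntF.val | with_reducible apply IntF.mk | (with_reducible refine Int.comp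 ?_ ?_; assumption) | (with_reducible refine Int.comp₂ ?_ ?_ ?_; assumption) | (with_reducible refine Int.comp₃ ?_ ?_ ?_ ?_; assumption) | (with_reducible refine Int.comp₄ ?_ ?_ ?_ ?_ ?_; assumption) | (with_reducible refine IntF.comp ?_ ?_; assumption) | (with_reducible refine IntF.comp₂ ?_ ?_ ?_; assumption) | (with_reducible refine IntF.comp₃ ?_ ?_ ?_ ?_; assumption) | with_reducible apply IntF.pair))
  · by_contra hc
    push Not at hc
    obtain ⟨k, hk⟩ := hlim (a - b) (by linarith)
    obtain ⟨n, hn⟩ := harch (q k) (hpos k) (-b)
    have h1 : ∃ m, b ≤ v m n k := by
      obtain ⟨m, hm⟩ := harch (q k) (hpos k) (b + i n * q k)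
      refine ⟨m, ?_⟩
      change b ≤ (i m - i n) * q k
      rw [sub_mul]
      linarith
    obtain ⟨m, hm, hmin⟩ := INat.exists_least (p := fun m => b ≤ v m n k) (by (repeat' (first | with_reducible apply memPE | with_reducible apply memPE' | with_reducible apply memPE'' | with_reducible apply memCode | with_reducible apply memCodeP | with_reducible apply memCode₂ | with_reducible apply eqPE | with_reducible apply eqPE' | with_reducible exact IntF.id | with_reducible exact IntF.fst' | with_reducible exact IntF.snd' | with_reducible exact IntF.const _ | with_reducible exact Int.const _ | assumption | with_reducible apply Int.and | with_reducible apply Int.or | with_reducible apply Int.not | with_reducible apply Int.imp | with_reducible apply Int.iff | with_reducible apply Int.ne | with_reducible apply Int.eq | with_reducible apply Int.mem | with_reducible apply Int.subset | with_reducible apply Int.ltN | with_reducible apply Int.leN | with_reducible_and_instances apply Int.le | with_reducible_and_instances apply Int.lt | with_reducible apply Int.all | with_reducible apply Int.ex | with_reducible apply IntF.fst | with_reducible apply IntF.snd | with_reducible apply IntF.app | with_reducible apply IntF.inl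 | with_reducible apply IntF.inr | with_reducible_and_instances apply IntF.mul | with_reducible_and_instances apply IntF.inv | with_reducible_and_instances apply IntF.add | with_reducible_and_instances apply IntF.sub | with_reducible_and_instances apply IntF.neg | with_reducible_and_instances apply IntF.smul | with_reducible apply Int.fin | with_reducible apply IntF.sep | with_reducible apply IntF.lam | with_reducible apply IntF.insert | with_reducible apply IntF.singleton | with_reducible apply IntF.union | with_reducible apply IntF.iimage | with_reducible apply IntF.ite | with_reducible apply IntF.the | with_reducible apply IntF.irec | with_reducible apply IntF.succ | with_reducible apply IntF.val | with_reducible apply IntF.mk | (with_reducible refine Int.comp ?_ ?_; assumption) | (with_reducible refine Int.comp₂ ?_ ?_ ?_; assumption) | (with_reducible refine Int.comp₃ ?_ ?_ ?_ ?_; assumption) | (with_reducible refine Int.comp₄ ?_ ?_ ?_ ?_ ?_; assumption) | (with_reducible refine IntF.comp ?_ ?_; assumption) | (with_reducible refine IntF.comp₂ ?_ ?_ ?_; assumption) | (with_reducible refine IntF.comp₃ ?_ ?_ ?_ ?_; assumption) | with_reducible apply IntF.pair))) h1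
    have h2 : v m n k < a := by
      rcases INat.eq_zero_or_succ m with rfl | ⟨m', rfl⟩
      · change (i 0 - i n) * q k < a
        rw [hi0, zero_sub, neg_mul]
        linarith
      · have h3 : v m' n k < b := by
          by_contra h4
          exact absurd (INat.lt_succ_self m') (not_lt.2 (hmin m' (not_lt.1 h4)))
        change (i m'.succ - i n) * q k < a
        have h4 : (i m' - i n) * q k < b := h3
        rw [his]
        have h5 : (i m' + 1 - i n) * q k = (i m' - i n) * q k + q k := by ring
        rw [h5]
        linarith
    obtain ⟨m', n', k', h3, h4⟩ := h _ ⟨m, n, k, rfl, h2⟩
    obtain ⟨h5, h6⟩ := pr_inj h3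
    obtain ⟨h7, h8⟩ := pr_inj h5
    subst h6 h7 h8
    exact absurd h4 (not_lt.2 hm)

/-! ### Zero-sets -/

/-- Continuity in terms of internal functions. -/
theorem int_cont : Int N (fun f : IFun N (Helper672.Plain.El x) (Helper672.Plain.El r) => IsCont t (fun p => f p)) := by
  obtain ⟨d, hdI, hd⟩ : ∃ d : Helper672.Plain.El r → Helper672.Plain.El r → Helper672.Plain.El r, IntF N (fun q : Helper672.Plain.El r × Helper672.Plain.El r => d q.1 q.2) ∧
      ∀ a b, d a b = |a - b| := ⟨fun a b => |a - b|, int_dist hr, fun _ _ => rfl⟩
  have hlt := int_lt hr
  refine Int.congr (p := fun f : IFun N (Helper672.Plain.El x) (Helper672.Plain.El r) => ∀ (p : Helper672.Plain.El x) (ε : Helper672.Plain.El r), 0 < ε →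
    ∃ u : Helper672.Plain.El t, Helper672.Plain.Mem p.1 u.1 ∧ ∀ q : Helper672.Plain.El x, Helper672.Plain.Mem q.1 u.1 → d (f q) (f p) < ε) (by (repeat' (first | with_reducible apply memPE | with_reducible apply memPE' | with_reducible apply memPE'' | with_reducible apply memCode | with_reducible apply memCodeP | with_reducible apply memCode₂ | with_reducible apply eqPE | with_reducible apply eqPE' | with_reducible exact IntF.id | with_reducible exact IntF.fst' | with_reducible exact IntF.snd' | with_reducible exact IntF.const _ | with_reducible exact Int.const _ | assumption | with_reducible apply Int.and | with_reducible apply Int.or | with_reducible apply Int.not | with_reducible apply Int.imp | with_reducible apply Int.iff | with_reducible apply Int.ne | with_reducible apply Int.eq | with_reducible apply Int.mem | with_reducible apply Int.subset | with_reducible apply Int.ltN | with_reducible apply Int.leN | with_reducible_and_instances apply Int.le | with_reducible_and_instances apply Int.lt | with_reducible apply Int.all | with_reducible apply Int.ex | with_reducible apply IntF.fst | with_reducible apply IntF.snd | with_reducible apply IntF.app | with_reducible apply IntF.inl | with_reducible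 apply IntF.inr | with_reducible_and_instances apply IntF.mul | with_reducible_and_instances apply IntF.inv | with_reducible_and_instances apply IntF.add | with_reducible_and_instances apply IntF.sub | with_reducible_and_instances apply IntF.neg | with_reducible_and_instances apply IntF.smul | with_reducible apply Int.fin | with_reducible apply IntF.sep | with_reducible apply IntF.lam | with_reducible apply IntF.insert | with_reducible apply IntF.singleton | with_reducible apply IntF.union | with_reducible apply IntF.iimage | with_reducible apply IntF.ite | with_reducible apply IntF.the | with_reducible apply IntF.irec | with_reducible apply IntF.succ | with_reducible apply IntF.val | with_reducible apply IntF.mk | (with_reducible refine Int.comp ?_ ?_; assumption) | (with_reducible refine Int.comp₂ ?_ ?_ ?_; assumption) | (with_reducible refine Int.comp₃ ?_ ?_ ?_ ?_; assumption) | (with_reducible refine Int.comp₄ ?_ ?_ ?_ ?_ ?_; assumption) | (with_reducible refine IntF.comp ?_ ?_; assumption) | (with_reducible refine IntF.comp₂ ?_ ?_ ?_; assumption) | (with_reducible refine IntF.comp₃ ?_ ?_ ?_ ?_; assumption) | with_reducible apply IntF.pair))) fun f => ?_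
  simp only [hd]
  constructor
  · intro h
    refine ⟨isMap_iff.2 f.int, fun p ε hε => ?_⟩
    obtain ⟨u, h1, h2⟩ := h p ε hε
    exact ⟨u.1, u.2, h1, h2⟩
  · rintro ⟨-, h⟩ p ε hε
    obtain ⟨u, h0, h1, h2⟩ := h p ε hε
    exact ⟨⟨u, h0⟩, h1, h2⟩

theorem int_zeroSet : Int N (fun V : IPow N (Helper672.Plain.El x) => IsZeroSet t x r (code V)) := by
  obtain ⟨C, hC, hC'⟩ : ∃ C : IFun N (Helper672.Plain.El x) (Helper672.Plain.El r) → Prop, Int N C ∧
      ∀ f, C f ↔ IsCont t (fun p => f p) := ⟨_, int_cont hr, fun _ => Iff.rfl⟩
  refine Int.congr (p := fun V : IPow N (Helper672.Plain.El x) => ∃ f : IFun N (Helper672.Plain.El x) (Helper672.Plain.El r), C f ∧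
    ∀ p : Helper672.Plain.El x, (p ∈ V ↔ f p = 0)) (by (repeat' (first | with_reducible apply memPE | with_reducible apply memPE' | with_reducible apply memPE'' | with_reducible apply memCode | with_reducible apply memCodeP | with_reducible apply memCode₂ | with_reducible apply eqPE | with_reducible apply eqPE' | with_reducible exact IntF.id | with_reducible exact IntF.fst' | with_reducible exact IntF.snd' | with_reducible exact IntF.const _ | with_reducible exact Int.const _ | assumption | with_reducible apply Int.and | with_reducible apply Int.or | with_reducible apply Int.not | with_reducible apply Int.imp | with_reducible apply Int.iff | with_reducible apply Int.ne | with_reducible apply Int.eq | with_reducible apply Int.mem | with_reducible apply Int.subset | with_reducible apply Int.ltN | with_reducible apply Int.leN | with_reducible_and_instances apply Int.le | with_reducible_and_instances apply Int.lt | with_reducible apply Int.all | with_reducible apply Int.ex | with_reducible apply IntF.fst | with_reducible apply IntF.snd | with_reducible apply IntF.app | with_reducible apply IntF.inl | with_reducible apply IntF.inr | with_reducible_and_instances apply IntF.mul | with_reducible_and_instances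 apply IntF.inv | with_reducible_and_instances apply IntF.add | with_reducible_and_instances apply IntF.sub | with_reducible_and_instances apply IntF.neg | with_reducible_and_instances apply IntF.smul | with_reducible apply Int.fin | with_reducible apply IntF.sep | with_reducible apply IntF.lam | with_reducible apply IntF.insert | with_reducible apply IntF.singleton | with_reducible apply IntF.union | with_reducible apply IntF.iimage | with_reducible apply IntF.ite | with_reducible apply IntF.the | with_reducible apply IntF.irec | with_reducible apply IntF.succ | with_reducible apply IntF.val | with_reducible apply IntF.mk | (with_reducible refine Int.comp ?_ ?_; assumption) | (with_reducible refine Int.comp₂ ?_ ?_ ?_; assumption) | (with_reducible refine Int.comp₃ ?_ ?_ ?_ ?_; assumption) | (with_reducible refine Int.comp₄ ?_ ?_ ?_ ?_ ?_; assumption) | (with_reducible refine IntF.comp ?_ ?_; assumption) | (with_reducible refine IntF.comp₂ ?_ ?_ ?_; assumption) | (with_reducible refine IntF.comp₃ ?_ ?_ ?_ ?_; assumption) | with_reducible apply IntF.pair))) fun V => ?_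
  constructor
  · rintro ⟨f, h1, h2⟩
    refine ⟨fun z hz => (mem_cpE.1 hz).1, fun p => f p, (hC' f).1 h1, fun p => ?_⟩
    rw [show Helper672.Plain.Mem p.1 (code V) ↔ _ from mem_cpE']
    exact h2 p
  · rintro ⟨-, f, h1, h2⟩
    refine ⟨⟨f, isMap_iff.1 h1.1⟩, (hC' _).2 h1, fun p => ?_⟩
    exact (mem_cpE'.symm.trans (h2 p))

theorem zeroSet_inter (ht : IsTopology t x) {u v c : N} (hu : IsZeroSet t x r u)
    (hv : IsZeroSet t x r v) (hc : ∀ z, Helper672.Plain.Mem z c ↔ Helper672.Plain.Mem z u ∧ Helper672.Plain.Mem z v) : IsZeroSet t x r c := by
  obtain ⟨hux, f, ⟨hfI, hf⟩, hfu⟩ := hu
  obtain ⟨-, g, ⟨hgI, hg⟩, hgv⟩ := hv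
  have hab := int_abs' hr
  have had := int_add hr
  have hfI' := isMap_iff.1 hfI
  have hgI' := isMap_iff.1 hgI
  refine ⟨fun z hz => hux z ((hc z).1 hz).1, fun p => |f p| + |g p|, ⟨isMap_iff.2 ?_,
    fun p ε hε => ?_⟩, fun p => ?_⟩
  · exact IntF.comp₂ (p := fun a b : Helper672.Plain.El r => a + b) had (IntF.comp (g := fun z : Helper672.Plain.El r => |z|) hab hfI')
      (IntF.comp (g := fun z : Helper672.Plain.El r => |z|) hab hgI')
  · obtain ⟨a, ha, hpa, h1⟩ := hf p (ε / 2) (half_pos hε)
    obtain ⟨b, hb, hpb, h2⟩ := hg p (ε / 2) (half_pos hε)
    obtain ⟨c', hc'⟩ := exists_trace a b
    refine ⟨c', ht.inter a b c' ha hb hc', (hc' _).2 ⟨hpa, hpb⟩, fun q hq => ?_⟩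
    have h3 := h1 q ((hc' _).1 hq).1
    have h4 := h2 q ((hc' _).1 hq).2
    have h5 := abs_abs_sub_abs_le_abs_sub (f q) (f p)
    have h6 := abs_abs_sub_abs_le_abs_sub (g q) (g p)
    have h7 : |f q| + |g q| - (|f p| + |g p|) = (|f q| - |f p|) + (|g q| - |g p|) := by ring
    rw [h7]
    refine (abs_add_le _ _).trans_lt ?_
    linarith
  · rw [show Helper672.Plain.Mem p.1 c ↔ _ from hc p.1, hfu p, hgv p]
    constructor
    · rintro ⟨h1, h2⟩
      change |f p| + |g p| = 0
      rw [h1, h2, abs_zero, add_zero]
    · intro h1
      replace h1 : |f p| + |g p| = 0 := h1
      have h2 := abs_nonneg (f p)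
      have h3 := abs_nonneg (g p)
      exact ⟨abs_eq_zero.1 (by linarith), abs_eq_zero.1 (by linarith)⟩

theorem isClosed_zeroSet (ht : IsTopology t x) {c : N} (hc : IsZeroSet t x r c) :
    IsClosed t x c := by
  obtain ⟨hcx, f, ⟨hfI, hf⟩, hfc⟩ := hc
  obtain ⟨u, hu⟩ := exists_diff x c
  refine ⟨hcx, u, open_of_local ht fun z hz => ?_, hu⟩
  obtain ⟨hzx, hzc⟩ := (hu z).1 hz
  have h1 : f (mkE z hzx) ≠ 0 := fun h2 => hzc ((hfc (mkE z hzx)).2 h2)
  obtain ⟨v, hv, h2, h3⟩ := hf (mkE z hzx) |f (mkE z hzx)| (abs_pos.2 h1)
  refine ⟨v, hv, h2, fun z' hz' => (hu z').2 ⟨ht.sub v hv z' hz', fun h4 => ?_⟩⟩
  have h5 := h3 (mkE z' (ht.sub v hv z' hz')) hz'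
  rw [(hfc (mkE z' (ht.sub v hv z' hz'))).1 h4, zero_sub, abs_neg] at h5
  exact lt_irrefl _ h5

omit hr in
open Classical in
theorem fin_inter_open (ht : IsTopology t x) {C : INat N → IPow N (Helper672.Plain.El x)} (hC : IntF N C)
    (hCo : ∀ m, Helper672.Plain.Mem (code (C m)) t) (n : INat N) {u : N}
    (hu : ∀ z, Helper672.Plain.Mem z u ↔ ∃ h : Helper672.Plain.Mem z x, ∀ m, m < n → mkE z h ∈ C m) : Helper672.Plain.Mem u t := by
  have key : ∀ n : INat N, Mem (code (sep N fun z : Helper672.Plain.El x => ∀ m, m < n → z ∈ C m)) t := by
    refine INat.ind (by (repeat' (first | with_reducible apply memPE | with_reducible apply memPE' | with_reducible apply memPE'' | with_reducible apply memCode | with_reducible apply memCodeP | with_reducible apply memCode₂ | with_reducible apply eqPE | with_reducible apply eqPE' | with_reducible exact IntF.id | with_reducible exact IntF.fst' | with_reducible exact IntF.snd' | with_reducible exact IntF.const _ | with_reducible exact Int.const _ | assumption | with_reducible apply Int.and | with_reducible apply Int.or | with_reducible apply Int.not | with_reducible apply Int.imp | with_reducible apply Int.iff | with_reducible apply Int.ne | with_reducible apply Int.eq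 | with_reducible apply Int.mem | with_reducible apply Int.subset | with_reducible apply Int.ltN | with_reducible apply Int.leN | with_reducible_and_instances apply Int.le | with_reducible_and_instances apply Int.lt | with_reducible apply Int.all | with_reducible apply Int.ex | with_reducible apply IntF.fst | with_reducible apply IntF.snd | with_reducible apply IntF.app | with_reducible apply IntF.inl | with_reducible apply IntF.inr | with_reducible_and_instances apply IntF.mul | with_reducible_and_instances apply IntF.inv | with_reducible_and_instances apply IntF.add | with_reducible_and_instances apply IntF.sub | with_reducible_and_instances apply IntF.neg | with_reducible_and_instances apply IntF.smul | with_reducible apply Int.fin | with_reducible apply IntF.sep | with_reducible apply IntF.lam | with_reducible apply IntF.insert | with_reducible apply IntF.singleton | with_reducible apply IntF.union | with_reducible apply IntF.iimage | with_reducible apply IntF.ite | with_reducible apply IntF.the | with_reducible apply IntF.irec | with_reducible apply IntF.succ | with_reducible apply IntF.val | with_reducible apply IntF.mk | (with_reducible refine Int.comp ?_ ?_; assumption) | (with_reducible refine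 Int.comp₂ ?_ ?_ ?_; assumption) | (with_reducible refine Int.comp₃ ?_ ?_ ?_ ?_; assumption) | (with_reducible refine Int.comp₄ ?_ ?_ ?_ ?_ ?_; assumption) | (with_reducible refine IntF.comp ?_ ?_; assumption) | (with_reducible refine IntF.comp₂ ?_ ?_ ?_; assumption) | (with_reducible refine IntF.comp₃ ?_ ?_ ?_ ?_; assumption) | with_reducible apply IntF.pair))) ?_ ?_
    · refine open_of_local ht fun z hz => ⟨x, ht.univ, (mem_cpE.1 hz).1, fun z' hz' => ?_⟩
      exact mem_cpE.2 ⟨hz', (mem_sep (by (repeat' (first | with_reducible apply memPE | with_reducible apply memPE' | with_reducible apply memPE'' | with_reducible apply memCode | with_reducible apply memCodeP | with_reducible apply memCode₂ | with_reducible apply eqPE | with_reducible apply eqPE' | with_reducible exact IntF.id | with_reducible exact IntF.fst' | with_reducible exact IntF.snd' | with_reducible exact IntF.const _ | with_reducible exact Int.const _ | assumption | with_reducible apply Int.and | with_reducible apply Int.or | with_reducible apply Int.not | with_reducible apply Int.imp | with_reducible apply Int.iff | with_reducible apply Int.ne | with_reducible apply Int.eq | with_reducible apply Int.mem | with_reducible apply Int.subset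 | with_reducible apply Int.ltN | with_reducible apply Int.leN | with_reducible_and_instances apply Int.le | with_reducible_and_instances apply Int.lt | with_reducible apply Int.all | with_reducible apply Int.ex | with_reducible apply IntF.fst | with_reducible apply IntF.snd | with_reducible apply IntF.app | with_reducible apply IntF.inl | with_reducible apply IntF.inr | with_reducible_and_instances apply IntF.mul | with_reducible_and_instances apply IntF.inv | with_reducible_and_instances apply IntF.add | with_reducible_and_instances apply IntF.sub | with_reducible_and_instances apply IntF.neg | with_reducible_and_instances apply IntF.smul | with_reducible apply Int.fin | with_reducible apply IntF.sep | with_reducible apply IntF.lam | with_reducible apply IntF.insert | with_reducible apply IntF.singleton | with_reducible apply IntF.union | with_reducible apply IntF.iimage | with_reducible apply IntF.ite | with_reducible apply IntF.the | with_reducible apply IntF.irec | with_reducible apply IntF.succ | with_reducible apply IntF.val | with_reducible apply IntF.mk | (with_reducible refine Int.comp ?_ ?_; assumption) | (with_reducible refine Int.comp₂ ?_ ?_ ?_; assumption) | (with_reducible refine Int.comp₃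 ?_ ?_ ?_ ?_; assumption) | (with_reducible refine Int.comp₄ ?_ ?_ ?_ ?_ ?_; assumption) | (with_reducible refine IntF.comp ?_ ?_; assumption) | (with_reducible refine IntF.comp₂ ?_ ?_ ?_; assumption) | (with_reducible refine IntF.comp₃ ?_ ?_ ?_ ?_; assumption) | with_reducible apply IntF.pair)))).2 fun m hm => absurd hm INat.not_lt_zero⟩
    · intro n ih
      refine ht.inter _ _ _ ih (hCo n) fun z => ?_
      rw [show Helper672.Plain.Mem z (code (sep N fun z : Helper672.Plain.El x => ∀ m, m < n.succ → z ∈ C m)) ↔ _
          from mem_cpE,
        show Helper672.Plain.Mem z (code (sep N fun z : Helper672.Plain.El x => ∀ m, m < n → z ∈ C m)) ↔ _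
          from mem_cpE, show Helper672.Plain.Mem z (code (C n)) ↔ _ from mem_cpE]
      constructor
      · rintro ⟨h1, h2⟩
        rw [mem_sep (by (repeat' (first | with_reducible apply memPE | with_reducible apply memPE' | with_reducible apply memPE'' | with_reducible apply memCode | with_reducible apply memCodeP | with_reducible apply memCode₂ | with_reducible apply eqPE | with_reducible apply eqPE' | with_reducible exact IntF.id | with_reducible exact IntF.fst' | with_reducible exact IntF.snd' | with_reducible exact IntF.const _ | with_reducible exact Int.const _ | assumption | with_reducible apply Int.and | with_reducible apply Int.or | with_reducible apply Int.not | with_reducible apply Int.imp | with_reducible apply Int.iff | with_reducible apply Int.ne | with_reducible apply Int.eq | with_reducible apply Int.mem | with_reducible apply Int.subset | with_reducible apply Int.ltN | with_reducible apply Int.leN | with_reducible_and_instances apply Int.le | with_reducible_and_instances apply Int.lt | with_reducible apply Int.all | with_reducible apply Int.ex | with_reducible apply IntF.fst | with_reducible apply IntF.snd | with_reducible apply IntF.app | with_reducible apply IntF.inl | with_reducible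 apply IntF.inr | with_reducible_and_instances apply IntF.mul | with_reducible_and_instances apply IntF.inv | with_reducible_and_instances apply IntF.add | with_reducible_and_instances apply IntF.sub | with_reducible_and_instances apply IntF.neg | with_reducible_and_instances apply IntF.smul | with_reducible apply Int.fin | with_reducible apply IntF.sep | with_reducible apply IntF.lam | with_reducible apply IntF.insert | with_reducible apply IntF.singleton | with_reducible apply IntF.union | with_reducible apply IntF.iimage | with_reducible apply IntF.ite | with_reducible apply IntF.the | with_reducible apply IntF.irec | with_reducible apply IntF.succ | with_reducible apply IntF.val | with_reducible apply IntF.mk | (with_reducible refine Int.comp ?_ ?_; assumption) | (with_reducible refine Int.comp₂ ?_ ?_ ?_; assumption) | (with_reducible refine Int.comp₃ ?_ ?_ ?_ ?_; assumption) | (with_reducible refine Int.comp₄ ?_ ?_ ?_ ?_ ?_; assumption) | (with_reducible refine IntF.comp ?_ ?_; assumption) | (with_reducible refine IntF.comp₂ ?_ ?_ ?_; assumption) | (with_reducible refine IntF.comp₃ ?_ ?_ ?_ ?_; assumption) | with_reducible apply IntF.pair)))] at h2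
        exact ⟨⟨h1, (mem_sep (by (repeat' (first | with_reducible apply memPE | with_reducible apply memPE' | with_reducible apply memPE'' | with_reducible apply memCode | with_reducible apply memCodeP | with_reducible apply memCode₂ | with_reducible apply eqPE | with_reducible apply eqPE' | with_reducible exact IntF.id | with_reducible exact IntF.fst' | with_reducible exact IntF.snd' | with_reducible exact IntF.const _ | with_reducible exact Int.const _ | assumption | with_reducible apply Int.and | with_reducible apply Int.or | with_reducible apply Int.not | with_reducible apply Int.imp | with_reducible apply Int.iff | with_reducible apply Int.ne | with_reducible apply Int.eq | with_reducible apply Int.mem | with_reducible apply Int.subset | with_reducible apply Int.ltN | with_reducible apply Int.leN | with_reducible_and_instances apply Int.le | with_reducible_and_instances apply Int.lt | with_reducible apply Int.all | with_reducible apply Int.ex | with_reducible apply IntF.fst | with_reducible apply IntF.snd | with_reducible apply IntF.app | with_reducible apply IntF.inl | with_reducible apply IntF.inr | with_reducible_and_instances apply IntF.mul | with_reducible_and_instances apply IntF.inv | with_reducible_and_instances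 apply IntF.add | with_reducible_and_instances apply IntF.sub | with_reducible_and_instances apply IntF.neg | with_reducible_and_instances apply IntF.smul | with_reducible apply Int.fin | with_reducible apply IntF.sep | with_reducible apply IntF.lam | with_reducible apply IntF.insert | with_reducible apply IntF.singleton | with_reducible apply IntF.union | with_reducible apply IntF.iimage | with_reducible apply IntF.ite | with_reducible apply IntF.the | with_reducible apply IntF.irec | with_reducible apply IntF.succ | with_reducible apply IntF.val | with_reducible apply IntF.mk | (with_reducible refine Int.comp ?_ ?_; assumption) | (with_reducible refine Int.comp₂ ?_ ?_ ?_; assumption) | (with_reducible refine Int.comp₃ ?_ ?_ ?_ ?_; assumption) | (with_reducible refine Int.comp₄ ?_ ?_ ?_ ?_ ?_; assumption) | (with_reducible refine IntF.comp ?_ ?_; assumption) | (with_reducible refine IntF.comp₂ ?_ ?_ ?_; assumption) | (with_reducible refine IntF.comp₃ ?_ ?_ ?_ ?_; assumption) | with_reducible apply IntF.pair)))).2 fun m hm => h2 m (hm.trans (INat.lt_succ_self n))⟩, h1,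
          h2 n (INat.lt_succ_self n)⟩
      · rintro ⟨⟨h1, h2⟩, _, h3⟩
        rw [mem_sep (by (repeat' (first | with_reducible apply memPE | with_reducible apply memPE' | with_reducible apply memPE'' | with_reducible apply memCode | with_reducible apply memCodeP | with_reducible apply memCode₂ | with_reducible apply eqPE | with_reducible apply eqPE' | with_reducible exact IntF.id | with_reducible exact IntF.fst' | with_reducible exact IntF.snd' | with_reducible exact IntF.const _ | with_reducible exact Int.const _ | assumption | with_reducible apply Int.and | with_reducible apply Int.or | with_reducible apply Int.not | with_reducible apply Int.imp | with_reducible apply Int.iff | with_reducible apply Int.ne | with_reducible apply Int.eq | with_reducible apply Int.mem | with_reducible apply Int.subset | with_reducible apply Int.ltN | with_reducible apply Int.leN | with_reducible_and_instances apply Int.le | with_reducible_and_instances apply Int.lt | with_reducible apply Int.all | with_reducible apply Int.ex | with_reducible apply IntF.fst | with_reducible apply IntF.snd | with_reducible apply IntF.app | with_reducible apply IntF.inl | with_reducible apply IntF.inr | with_reducible_and_instances apply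 IntF.mul | with_reducible_and_instances apply IntF.inv | with_reducible_and_instances apply IntF.add | with_reducible_and_instances apply IntF.sub | with_reducible_and_instances apply IntF.neg | with_reducible_and_instances apply IntF.smul | with_reducible apply Int.fin | with_reducible apply IntF.sep | with_reducible apply IntF.lam | with_reducible apply IntF.insert | with_reducible apply IntF.singleton | with_reducible apply IntF.union | with_reducible apply IntF.iimage | with_reducible apply IntF.ite | with_reducible apply IntF.the | with_reducible apply IntF.irec | with_reducible apply IntF.succ | with_reducible apply IntF.val | with_reducible apply IntF.mk | (with_reducible refine Int.comp ?_ ?_; assumption) | (with_reducible refine Int.comp₂ ?_ ?_ ?_; assumption) | (with_reducible refine Int.comp₃ ?_ ?_ ?_ ?_; assumption) | (with_reducible refine Int.comp₄ ?_ ?_ ?_ ?_ ?_; assumption) | (with_reducible refine IntF.comp ?_ ?_; assumption) | (with_reducible refine IntF.comp₂ ?_ ?_ ?_; assumption) | (with_reducible refine IntF.comp₃ ?_ ?_ ?_ ?_; assumption) | with_reducible apply IntF.pair)))] at h2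
        refine ⟨h1, (mem_sep (by (repeat' (first | with_reducible apply memPE | with_reducible apply memPE' | with_reducible apply memPE'' | with_reducible apply memCode | with_reducible apply memCodeP | with_reducible apply memCode₂ | with_reducible apply eqPE | with_reducible apply eqPE' | with_reducible exact IntF.id | with_reducible exact IntF.fst' | with_reducible exact IntF.snd' | with_reducible exact IntF.const _ | with_reducible exact Int.const _ | assumption | with_reducible apply Int.and | with_reducible apply Int.or | with_reducible apply Int.not | with_reducible apply Int.imp | with_reducible apply Int.iff | with_reducible apply Int.ne | with_reducible apply Int.eq | with_reducible apply Int.mem | with_reducible apply Int.subset | with_reducible apply Int.ltN | with_reducible apply Int.leN | with_reducible_and_instances apply Int.le | with_reducible_and_instances apply Int.lt | with_reducible apply Int.all | with_reducible apply Int.ex | with_reducible apply IntF.fst | with_reducible apply IntF.snd | with_reducible apply IntF.app | with_reducible apply IntF.inl | with_reducible apply IntF.inr | with_reducible_and_instances apply IntF.mul | with_reducible_and_instances apply IntF.inv | with_reducible_and_instances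 apply IntF.add | with_reducible_and_instances apply IntF.sub | with_reducible_and_instances apply IntF.neg | with_reducible_and_instances apply IntF.smul | with_reducible apply Int.fin | with_reducible apply IntF.sep | with_reducible apply IntF.lam | with_reducible apply IntF.insert | with_reducible apply IntF.singleton | with_reducible apply IntF.union | with_reducible apply IntF.iimage | with_reducible apply IntF.ite | with_reducible apply IntF.the | with_reducible apply IntF.irec | with_reducible apply IntF.succ | with_reducible apply IntF.val | with_reducible apply IntF.mk | (with_reducible refine Int.comp ?_ ?_; assumption) | (with_reducible refine Int.comp₂ ?_ ?_ ?_; assumption) | (with_reducible refine Int.comp₃ ?_ ?_ ?_ ?_; assumption) | (with_reducible refine Int.comp₄ ?_ ?_ ?_ ?_ ?_; assumption) | (with_reducible refine IntF.comp ?_ ?_; assumption) | (with_reducible refine IntF.comp₂ ?_ ?_ ?_; assumption) | (with_reducible refine IntF.comp₃ ?_ ?_ ?_ ?_; assumption) | with_reducible apply IntF.pair)))).2 fun m hm => ?_⟩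
        rcases INat.lt_succ_iff'.1 hm with hm | rfl
        · exact h2 m hm
        · exact h3
  have hI : Int N (fun z : Helper672.Plain.El x => ∀ m, m < n → z ∈ C m) := by (repeat' (first | with_reducible apply memPE | with_reducible apply memPE' | with_reducible apply memPE'' | with_reducible apply memCode | with_reducible apply memCodeP | with_reducible apply memCode₂ | with_reducible apply eqPE | with_reducible apply eqPE' | with_reducible exact IntF.id | with_reducible exact IntF.fst' | with_reducible exact IntF.snd' | with_reducible exact IntF.const _ | with_reducible exact Int.const _ | assumption | with_reducible apply Int.and | with_reducible apply Int.or | with_reducible apply Int.not | with_reducible apply Int.imp | with_reducible apply Int.iff | with_reducible apply Int.ne | with_reducible apply Int.eq | with_reducible apply Int.mem | with_reducible apply Int.subset | with_reducible apply Int.ltN | with_reducible apply Int.leN | with_reducible_and_instances apply Int.le | with_reducible_and_instances apply Int.lt | with_reducible apply Int.all | with_reducible apply Int.ex | with_reducible apply IntF.fst | with_reducible apply IntF.snd | with_reducible apply IntF.app | with_reducible apply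 IntF.inl | with_reducible apply IntF.inr | with_reducible_and_instances apply IntF.mul | with_reducible_and_instances apply IntF.inv | with_reducible_and_instances apply IntF.add | with_reducible_and_instances apply IntF.sub | with_reducible_and_instances apply IntF.neg | with_reducible_and_instances apply IntF.smul | with_reducible apply Int.fin | with_reducible apply IntF.sep | with_reducible apply IntF.lam | with_reducible apply IntF.insert | with_reducible apply IntF.singleton | with_reducible apply IntF.union | with_reducible apply IntF.iimage | with_reducible apply IntF.ite | with_reducible apply IntF.the | with_reducible apply IntF.irec | with_reducible apply IntF.succ | with_reducible apply IntF.val | with_reducible apply IntF.mk | (with_reducible refine Int.comp ?_ ?_; assumption) | (with_reducible refine Int.comp₂ ?_ ?_ ?_; assumption) | (with_reducible refine Int.comp₃ ?_ ?_ ?_ ?_; assumption) | (with_reducible refine Int.comp₄ ?_ ?_ ?_ ?_ ?_; assumption) | (with_reducible refine IntF.comp ?_ ?_; assumption) | (with_reducible refine IntF.comp₂ ?_ ?_ ?_; assumption) | (with_reducible refine IntF.comp₃ ?_ ?_ ?_ ?_; assumption) | with_reducible apply IntF.pair))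
  have h1 : u = code (sep N fun z : Helper672.Plain.El x => ∀ m, m < n → z ∈ C m) := extN fun z => by
    rw [hu z, show Helper672.Plain.Mem z (code (sep N fun z : Helper672.Plain.El x => ∀ m, m < n → z ∈ C m)) ↔ _
          from mem_cpE]
    exact exists_congr fun h => (mem_sep hI).symm
  rw [h1]
  exact key n

/-- Intersections of sequences of clopen sets are zero-sets. -/
theorem zeroSet_of_seq (ht : IsTopology t x) {C : INat N → IPow N (Helper672.Plain.El x)} (hC : IntF N C)
    (hCo : ∀ m, IsClopen t x (code (C m))) {c : N}
    (hc : ∀ z, Helper672.Plain.Mem z c ↔ ∃ h : Helper672.Plain.Mem z x, ∀ m, mkE z h ∈ C m) : IsZeroSet t x r c := by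
  obtain ⟨q, hq, hpos, hanti, hlim⟩ := exists_q hr
  have hle : ∀ m n, m ≤ n → q n ≤ q m := by
    intro m n hmn
    rcases hmn.lt_or_eq with h1 | rfl
    · exact (hanti _ _ h1).le
    · exact le_rfl
  have hR : Int N (fun c : Helper672.Plain.El x × Helper672.Plain.El r => ((∀ m, c.1 ∈ C m) ∧ c.2 = 0) ∨
      ∃ m, ¬ c.1 ∈ C m ∧ (∀ k, k < m → c.1 ∈ C k) ∧ c.2 = q m) := by (repeat' (first | with_reducible apply memPE | with_reducible apply memPE' | with_reducible apply memPE'' | with_reducible apply memCode | with_reducible apply memCodeP | with_reducible apply memCode₂ | with_reducible apply eqPE | with_reducible apply eqPE' | with_reducible exact IntF.id | with_reducible exact IntF.fst' | with_reducible exact IntF.snd' | with_reducible exact IntF.const _ | with_reducible exact Int.const _ | assumption | with_reducible apply Int.and | with_reducible apply Int.or | with_reducible apply Int.not | with_reducible apply Int.imp | with_reducible apply Int.iff | with_reducible apply Int.ne | with_reducible apply Int.eq | with_reducible apply Int.mem | with_reducible apply Int.subset | with_reducible apply Int.ltN | with_reducible apply Int.leN | with_reducible_and_instances apply Int.le | with_reducible_and_instances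 apply Int.lt | with_reducible apply Int.all | with_reducible apply Int.ex | with_reducible apply IntF.fst | with_reducible apply IntF.snd | with_reducible apply IntF.app | with_reducible apply IntF.inl | with_reducible apply IntF.inr | with_reducible_and_instances apply IntF.mul | with_reducible_and_instances apply IntF.inv | with_reducible_and_instances apply IntF.add | with_reducible_and_instances apply IntF.sub | with_reducible_and_instances apply IntF.neg | with_reducible_and_instances apply IntF.smul | with_reducible apply Int.fin | with_reducible apply IntF.sep | with_reducible apply IntF.lam | with_reducible apply IntF.insert | with_reducible apply IntF.singleton | with_reducible apply IntF.union | with_reducible apply IntF.iimage | with_reducible apply IntF.ite | with_reducible apply IntF.the | with_reducible apply IntF.irec | with_reducible apply IntF.succ | with_reducible apply IntF.val | with_reducible apply IntF.mk | (with_reducible refine Int.comp ?_ ?_; assumption) | (with_reducible refine Int.comp₂ ?_ ?_ ?_; assumption) | (with_reducible refine Int.comp₃ ?_ ?_ ?_ ?_; assumption) | (with_reducible refine Int.comp₄ ?_ ?_ ?_ ?_ ?_; assumption) | (with_reducible refine IntF.comp ?_ ?_; assumption)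 | (with_reducible refine IntF.comp₂ ?_ ?_ ?_; assumption) | (with_reducible refine IntF.comp₃ ?_ ?_ ?_ ?_; assumption) | with_reducible apply IntF.pair))
  have hex : ∀ p : Helper672.Plain.El x, ∃ z : Helper672.Plain.El r, ((∀ m, p ∈ C m) ∧ z = 0) ∨
      ∃ m, ¬ p ∈ C m ∧ (∀ k, k < m → p ∈ C k) ∧ z = q m := by
    intro p
    by_cases h : ∀ m, p ∈ C m
    · exact ⟨0, Or.inl ⟨h, rfl⟩⟩
    · push Not at h
      obtain ⟨m, h1, h2⟩ := INat.exists_least (p := fun m => ¬ p ∈ C m) (by (repeat' (first | with_reducible apply memPE | with_reducible apply memPE' | with_reducible apply memPE'' | with_reducible apply memCode | with_reducible apply memCodeP | with_reducible apply memCode₂ | with_reducible apply eqPE | with_reducible apply eqPE' | with_reducible exact IntF.id | with_reducible exact IntF.fst' | with_reducible exact IntF.snd' | with_reducible exact IntF.const _ | with_reducible exact Int.const _ | assumption | with_reducible apply Int.and | with_reducible apply Int.or | with_reducible apply Int.not | with_reducible apply Int.imp | with_reducible apply Int.iff | with_reducible apply Int.ne | with_reducible apply Int.eq | with_reducible apply Int.mem | with_reducible apply Int.subset | with_reducible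 apply Int.ltN | with_reducible apply Int.leN | with_reducible_and_instances apply Int.le | with_reducible_and_instances apply Int.lt | with_reducible apply Int.all | with_reducible apply Int.ex | with_reducible apply IntF.fst | with_reducible apply IntF.snd | with_reducible apply IntF.app | with_reducible apply IntF.inl | with_reducible apply IntF.inr | with_reducible_and_instances apply IntF.mul | with_reducible_and_instances apply IntF.inv | with_reducible_and_instances apply IntF.add | with_reducible_and_instances apply IntF.sub | with_reducible_and_instances apply IntF.neg | with_reducible_and_instances apply IntF.smul | with_reducible apply Int.fin | with_reducible apply IntF.sep | with_reducible apply IntF.lam | with_reducible apply IntF.insert | with_reducible apply IntF.singleton | with_reducible apply IntF.union | with_reducible apply IntF.iimage | with_reducible apply IntF.ite | with_reducible apply IntF.the | with_reducible apply IntF.irec | with_reducible apply IntF.succ | with_reducible apply IntF.val | with_reducible apply IntF.mk | (with_reducible refine Int.comp ?_ ?_; assumption) | (with_reducible refine Int.comp₂ ?_ ?_ ?_; assumption) | (with_reducible refine Int.comp₃ ?_ ?_ ?_ ?_;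 assumption) | (with_reducible refine Int.comp₄ ?_ ?_ ?_ ?_ ?_; assumption) | (with_reducible refine IntF.comp ?_ ?_; assumption) | (with_reducible refine IntF.comp₂ ?_ ?_ ?_; assumption) | (with_reducible refine IntF.comp₃ ?_ ?_ ?_ ?_; assumption) | with_reducible apply IntF.pair))) h
      refine ⟨q m, Or.inr ⟨m, h1, fun k hk => ?_, rfl⟩⟩
      by_contra h3
      exact absurd hk (not_lt.2 (h2 k h3))
  choose f hf using hex
  have huniq : ∀ (p : Helper672.Plain.El x) (z z' : Helper672.Plain.El r), (((∀ m, p ∈ C m) ∧ z = 0) ∨
      ∃ m, ¬ p ∈ C m ∧ (∀ k, k < m → p ∈ C k) ∧ z = q m) → (((∀ m, p ∈ C m) ∧ z' = 0) ∨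
      ∃ m, ¬ p ∈ C m ∧ (∀ k, k < m → p ∈ C k) ∧ z' = q m) → z = z' := by
    rintro p z z' (⟨h1, rfl⟩ | ⟨m, h1, h2, rfl⟩) (⟨h3, rfl⟩ | ⟨m', h3, h4, rfl⟩)
    · rfl
    · exact absurd (h1 m') h3
    · exact absurd (h3 m) h1
    · rcases lt_trichotomy m m' with h5 | rfl | h5
      · exact absurd (h4 m h5) h1
      · rfl
      · exact absurd (h2 m' h5) h3
  have hfI : IntF N f := IntF.of_unique (p := fun (p : Helper672.Plain.El x) (z : Helper672.Plain.El r) =>
    ((∀ m, p ∈ C m) ∧ z = 0) ∨ ∃ m, ¬ p ∈ C m ∧ (∀ k, k < m → p ∈ C k) ∧ z = q m) hR hf huniq
  have hf0 : ∀ p, f p = 0 ↔ ∀ m, p ∈ C m := by
    intro p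
    constructor
    · intro h
      rcases hf p with ⟨h1, -⟩ | ⟨m, h1, h2, h3⟩
      · exact h1
      · rw [h] at h3
        exact absurd h3 (hpos m).ne
    · intro h
      exact huniq p _ _ (hf p) (Or.inl ⟨h, rfl⟩)
  refine ⟨fun z hz => ((hc z).1 hz).1, f, ⟨isMap_iff.2 hfI, fun p ε hε => ?_⟩, fun p => ?_⟩
  · rcases hf p with ⟨h1, h2⟩ | ⟨m, h1, h2, h3⟩
    · obtain ⟨n, hn⟩ := hlim ε hε
      obtain ⟨u, hu⟩ := exists_set (a := x) (p := fun z => ∀ m, m < n → z ∈ C m) (by (repeat' (first | with_reducible apply memPE | with_reducible apply memPE' | with_reducible apply memPE'' | with_reducible apply memCode | with_reducible apply memCodeP | with_reducible apply memCode₂ | with_reducible apply eqPE | with_reducible apply eqPE' | with_reducible exact IntF.id | with_reducible exact IntF.fst' | with_reducible exact IntF.snd' | with_reducible exact IntF.const _ | with_reducible exact Int.const _ | assumption | with_reducible apply Int.and | with_reducible apply Int.or | with_reducible apply Int.not | with_reducible apply Int.imp | with_reducible apply Int.iff | with_reducible apply Int.ne | with_reducible apply Int.eq | with_reducible apply Int.mem | with_reducible apply Int.subset | with_reducible apply Int.ltN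 | with_reducible apply Int.leN | with_reducible_and_instances apply Int.le | with_reducible_and_instances apply Int.lt | with_reducible apply Int.all | with_reducible apply Int.ex | with_reducible apply IntF.fst | with_reducible apply IntF.snd | with_reducible apply IntF.app | with_reducible apply IntF.inl | with_reducible apply IntF.inr | with_reducible_and_instances apply IntF.mul | with_reducible_and_instances apply IntF.inv | with_reducible_and_instances apply IntF.add | with_reducible_and_instances apply IntF.sub | with_reducible_and_instances apply IntF.neg | with_reducible_and_instances apply IntF.smul | with_reducible apply Int.fin | with_reducible apply IntF.sep | with_reducible apply IntF.lam | with_reducible apply IntF.insert | with_reducible apply IntF.singleton | with_reducible apply IntF.union | with_reducible apply IntF.iimage | with_reducible apply IntF.ite | with_reducible apply IntF.the | with_reducible apply IntF.irec | with_reducible apply IntF.succ | with_reducible apply IntF.val | with_reducible apply IntF.mk | (with_reducible refine Int.comp ?_ ?_; assumption) | (with_reducible refine Int.comp₂ ?_ ?_ ?_; assumption) | (with_reducible refine Int.comp₃ ?_ ?_ ?_ ?_; assumption)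 | (with_reducible refine Int.comp₄ ?_ ?_ ?_ ?_ ?_; assumption) | (with_reducible refine IntF.comp ?_ ?_; assumption) | (with_reducible refine IntF.comp₂ ?_ ?_ ?_; assumption) | (with_reducible refine IntF.comp₃ ?_ ?_ ?_ ?_; assumption) | with_reducible apply IntF.pair)))
      refine ⟨u, fin_inter_open ht hC (fun m => (hCo m).1) n hu, (hu _).2 ⟨p.2, fun m _ => h1 m⟩,
        fun z hz => ?_⟩
      obtain ⟨_, h4⟩ := (hu z.1).1 hz
      rw [h2, sub_zero]
      rcases hf z with ⟨-, h5⟩ | ⟨k, h5, h6, h7⟩
      · rw [h5, abs_zero]
        exact hε
      · rw [h7, abs_of_pos (hpos k)]
        refine (hle n k ?_).trans_lt hn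
        by_contra h8
        exact h5 (h4 k (not_le.1 h8))
    · obtain ⟨u, hu⟩ := exists_set (a := x) (p := fun z => ∀ k, k < m → z ∈ C k) (by (repeat' (first | with_reducible apply memPE | with_reducible apply memPE' | with_reducible apply memPE'' | with_reducible apply memCode | with_reducible apply memCodeP | with_reducible apply memCode₂ | with_reducible apply eqPE | with_reducible apply eqPE' | with_reducible exact IntF.id | with_reducible exact IntF.fst' | with_reducible exact IntF.snd' | with_reducible exact IntF.const _ | with_reducible exact Int.const _ | assumption | with_reducible apply Int.and | with_reducible apply Int.or | with_reducible apply Int.not | with_reducible apply Int.imp | with_reducible apply Int.iff | with_reducible apply Int.ne | with_reducible apply Int.eq | with_reducible apply Int.mem | with_reducible apply Int.subset | with_reducible apply Int.ltN | with_reducible apply Int.leN | with_reducible_and_instances apply Int.le | with_reducible_and_instances apply Int.lt | with_reducible apply Int.all | with_reducible apply Int.ex | with_reducible apply IntF.fst | with_reducible apply IntF.snd | with_reducible apply IntF.app | with_reducible apply IntF.inl | with_reducible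 apply IntF.inr | with_reducible_and_instances apply IntF.mul | with_reducible_and_instances apply IntF.inv | with_reducible_and_instances apply IntF.add | with_reducible_and_instances apply IntF.sub | with_reducible_and_instances apply IntF.neg | with_reducible_and_instances apply IntF.smul | with_reducible apply Int.fin | with_reducible apply IntF.sep | with_reducible apply IntF.lam | with_reducible apply IntF.insert | with_reducible apply IntF.singleton | with_reducible apply IntF.union | with_reducible apply IntF.iimage | with_reducible apply IntF.ite | with_reducible apply IntF.the | with_reducible apply IntF.irec | with_reducible apply IntF.succ | with_reducible apply IntF.val | with_reducible apply IntF.mk | (with_reducible refine Int.comp ?_ ?_; assumption) | (with_reducible refine Int.comp₂ ?_ ?_ ?_; assumption) | (with_reducible refine Int.comp₃ ?_ ?_ ?_ ?_; assumption) | (with_reducible refine Int.comp₄ ?_ ?_ ?_ ?_ ?_; assumption) | (with_reducible refine IntF.comp ?_ ?_; assumption) | (with_reducible refine IntF.comp₂ ?_ ?_ ?_; assumption) | (with_reducible refine IntF.comp₃ ?_ ?_ ?_ ?_; assumption) | with_reducible apply IntF.pair)))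
      have huo := fin_inter_open ht hC (fun m => (hCo m).1) m hu
      obtain ⟨v, hv⟩ := exists_diff x (code (C m))
      have hvo := isClopen_compl ht (hCo m) hv
      obtain ⟨c', hc'⟩ := exists_trace u v
      refine ⟨c', ht.inter u v c' huo hvo.1 hc', (hc' _).2 ⟨(hu _).2 ⟨p.2, h2⟩,
        (hv _).2 ⟨p.2, fun h4 => h1 (mem_cpE'.1 h4)⟩⟩, fun z hz => ?_⟩
      obtain ⟨h4, h5⟩ := (hc' z.1).1 hz
      obtain ⟨_, h6⟩ := (hu z.1).1 h4
      have h7 : ¬ z ∈ C m := fun h8 => ((hv z.1).1 h5).2 (mem_cpE'.2 h8)
      have h8 : f z = q m := huniq z _ _ (hf z) (Or.inr ⟨m, h7, h6, rfl⟩)
      rw [h8, h3, sub_self, abs_zero]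
      exact hε
  · rw [hf0 p]
    exact ⟨fun h1 => ((hc p.1).1 h1).2, fun h1 => (hc p.1).2 ⟨p.2, h1⟩⟩

/-- `ℕ`-compact spaces are realcompact. -/
theorem isRealcompact_of_nc (h : IsNCompact t x) : IsRealcompact t x r := by
  obtain ⟨w, j, e, hw, -, he, hinj, htop, hcl⟩ := h
  obtain ⟨ν, hν, hν', -⟩ := omega_equiv hw
  obtain ⟨i, hi, hi0, his, harch⟩ := exists_iota hr
  have heI := isMap₂_iff.1 he
  have hd := int_dist hr
  have hlt := int_lt hr
  have hadd := int_add hr
  have hle := int_le hr
  have hmono : ∀ m n : INat N, m < n → i m + 1 ≤ i n := by
    intro m n
    refine INat.ind (p := fun n : INat N => m < n → i m + 1 ≤ i n) (by (repeat' (first | with_reducible apply memPE | with_reducible apply memPE' | with_reducible apply memPE'' | with_reducible apply memCode | with_reducible apply memCodeP | with_reducible apply memCode₂ | with_reducible apply eqPE | with_reducible apply eqPE' | with_reducible exact IntF.id | with_reducible exact IntF.fst' | with_reducible exact IntF.snd' | with_reducible exact IntF.const _ | with_reducible exact Int.const _ | assumption | with_reducible apply Int.and | with_reducible apply Int.or | with_reducible apply Int.not | with_reducible apply Int.imp | with_reducible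 apply Int.iff | with_reducible apply Int.ne | with_reducible apply Int.eq | with_reducible apply Int.mem | with_reducible apply Int.subset | with_reducible apply Int.ltN | with_reducible apply Int.leN | with_reducible_and_instances apply Int.le | with_reducible_and_instances apply Int.lt | with_reducible apply Int.all | with_reducible apply Int.ex | with_reducible apply IntF.fst | with_reducible apply IntF.snd | with_reducible apply IntF.app | with_reducible apply IntF.inl | with_reducible apply IntF.inr | with_reducible_and_instances apply IntF.mul | with_reducible_and_instances apply IntF.inv | with_reducible_and_instances apply IntF.add | with_reducible_and_instances apply IntF.sub | with_reducible_and_instances apply IntF.neg | with_reducible_and_instances apply IntF.smul | with_reducible apply Int.fin | with_reducible apply IntF.sep | with_reducible apply IntF.lam | with_reducible apply IntF.insert | with_reducible apply IntF.singleton | with_reducible apply IntF.union | with_reducible apply IntF.iimage | with_reducible apply IntF.ite | with_reducible apply IntF.the | with_reducible apply IntF.irec | with_reducible apply IntF.succ | with_reducible apply IntF.val | with_reducible apply IntF.mk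 | (with_reducible refine Int.comp ?_ ?_; assumption) | (with_reducible refine Int.comp₂ ?_ ?_ ?_; assumption) | (with_reducible refine Int.comp₃ ?_ ?_ ?_ ?_; assumption) | (with_reducible refine Int.comp₄ ?_ ?_ ?_ ?_ ?_; assumption) | (with_reducible refine IntF.comp ?_ ?_; assumption) | (with_reducible refine IntF.comp₂ ?_ ?_ ?_; assumption) | (with_reducible refine IntF.comp₃ ?_ ?_ ?_ ?_; assumption) | with_reducible apply IntF.pair))) ?_ ?_ n
    · intro h
      exact absurd h INat.not_lt_zero
    · intro n ih h
      rw [his]
      rcases INat.lt_succ_iff'.1 h with h | rfl
      · have := ih h
        linarith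
      · exact le_rfl
  have hfar : ∀ m n : INat N, |i m - i n| < 1 → m = n := by
    intro m n h
    rcases lt_trichotomy m n with h1 | h1 | h1
    · have h2 := hmono m n h1
      rw [abs_lt] at h
      linarith [h.1]
    · exact h1
    · have h2 := hmono n m h1
      rw [abs_lt] at h
      linarith [h.2]
  let E : Helper672.Plain.El x → Helper672.Plain.El j → Helper672.Plain.El r := fun p k => i (ν (e p k))
  have hE : IntF N (fun q : Helper672.Plain.El x × Helper672.Plain.El j => E q.1 q.2) :=
    IntF.comp (g := i) hi (IntF.comp (g := fun n => ν n) hν heI)
  have hEeq : ∀ p q k, |E p k - E q k| < 1 → e p k = e q k := fun p q k h =>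
    ν.injective (hfar _ _ h)
  refine ⟨j, E, isMap₂_iff.2 hE, fun p q hpq => hinj p q fun k => hEeq p q k (by
    rw [hpq k, sub_self, abs_zero]
    exact one_pos), fun u hu => ⟨fun hut p hp => ?_, fun h => ?_⟩, fun y hy hyc => ?_⟩
  · obtain ⟨F, hF, h1⟩ := (htop u hu).1 hut p hp
    exact ⟨F, 1, hF, one_pos, fun q hq => h1 q fun k hk => hEeq q p k (hq k hk)⟩
  · refine (htop u hu).2 fun p hp => ?_
    obtain ⟨F, ε, hF, hε, h1⟩ := h p hp
    refine ⟨F, hF, fun q hq => h1 q fun k hk => ?_⟩
    change |i (ν (e q k)) - i (ν (e p k))| < ε
    rw [hq k hk, sub_self, abs_zero]
    exact hε
  · have hyI := isMap_iff.1 hy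
    have h1 : ∀ k : Helper672.Plain.El j, ∃ n : INat N, y k = i n := by
      intro k
      have hk : IsFinite (code ({k} : IPow N (Helper672.Plain.El j))) := finite_code (IFin.singleton k)
      obtain ⟨p, hp⟩ := hyc _ (1 / 2) hk (by norm_num)
      have hp1 := hp k (mem_cpE'.2 (mem_singleton.2 rfl))
      refine ⟨ν (e p k), ?_⟩
      by_contra hne
      have hpos : 0 < |E p k - y k| := abs_pos.2 fun h => hne (sub_eq_zero.1 h).symm
      obtain ⟨p', hp'⟩ := hyc _ |E p k - y k| hk hpos
      have hp2 := hp' k (mem_cpE'.2 (mem_singleton.2 rfl))
      have h2 : |E p k - E p' k| < 1 := by
        have h3 : E p k - E p' k = (E p k - y k) + (y k - E p' k) := by ring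
        rw [h3]
        refine (abs_add_le _ _).trans_lt ?_
        rw [abs_sub_comm (y k)]
        linarith
      have h3 : E p' k = E p k := by
        change i (ν (e p' k)) = i (ν (e p k))
        rw [hEeq p p' k h2]
      rw [h3] at hp2
      exact lt_irrefl _ hp2
    choose n hn using h1
    have hnI : IntF N n := by
      refine IntF.of_rel (r := fun (k : Helper672.Plain.El j) (m : INat N) => y k = i m) (by (repeat' (first | with_reducible apply memPE | with_reducible apply memPE' | with_reducible apply memPE'' | with_reducible apply memCode | with_reducible apply memCodeP | with_reducible apply memCode₂ | with_reducible apply eqPE | with_reducible apply eqPE' | with_reducible exact IntF.id | with_reducible exact IntF.fst' | with_reducible exact IntF.snd' | with_reducible exact IntF.const _ | with_reducible exact Int.const _ | assumption | with_reducible apply Int.and | with_reducible apply Int.or | with_reducible apply Int.not | with_reducible apply Int.imp | with_reducible apply Int.iff | with_reducible apply Int.ne | with_reducible apply Int.eq | with_reducible apply Int.mem | with_reducible apply Int.subset | with_reducible apply Int.ltN | with_reducible apply Int.leN | with_reducible_and_instances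 apply Int.le | with_reducible_and_instances apply Int.lt | with_reducible apply Int.all | with_reducible apply Int.ex | with_reducible apply IntF.fst | with_reducible apply IntF.snd | with_reducible apply IntF.app | with_reducible apply IntF.inl | with_reducible apply IntF.inr | with_reducible_and_instances apply IntF.mul | with_reducible_and_instances apply IntF.inv | with_reducible_and_instances apply IntF.add | with_reducible_and_instances apply IntF.sub | with_reducible_and_instances apply IntF.neg | with_reducible_and_instances apply IntF.smul | with_reducible apply Int.fin | with_reducible apply IntF.sep | with_reducible apply IntF.lam | with_reducible apply IntF.insert | with_reducible apply IntF.singleton | with_reducible apply IntF.union | with_reducible apply IntF.iimage | with_reducible apply IntF.ite | with_reducible apply IntF.the | with_reducible apply IntF.irec | with_reducible apply IntF.succ | with_reducible apply IntF.val | with_reducible apply IntF.mk | (with_reducible refine Int.comp ?_ ?_; assumption) | (with_reducible refine Int.comp₂ ?_ ?_ ?_; assumption) | (with_reducible refine Int.comp₃ ?_ ?_ ?_ ?_; assumption) | (with_reducible refine Int.comp₄ ?_ ?_ ?_ ?_ ?_; assumption)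 | (with_reducible refine IntF.comp ?_ ?_; assumption) | (with_reducible refine IntF.comp₂ ?_ ?_ ?_; assumption) | (with_reducible refine IntF.comp₃ ?_ ?_ ?_ ?_; assumption) | with_reducible apply IntF.pair))) fun k m => ?_
      constructor
      · intro h
        refine hfar _ _ ?_
        rw [← hn k, h, sub_self, abs_zero]
        exact one_pos
      · rintro rfl
        exact hn k
    have hν'I : IntF N (fun k : Helper672.Plain.El j => ν.symm (n k)) := IntF.comp (g := fun m => ν.symm m) hν' hnI
    obtain ⟨p, hp⟩ := hcl (fun k => ν.symm (n k)) (isMap_iff.2 hν'I) fun F hF => by
      obtain ⟨p, hp⟩ := hyc F 1 hF one_pos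
      refine ⟨p, fun k hk => ?_⟩
      have h2 := hp k hk
      rw [hn k] at h2
      rw [← hfar _ _ h2, Equiv.symm_apply_apply]
    refine ⟨p, fun k => ?_⟩
    change i (ν (e p k)) = y k
    rw [hp k, Equiv.apply_symm_apply, hn k]

end

end Pool.Agent.Q301.TM
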